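import Pool.Agent.Y23.Kb3

/-! # The division process at a cluster of zeros -/

set_option autoImplicit false
set_option maxHeartbeats 2000000

open Complex Filter Topology Set MeasureTheory
open scoped ComplexConjugate
open Pool.Agent.H24R2.JP (XX)

namespace Pool.Agent.Y23

/-- the product of linear factors -/
noncomputable def PL (l : List ℂ) (w : ℂ) : ℂ := (l.map fun z => w - z).prod

lemma PL_nil (w : ℂ) : PL [] w = 1 := by simp [PL]

lemma PL_cons (z : ℂ) (l : List ℂ) (w : ℂ) : PL (z :: l) w = (w - z) * PL l w := by simp [PL]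

lemma PL_diff (l : List ℂ) : Differentiable ℂ (PL l) := by
  induction l with
  | nil =>
    have : PL [] = fun _ => (1 : ℂ) := by funext w; exact PL_nil w
    rw [this]; exact differentiable_const _
  | cons z l ih =>
    have : PL (z :: l) = fun w => (w - z) * PL l w := by funext w; exact PL_cons z l w
    rw [this]; exact (by fun_prop : Differentiable ℂ fun w : ℂ => w - z).mul ih

lemma PL_le {l : List ℂ} {w : ℂ} {r : ℝ} (h : ∀ z ∈ l, ‖w - z‖ ≤ r) (hr : 0 ≤ r) : ‖PL l w‖ ≤ r ^ l.length := by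
  induction l with
  | nil => simp [PL_nil]
  | cons z l ih =>
    rw [PL_cons, norm_mul, List.length_cons, pow_succ, mul_comm]
    exact mul_le_mul (ih fun y hy => h y (List.mem_cons_of_mem _ hy)) (h z List.mem_cons_self) (norm_nonneg _) (by positivity)

lemma PL_ge {l : List ℂ} {w : ℂ} {r : ℝ} (h : ∀ z ∈ l, r ≤ ‖w - z‖) (hr : 0 ≤ r) : r ^ l.length ≤ ‖PL l w‖ := by
  induction l with
  | nil => simp [PL_nil]
  | cons z l ih =>
    rw [PL_cons, norm_mul, List.length_cons, pow_succ, mul_comm]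
    exact mul_le_mul (h z List.mem_cons_self) (ih fun y hy => h y (List.mem_cons_of_mem _ hy)) (by positivity) (norm_nonneg _)

lemma sq_le_SS {a : ℝ} (ha : 0 < a) {W : ℝ → ℂ} (hW : Hd a W) {z : ℂ} (hz : XX z = 0) : ‖TT W z‖ ^ 2 ≤ SS W := by
  have h1 : riemannZeta (z + 1 / 2) = 0 ∧ 0 < (z + 1 / 2).re ∧ (z + 1 / 2).re < 1 :=
    (isZ_iff (z + 1 / 2)).2 (by rw [add_sub_cancel_right]; exact hz)
  have h2 := (hW.dom ha).le_tsum ⟨z + 1 / 2, h1⟩ fun _ _ => by positivity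
  simp only [add_sub_cancel_right] at h2
  have h3 : (1 : ℝ) ≤ mu (z + 1 / 2) := by exact_mod_cast mu_pos h1
  have h4 : 1 * ‖TT W z‖ ^ 2 ≤ (mu (z + 1 / 2) : ℝ) * ‖TT W z‖ ^ 2 := mul_le_mul_of_nonneg_right h3 (sq_nonneg _)
  rw [one_mul] at h4
  exact h4.trans h2

/-- one step -/
lemma cstep (hRH : ∀ ρ : Zt, (ρ : ℂ).re = 1 / 2) : ∃ C : ℝ, 1 ≤ C ∧ ∀ (a M δ s : ℝ), 1 ≤ a → 1 ≤ M → 0 < δ → δ ≤ 1 → 0 ≤ s →
    GM a ≤ 1 → ∀ e : ℝ → ℂ, KK a e → ∀ X : ℝ → ℂ, Hd a X → SS X + GM a * N2 X ≤ s ^ 2 → ∀ z : ℂ, z.re = 0 → XX z = 0 →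
      Lg z.im ≤ M → (∀ w, ‖w - z‖ < δ → TT e w ≠ 0) → ∃ (W : ℝ → ℂ) (E : ℂ → ℂ), Hd a W ∧
        SS W + GM a * N2 W ≤ ((C * a * M / δ) * s) ^ 2 ∧ (∀ w, TT X w = (w - z) * TT W w + E w) ∧
        (∀ w : ℂ, |w.re| ≤ 1 → ‖E w‖ ≤ C * s) := by
  obtain ⟨C1, c0, hC1, hc0, hb⟩ := bump_mod
  set D := 2 + 2 * C1 / c0 ^ 2 with hD
  have hD0 : 0 < D := by positivity
  refine ⟨24 * D + C1 / c0 + 1, by
    have : 0 < 24 * D + C1 / c0 := by positivity
    linarith, fun a M δ s ha hM hδ hδ1 hs hGM e he X hX hXs z hz hXz hLz hez => ?_⟩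
  have ha0 : 0 < a := by linarith
  have hG0 := GM_nonneg hRH a
  obtain ⟨T, hT, hT0, hTS, hTN, hTb⟩ := hb z hz
  have hT' : Hd a T := hT.mono (by linarith)
  have hT0' : TT T z ≠ 0 := by rw [← norm_pos_iff, hT0]; exact hc0
  have hSX := SS_nonneg X
  have hNX := N2_nonneg X
  have hGN : 0 ≤ GM a * N2 X := mul_nonneg hG0 hNX
  set c := TT X z / TT T z with hc
  have hcs : ‖TT X z‖ ≤ s := by
    have h1 := sq_le_SS ha0 hX hXz
    exact abs_le_of_sq_le_sq' (by linarith : ‖TT X z‖ ^ 2 ≤ s ^ 2) hs |>.2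
  have hcb : ‖c‖ ≤ s / c0 := by
    rw [hc, norm_div, hT0]
    gcongr
  have hcb2 : ‖c‖ ^ 2 ≤ s ^ 2 / c0 ^ 2 := by
    rw [← div_pow]; exact pow_le_pow_left₀ (norm_nonneg _) hcb 2
  have hU : Hd a (fun x => X x - c * T x) := hX.sub (hT'.smul c)
  have hUT : ∀ w, TT (fun x => X x - c * T x) w = TT X w - c * TT T w := fun w => by
    rw [TT_sub hX.1 (hT'.smul c).1, TT_smul]
  obtain ⟨W, hW, h1, h2⟩ := hU.div ha0 z (by rw [hUT, hc, div_mul_cancel₀ _ hT0', sub_self])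
  refine ⟨W, fun w => c * TT T w, hW, ?_, fun w => ?_, fun w hw => ?_⟩
  · have e0 : (fun x => X x - c * T x) = fun x => X x + (-c) * T x := by funext x; ring
    have hSU : SS (fun x => X x - c * T x) ≤ D * M * s ^ 2 := by
      have h3 := SS_add_le ha0 hX (hT'.smul (-c))
      rw [← e0, SS_smul, norm_neg] at h3
      have h4 : ‖c‖ ^ 2 * SS T ≤ (s ^ 2 / c0 ^ 2) * (C1 * M) := by
        refine mul_le_mul hcb2 (hTS.trans ?_) (SS_nonneg _) (by positivity)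
        gcongr
      have h5 : s ^ 2 ≤ M * s ^ 2 := by nlinarith [sq_nonneg s]
      calc SS (fun x => X x - c * T x) ≤ 2 * SS X + 2 * (‖c‖ ^ 2 * SS T) := h3
        _ ≤ 2 * (M * s ^ 2) + 2 * ((s ^ 2 / c0 ^ 2) * (C1 * M)) := by linarith
        _ = _ := by rw [hD]; ring
    have hNU : GM a * N2 (fun x => X x - c * T x) ≤ D * s ^ 2 := by
      have h3 := N2_add_le hX.1 (hT'.smul (-c)).1
      rw [← e0, N2_smul, norm_neg] at h3
      have h4 : ‖c‖ ^ 2 * N2 T ≤ (s ^ 2 / c0 ^ 2) * C1 := mul_le_mul hcb2 hTN (N2_nonneg _) (by positivity)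
      have h5 : GM a * (‖c‖ ^ 2 * N2 T) ≤ 1 * ((s ^ 2 / c0 ^ 2) * C1) :=
        mul_le_mul hGM h4 (by have := N2_nonneg T; positivity) (by norm_num)
      calc GM a * N2 (fun x => X x - c * T x) ≤ GM a * (2 * N2 X + 2 * (‖c‖ ^ 2 * N2 T)) := mul_le_mul_of_nonneg_left h3 hG0
        _ = 2 * (GM a * N2 X) + 2 * (GM a * (‖c‖ ^ 2 * N2 T)) := by ring
        _ ≤ 2 * s ^ 2 + 2 * (1 * ((s ^ 2 / c0 ^ 2) * C1)) := by linarith
        _ = _ := by rw [hD]; ring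
    have h3 := h2 hz
    have hgap := gap ha0 he hz hδ hez hW hU (fun w => (h1 w).symm)
    have hbU := bq_le_SS (a := a) hRH (fun x => X x - c * T x)
    have hbW : bq (GM a) W = SS W - GM a * N2 W := by unfold bq; rw [QQ_eq_SS hRH]
    have h4 : GM a * N2 W ≤ 4 * a ^ 2 * (D * s ^ 2) := by
      calc GM a * N2 W ≤ GM a * (4 * a ^ 2 * N2 (fun x => X x - c * T x)) := mul_le_mul_of_nonneg_left h3 hG0
        _ = 4 * a ^ 2 * (GM a * N2 (fun x => X x - c * T x)) := by ring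
        _ ≤ _ := mul_le_mul_of_nonneg_left hNU (by positivity)
    have h5 : bq (GM a) W ≤ 16 * (D * M * s ^ 2) / δ ^ 2 := by
      rw [le_div_iff₀ (by positivity)]
      linarith
    have h6 : SS W + GM a * N2 W ≤ 16 * (D * M * s ^ 2) / δ ^ 2 + 8 * a ^ 2 * (D * s ^ 2) := by
      rw [hbW] at h5
      linarith
    refine h6.trans ?_
    have hE : 24 * D ≤ (24 * D + C1 / c0 + 1) ^ 2 := by
      have : 0 < C1 / c0 := by positivity
      nlinarith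
    have e1 : (1 : ℝ) ≤ a ^ 2 := by nlinarith
    have e2 : (1 : ℝ) ≤ 1 / δ ^ 2 := by
      rw [le_div_iff₀ (by positivity), one_mul]
      nlinarith
    have e3 : M ≤ M ^ 2 := by nlinarith
    have e4 : (1 : ℝ) ≤ M ^ 2 := by nlinarith
    have e5 : 16 * (D * M * s ^ 2) / δ ^ 2 ≤ 16 * D * (a ^ 2 * M ^ 2 * (1 / δ ^ 2) * s ^ 2) := by
      have k1 : M * 1 ≤ M ^ 2 * a ^ 2 := mul_le_mul e3 e1 zero_le_one (by positivity)
      have k2 : 0 ≤ 16 * D * (s ^ 2 * (1 / δ ^ 2)) := by positivity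
      calc 16 * (D * M * s ^ 2) / δ ^ 2 = 16 * D * (s ^ 2 * (1 / δ ^ 2)) * (M * 1) := by ring
        _ ≤ 16 * D * (s ^ 2 * (1 / δ ^ 2)) * (M ^ 2 * a ^ 2) := mul_le_mul_of_nonneg_left k1 k2
        _ = _ := by ring
    have e6 : 8 * a ^ 2 * (D * s ^ 2) ≤ 8 * D * (a ^ 2 * M ^ 2 * (1 / δ ^ 2) * s ^ 2) := by
      have k1 : (1 : ℝ) * 1 ≤ M ^ 2 * (1 / δ ^ 2) := mul_le_mul e4 e2 zero_le_one (by positivity)
      have k2 : 0 ≤ 8 * D * (a ^ 2 * s ^ 2) := by positivity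
      calc 8 * a ^ 2 * (D * s ^ 2) = 8 * D * (a ^ 2 * s ^ 2) * (1 * 1) := by ring
        _ ≤ 8 * D * (a ^ 2 * s ^ 2) * (M ^ 2 * (1 / δ ^ 2)) := mul_le_mul_of_nonneg_left k1 k2
        _ = _ := by ring
    have e7 : 24 * D * (a ^ 2 * M ^ 2 * (1 / δ ^ 2) * s ^ 2) ≤ (24 * D + C1 / c0 + 1) ^ 2 * (a ^ 2 * M ^ 2 * (1 / δ ^ 2) * s ^ 2) :=
      mul_le_mul_of_nonneg_right hE (by positivity)
    calc 16 * (D * M * s ^ 2) / δ ^ 2 + 8 * a ^ 2 * (D * s ^ 2) ≤ 24 * D * (a ^ 2 * M ^ 2 * (1 / δ ^ 2) * s ^ 2) := by linarith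
      _ ≤ (24 * D + C1 / c0 + 1) ^ 2 * (a ^ 2 * M ^ 2 * (1 / δ ^ 2) * s ^ 2) := e7
      _ = _ := by ring
  · rw [h1, hUT]; ring
  · rw [norm_mul]
    calc ‖c‖ * ‖TT T w‖ ≤ s / c0 * C1 := mul_le_mul hcb (hTb w hw) (norm_nonneg _) (by positivity)
      _ = C1 / c0 * s := by ring
      _ ≤ _ := by
        refine mul_le_mul_of_nonneg_right ?_ hs
        linarith

/-- the whole cluster -/
lemma clus (hRH : ∀ ρ : Zt, (ρ : ℂ).re = 1 / 2) : ∃ C : ℝ, 1 ≤ C ∧ ∀ (a M δ s : ℝ), 1 ≤ a → 1 ≤ M → 0 < δ → δ ≤ 1 → 0 ≤ s →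
    GM a ≤ 1 → ∀ e : ℝ → ℂ, KK a e → ∀ X : ℝ → ℂ, Hd a X → SS X + GM a * N2 X ≤ s ^ 2 → ∀ l : List ℂ,
      (∀ z ∈ l, z.re = 0 ∧ XX z = 0 ∧ Lg z.im ≤ M ∧ ∀ w, ‖w - z‖ < δ → TT e w ≠ 0) →
      ∃ (W : ℝ → ℂ) (E : ℂ → ℂ), Hd a W ∧ SS W + GM a * N2 W ≤ ((C * a * M / δ) ^ l.length * s) ^ 2 ∧
        (∀ w, TT X w = PL l w * TT W w + E w) ∧
        (∀ w : ℂ, |w.re| ≤ 1 → (∀ z ∈ l, ‖w - z‖ ≤ 2) →
          ‖E w‖ ≤ C * l.length * 2 ^ l.length * ((C * a * M / δ) ^ l.length * s)) := by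
  obtain ⟨C, hC, hstep⟩ := cstep hRH
  refine ⟨C, hC, fun a M δ s ha hM hδ hδ1 hs hGM e he X hX hXs l => ?_⟩
  have hB1 : 1 ≤ C * a * M / δ := by
    rw [le_div_iff₀ hδ, one_mul]
    have : 1 * 1 * 1 ≤ C * a * M := by gcongr
    linarith
  set B := C * a * M / δ with hB
  have hB0 : 0 < B := by linarith
  induction l with
  | nil =>
    intro _
    refine ⟨X, fun _ => 0, hX, by simpa using hXs, fun w => by rw [PL_nil]; ring, fun w _ _ => by simp⟩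
  | cons z l ih =>
    intro hl
    obtain ⟨W', E', hW', hS', hT', hE'⟩ := ih fun y hy => hl y (List.mem_cons_of_mem _ hy)
    obtain ⟨hz1, hz2, hz3, hz4⟩ := hl z List.mem_cons_self
    obtain ⟨W, E, hW, hS, hT, hE⟩ := hstep a M δ (B ^ l.length * s) ha hM hδ hδ1 (by positivity) hGM e he W' hW' hS' z hz1 hz2 hz3 hz4
    refine ⟨W, fun w => E' w + PL l w * E w, hW, ?_, fun w => ?_, fun w hw hwl => ?_⟩
    · refine hS.trans (le_of_eq ?_)
      rw [List.length_cons, pow_succ]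
      ring
    · rw [hT', hT, PL_cons]; ring
    · have h1 := hE' w hw fun y hy => hwl y (List.mem_cons_of_mem _ hy)
      have h2 := hE w hw
      have h3 := PL_le (l := l) (w := w) (r := 2) (fun y hy => hwl y (List.mem_cons_of_mem _ hy)) (by norm_num)
      rw [List.length_cons]
      push_cast
      set n := l.length with hn
      have h4 : ‖PL l w * E w‖ ≤ 2 ^ n * (C * (B ^ n * s)) := by
        rw [norm_mul]
        exact mul_le_mul h3 h2 (norm_nonneg _) (by positivity)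
      have h5 : B ^ n ≤ B ^ (n + 1) := pow_le_pow_right₀ hB1 (by omega)
      have h6 : (2 : ℝ) ^ n ≤ 2 ^ (n + 1) := pow_le_pow_right₀ (by norm_num) (by omega)
      calc ‖E' w + PL l w * E w‖ ≤ C * n * 2 ^ n * (B ^ n * s) + 2 ^ n * (C * (B ^ n * s)) :=
            (norm_add_le _ _).trans (add_le_add h1 h4)
        _ = C * (n + 1) * 2 ^ n * (B ^ n * s) := by ring
        _ ≤ C * (n + 1) * 2 ^ (n + 1) * (B ^ (n + 1) * s) := by gcongr

end Pool.Agent.Y23
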