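import Pool.Agent.Y23.Sp
import Pool.Agent.H24R2.JP.Mom

/-! # Test functions -/

set_option autoImplicit false
set_option maxHeartbeats 2000000

open Complex Filter Topology Set MeasureTheory
open scoped ComplexConjugate
open Pool.Agent.H24R2.JP (XX)
open Pool.Agent.Helper242.KK (Ph continuous_Ph Ph_upper Ph_pos)

namespace Pool.Agent.Y23

lemma Ph_int (w : ℂ) : Integrable (fun x : ℝ => (Ph x : ℂ) * cexp (w * x)) :=
  Pool.Agent.H24R2.JP.MomAux.L_integrable Pool.Agent.H24R2.JP.MomAux.Cl_Ph w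

lemma XX_int (w : ℂ) : XX w = 8 * ∫ x : ℝ, (Ph x : ℂ) * cexp (w * x) := by
  rw [Pool.Agent.H24R2.JP.MomAux.XX_eq]
  rfl

/-- the truncated kernel -/
noncomputable def ub (b : ℝ) (x : ℝ) : ℂ := (Icc (-b) b).indicator (fun x => (Ph x : ℂ)) x

/-- the tail -/
noncomputable def tl (b : ℝ) (w : ℂ) : ℂ := ∫ x in (Icc (-b) b)ᶜ, (Ph x : ℂ) * cexp (w * x)

lemma Fa_ub (b : ℝ) : Fa b (ub b) := by
  obtain ⟨C, hC⟩ := (isCompact_Icc (a := -b) (b := b)).exists_bound_of_continuousOn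
    (f := fun x : ℝ => (Ph x : ℂ)) (Complex.continuous_ofReal.comp continuous_Ph).continuousOn
  refine Fa_bdd (C := max C 0) ?_ (fun x => ?_) (fun x hx => ?_)
  · exact ((Complex.continuous_ofReal.comp continuous_Ph).aestronglyMeasurable.indicator measurableSet_Icc)
  · unfold ub
    by_cases h : x ∈ Icc (-b) b
    · rw [indicator_of_mem h]; exact (hC x h).trans (le_max_left _ _)
    · rw [indicator_of_notMem h, norm_zero]; exact le_max_right _ _
  · unfold ub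
    rw [indicator_of_notMem]
    rw [mem_Icc, ← abs_le]
    exact not_le.2 hx

lemma TT_ub (b : ℝ) (w : ℂ) : TT (ub b) w = XX w / 8 - tl b w := by
  have h1 : TT (ub b) w = ∫ x in Icc (-b) b, (Ph x : ℂ) * cexp (w * x) := by
    unfold TT ub
    rw [← integral_indicator measurableSet_Icc]
    refine integral_congr_ae (Eventually.of_forall fun x => ?_)
    simp only
    by_cases h : x ∈ Icc (-b) b
    · rw [indicator_of_mem h, indicator_of_mem h]
    · rw [indicator_of_notMem h, indicator_of_notMem h, zero_mul]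
  rw [h1, XX_int, tl, ← integral_add_compl measurableSet_Icc (Ph_int w) (s := Icc (-b) b)]
  ring

lemma exp_tail {b x : ℝ} (hb : 0 ≤ b) (hx : b ≤ x) :
    7 * x - Real.pi * Real.exp (2 * x) ≤ 7 * b - Real.pi * Real.exp (2 * b) + 1 := by
  have h1 : Real.exp (2 * x) = Real.exp (2 * b) * Real.exp (2 * (x - b)) := by
    rw [← Real.exp_add]; congr 1; ring
  have h2 := Real.quadratic_le_exp_of_nonneg (x := 2 * (x - b)) (by linarith)
  have h3 : 1 ≤ Real.exp (2 * b) := Real.one_le_exp (by linarith)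
  have h4 := Real.pi_gt_three
  set t := x - b with ht
  have ht0 : 0 ≤ t := by linarith
  have h5 : Real.exp (2 * x) - Real.exp (2 * b) ≥ 2 * t + 2 * t ^ 2 := by
    rw [h1]
    have : 0 ≤ 2 * t + 2 * t ^ 2 := by positivity
    nlinarith
  have h6 : Real.pi * (Real.exp (2 * x) - Real.exp (2 * b)) ≥ 3 * (2 * t + 2 * t ^ 2) := by
    have : 0 ≤ 2 * t + 2 * t ^ 2 := by positivity
    nlinarith
  have h7 : x = b + t := by ring
  nlinarith [sq_nonneg (t - 1 / 12)]

/-- the tail is super-exponentially small -/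
lemma tl_bound : ∃ K : ℝ, 0 < K ∧ ∀ b : ℝ, 0 ≤ b → ∀ w : ℂ, |w.re| ≤ 1 →
    ‖tl b w‖ ≤ K * Real.exp (7 * b - Real.pi * Real.exp (2 * b)) := by
  obtain ⟨A, hA, hP⟩ := Ph_upper
  have hi : Integrable (fun x : ℝ => (1 + x ^ 2)⁻¹) := integrable_inv_one_add_sq
  refine ⟨A * Real.exp 1 * 2 * Real.pi, by positivity, fun b hb w hw => ?_⟩
  set τ := Real.exp (7 * b - Real.pi * Real.exp (2 * b)) with hτ
  have hbd : ∀ x ∈ (Icc (-b) b)ᶜ, ‖(Ph x : ℂ) * cexp (w * x)‖ ≤ A * Real.exp 1 * 2 * τ * (1 + x ^ 2)⁻¹ := by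
    intro x hx
    rw [mem_compl_iff, mem_Icc, ← abs_le, not_le] at hx
    have h0 := abs_nonneg x
    rw [norm_mul, Complex.norm_real, Real.norm_eq_abs, Complex.norm_exp]
    have h1 : (w * (x : ℂ)).re ≤ |x| := by
      rw [Complex.re_mul_ofReal]
      calc w.re * x ≤ |w.re * x| := le_abs_self _
        _ = |w.re| * |x| := abs_mul _ _
        _ ≤ 1 * |x| := mul_le_mul_of_nonneg_right hw h0
        _ = |x| := one_mul _
    have h2 := exp_tail hb hx.le
    have h3 : Real.exp (-|x|) ≤ 2 * (1 + x ^ 2)⁻¹ := by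
      rw [Real.exp_neg, ← div_eq_mul_inv, inv_eq_one_div, div_le_div_iff₀ (Real.exp_pos _) (by positivity)]
      have h4 := Real.quadratic_le_exp_of_nonneg h0
      rw [sq_abs] at h4
      nlinarith
    calc |Ph x| * Real.exp (w * (x : ℂ)).re ≤ (A * Real.exp (5 * |x| - Real.pi * Real.exp (2 * |x|))) * Real.exp |x| :=
          mul_le_mul (hP x) (Real.exp_le_exp.2 h1) (Real.exp_pos _).le (by positivity)
      _ = A * (Real.exp (7 * |x| - Real.pi * Real.exp (2 * |x|)) * Real.exp (-|x|)) := by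
          rw [mul_assoc, ← Real.exp_add, ← Real.exp_add]; congr 2; ring
      _ ≤ A * (Real.exp (7 * b - Real.pi * Real.exp (2 * b) + 1) * (2 * (1 + x ^ 2)⁻¹)) := by
          refine mul_le_mul_of_nonneg_left ?_ hA.le
          exact mul_le_mul (Real.exp_le_exp.2 h2) h3 (Real.exp_pos _).le (Real.exp_pos _).le
      _ = _ := by rw [Real.exp_add, hτ]; ring
  unfold tl
  calc ‖∫ x in (Icc (-b) b)ᶜ, (Ph x : ℂ) * cexp (w * x)‖ ≤ ∫ x in (Icc (-b) b)ᶜ, ‖(Ph x : ℂ) * cexp (w * x)‖ :=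
        norm_integral_le_integral_norm _
    _ ≤ ∫ x in (Icc (-b) b)ᶜ, A * Real.exp 1 * 2 * τ * (1 + x ^ 2)⁻¹ :=
        setIntegral_mono_on (Ph_int w).norm.integrableOn (hi.const_mul _).integrableOn measurableSet_Icc.compl hbd
    _ ≤ ∫ x : ℝ, A * Real.exp 1 * 2 * τ * (1 + x ^ 2)⁻¹ := by
        refine setIntegral_le_integral (hi.const_mul _) (Eventually.of_forall fun x => ?_)
        simp only [Pi.zero_apply]
        positivity
    _ = _ := by
        rw [integral_const_mul, integral_univ_inv_one_add_sq]; ring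

lemma Fa_shift {b η a : ℝ} (h : b + |η| ≤ a) {f : ℝ → ℂ} (hf : Fa b f) : Fa a (fun x => f (x + η)) := by
  refine ⟨?_, fun x hx => hf.2 _ ?_⟩
  · exact hf.1.comp_measurePreserving (measurePreserving_add_right volume η)
  · have h1 : |x| ≤ |x + η| + |η| := by
      have := abs_sub (x + η) η
      simpa using this
    linarith

lemma TT_shift (f : ℝ → ℂ) (η : ℝ) (w : ℂ) : TT (fun x => f (x + η)) w = cexp (-(w * η)) * TT f w := by
  unfold TT
  rw [← integral_add_right_eq_self (fun x : ℝ => f x * cexp (w * x)) η, ← integral_const_mul]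
  refine integral_congr_ae (Eventually.of_forall fun x => ?_)
  simp only
  rw [mul_left_comm, ← Complex.exp_add]
  congr 2
  push_cast
  ring

lemma XX_zero_ne : XX 0 ≠ 0 := by
  rw [XX_int]
  have h1 : ∀ x : ℝ, (Ph x : ℂ) * cexp (0 * x) = ((Ph x : ℝ) : ℂ) := fun x => by simp
  simp only [h1]
  rw [integral_complex_ofReal]
  have h2 : 0 < ∫ x : ℝ, Ph x := by
    rw [integral_pos_iff_support_of_nonneg (fun x => (Ph_pos x).le) Pool.Agent.H24R2.JP.MomAux.Cl_Ph.integrable]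
    have : Function.support Ph = univ := by
      ext x; simp [(Ph_pos x).ne']
    rw [this]
    simp
  refine mul_ne_zero (by norm_num) ?_
  exact_mod_cast h2.ne'

/-- the centred zeros stay away from the origin -/
lemma zero_lower : ∃ c : ℝ, 0 < c ∧ ∀ ρ : Zt, c * (1 + (ρ : ℂ).im ^ 2) ≤ ‖(ρ : ℂ) - 1 / 2‖ ^ 2 := by
  classical
  have hfin := finite_low 1
  have hne : ∀ ρ : Zt, 0 < ‖(ρ : ℂ) - 1 / 2‖ ^ 2 := by
    intro ρ
    have : (ρ : ℂ) - 1 / 2 ≠ 0 := by
      intro h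
      have h1 := (isZ_iff ρ).1 ρ.2
      rw [h] at h1
      exact XX_zero_ne h1
    positivity
  obtain ⟨c, hc, hcb⟩ : ∃ c : ℝ, 0 < c ∧ ∀ ρ ∈ hfin.toFinset, c ≤ ‖(ρ : ℂ) - 1 / 2‖ ^ 2 := by
    rcases hfin.toFinset.eq_empty_or_nonempty with h | h
    · exact ⟨1, one_pos, fun ρ hρ => by rw [h] at hρ; simp at hρ⟩
    · obtain ⟨ρ0, _, h1⟩ := hfin.toFinset.exists_min_image (fun ρ : Zt => ‖(ρ : ℂ) - 1 / 2‖ ^ 2) h
      exact ⟨_, hne ρ0, h1⟩
  refine ⟨min (c / 2) (1 / 2), by positivity, fun ρ => ?_⟩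
  rcases le_or_gt |(ρ : ℂ).im| 1 with h | h
  · have h1 := hcb ρ (by rw [Set.Finite.mem_toFinset]; exact h)
    have h2 : (ρ : ℂ).im ^ 2 ≤ 1 := by rw [← sq_abs]; nlinarith [abs_nonneg (ρ : ℂ).im]
    have h3 : min (c / 2) (1 / 2) ≤ c / 2 := min_le_left _ _
    have h4 : 0 ≤ min (c / 2) (1 / 2) := by positivity
    nlinarith
  · have h1 : (ρ : ℂ).im ^ 2 ≤ ‖(ρ : ℂ) - 1 / 2‖ ^ 2 := by
      have e : ((ρ : ℂ) - 1 / 2).im = (ρ : ℂ).im := by simp
      rw [← e, ← sq_abs]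
      exact pow_le_pow_left₀ (abs_nonneg _) (Complex.abs_im_le_norm _) 2
    have h2 : 1 ≤ (ρ : ℂ).im ^ 2 := by rw [← sq_abs]; nlinarith
    have h3 : min (c / 2) (1 / 2) ≤ 1 / 2 := min_le_right _ _
    nlinarith

/-- `sinh (η w) / η` -/
noncomputable def sh (η : ℝ) (w : ℂ) : ℂ := (cexp (η * w) - cexp (-(η * w))) / (2 * η)

lemma sh_bound {η : ℝ} (hη : 0 < η) (hη1 : η ≤ 1) {w : ℂ} (hw : |w.re| ≤ 1) : ‖sh η w‖ ≤ 3 / η := by
  have h1 : ∀ z : ℂ, |z.re| ≤ 1 → ‖cexp z‖ ≤ 3 := by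
    intro z hz
    rw [Complex.norm_exp]
    have := Real.exp_le_exp.2 ((le_abs_self _).trans hz)
    have := Real.exp_one_lt_d9
    linarith
  have h2 : |((η : ℂ) * w).re| ≤ 1 := by
    rw [Complex.re_ofReal_mul, abs_mul, abs_of_pos hη]
    nlinarith [abs_nonneg w.re]
  unfold sh
  rw [norm_div, norm_mul, Complex.norm_ofNat, Complex.norm_real, Real.norm_eq_abs, abs_of_pos hη, div_le_div_iff₀ (by positivity) hη]
  have h3 := h1 _ h2
  have h4 := h1 (-((η : ℂ) * w)) (by rw [Complex.neg_re, abs_neg]; exact h2)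
  have h5 := norm_sub_le (cexp (η * w)) (cexp (-(η * w)))
  nlinarith

/-- the test functions -/
lemma test_fun {a η : ℝ} (ha : 0 < a) (hη : 0 < η) (_ : η < a) : ∃ g : ℝ → ℂ, Fa a g ∧
    ∀ w, w * TT g w = sh η w * (XX w / 8 - tl (a - η) w) := by
  have h1 : Fa a (fun x => ub (a - η) (x + η)) := Fa_shift (by rw [abs_of_pos hη]; linarith) (Fa_ub _)
  have h2 : Fa a (fun x => ub (a - η) (x + -η)) := Fa_shift (by rw [abs_neg, abs_of_pos hη]; linarith) (Fa_ub _)
  set c : ℂ := ((1 / (2 * η) : ℝ) : ℂ) with hc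
  have h3 : Fa a (fun x => c * (ub (a - η) (x + -η) - ub (a - η) (x + η))) := (h2.sub h1).smul c
  have h4 : ∀ w, TT (fun x => c * (ub (a - η) (x + -η) - ub (a - η) (x + η))) w = sh η w * (XX w / 8 - tl (a - η) w) := by
    intro w
    rw [TT_smul, TT_sub h2 h1, TT_shift, TT_shift, TT_ub, hc]
    unfold sh
    have e1 : -(w * ((-η : ℝ) : ℂ)) = η * w := by push_cast; ring
    have e2 : -(w * ((η : ℝ) : ℂ)) = -(η * w) := by ring
    rw [e1, e2]
    push_cast
    ring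
  obtain ⟨g, hg, h5, _⟩ := division ha h3 0 (by
    rw [h4]; unfold sh; simp)
  refine ⟨g, hg, fun w => ?_⟩
  rw [← h4, ← h5, sub_zero]

end Pool.Agent.Y23
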