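import Pool.Agent.Y23.PP

set_option autoImplicit false

open MeasureTheory Complex Filter Topology Set
open scoped ComplexConjugate

namespace Pool.Agent.Y23

lemma sq_int_norm_le {a : ℝ} (ha : 0 < a) {f : ℝ → ℂ} (hf : Fa a f) :
    (∫ x, ‖f x‖) ^ 2 ≤ 2 * a * N2 f := by
  have h1 : MemLp ((Icc (-a) a).indicator fun _ : ℝ => (1 : ℝ)) 2 volume :=
    memLp_indicator_const 2 measurableSet_Icc 1 (Or.inr (by simp))
  have h2 := cs_int hf.1.norm h1 (fun x => norm_nonneg _)
    (fun x => indicator_nonneg (fun _ _ => zero_le_one) x)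
  have e1 : (fun x => ‖f x‖ * (Icc (-a) a).indicator (fun _ : ℝ => (1 : ℝ)) x) = fun x => ‖f x‖ := by
    funext x
    by_cases h : x ∈ Icc (-a) a
    · rw [indicator_of_mem h, mul_one]
    · rw [indicator_of_notMem h]
      rw [mem_Icc, ← abs_le, not_le] at h
      rw [hf.2 x h]; simp
  have e2 : (fun x => ((Icc (-a) a).indicator (fun _ : ℝ => (1 : ℝ)) x) ^ 2) =
      (Icc (-a) a).indicator (fun _ : ℝ => (1 : ℝ)) := by
    funext x
    by_cases h : x ∈ Icc (-a) a
    · rw [indicator_of_mem h]; norm_num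
    · rw [indicator_of_notMem h]; norm_num
  have e3 : ∫ x, (Icc (-a) a).indicator (fun _ : ℝ => (1 : ℝ)) x = 2 * a := by
    rw [integral_indicator measurableSet_Icc]
    simp only [integral_const, MeasurableSet.univ, measureReal_restrict_apply, univ_inter,
      Real.volume_real_Icc, smul_eq_mul, mul_one]
    rw [max_eq_left (by linarith)]; ring
  rw [e1, e2, e3] at h2
  unfold N2
  linarith

/-- the primitive -/
noncomputable def prim (a : ℝ) (f : ℝ → ℂ) (x : ℝ) : ℂ :=
  (Icc (-a) a).indicator (fun x => -∫ y in Iic x, f y) x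

lemma prim_norm_le {a : ℝ} {f : ℝ → ℂ} (hf : Fa a f) (x : ℝ) : ‖prim a f x‖ ≤ ∫ y, ‖f y‖ := by
  unfold prim
  by_cases h : x ∈ Icc (-a) a
  · rw [indicator_of_mem h, norm_neg]
    refine (norm_integral_le_integral_norm _).trans ?_
    exact setIntegral_le_integral hf.integrable.norm (Eventually.of_forall fun x => norm_nonneg _)
  · rw [indicator_of_notMem h, norm_zero]
    exact integral_nonneg fun x => norm_nonneg _

lemma prim_cont {f : ℝ → ℂ} (hf : Integrable f) : Continuous (fun x => ∫ y in Iic x, f y) := by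
  have h1 : (fun x => ∫ y in Iic x, f y) = fun x => (∫ y in Iic (0 : ℝ), f y) + ∫ y in (0 : ℝ)..x, f y := by
    funext x
    have := intervalIntegral.integral_Iic_sub_Iic (μ := volume) (f := f) (a := 0) (b := x)
      hf.integrableOn hf.integrableOn
    rw [← this]; ring
  rw [h1]
  exact continuous_const.add (intervalIntegral.continuous_primitive (fun _ _ => hf.intervalIntegrable) 0)

lemma Fa_prim {a : ℝ} {f : ℝ → ℂ} (hf : Fa a f) : Fa a (prim a f) := by
  refine Fa_bdd ?_ (prim_norm_le hf) (fun x hx => ?_)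
  · exact ((prim_cont hf.integrable).neg.aestronglyMeasurable).indicator measurableSet_Icc
  · unfold prim
    rw [indicator_of_notMem]
    rw [mem_Icc, ← abs_le, not_le]
    exact hx

lemma N2_prim_le {a : ℝ} (ha : 0 < a) {f : ℝ → ℂ} (hf : Fa a f) :
    N2 (prim a f) ≤ 4 * a ^ 2 * N2 f := by
  have h1 : N2 (prim a f) ≤ ∫ x, (Icc (-a) a).indicator (fun _ : ℝ => (∫ y, ‖f y‖) ^ 2) x := by
    unfold N2
    refine integral_mono (Fa_prim hf).sq_int ?_ fun x => ?_
    · exact (integrable_indicator_iff measurableSet_Icc).2 (by simp)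
    · simp only
      by_cases h : x ∈ Icc (-a) a
      · rw [indicator_of_mem h]
        exact pow_le_pow_left₀ (norm_nonneg _) (prim_norm_le hf x) 2
      · rw [indicator_of_notMem h, prim, indicator_of_notMem h]; simp
  rw [integral_indicator measurableSet_Icc] at h1
  simp only [integral_const, MeasurableSet.univ, measureReal_restrict_apply, univ_inter,
      Real.volume_real_Icc, smul_eq_mul] at h1
  rw [max_eq_left (by linarith)] at h1
  have h2 := sq_int_norm_le ha hf
  nlinarith

lemma TT_prim {a : ℝ} (ha : 0 < a) {f : ℝ → ℂ} (hf : Fa a f) (h0 : TT f 0 = 0) (w : ℂ) :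
    w * TT (prim a f) w = TT f w := by
  set φ : ℝ → ℂ := (Icc (-a) a).indicator fun x : ℝ => w * cexp (w * x) with hφ
  have hc : Continuous (fun x : ℝ => w * cexp (w * x)) := by fun_prop
  have hφi : Integrable φ := (integrable_indicator_iff measurableSet_Icc).2
    (hc.continuousOn.integrableOn_compact isCompact_Icc)
  have hI : Integrable (Function.uncurry fun x y : ℝ =>
      {p : ℝ × ℝ | p.2 ≤ p.1}.indicator (fun p => φ p.1 * f p.2) (x, y)) (volume.prod volume) := by
    have h1 := hφi.mul_prod hf.integrable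
    have h2 : MeasurableSet {p : ℝ × ℝ | p.2 ≤ p.1} := measurableSet_le measurable_snd measurable_fst
    exact h1.indicator h2
  have hswap := integral_integral_swap hI
  have hL : ∀ x : ℝ, (∫ y : ℝ, {p : ℝ × ℝ | p.2 ≤ p.1}.indicator (fun p => φ p.1 * f p.2) (x, y)) =
      -(w * (prim a f x * cexp (w * x))) := by
    intro x
    have e1 : (fun y : ℝ => {p : ℝ × ℝ | p.2 ≤ p.1}.indicator (fun p => φ p.1 * f p.2) (x, y)) =
        fun y => φ x * (Iic x).indicator f y := by
      funext y
      by_cases h : y ≤ x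
      · rw [indicator_of_mem (show (x, y) ∈ {p : ℝ × ℝ | p.2 ≤ p.1} from h), indicator_of_mem (show y ∈ Iic x from h)]
      · rw [indicator_of_notMem (show (x, y) ∉ {p : ℝ × ℝ | p.2 ≤ p.1} from h),
          indicator_of_notMem (show y ∉ Iic x from h), mul_zero]
    rw [e1, integral_const_mul, integral_indicator measurableSet_Iic, hφ, prim]
    by_cases h : x ∈ Icc (-a) a
    · rw [indicator_of_mem h, indicator_of_mem h]; ring
    · rw [indicator_of_notMem h, indicator_of_notMem h]; ring
  have hR : ∀ y : ℝ, (∫ x : ℝ, {p : ℝ × ℝ | p.2 ≤ p.1}.indicator (fun p => φ p.1 * f p.2) (x, y)) =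
      f y * cexp (w * a) - f y * cexp (w * y) := by
    intro y
    by_cases hy : a < |y|
    · have e1 : (fun x : ℝ => {p : ℝ × ℝ | p.2 ≤ p.1}.indicator (fun p => φ p.1 * f p.2) (x, y)) = fun _ => 0 := by
        funext x
        by_cases h : y ≤ x
        · rw [indicator_of_mem (show (x, y) ∈ {p : ℝ × ℝ | p.2 ≤ p.1} from h)]
          simp only [hf.2 y hy, mul_zero]
        · rw [indicator_of_notMem (show (x, y) ∉ {p : ℝ × ℝ | p.2 ≤ p.1} from h)]
      rw [e1, hf.2 y hy]; simp
    · rw [not_lt, abs_le] at hy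
      have e1 : (fun x : ℝ => {p : ℝ × ℝ | p.2 ≤ p.1}.indicator (fun p => φ p.1 * f p.2) (x, y)) =
          (Icc y a).indicator fun x => (w * cexp (w * x)) * f y := by
        funext x
        by_cases h : x ∈ Icc y a
        · rw [indicator_of_mem h, indicator_of_mem (show (x, y) ∈ {p : ℝ × ℝ | p.2 ≤ p.1} from h.1)]
          simp only [hφ]
          have h3 : x ∈ Icc (-a) a := ⟨hy.1.trans h.1, h.2⟩
          rw [indicator_of_mem h3]
        · rw [indicator_of_notMem h]
          by_cases h2 : y ≤ x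
          · rw [indicator_of_mem (show (x, y) ∈ {p : ℝ × ℝ | p.2 ≤ p.1} from h2)]
            simp only [hφ]
            rw [indicator_of_notMem, zero_mul]
            intro h3
            exact h ⟨h2, h3.2⟩
          · rw [indicator_of_notMem (show (x, y) ∉ {p : ℝ × ℝ | p.2 ≤ p.1} from h2)]
      rw [e1, integral_indicator measurableSet_Icc, integral_mul_const, integral_Icc_eq_integral_Ioc,
        ← intervalIntegral.integral_of_le hy.2]
      have e2 : ∫ x in y..a, w * cexp (w * x) = cexp (w * a) - cexp (w * y) := by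
        refine intervalIntegral.integral_eq_sub_of_hasDerivAt (f := fun x : ℝ => cexp (w * x))
          (fun x _ => ?_) (hc.intervalIntegrable _ _)
        have h2 : HasDerivAt (fun x : ℝ => (x : ℂ)) 1 x := Complex.ofRealCLM.hasDerivAt
        exact ((h2.const_mul w).cexp).congr_deriv (by ring)
      rw [e2]; ring
  simp only [hL, hR] at hswap
  rw [integral_neg, integral_const_mul, integral_sub (hf.integrable.mul_const _)
    (hf.integrable_mul (by fun_prop)), integral_mul_const] at hswap
  have h2 : ∫ x, f x = 0 := by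
    have : TT f 0 = ∫ x, f x := by
      unfold TT
      simp
    rw [← this, h0]
  rw [h2, zero_mul, zero_sub] at hswap
  exact neg_injective hswap

/-- **division** by a linear factor -/
lemma division {a : ℝ} (ha : 0 < a) {f : ℝ → ℂ} (hf : Fa a f) (w0 : ℂ) (h0 : TT f w0 = 0) :
    ∃ g : ℝ → ℂ, Fa a g ∧ (∀ w, (w - w0) * TT g w = TT f w) ∧
      (w0.re = 0 → N2 g ≤ 4 * a ^ 2 * N2 f) := by
  have hf1 : Fa a (fun x => f x * cexp (w0 * x)) := hf.mul_bdd (by fun_prop)
  have h1 : TT (fun x => f x * cexp (w0 * x)) 0 = 0 := by rw [TT_mul_exp, add_zero, h0]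
  refine ⟨fun x => prim a (fun x => f x * cexp (w0 * x)) x * cexp (-w0 * x),
    (Fa_prim hf1).mul_bdd (by fun_prop), fun w => ?_, fun hw => ?_⟩
  · rw [TT_mul_exp, show -w0 + w = w - w0 by ring, TT_prim ha hf1 h1, TT_mul_exp]
    congr 1; ring
  · have e : ∀ (v : ℂ), v.re = 0 → ∀ g : ℝ → ℂ, N2 (fun x => g x * cexp (v * x)) = N2 g := by
      intro v hv g
      unfold N2
      congr 1
      funext x
      rw [norm_mul, Complex.norm_exp]
      have : (v * (x : ℂ)).re = 0 := by simp [hv]
      rw [this, Real.exp_zero, mul_one]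
    rw [e (-w0) (by simp [hw])]
    refine (N2_prim_le ha hf1).trans (le_of_eq ?_)
    rw [e w0 hw]

end Pool.Agent.Y23
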