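import Pool.Agent.Y23.EF2
import Pool.Agent.Y23.Div

/-! # Coercivity of the Weil form -/

set_option autoImplicit false
set_option maxHeartbeats 2000000

open Complex Filter Topology Set MeasureTheory
open scoped ComplexConjugate

namespace Pool.Agent.Y23

/-- the form domain -/
def Dom (f : ℝ → ℂ) : Prop := Summable (fun ρ : Zt => (mu ρ : ℝ) * ‖TT f ((ρ : ℂ) - 1 / 2)‖ ^ 2)

/-- the product `F F^*` -/
noncomputable def GG (f g : ℝ → ℂ) (w : ℂ) : ℂ := TT f w * conj (TT g (-conj w))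

/-- the Weil form -/
noncomputable def QQ (f : ℝ → ℂ) : ℝ := ∑' ρ : Zt, (mu ρ : ℝ) * (GG f f ((ρ : ℂ) - 1 / 2)).re

/-- the reflection on the set of zeros -/
noncomputable def rfZ : Zt ≃ Zt where
  toFun ρ := ⟨1 - conj (ρ : ℂ), isZ_refl ρ.2⟩
  invFun ρ := ⟨1 - conj (ρ : ℂ), isZ_refl ρ.2⟩
  left_inv ρ := by ext1; simp
  right_inv ρ := by ext1; simp

lemma rfZ_val (ρ : Zt) : ((rfZ ρ : Zt) : ℂ) = 1 - conj (ρ : ℂ) := rfl

lemma rfZ_rfZ (ρ : Zt) : rfZ (rfZ ρ) = ρ := rfZ.left_inv ρ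

lemma rfZ_sub (ρ : Zt) : ((rfZ ρ : Zt) : ℂ) - 1 / 2 = -conj ((ρ : ℂ) - 1 / 2) := by
  rw [rfZ_val, map_sub, map_div₀, map_one, map_ofNat]
  ring

lemma mu_rfZ (ρ : Zt) : mu (rfZ ρ : Zt) = mu ρ := by
  rw [rfZ_val]; exact mu_refl ρ.2

lemma half_re (ρ : Zt) : |((ρ : ℂ) - 1 / 2).re| ≤ 1 / 2 := by
  have := ρ.2
  have e : ((ρ : ℂ) - 1 / 2).re = (ρ : ℂ).re - 1 / 2 := by simp
  rw [e, abs_le]
  constructor <;> linarith [this.2.1, this.2.2]

lemma Dom.refl {f : ℝ → ℂ} (h : Dom f) :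
    Summable (fun ρ : Zt => (mu ρ : ℝ) * ‖TT f (-conj ((ρ : ℂ) - 1 / 2))‖ ^ 2) := by
  have h1 := (rfZ.summable_iff (f := fun ρ : Zt => (mu ρ : ℝ) * ‖TT f ((ρ : ℂ) - 1 / 2)‖ ^ 2)).2 h
  refine h1.congr fun ρ => ?_
  simp only [Function.comp]
  rw [mu_rfZ, rfZ_sub]

lemma GG_diff {a b : ℝ} {f g : ℝ → ℂ} (hf : Fa a f) (hg : Fa b g) : Differentiable ℂ (GG f g) := by
  intro w
  refine (differentiable_TT hf w).mul ?_
  have h1 : DifferentiableAt ℂ (fun z : ℂ => TT g (-z)) (conj w) := by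
    have := differentiable_TT hg (-(conj w))
    exact this.comp (conj w) differentiable_neg.differentiableAt
  have h2 := h1.hasDerivAt.conj_conj
  rw [Complex.conj_conj] at h2
  exact h2.differentiableAt

lemma norm_GG_le {a : ℝ} (ha : 0 < a) {f : ℝ → ℂ} (hf : Fa a f) {w : ℂ} (hw : |w.re| ≤ 1) :
    ‖GG f f w‖ ≤ 2 * a * Real.exp (2 * a) * N2 f := by
  have hN := N2_nonneg f
  have h1 := norm_TT_le ha hf w
  have h2 := norm_TT_le ha hf (-conj w)
  have e : (-conj w).re = -w.re := by simp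
  rw [e, abs_neg] at h2
  have h3 : 2 * a * Real.exp (2 * a * |w.re|) * N2 f ≤ 2 * a * Real.exp (2 * a) * N2 f := by
    have : Real.exp (2 * a * |w.re|) ≤ Real.exp (2 * a) := by
      apply Real.exp_le_exp.2
      nlinarith
    gcongr
  unfold GG
  rw [norm_mul, RCLike.norm_conj]
  nlinarith [sq_nonneg (‖TT f w‖ - ‖TT f (-conj w)‖), norm_nonneg (TT f w), norm_nonneg (TT f (-conj w))]

/-- regularised product -/
noncomputable def hdl (f : ℝ → ℂ) (δ : ℝ) (w : ℂ) : ℂ := GG f f w * cexp (δ * w ^ 2)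

lemma norm_gauss {δ : ℝ} (hδ1 : δ ≤ 1) {w : ℂ} (hw : |w.re| ≤ 1) :
    ‖cexp (δ * w ^ 2)‖ ≤ 3 * Real.exp (-δ * w.im ^ 2) := by
  rw [Complex.norm_exp]
  have e : ((δ : ℂ) * w ^ 2).re = δ * w.re ^ 2 + -δ * w.im ^ 2 := by
    rw [Complex.re_ofReal_mul, sq, Complex.mul_re]
    ring
  rw [e, Real.exp_add]
  refine mul_le_mul_of_nonneg_right ?_ (Real.exp_pos _).le
  have h1 : w.re ^ 2 ≤ 1 := by
    rw [← sq_abs]
    have := abs_nonneg w.re
    nlinarith
  have h2 : δ * w.re ^ 2 ≤ 1 := by nlinarith [sq_nonneg w.re]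
  have h3 := Real.exp_le_exp.2 h2
  have h4 := Real.exp_one_lt_d9
  linarith

lemma hdl_dec {a δ : ℝ} (ha : 0 < a) (_ : 0 < δ) (hδ1 : δ ≤ 1) {f : ℝ → ℂ} (hf : Fa a f) :
    Dec (hdl f δ) (6 * a * Real.exp (2 * a) * N2 f) δ := by
  refine ⟨?_, fun w hw => ?_⟩
  · unfold hdl
    exact (GG_diff hf hf).mul (by fun_prop)
  · unfold hdl
    rw [norm_mul]
    have h1 := norm_GG_le ha hf hw
    have h2 := norm_gauss hδ1 hw
    have hN := N2_nonneg f
    calc ‖GG f f w‖ * ‖cexp (δ * w ^ 2)‖ ≤ (2 * a * Real.exp (2 * a) * N2 f) * (3 * Real.exp (-δ * w.im ^ 2)) :=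
          mul_le_mul h1 h2 (norm_nonneg _) (by positivity)
      _ = _ := by ring

lemma mk_tI (x y : ℝ) : (⟨x, y⟩ : ℂ) = (x : ℂ) + y * I := H370.mk_eq x y

lemma line_one {a : ℝ} {f : ℝ → ℂ} (hf : Fa a f) (ha : 0 < a) {σ : ℝ} (hσ : |σ| = 1) {δ : ℝ} (hδ : 0 < δ) (hδ1 : δ ≤ 1) :
    ∫ v : ℝ, ‖hdl f δ (⟨σ, v⟩ : ℂ)‖ ≤ 6 * Real.pi * Real.exp (2 * a) * N2 f := by
  have hN := N2_nonneg f
  have hb : ∀ v : ℝ, ‖hdl f δ (⟨σ, v⟩ : ℂ)‖ ≤ 3 / 2 * (‖TT f (σ + v * I)‖ ^ 2 + ‖TT f ((-σ : ℝ) + v * I)‖ ^ 2) := by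
    intro v
    unfold hdl
    rw [norm_mul]
    have h2 := norm_gauss (w := (⟨σ, v⟩ : ℂ)) hδ1 (by show |σ| ≤ 1; rw [hσ])
    have h3 : Real.exp (-δ * (⟨σ, v⟩ : ℂ).im ^ 2) ≤ 1 := by
      rw [Real.exp_le_one_iff]
      have := sq_nonneg (⟨σ, v⟩ : ℂ).im
      nlinarith
    have h4 : ‖cexp (δ * (⟨σ, v⟩ : ℂ) ^ 2)‖ ≤ 3 := by linarith
    have h5 : -conj (⟨σ, v⟩ : ℂ) = ((-σ : ℝ) : ℂ) + v * I := by
      apply Complex.ext <;> simp
    unfold GG
    rw [norm_mul, RCLike.norm_conj, h5, mk_tI]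
    rw [mk_tI] at h4
    nlinarith [sq_nonneg (‖TT f (σ + v * I)‖ - ‖TT f ((-σ : ℝ) + v * I)‖), norm_nonneg (TT f (σ + v * I)),
      norm_nonneg (TT f ((-σ : ℝ) + v * I)), mul_nonneg (norm_nonneg (TT f (σ + v * I))) (norm_nonneg (TT f ((-σ : ℝ) + v * I)))]
  have i1 := int_line_sq hf σ
  have i2 := int_line_sq hf (-σ)
  have l1 := line_sq_le hf σ
  have l2 := line_sq_le hf (-σ)
  rw [abs_neg] at l2
  rw [hσ, mul_one] at l1 l2
  have hdec := hdl_dec ha hδ hδ1 hf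
  calc ∫ v : ℝ, ‖hdl f δ (⟨σ, v⟩ : ℂ)‖ ≤ ∫ v : ℝ, 3 / 2 * (‖TT f (σ + v * I)‖ ^ 2 + ‖TT f ((-σ : ℝ) + v * I)‖ ^ 2) :=
        integral_mono (dec_int hδ hdec (by rw [hσ])).norm ((i1.add i2).const_mul _) hb
    _ = 3 / 2 * ((∫ v : ℝ, ‖TT f (σ + v * I)‖ ^ 2) + ∫ v : ℝ, ‖TT f ((-σ : ℝ) + v * I)‖ ^ 2) := by
        rw [integral_const_mul, integral_add i1 i2]
    _ ≤ _ := by linarith


lemma GG_line (f : ℝ → ℂ) (v : ℝ) : GG f f (⟨0, v⟩ : ℂ) = ((‖TT f (v * I)‖ ^ 2 : ℝ) : ℂ) := by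
  have h5 : -conj (⟨0, v⟩ : ℂ) = (v : ℂ) * I := by
    apply Complex.ext <;> simp
  have h6 : (⟨0, v⟩ : ℂ) = (v : ℂ) * I := by
    apply Complex.ext <;> simp
  unfold GG
  rw [h5, h6, Complex.mul_conj, Complex.normSq_eq_norm_sq]

lemma hdl_line (f : ℝ → ℂ) (δ v : ℝ) :
    hdl f δ (⟨0, v⟩ : ℂ) = ((‖TT f (v * I)‖ ^ 2 * Real.exp (-δ * v ^ 2) : ℝ) : ℂ) := by
  unfold hdl
  rw [GG_line]
  have : cexp (δ * (⟨0, v⟩ : ℂ) ^ 2) = ((Real.exp (-δ * v ^ 2) : ℝ) : ℂ) := by
    rw [Complex.ofReal_exp]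
    congr 1
    have h6 : (⟨0, v⟩ : ℂ) = (v : ℂ) * I := by
      apply Complex.ext <;> simp
    rw [h6, mul_pow, I_sq]
    push_cast
    ring
  rw [this]
  push_cast
  ring

/-- the sum over the zeros of the regularised product -/
noncomputable def Sd (f : ℝ → ℂ) (δ : ℝ) : ℝ := ∑' ρ : Zt, (mu ρ : ℝ) * (hdl f δ ((ρ : ℂ) - 1 / 2)).re

lemma Sd_tendsto {f : ℝ → ℂ} (hD : Dom f) {d : ℕ → ℝ} (hd0 : ∀ n, 0 < d n) (hd1 : ∀ n, d n ≤ 1)
    (hd : Tendsto d atTop (𝓝 0)) : Tendsto (fun n => Sd f (d n)) atTop (𝓝 (QQ f)) := by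
  unfold Sd QQ
  have hs : Summable (fun ρ : Zt => 3 / 2 * ((mu ρ : ℝ) * ‖TT f ((ρ : ℂ) - 1 / 2)‖ ^ 2 +
      (mu ρ : ℝ) * ‖TT f (-conj ((ρ : ℂ) - 1 / 2))‖ ^ 2)) := (hD.add hD.refl).mul_left _
  refine tendsto_tsum_of_dominated_convergence hs ?_ ?_
  · intro ρ
    refine Tendsto.const_mul _ ?_
    have h1 : Tendsto (fun n => hdl f (d n) ((ρ : ℂ) - 1 / 2)) atTop (𝓝 (GG f f ((ρ : ℂ) - 1 / 2) * 1)) := by
      unfold hdl
      refine Tendsto.const_mul _ ?_
      have h2 : Continuous (fun δ : ℝ => cexp (δ * ((ρ : ℂ) - 1 / 2) ^ 2)) := by fun_prop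
      have h3 := (h2.tendsto 0).comp hd
      simpa [Function.comp_def] using h3
    rw [mul_one] at h1
    exact (Complex.continuous_re.tendsto _).comp h1
  · refine Eventually.of_forall fun n ρ => ?_
    rw [Real.norm_eq_abs, abs_mul, abs_of_nonneg (Nat.cast_nonneg _ : (0 : ℝ) ≤ (mu ρ : ℝ))]
    have h1 := Complex.abs_re_le_norm (hdl f (d n) ((ρ : ℂ) - 1 / 2))
    have h2 := norm_gauss (w := (ρ : ℂ) - 1 / 2) (hd1 n) ((half_re ρ).trans (by norm_num))
    have h3 : Real.exp (-(d n) * ((ρ : ℂ) - 1 / 2).im ^ 2) ≤ 1 := by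
      rw [Real.exp_le_one_iff]
      have := sq_nonneg ((ρ : ℂ) - 1 / 2).im
      have := hd0 n
      nlinarith
    have h4 : ‖hdl f (d n) ((ρ : ℂ) - 1 / 2)‖ ≤ 3 / 2 * (‖TT f ((ρ : ℂ) - 1 / 2)‖ ^ 2 +
        ‖TT f (-conj ((ρ : ℂ) - 1 / 2))‖ ^ 2) := by
      unfold hdl GG
      rw [norm_mul, norm_mul, RCLike.norm_conj]
      set A := ‖TT f ((ρ : ℂ) - 1 / 2)‖
      set B := ‖TT f (-conj ((ρ : ℂ) - 1 / 2))‖
      have hA : 0 ≤ A := norm_nonneg _
      have hB : 0 ≤ B := norm_nonneg _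
      have h5 : ‖cexp ((d n : ℝ) * ((ρ : ℂ) - 1 / 2) ^ 2)‖ ≤ 3 := by linarith
      have h6 : A * B * ‖cexp ((d n : ℝ) * ((ρ : ℂ) - 1 / 2) ^ 2)‖ ≤ A * B * 3 :=
        mul_le_mul_of_nonneg_left h5 (mul_nonneg hA hB)
      nlinarith [sq_nonneg (A - B)]
    calc (mu ρ : ℝ) * |(hdl f (d n) ((ρ : ℂ) - 1 / 2)).re| ≤ (mu ρ : ℝ) * (3 / 2 * (‖TT f ((ρ : ℂ) - 1 / 2)‖ ^ 2 +
        ‖TT f (-conj ((ρ : ℂ) - 1 / 2))‖ ^ 2)) := mul_le_mul_of_nonneg_left (h1.trans h4) (Nat.cast_nonneg _)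
      _ = _ := by ring

/-- the logarithmically weighted integral is controlled by the Weil form -/
theorem coercive : ∃ C : ℝ, 0 < C ∧ ∀ a : ℝ, 0 < a → ∀ f : ℝ → ℂ, Fa a f → Dom f →
    Integrable (fun v : ℝ => Lg v * ‖TT f (v * I)‖ ^ 2) ∧
      ∫ v : ℝ, Lg v * ‖TT f (v * I)‖ ^ 2 ≤ 4 * Real.pi * QQ f + C * ((1 + a) * Real.exp (2 * a)) * N2 f := by
  obtain ⟨C, U0, hC, hU3, hU4, htwo⟩ := ef_two
  refine ⟨2 * C * 60 + 26, by positivity, fun a ha f hf hD => ?_⟩
  have hN := N2_nonneg f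
  have hea : 1 ≤ Real.exp (2 * a) := Real.one_le_exp (by linarith)
  set A : ℝ := (1 + a) * Real.exp (2 * a) * N2 f with hA
  have hA0 : 0 ≤ A := by positivity
  set g : ℝ → ℝ := fun v => ‖TT f (v * I)‖ ^ 2 with hg
  have hg0 : ∀ v, 0 ≤ g v := fun v => sq_nonneg _
  have hgc : Continuous g := by
    simp only [hg]
    exact ((differentiable_TT hf).continuous.comp (by fun_prop)).norm.pow 2
  have hgi : Integrable g := int_TT_sq hf
  have hgI : ∫ v, g v = 2 * Real.pi * N2 f := plancherel hf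
  -- the bound for the regularised sum
  have step1 : ∀ δ : ℝ, 0 < δ → δ ≤ 1 →
      (∫ v in Ioi U0, Real.log v * (g v * Real.exp (-δ * v ^ 2))) +
        (∫ v in Ioi U0, Real.log v * (g (-v) * Real.exp (-δ * v ^ 2))) ≤ 2 * Real.pi * Sd f δ + C * 60 * A := by
    intro δ hδ hδ1
    have hdec := hdl_dec ha hδ hδ1 hf
    have h1 := htwo (hdl f δ) _ δ hδ (by positivity) hdec
    have h2 := line_one hf ha (σ := 1) (by norm_num) hδ hδ1
    have h3 := line_one hf ha (σ := -1) (by norm_num) hδ hδ1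
    have h4 : C * (6 * a * Real.exp (2 * a) * N2 f + (∫ v : ℝ, ‖hdl f δ (⟨1, v⟩ : ℂ)‖) + ∫ v : ℝ, ‖hdl f δ (⟨-1, v⟩ : ℂ)‖) ≤ C * 60 * A := by
      rw [show C * 60 * A = C * (60 * A) by ring]
      refine mul_le_mul_of_nonneg_left ?_ hC.le
      have hpi := Real.pi_lt_d2
      have h5 : 6 * Real.pi * Real.exp (2 * a) * N2 f ≤ 20 * Real.exp (2 * a) * N2 f := by
        have : 6 * Real.pi ≤ 20 := by linarith
        gcongr
      have h6 : 0 ≤ Real.exp (2 * a) * N2 f := by positivity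
      have h7 : 0 ≤ a * (Real.exp (2 * a) * N2 f) := by positivity
      rw [hA]
      nlinarith
    have e1 : (∫ v in Ioi U0, (Real.log v : ℂ) * hdl f δ (⟨0, v⟩ : ℂ)) =
        ((∫ v in Ioi U0, Real.log v * (g v * Real.exp (-δ * v ^ 2)) : ℝ) : ℂ) := by
      refine Eq.trans (integral_congr_ae (Eventually.of_forall fun v => ?_)) (integral_ofReal (𝕜 := ℂ))
      show (Real.log v : ℂ) * hdl f δ (⟨0, v⟩ : ℂ) = ((Real.log v * (g v * Real.exp (-δ * v ^ 2)) : ℝ) : ℂ)
      rw [hdl_line, ← Complex.ofReal_mul]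
    have e2 : (∫ v in Ioi U0, (Real.log v : ℂ) * hdl f δ (⟨0, -v⟩ : ℂ)) =
        ((∫ v in Ioi U0, Real.log v * (g (-v) * Real.exp (-δ * v ^ 2)) : ℝ) : ℂ) := by
      refine Eq.trans (integral_congr_ae (Eventually.of_forall fun v => ?_)) (integral_ofReal (𝕜 := ℂ))
      show (Real.log v : ℂ) * hdl f δ (⟨0, -v⟩ : ℂ) = ((Real.log v * (g (-v) * Real.exp (-δ * v ^ 2)) : ℝ) : ℂ)
      rw [hdl_line, ← Complex.ofReal_mul, neg_sq]
    rw [e1, e2] at h1
    have e3 : (2 * Real.pi * (∑' ρ : Zt, (mu ρ : ℂ) * hdl f δ ((ρ : ℂ) - 1 / 2))).re = 2 * Real.pi * Sd f δ := by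
      have h8 : (2 * Real.pi : ℂ) = ((2 * Real.pi : ℝ) : ℂ) := by push_cast; ring
      rw [h8, Complex.re_ofReal_mul]
      congr 1
      rw [Complex.re_tsum (dec_summable hδ (by positivity) hdec).of_norm]
      unfold Sd
      refine tsum_congr fun ρ => ?_
      have h9 : ((mu ρ : ℕ) : ℂ) = ((mu ρ : ℝ) : ℂ) := by push_cast; rfl
      rw [h9, Complex.re_ofReal_mul]
    have h5 := (Complex.abs_re_le_norm _).trans (h1.trans h4)
    rw [Complex.sub_re, e3, Complex.add_re, Complex.ofReal_re, Complex.ofReal_re] at h5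
    rw [abs_le] at h5
    linarith [h5.1]
  -- passage to the limit
  set P : ℝ → ℝ := fun V => ∫ v in U0..V, Real.log v * (g v + g (-v)) with hP
  have step2 : ∀ V : ℝ, U0 ≤ V → P V ≤ 2 * Real.pi * QQ f + C * 60 * A := by
    intro V hV
    set d : ℕ → ℝ := fun n => 1 / ((n : ℝ) + 1) with hd
    have hd0 : ∀ n, 0 < d n := fun n => by simp only [hd]; positivity
    have hd1 : ∀ n, d n ≤ 1 := fun n => by
      simp only [hd]
      rw [div_le_one (by positivity)]
      have : (0 : ℝ) ≤ n := Nat.cast_nonneg n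
      linarith
    have hdt : Tendsto d atTop (𝓝 0) := tendsto_one_div_add_atTop_nhds_zero_nat
    have h1 : ∀ n, Real.exp (-(d n) * V ^ 2) * P V ≤ 2 * Real.pi * Sd f (d n) + C * 60 * A := by
      intro n
      refine le_trans ?_ (step1 (d n) (hd0 n) (hd1 n))
      have hdec := hdl_dec ha (hd0 n) (hd1 n) hf
      have i1 : IntegrableOn (fun v => Real.log v * (g v * Real.exp (-(d n) * v ^ 2))) (Ioi U0) := by
        have h2 := (dec_log_int (hd0 n) hU3 hdec).re
        refine h2.congr (Eventually.of_forall fun v => ?_)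
        show ((Real.log v : ℂ) * hdl f (d n) (⟨0, v⟩ : ℂ)).re = _
        rw [hdl_line, ← Complex.ofReal_mul, Complex.ofReal_re]
      have i2 : IntegrableOn (fun v => Real.log v * (g (-v) * Real.exp (-(d n) * v ^ 2))) (Ioi U0) := by
        have h2 := (dec_log_int (hd0 n) hU3 (dec_conj hdec)).re
        refine h2.congr (Eventually.of_forall fun v => ?_)
        have h3 : conj (⟨0, v⟩ : ℂ) = ⟨0, -v⟩ := by apply Complex.ext <;> simp
        show ((Real.log v : ℂ) * conj (hdl f (d n) (conj (⟨0, v⟩ : ℂ)))).re = _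
        rw [h3, hdl_line, Complex.conj_ofReal, ← Complex.ofReal_mul, Complex.ofReal_re, neg_sq]
      rw [← integral_add i1 i2, hP]
      simp only
      rw [intervalIntegral.integral_of_le hV, ← integral_const_mul]
      have i3 : IntegrableOn (fun v => Real.log v * (g v * Real.exp (-(d n) * v ^ 2)) +
          Real.log v * (g (-v) * Real.exp (-(d n) * v ^ 2))) (Ioi U0) := i1.add i2
      refine le_trans ?_ (setIntegral_mono_set i3 ?_ (LE.le.eventuallyLE (Ioc_subset_Ioi_self : Ioc U0 V ⊆ Ioi U0)))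
      · refine setIntegral_mono_on ?_ (i3.mono_set Ioc_subset_Ioi_self) measurableSet_Ioc ?_
        · refine Integrable.const_mul ?_ _
          refine ContinuousOn.integrableOn_Icc (μ := volume) ?_ |>.mono_set Ioc_subset_Icc_self
          refine ContinuousOn.mul (Real.continuousOn_log.mono fun v hv => ?_) (by fun_prop)
          have : 0 < v := by linarith [hv.1]
          exact this.ne'
        · intro v hv
          have hv0 : 0 < v := by linarith [hv.1]
          have hl : 0 ≤ Real.log v := Real.log_nonneg (by linarith [hv.1])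
          have he : Real.exp (-(d n) * V ^ 2) ≤ Real.exp (-(d n) * v ^ 2) := by
            apply Real.exp_le_exp.2
            have : v ^ 2 ≤ V ^ 2 := pow_le_pow_left₀ hv0.le hv.2 2
            have := hd0 n
            nlinarith
          have hs : 0 ≤ Real.log v * (g v + g (-v)) := mul_nonneg hl (add_nonneg (hg0 _) (hg0 _))
          calc Real.exp (-(d n) * V ^ 2) * (Real.log v * (g v + g (-v))) ≤
              Real.exp (-(d n) * v ^ 2) * (Real.log v * (g v + g (-v))) := mul_le_mul_of_nonneg_right he hs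
            _ = _ := by ring
      · rw [Filter.EventuallyLE, ae_restrict_iff' measurableSet_Ioi]
        refine Eventually.of_forall fun v hv => ?_
        rw [mem_Ioi] at hv
        have hl : 0 ≤ Real.log v := Real.log_nonneg (by linarith)
        have := hg0 v
        have := hg0 (-v)
        simp only [Pi.zero_apply]
        positivity
    have h2 : Tendsto (fun n => Real.exp (-(d n) * V ^ 2) * P V) atTop (𝓝 (1 * P V)) := by
      refine Tendsto.mul_const _ ?_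
      have h3 : Continuous (fun δ : ℝ => Real.exp (-δ * V ^ 2)) := by fun_prop
      have h4 := (h3.tendsto 0).comp hdt
      simpa [Function.comp_def] using h4
    rw [one_mul] at h2
    have h3 := ((Sd_tendsto hD hd0 hd1 hdt).const_mul (2 * Real.pi)).add_const (C * 60 * A)
    exact le_of_tendsto_of_tendsto' h2 h3 h1
  -- the weighted integral
  have hLg : ∀ v : ℝ, U0 ≤ v → Lg v ≤ 2 * Real.log v := by
    intro v hv
    unfold Lg
    have hv0 : 0 < v := by linarith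
    rw [abs_of_pos hv0, ← Real.log_rpow hv0]
    refine Real.log_le_log (by linarith) ?_
    rw [show (2 : ℝ) = ((2 : ℕ) : ℝ) by norm_num, Real.rpow_natCast]
    nlinarith
  have hLg2 : ∀ v : ℝ, |v| ≤ U0 → Lg v ≤ 2 := by
    intro v hv
    unfold Lg
    rw [Real.log_le_iff_le_exp (by positivity)]
    have h3 := Real.add_one_le_exp (1 : ℝ)
    have h4 : Real.exp 2 = Real.exp 1 ^ 2 := by rw [← Real.exp_nat_mul]; norm_num
    have h5 := Real.exp_one_gt_d9
    rw [h4]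
    nlinarith
  have hF0 : ∀ v, 0 ≤ Lg v * g v := fun v => mul_nonneg (by linarith [one_le_Lg v]) (hg0 v)
  have hFc : Continuous (fun v => Lg v * g v) := Lg_cont.mul hgc
  have step3 : ∀ V : ℝ, U0 ≤ V → ∫ v in (-V)..V, ‖Lg v * g v‖ ≤ 4 * Real.pi * QQ f + (2 * C * 60 + 26) * A := by
    intro V hV
    have hc2 : Continuous (fun v => Lg v * (g v + g (-v))) := Lg_cont.mul (by fun_prop)
    have e1 : ∫ v in (-V)..V, ‖Lg v * g v‖ = ∫ v in (0 : ℝ)..V, Lg v * (g v + g (-v)) := by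
      have e0 : (fun v => ‖Lg v * g v‖) = fun v => Lg v * g v := by
        funext v; rw [Real.norm_eq_abs, abs_of_nonneg (hF0 v)]
      rw [e0, ← intervalIntegral.integral_add_adjacent_intervals (hFc.intervalIntegrable (-V) 0) (hFc.intervalIntegrable 0 V)]
      have e2 : ∫ v in (-V)..0, Lg v * g v = ∫ v in (0 : ℝ)..V, Lg v * g (-v) := by
        have e3 := intervalIntegral.integral_comp_neg (a := 0) (b := V) (fun v => Lg v * g v)
        rw [neg_zero] at e3
        rw [← e3]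
        refine intervalIntegral.integral_congr fun v _ => ?_
        show Lg (-v) * g (-v) = Lg v * g (-v)
        rw [Lg_neg]
      have hc3 : Continuous (fun v => Lg v * g (-v)) := Lg_cont.mul (by fun_prop)
      rw [e2, ← intervalIntegral.integral_add (hc3.intervalIntegrable _ _) (hFc.intervalIntegrable _ _)]
      · refine intervalIntegral.integral_congr fun v _ => ?_
        show Lg v * g (-v) + Lg v * g v = Lg v * (g v + g (-v))
        ring
    rw [e1, ← intervalIntegral.integral_add_adjacent_intervals (hc2.intervalIntegrable 0 U0) (hc2.intervalIntegrable U0 V)]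
    have h1 : ∫ v in (0 : ℝ)..U0, Lg v * (g v + g (-v)) ≤ 2 * (2 * (2 * Real.pi * N2 f)) := by
      have hi1 : Integrable (fun v => g v + g (-v)) := hgi.add hgi.comp_neg
      calc ∫ v in (0 : ℝ)..U0, Lg v * (g v + g (-v)) ≤ ∫ v in (0 : ℝ)..U0, 2 * (g v + g (-v)) := by
            refine intervalIntegral.integral_mono_on (by linarith) (hc2.intervalIntegrable _ _) ?_ ?_
            · exact (hi1.const_mul 2).intervalIntegrable
            · intro v hv
              refine mul_le_mul_of_nonneg_right (hLg2 v ?_) (add_nonneg (hg0 _) (hg0 _))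
              rw [abs_of_nonneg hv.1]; exact hv.2
        _ = 2 * ∫ v in Ioc 0 U0, (g v + g (-v)) := by
            rw [intervalIntegral.integral_const_mul, intervalIntegral.integral_of_le (by linarith)]
        _ ≤ 2 * ∫ v, (g v + g (-v)) := by
            refine mul_le_mul_of_nonneg_left ?_ (by norm_num)
            exact setIntegral_le_integral hi1 (Eventually.of_forall fun v => add_nonneg (hg0 _) (hg0 _))
        _ = _ := by
            rw [integral_add hgi hgi.comp_neg, integral_neg_eq_self g volume, hgI]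
            ring
    have h2 : ∫ v in U0..V, Lg v * (g v + g (-v)) ≤ 2 * P V := by
      simp only [hP]
      rw [← intervalIntegral.integral_const_mul]
      refine intervalIntegral.integral_mono_on hV (hc2.intervalIntegrable _ _) ?_ ?_
      · apply ContinuousOn.intervalIntegrable
        rw [uIcc_of_le hV]
        refine ContinuousOn.mul continuousOn_const (ContinuousOn.mul (Real.continuousOn_log.mono fun v hv => ?_) (by fun_prop))
        have : 0 < v := by linarith [hv.1]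
        exact this.ne'
      · intro v hv
        rw [← mul_assoc]
        exact mul_le_mul_of_nonneg_right (hLg v hv.1) (add_nonneg (hg0 _) (hg0 _))
    have h3 := step2 V hV
    have h4 : N2 f ≤ A := by
      rw [hA]
      have : 1 * 1 ≤ (1 + a) * Real.exp (2 * a) := mul_le_mul (by linarith) hea (by norm_num) (by linarith)
      nlinarith
    have hpi := Real.pi_lt_d2
    have h5 : 2 * (2 * (2 * Real.pi * N2 f)) ≤ 20 * A + 6 * N2 f := by nlinarith
    have h6 : 2 * (2 * (2 * Real.pi * N2 f)) ≤ 26 * A := by nlinarith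
    nlinarith
  have hA2 : 4 * Real.pi * QQ f + (2 * C * 60 + 26) * A =
      4 * Real.pi * QQ f + (2 * C * 60 + 26) * ((1 + a) * Real.exp (2 * a)) * N2 f := by
    rw [hA]; ring
  rw [hA2] at step3
  have ha' : Tendsto (fun n : ℕ => -((n : ℝ) + 4)) atTop atBot :=
    tendsto_neg_atTop_atBot.comp (tendsto_atTop_add_const_right _ _ tendsto_natCast_atTop_atTop)
  have hb' : Tendsto (fun n : ℕ => (n : ℝ) + 4) atTop atTop :=
    tendsto_atTop_add_const_right _ _ tendsto_natCast_atTop_atTop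
  have hn4 : ∀ n : ℕ, U0 ≤ (n : ℝ) + 4 := fun n => by
    have : (0 : ℝ) ≤ n := Nat.cast_nonneg n
    linarith
  have hint : Integrable (fun v => Lg v * g v) :=
    integrable_of_intervalIntegral_norm_bounded _ (fun n => hFc.integrableOn_Ioc) ha' hb'
      (Eventually.of_forall fun n : ℕ => step3 _ (hn4 n))
  refine ⟨hint, ?_⟩
  refine le_of_tendsto' (intervalIntegral_tendsto_integral hint ha' hb') fun n => ?_
  refine le_trans (le_of_eq ?_) (step3 _ (hn4 n))
  refine intervalIntegral.integral_congr fun v _ => ?_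
  show Lg v * g v = ‖Lg v * g v‖
  rw [Real.norm_eq_abs, abs_of_nonneg (hF0 v)]

end Pool.Agent.Y23
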