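import Pool.Agent.Y23.Dm

/-! # Compactness -/

set_option autoImplicit false
set_option maxHeartbeats 2000000

open Complex Filter Topology Set MeasureTheory
open scoped ComplexConjugate

namespace Pool.Agent.Y23

lemma N2_mul_x {a : ℝ} {f : ℝ → ℂ} (hf : Fa a f) : N2 (fun x => f x * (x : ℂ)) ≤ a ^ 2 * N2 f := by
  unfold N2
  rw [← integral_const_mul]
  have h1 : Fa a (fun x => f x * (x : ℂ)) := hf.mul_bdd Complex.continuous_ofReal
  refine integral_mono h1.sq_int (hf.sq_int.const_mul _) fun x => ?_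
  simp only
  rw [norm_mul, Complex.norm_real, mul_pow, Real.norm_eq_abs, sq_abs]
  by_cases hx : a < |x|
  · rw [hf.2 x hx]; simp
  · have h2 : x ^ 2 ≤ a ^ 2 := by
      rw [← sq_abs]
      exact pow_le_pow_left₀ (abs_nonneg _) (not_lt.1 hx) 2
    have := sq_nonneg ‖f x‖
    nlinarith

/-- uniform Lipschitz bound on the line -/
lemma TT_lip {a : ℝ} (ha : 0 < a) {f : ℝ → ℂ} (hf : Fa a f) (u v : ℝ) :
    ‖TT f (v * I) - TT f (u * I)‖ ≤ Real.sqrt (2 * a * (a ^ 2 * N2 f)) * |v - u| := by
  have hd : ∀ t ∈ (univ : Set ℝ), HasDerivWithinAt (fun t : ℝ => TT f (t * I)) (TT (fun x => f x * x) (t * I) * I) univ t := by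
    intro t _
    have h1 := hasDerivAt_TT hf (t * I)
    have h2 : HasDerivAt (fun t : ℝ => (t : ℂ) * I) I t := by
      have := (Complex.ofRealCLM.hasDerivAt (x := t)).mul_const I
      simpa using this
    exact (h1.comp t h2).hasDerivWithinAt
  have hb : ∀ t ∈ (univ : Set ℝ), ‖TT (fun x => f x * x) (t * I) * I‖ ≤ Real.sqrt (2 * a * (a ^ 2 * N2 f)) := by
    intro t _
    rw [norm_mul, norm_I, mul_one]
    apply Real.le_sqrt_of_sq_le
    have h1 : Fa a (fun x => f x * (x : ℂ)) := hf.mul_bdd Complex.continuous_ofReal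
    refine (norm_TT_le ha h1 (t * I)).trans ?_
    have e : (t * I : ℂ).re = 0 := by simp
    rw [e, abs_zero, mul_zero, Real.exp_zero, mul_one]
    have := N2_mul_x hf
    gcongr
  have := convex_univ.norm_image_sub_le_of_norm_hasDerivWithin_le hd hb (mem_univ u) (mem_univ v)
  rwa [Real.norm_eq_abs] at this

lemma norm_TT_line {a : ℝ} (ha : 0 < a) {f : ℝ → ℂ} (hf : Fa a f) (v : ℝ) :
    ‖TT f (v * I)‖ ≤ Real.sqrt (2 * a * N2 f) := by
  apply Real.le_sqrt_of_sq_le
  refine (norm_TT_le ha hf (v * I)).trans ?_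
  have e : (v * I : ℂ).re = 0 := by simp
  rw [e, abs_zero, mul_zero, Real.exp_zero, mul_one]

lemma Lg_mono {u v : ℝ} (h : |u| ≤ |v|) : Lg u ≤ Lg v := by
  unfold Lg
  exact Real.log_le_log (by positivity) (by linarith)

/-- bounded sequences in the form domain are precompact in the mean square sense -/
theorem compact_seq {a : ℝ} (ha : 0 < a) {C : ℝ} {f : ℕ → ℝ → ℂ} (hf : ∀ n, Hd a (f n))
    (hb : ∀ n, LL (f n) ≤ C) : ∃ φ : ℕ → ℕ, StrictMono φ ∧ ∀ ε : ℝ, 0 < ε → ∃ N : ℕ, ∀ m n : ℕ, N ≤ m → N ≤ n →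
      N2 (fun x => f (φ m) x - f (φ n) x) ≤ ε := by
  have hC : 0 ≤ C := (LL_nonneg (f 0)).trans (hb 0)
  have hpi : 1 ≤ 2 * Real.pi := by linarith [Real.pi_gt_three]
  have hN : ∀ n, N2 (f n) ≤ C := by
    intro n
    have h1 := N2_le_LL (hf n)
    have h2 := hb n
    have h3 := N2_nonneg (f n)
    nlinarith
  set F : ℕ → ℝ → ℂ := fun n v => TT (f n) (v * I) with hF
  set R : ℝ := Real.sqrt (2 * a * C) with hR
  set K : ℝ := Real.sqrt (2 * a * (a ^ 2 * C)) with hK
  have hR0 : 0 ≤ R := Real.sqrt_nonneg _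
  have hK0 : 0 ≤ K := Real.sqrt_nonneg _
  have hFR : ∀ n v, ‖F n v‖ ≤ R := by
    intro n v
    refine (norm_TT_line ha (hf n).1 v).trans (Real.sqrt_le_sqrt ?_)
    have := hN n
    gcongr
  have hFK : ∀ n u v, ‖F n v - F n u‖ ≤ K * |v - u| := by
    intro n u v
    refine (TT_lip ha (hf n).1 u v).trans (mul_le_mul_of_nonneg_right (Real.sqrt_le_sqrt ?_) (abs_nonneg _))
    have := hN n
    gcongr
  have hFc : ∀ n, Continuous (F n) := fun n => TT_line_cont (hf n).1
  -- the subsequence
  have hcomp : IsCompact (Set.pi univ (fun _ : ℚ => Metric.closedBall (0 : ℂ) R)) :=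
    isCompact_univ_pi fun _ => isCompact_closedBall _ _
  obtain ⟨l, _, φ, hφ, hl⟩ := hcomp.tendsto_subseq (x := fun n => fun q : ℚ => F n q) (by
    intro n q _
    rw [mem_closedBall_zero_iff]
    exact hFR n q)
  rw [tendsto_pi_nhds] at hl
  refine ⟨φ, hφ, ?_⟩
  have hcau : ∀ v : ℝ, CauchySeq (fun n => F (φ n) v) := by
    intro v
    rw [Metric.cauchySeq_iff]
    intro ε hε
    obtain ⟨q, hq1, hq2⟩ := exists_rat_btwn (show v < v + ε / (3 * (K + 1)) by
      have : 0 < ε / (3 * (K + 1)) := by positivity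
      linarith)
    have h1 := (hl q).cauchySeq
    rw [Metric.cauchySeq_iff] at h1
    obtain ⟨N, hN'⟩ := h1 (ε / 3) (by positivity)
    refine ⟨N, fun m hm n hn => ?_⟩
    have h2 := hN' m hm n hn
    simp only [Function.comp] at h2
    rw [dist_eq_norm] at h2 ⊢
    have h3 := hFK (φ m) q v
    have h4 := hFK (φ n) v q
    have h5 : |v - q| ≤ ε / (3 * (K + 1)) := by
      rw [abs_le]; constructor <;> linarith
    have h5' : |(q : ℝ) - v| ≤ ε / (3 * (K + 1)) := by
      rw [abs_le]; constructor <;> linarith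
    have h6 : K * (ε / (3 * (K + 1))) < ε / 3 := by
      rw [mul_div_assoc', div_lt_div_iff₀ (by positivity) (by norm_num)]
      nlinarith
    have h7 : ‖F (φ m) v - F (φ m) q‖ < ε / 3 := lt_of_le_of_lt (h3.trans (mul_le_mul_of_nonneg_left h5 hK0)) h6
    have h8 : ‖F (φ n) q - F (φ n) v‖ < ε / 3 := lt_of_le_of_lt (h4.trans (mul_le_mul_of_nonneg_left h5' hK0)) h6
    have e : F (φ m) v - F (φ n) v = (F (φ m) v - F (φ m) q) + (F (φ m) q - F (φ n) q) + (F (φ n) q - F (φ n) v) := by ring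
    rw [e]
    calc _ ≤ ‖F (φ m) v - F (φ m) q‖ + ‖F (φ m) q - F (φ n) q‖ + ‖F (φ n) q - F (φ n) v‖ := norm_add₃_le
      _ < ε / 3 + ε / 3 + ε / 3 := by linarith
      _ = ε := by ring
  choose G hG using fun v => cauchySeq_tendsto_of_complete (hcau v)
  have hGR : ∀ v, ‖G v‖ ≤ R := fun v => le_of_tendsto' (hG v).norm fun n => hFR _ _
  have hGm : AEStronglyMeasurable G volume :=
    aestronglyMeasurable_of_tendsto_ae atTop (fun n => (hFc (φ n)).aestronglyMeasurable) (Eventually.of_forall hG)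
  intro ε hε
  -- the cut
  set V : ℝ := Real.exp (4 * C / ε) with hV
  have hV0 : 0 < V := Real.exp_pos _
  have hLV : 4 * C / ε ≤ Lg V := by
    unfold Lg
    rw [Real.le_log_iff_exp_le (by positivity), abs_of_pos hV0]
    linarith
  have htail : ∀ m n, ∫ v in (Icc (-V) V)ᶜ, ‖F m v - F n v‖ ^ 2 ≤ ε := by
    intro m n
    have hmn := (hf m).sub (hf n)
    have e : ∀ v : ℝ, TT (fun x => f m x - f n x) (v * I) = F m v - F n v := fun v => TT_sub (hf m).1 (hf n).1 _
    have hi1 : Integrable (fun v : ℝ => ‖F m v - F n v‖ ^ 2) := by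
      have := int_TT_sq hmn.1
      simpa only [e] using this
    have hi2 : Integrable (fun v : ℝ => Lg v * ‖F m v - F n v‖ ^ 2) := by
      have := hmn.2
      simpa only [e] using this
    have h1 : LL (fun x => f m x - f n x) ≤ 4 * C := by
      have := LL_sub_le (hf m) (hf n)
      have := hb m
      have := hb n
      linarith
    have h2 : LL (fun x => f m x - f n x) = ∫ v : ℝ, Lg v * ‖F m v - F n v‖ ^ 2 := by
      unfold LL
      simp only [e]
    have hLp := Lg_pos V
    calc ∫ v in (Icc (-V) V)ᶜ, ‖F m v - F n v‖ ^ 2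
        ≤ ∫ v in (Icc (-V) V)ᶜ, (1 / Lg V) * (Lg v * ‖F m v - F n v‖ ^ 2) := by
          refine setIntegral_mono_on hi1.integrableOn (hi2.const_mul _).integrableOn measurableSet_Icc.compl fun v hv => ?_
          have h3 : |V| ≤ |v| := by
            rw [abs_of_pos hV0]
            rw [mem_compl_iff, mem_Icc, not_and_or, not_le, not_le] at hv
            rcases hv with hv | hv
            · rw [abs_of_neg (by linarith)]; linarith
            · rw [abs_of_pos (by linarith)]; linarith
          have h4 := Lg_mono h3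
          rw [← mul_assoc, one_div, inv_mul_eq_div]
          have h5 : 1 ≤ Lg v / Lg V := by
            rw [le_div_iff₀ hLp]; linarith
          nlinarith [sq_nonneg ‖F m v - F n v‖]
      _ ≤ ∫ v : ℝ, (1 / Lg V) * (Lg v * ‖F m v - F n v‖ ^ 2) := by
          refine setIntegral_le_integral (hi2.const_mul _) (Eventually.of_forall fun v => ?_)
          have := Lg_pos v
          simp only [Pi.zero_apply]
          positivity
      _ = (1 / Lg V) * LL (fun x => f m x - f n x) := by rw [integral_const_mul, h2]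
      _ ≤ (1 / Lg V) * (4 * C) := mul_le_mul_of_nonneg_left h1 (by positivity)
      _ ≤ ε := by
          rw [one_div, inv_mul_eq_div, div_le_iff₀ hLp]
          rw [div_le_iff₀ hε] at hLV
          linarith
  have hdc : Tendsto (fun n => ∫ v in Icc (-V) V, ‖F (φ n) v - G v‖ ^ 2) atTop (𝓝 0) := by
    have h1 : Tendsto (fun n => ∫ v in Icc (-V) V, ‖F (φ n) v - G v‖ ^ 2) atTop (𝓝 (∫ v in Icc (-V) V, (0 : ℝ))) := by
      refine tendsto_integral_of_dominated_convergence (fun _ => (2 * R) ^ 2) ?_ ?_ ?_ ?_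
      · intro n
        exact (((hFc (φ n)).aestronglyMeasurable.sub hGm).norm.pow 2).restrict
      · exact integrableOn_const (by simp) 
      · intro n
        refine Eventually.of_forall fun v => ?_
        rw [Real.norm_eq_abs, abs_of_nonneg (sq_nonneg _)]
        refine pow_le_pow_left₀ (norm_nonneg _) ?_ 2
        refine (norm_sub_le _ _).trans ?_
        linarith [hFR (φ n) v, hGR v]
      · refine Eventually.of_forall fun v => ?_
        have h2 := ((hG v).sub_const (G v)).norm.pow 2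
        simpa using h2
    simpa using h1
  rw [Metric.tendsto_atTop] at hdc
  obtain ⟨N, hN'⟩ := hdc ε hε
  refine ⟨N, fun m n hm hn => ?_⟩
  have hmn := (hf (φ m)).sub (hf (φ n))
  have e : ∀ v : ℝ, TT (fun x => f (φ m) x - f (φ n) x) (v * I) = F (φ m) v - F (φ n) v :=
    fun v => TT_sub (hf (φ m)).1 (hf (φ n)).1 _
  have hi1 : Integrable (fun v : ℝ => ‖F (φ m) v - F (φ n) v‖ ^ 2) := by
    have := int_TT_sq hmn.1
    simpa only [e] using this
  have hpl := plancherel hmn.1
  simp only [e] at hpl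
  rw [← integral_add_compl measurableSet_Icc hi1 (s := Icc (-V) V)] at hpl
  have h1 := htail (φ m) (φ n)
  have hGi : ∀ n, IntegrableOn (fun v => ‖F (φ n) v - G v‖ ^ 2) (Icc (-V) V) := by
    intro n
    refine Integrable.mono' (g := fun _ => (2 * R) ^ 2) (integrableOn_const (by simp))
      ((((hFc (φ n)).aestronglyMeasurable.sub hGm).norm.pow 2).restrict) (Eventually.of_forall fun v => ?_)
    rw [Real.norm_eq_abs, abs_of_nonneg (sq_nonneg _)]
    refine pow_le_pow_left₀ (norm_nonneg _) ?_ 2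
    refine (norm_sub_le _ _).trans ?_
    linarith [hFR (φ n) v, hGR v]
  have h2 : ∫ v in Icc (-V) V, ‖F (φ m) v - F (φ n) v‖ ^ 2 ≤
      ∫ v in Icc (-V) V, (2 * ‖F (φ m) v - G v‖ ^ 2 + 2 * ‖F (φ n) v - G v‖ ^ 2) := by
    refine setIntegral_mono_on hi1.integrableOn (((hGi m).const_mul 2).add ((hGi n).const_mul 2)) measurableSet_Icc fun v _ => ?_
    have h3 := sq_add_le' (F (φ m) v - G v) (G v - F (φ n) v)
    rw [show F (φ m) v - G v + (G v - F (φ n) v) = F (φ m) v - F (φ n) v by ring, norm_sub_rev (G v)] at h3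
    exact h3
  rw [integral_add ((hGi m).const_mul 2) ((hGi n).const_mul 2), integral_const_mul, integral_const_mul] at h2
  have h3 := hN' m hm
  have h4 := hN' n hn
  rw [Real.dist_eq, sub_zero] at h3 h4
  have h5 := (abs_lt.1 h3).2
  have h6 := (abs_lt.1 h4).2
  have h7 := N2_nonneg (fun x => f (φ m) x - f (φ n) x)
  have h8 := Real.pi_gt_three
  nlinarith

end Pool.Agent.Y23
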