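import Pool.Agent.Y23.Zs
import Pool.Agent.H370R2.EF

/-! # A rough explicit formula -/

set_option autoImplicit false
set_option maxHeartbeats 2000000

open Complex Filter Topology Set MeasureTheory
open scoped ComplexConjugate

namespace Pool.Agent.Y23

lemma finsum_zset (f : ℂ → ℂ) {U1 U2 : ℝ} (hU1 : 1 ≤ U1) :
    ∑ᶠ s ∈ H370.zset riemannZeta U1 U2, f s =
      ∑' ρ : Zt, if U1 < (ρ : ℂ).im ∧ (ρ : ℂ).im ≤ U2 then f ρ else 0 := by
  have hfin := H370.zset_finite H370.good_zeta U1 U2 hU1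
  have e1 : ∑' ρ : Zt, (if U1 < (ρ : ℂ).im ∧ (ρ : ℂ).im ≤ U2 then f ρ else 0) =
      ∑' s : ℂ, ({s : ℂ | riemannZeta s = 0 ∧ 0 < s.re ∧ s.re < 1} : Set ℂ).indicator
        (fun s => if U1 < s.im ∧ s.im ≤ U2 then f s else 0) s :=
    tsum_subtype ({s : ℂ | riemannZeta s = 0 ∧ 0 < s.re ∧ s.re < 1} : Set ℂ)
      (fun s => if U1 < s.im ∧ s.im ≤ U2 then f s else 0)
  have e2 : (fun s : ℂ => ({s : ℂ | riemannZeta s = 0 ∧ 0 < s.re ∧ s.re < 1} : Set ℂ).indicator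
        (fun s => if U1 < s.im ∧ s.im ≤ U2 then f s else 0) s) =
      (H370.zset riemannZeta U1 U2).indicator f := by
    funext s
    by_cases hs : s ∈ H370.zset riemannZeta U1 U2
    · obtain ⟨h1, h2, h3, h4, h5⟩ := id hs
      rw [indicator_of_mem hs, indicator_of_mem (by exact ⟨h5, h1, h2⟩), if_pos ⟨h3, h4⟩]
    · rw [indicator_of_notMem hs]
      by_cases h1 : s ∈ ({s : ℂ | riemannZeta s = 0 ∧ 0 < s.re ∧ s.re < 1} : Set ℂ)
      · rw [indicator_of_mem h1, if_neg]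
        rintro ⟨h2, h3⟩
        exact hs ⟨h1.2.1, h1.2.2, h2, h3, h1.1⟩
      · rw [indicator_of_notMem h1]
  rw [e1, e2, finsum_mem_eq_finite_toFinset_sum _ hfin, tsum_eq_sum (s := hfin.toFinset)]
  · refine Finset.sum_congr rfl fun s hs => ?_
    rw [Set.Finite.mem_toFinset] at hs
    rw [indicator_of_mem hs]
  · intro s hs
    rw [Set.Finite.mem_toFinset] at hs
    rw [indicator_of_notMem hs]

lemma exp_neg_le_inv {δ x : ℝ} (hδ : 0 < δ) : Real.exp (-δ * x ^ 2) ≤ (1 + 1 / δ) * (1 / (1 + x ^ 2)) := by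
  have h1 : 1 + δ * x ^ 2 ≤ Real.exp (δ * x ^ 2) := by
    have := Real.add_one_le_exp (δ * x ^ 2)
    linarith
  have h2 : Real.exp (-δ * x ^ 2) = (Real.exp (δ * x ^ 2))⁻¹ := by
    rw [neg_mul, Real.exp_neg]
  rw [h2]
  have h3 : (Real.exp (δ * x ^ 2))⁻¹ ≤ (1 + δ * x ^ 2)⁻¹ := by
    apply inv_anti₀ (by positivity) h1
  refine h3.trans ?_
  rw [mul_one_div, inv_eq_one_div, div_le_div_iff₀ (by positivity) (by positivity)]
  have : 0 ≤ x ^ 2 := sq_nonneg _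
  have h4 : (1 + 1 / δ) * (1 + δ * x ^ 2) = 1 + x ^ 2 + (1 / δ + δ * x ^ 2) := by
    field_simp
    ring
  rw [h4, one_mul]
  have : 0 ≤ 1 / δ + δ * x ^ 2 := by positivity
  linarith

/-- the decay hypothesis used in this file -/
def Dec (h : ℂ → ℂ) (M δ : ℝ) : Prop :=
  Differentiable ℂ h ∧ ∀ w : ℂ, |w.re| ≤ 1 → ‖h w‖ ≤ M * Real.exp (-δ * w.im ^ 2)

lemma dec_summable {h : ℂ → ℂ} {M δ : ℝ} (hδ : 0 < δ) (hM : 0 ≤ M) (hh : Dec h M δ) :
    Summable (fun ρ : Zt => ‖(mu ρ : ℂ) * h ((ρ : ℂ) - 1 / 2)‖) := by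
  refine Summable.of_nonneg_of_le (fun _ => norm_nonneg _) (fun ρ => ?_)
    ((zsummable 0).mul_left (M * (1 + 1 / δ)))
  have h1 := hh.2 ((ρ : ℂ) - 1 / 2) (by
    have := ρ.2
    have e : ((ρ : ℂ) - 1 / 2).re = (ρ : ℂ).re - 1 / 2 := by simp
    rw [e, abs_le]
    constructor <;> linarith [this.2.1, this.2.2])
  have e2 : ((ρ : ℂ) - 1 / 2).im = (ρ : ℂ).im := by simp
  rw [e2] at h1
  have h2 := exp_neg_le_inv (x := (ρ : ℂ).im) hδ
  rw [norm_mul, Complex.norm_natCast, sub_zero]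
  have h3 : ‖h ((ρ : ℂ) - 1 / 2)‖ ≤ M * ((1 + 1 / δ) * (1 / (1 + (ρ : ℂ).im ^ 2))) :=
    h1.trans (mul_le_mul_of_nonneg_left h2 hM)
  calc (mu ρ : ℝ) * ‖h ((ρ : ℂ) - 1 / 2)‖ ≤ (mu ρ : ℝ) * (M * ((1 + 1 / δ) * (1 / (1 + (ρ : ℂ).im ^ 2)))) :=
        mul_le_mul_of_nonneg_left h3 (Nat.cast_nonneg _)
    _ = _ := by ring

lemma dec_cont {h : ℂ → ℂ} {M δ : ℝ} (hh : Dec h M δ) (σ : ℝ) :
    Continuous (fun v : ℝ => h (⟨σ, v⟩ : ℂ)) := by
  have : (fun v : ℝ => h (⟨σ, v⟩ : ℂ)) = fun v : ℝ => h ((σ : ℂ) + v * I) := by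
    funext v; congr 1; apply Complex.ext <;> simp
  rw [this]
  exact hh.1.continuous.comp (by fun_prop)

lemma dec_line {h : ℂ → ℂ} {M δ : ℝ} (hh : Dec h M δ) {σ : ℝ} (hσ : |σ| ≤ 1) (v : ℝ) :
    ‖h (⟨σ, v⟩ : ℂ)‖ ≤ M * Real.exp (-δ * v ^ 2) := hh.2 ⟨σ, v⟩ hσ

lemma dec_int {h : ℂ → ℂ} {M δ : ℝ} (hδ : 0 < δ) (hh : Dec h M δ) {σ : ℝ} (hσ : |σ| ≤ 1) :
    Integrable (fun v : ℝ => h (⟨σ, v⟩ : ℂ)) :=
  ((integrable_exp_neg_mul_sq hδ).const_mul M).mono' (dec_cont hh σ).aestronglyMeasurable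
    (Eventually.of_forall fun v => dec_line hh hσ v)

lemma int_part_le {g : ℝ → ℂ} (hg : Integrable g) {φ : ℝ → ℂ} {K U1 U2 : ℝ} (hU : U1 ≤ U2) (hK : 0 ≤ K)
    (hb : ∀ v ∈ Ioc U1 U2, ‖φ v‖ ≤ K * ‖g v‖) :
    ‖∫ v in U1..U2, φ v‖ ≤ K * ∫ v, ‖g v‖ := by
  calc ‖∫ v in U1..U2, φ v‖ ≤ ∫ v in U1..U2, K * ‖g v‖ := by
        apply intervalIntegral.norm_integral_le_of_norm_le hU
        · exact Eventually.of_forall fun v hv => hb v hv
        · exact (hg.norm.const_mul K).intervalIntegrable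
    _ = ∫ v in Ioc U1 U2, K * ‖g v‖ := by rw [intervalIntegral.integral_of_le hU]
    _ ≤ ∫ v : ℝ, K * ‖g v‖ := by
        apply setIntegral_le_integral (hg.norm.const_mul K)
        exact Eventually.of_forall fun v => by positivity
    _ = _ := by rw [integral_const_mul]

lemma sub_half (x y : ℝ) : (⟨x, y⟩ : ℂ) - 1 / 2 = ⟨x - 1 / 2, y⟩ := by
  apply Complex.ext <;> simp

/-- logarithm on the half plane -/
lemma norm_logI {w : ℂ} (h1 : |w.re| ≤ 1) (h2 : 3 ≤ w.im) :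
    ‖Complex.log (-I * w) - (Real.log w.im : ℂ)‖ ≤ 5 := by
  have hne : w ≠ 0 := by rintro rfl; simp at h2; linarith
  have h3 : w.im ≤ ‖w‖ := (le_abs_self _).trans (Complex.abs_im_le_norm w)
  have h4 : ‖w‖ ≤ 1 + w.im := by
    refine (Complex.norm_le_abs_re_add_abs_im w).trans ?_
    rw [abs_of_nonneg (by linarith : 0 ≤ w.im)]
    linarith
  have h5 : Real.log w.im ≤ Real.log ‖w‖ := Real.log_le_log (by linarith) h3
  have h6 : Real.log ‖w‖ ≤ Real.log w.im + 1 := by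
    have h7 : ‖w‖ ≤ w.im * Real.exp 1 := by
      have := Real.add_one_le_exp (1 : ℝ)
      nlinarith
    have h8 := Real.log_le_log (by positivity) h7
    rw [Real.log_mul (by linarith) (Real.exp_pos _).ne', Real.log_exp] at h8
    exact h8
  have h7 : ‖-I * w‖ = ‖w‖ := by rw [norm_mul, norm_neg, norm_I, one_mul]
  refine (Complex.norm_le_abs_re_add_abs_im _).trans ?_
  have h8 : (Complex.log (-I * w) - (Real.log w.im : ℂ)).re = Real.log ‖w‖ - Real.log w.im := by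
    rw [Complex.sub_re, Complex.log_re, h7, Complex.ofReal_re]
  have h9 : (Complex.log (-I * w) - (Real.log w.im : ℂ)).im = Complex.arg (-I * w) := by
    rw [Complex.sub_im, Complex.log_im, Complex.ofReal_im, sub_zero]
  rw [h8, h9]
  have h10 := Complex.abs_arg_le_pi (-I * w)
  have h11 := Real.pi_lt_d2
  have h12 : |Real.log ‖w‖ - Real.log w.im| ≤ 1 := by
    rw [abs_le]; constructor <;> linarith
  linarith

lemma logI_zero {v : ℝ} (hv : 0 < v) : Complex.log (-I * (⟨0, v⟩ : ℂ)) = (Real.log v : ℂ) := by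
  have : -I * (⟨0, v⟩ : ℂ) = (v : ℂ) := by
    apply Complex.ext <;> simp
  rw [this, Complex.ofReal_log hv.le]

lemma logI_diff {w : ℂ} (h2 : 0 < w.im) : DifferentiableAt ℂ (fun z => Complex.log (-I * z)) w := by
  have h : -I * w ∈ slitPlane := by
    left
    simp only [neg_mul, Complex.neg_re, Complex.mul_re, Complex.I_re, Complex.I_im]
    linarith
  have hd : DifferentiableAt ℂ (fun z : ℂ => -I * z) w := by fun_prop
  exact hd.clog h


/-- sum over the zeros with ordinate in a range -/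
noncomputable def SZ (h : ℂ → ℂ) (U1 U2 : ℝ) : ℂ :=
  ∑' ρ : Zt, if U1 < (ρ : ℂ).im ∧ (ρ : ℂ).im ≤ U2 then (mu ρ : ℂ) * h ((ρ : ℂ) - 1 / 2) else 0

/-- the finite form of the formula -/
lemma ef_fin : ∃ C U0 : ℝ, 0 < C ∧ 3 ≤ U0 ∧ U0 ≤ 4 ∧ (∀ σ ∈ Set.Icc (-1 / 2 : ℝ) (3 / 2), riemannZeta (⟨σ, U0⟩ : ℂ) ≠ 0) ∧
    ∀ (h : ℂ → ℂ) (M δ : ℝ), 0 < δ → 0 ≤ M → Dec h M δ → ∀ T : ℝ, 5 ≤ T → ∃ U2 : ℝ, T ≤ U2 ∧ U2 ≤ T + 1 ∧
      ‖2 * Real.pi * SZ h U0 U2 - ∫ v in U0..U2, (Real.log v : ℂ) * h (⟨0, v⟩ : ℂ)‖ ≤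
        C * (M + (∫ v : ℝ, ‖h (⟨1, v⟩ : ℂ)‖) + ∫ v : ℝ, ‖h (⟨-1, v⟩ : ℂ)‖) +
          C * (Real.log (T + 2) ^ 2 * (M * Real.exp (-δ * T ^ 2))) := by
  have hF := H370.good_zeta
  obtain ⟨a, ha, hld⟩ := hF.ld
  obtain ⟨C1, hC1, hgh⟩ := H370.good_height hF
  obtain ⟨C2', hleft'⟩ := hF.left
  set C2 := max C2' 0 with hC2
  have hC20 : 0 ≤ C2 := le_max_right _ _
  have hleft : ∀ s : ℂ, -1 / 2 ≤ s.re → s.re ≤ 1 / 2 → 1 ≤ s.im → riemannZeta s ≠ 0 →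
    ‖deriv riemannZeta s / riemannZeta s + Real.log s.im +
      (starRingEnd ℂ) (deriv riemannZeta (1 - (starRingEnd ℂ) s) / riemannZeta (1 - (starRingEnd ℂ) s))‖ ≤ C2 :=
    fun s h1 h2 h3 h4 => (hleft' s h1 h2 h3 h4).trans (le_max_left _ _)
  have hD0 := H370.D0_nonneg
  obtain ⟨U1, hU1, hg1⟩ := hgh 3 le_rfl
  refine ⟨8 * C1 + H370.D0 + (C2 + H370.D0) + 50, U1, by positivity, hU1.1, by linarith [hU1.2], fun σ hσ => (hg1 σ hσ).1, ?_⟩
  intro h M δ hδ hM hh T hT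
  obtain ⟨U2, hU2, hg2⟩ := hgh T (by linarith)
  refine ⟨U2, hU2.1, hU2.2, ?_⟩
  have hU12 : U1 < U2 := by linarith [hU1.2, hU2.1]
  set H : ℂ → ℂ := fun s => h (s - 1 / 2) with hH
  have hHd : Differentiable ℂ H := hh.1.comp (by fun_prop)
  have hHx : ∀ x y : ℝ, H ⟨x, y⟩ = h ⟨x - 1 / 2, y⟩ := fun x y => by
    simp only [hH]; rw [sub_half]
  -- residue theorem
  have hK : ∀ s ∈ Set.Icc (-1 / 2 : ℝ) (3 / 2) ×ℂ Set.Icc U1 U2, 1 ≤ s.im ∧ U1 ≤ s.im ∧ s.im ≤ U2 ∧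
      -1 / 2 ≤ s.re ∧ s.re ≤ 3 / 2 := by
    intro s hs
    obtain ⟨h1, h2⟩ := hs
    rw [mem_preimage] at h1 h2
    exact ⟨by linarith [h2.1, hU1.1], h2.1, h2.2, h1.1, h1.2⟩
  have hzero : ∀ s ∈ Set.Icc (-1 / 2 : ℝ) (3 / 2) ×ℂ Set.Icc U1 U2, riemannZeta s = 0 →
      0 < s.re ∧ s.re < 1 ∧ U1 < s.im ∧ s.im < U2 := by
    intro s hs h0
    obtain ⟨h1, h2, h3, h4, h5⟩ := hK s hs
    refine ⟨?_, ?_, ?_, ?_⟩
    · by_contra hc
      exact hF.nzl s (not_lt.1 hc) h1 h0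
    · by_contra hc
      exact hF.nzr s (not_lt.1 hc) h1 h0
    · refine lt_of_le_of_ne h2 (fun he => ?_)
      have := (hg1 s.re ⟨h4, h5⟩).1
      rw [he] at this
      exact this h0
    · refine lt_of_le_of_ne h3 (fun he => ?_)
      have := (hg2 s.re ⟨h4, h5⟩).1
      rw [← he] at this
      exact this h0
  have hres := (H370.rect_residue riemannZeta H (-1 / 2) (3 / 2) U1 U2 (by norm_num) hU12
    (fun s hs => hF.an s (by linarith [(hK s hs).1])) hHd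
    (fun s hs h0 => by
      obtain ⟨h1, h2, h3, h4⟩ := hzero s hs h0
      exact ⟨⟨by linarith, by linarith⟩, ⟨h3, h4⟩⟩)).2
  have hset : {s | s ∈ Set.Ioo (-1 / 2 : ℝ) (3 / 2) ×ℂ Set.Ioo U1 U2 ∧ riemannZeta s = 0} = H370.zset riemannZeta U1 U2 := by
    ext s
    constructor
    · rintro ⟨h1, h2⟩
      obtain ⟨h3, h4, h5, h6⟩ := hzero s ⟨Ioo_subset_Icc_self h1.1, Ioo_subset_Icc_self h1.2⟩ h2
      exact ⟨h3, h4, h5, h6.le, h2⟩
    · rintro ⟨h3, h4, h5, h6, h7⟩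
      obtain ⟨k1, k2, k3, k4⟩ := hzero s ⟨⟨by linarith, by linarith⟩, ⟨h5.le, h6⟩⟩ h7
      exact ⟨⟨⟨by linarith, by linarith⟩, ⟨k3, k4⟩⟩, h7⟩
  rw [hset, finsum_zset _ (by linarith [hU1.1])] at hres
  have hSZ : (∑' ρ : Zt, if U1 < (ρ : ℂ).im ∧ (ρ : ℂ).im ≤ U2 then (H370.mult riemannZeta ρ : ℂ) * H ρ else 0) =
      SZ h U1 U2 := rfl
  rw [hSZ] at hres
  set HB := ∫ x in (-1 / 2 : ℝ)..(3 / 2), deriv riemannZeta (⟨x, U1⟩ : ℂ) / riemannZeta ⟨x, U1⟩ * H ⟨x, U1⟩ with hHB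
  set HT := ∫ x in (-1 / 2 : ℝ)..(3 / 2), deriv riemannZeta (⟨x, U2⟩ : ℂ) / riemannZeta ⟨x, U2⟩ * H ⟨x, U2⟩ with hHT
  set R := ∫ y in U1..U2, deriv riemannZeta (⟨3 / 2, y⟩ : ℂ) / riemannZeta ⟨3 / 2, y⟩ * H ⟨3 / 2, y⟩ with hR
  set Lf := ∫ y in U1..U2, deriv riemannZeta (⟨-1 / 2, y⟩ : ℂ) / riemannZeta ⟨-1 / 2, y⟩ * H ⟨-1 / 2, y⟩ with hLf
  set J1 := ∫ v : ℝ, ‖h (⟨1, v⟩ : ℂ)‖ with hJ1
  set J2 := ∫ v : ℝ, ‖h (⟨-1, v⟩ : ℂ)‖ with hJ2
  have hJ10 : 0 ≤ J1 := integral_nonneg fun v => norm_nonneg _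
  have hJ20 : 0 ≤ J2 := integral_nonneg fun v => norm_nonneg _
  set ε := M * Real.exp (-δ * T ^ 2) with hε
  have hε0 : 0 ≤ ε := by positivity
  have htop : ∀ w : ℂ, |w.re| ≤ 1 → w.im = U2 → ‖h w‖ ≤ ε := by
    intro w h1 h2
    refine (hh.2 w h1).trans (mul_le_mul_of_nonneg_left (Real.exp_le_exp.2 ?_) hM)
    rw [h2]
    have : T ^ 2 ≤ U2 ^ 2 := pow_le_pow_left₀ (by linarith) hU2.1 2
    nlinarith
  have hbot : ∀ w : ℂ, |w.re| ≤ 1 → ‖h w‖ ≤ M := by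
    intro w h1
    refine (hh.2 w h1).trans ?_
    have : Real.exp (-δ * w.im ^ 2) ≤ 1 := by
      rw [Real.exp_le_one_iff]
      have := sq_nonneg w.im
      nlinarith
    nlinarith
  have hlogT : Real.log T ≤ Real.log (T + 2) := Real.log_le_log (by linarith) (by linarith)
  have hlogT0 : 0 ≤ Real.log T := Real.log_nonneg (by linarith)
  have hlogT1 : 1 ≤ Real.log (T + 2) := by
    rw [Real.le_log_iff_exp_le (by linarith)]
    have := Real.exp_one_lt_d9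
    linarith
  have hlog3 : Real.log 3 ^ 2 ≤ 4 := by
    have h1 : Real.log 3 ≤ 2 := by
      rw [Real.log_le_iff_le_exp (by norm_num)]
      have := Real.add_one_le_exp (2 : ℝ)
      linarith
    have h2 : 0 ≤ Real.log 3 := Real.log_nonneg (by norm_num)
    nlinarith
  have hHBb : ‖HB‖ ≤ 8 * C1 * M := by
    have : ‖HB‖ ≤ (C1 * Real.log 3 ^ 2 * M) * |(3 / 2 : ℝ) - (-1 / 2)| := by
      apply intervalIntegral.norm_integral_le_of_norm_le_const
      intro x hx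
      rw [uIoc_of_le (by norm_num)] at hx
      have hx' : x ∈ Set.Icc (-1 / 2 : ℝ) (3 / 2) := ⟨hx.1.le, hx.2⟩
      rw [norm_mul]
      apply mul_le_mul (hg1 x hx').2 _ (norm_nonneg _) (by positivity)
      rw [hHx]
      apply hbot
      show |x - 1 / 2| ≤ 1
      rw [abs_le]; constructor <;> linarith [hx'.1, hx'.2]
    rw [show |(3 / 2 : ℝ) - (-1 / 2)| = 2 by norm_num] at this
    have h2 : C1 * Real.log 3 ^ 2 * M ≤ C1 * 4 * M := by gcongr
    linarith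
  have hHTb : ‖HT‖ ≤ 2 * C1 * (Real.log (T + 2) ^ 2 * ε) := by
    have : ‖HT‖ ≤ (C1 * Real.log T ^ 2 * ε) * |(3 / 2 : ℝ) - (-1 / 2)| := by
      apply intervalIntegral.norm_integral_le_of_norm_le_const
      intro x hx
      rw [uIoc_of_le (by norm_num)] at hx
      have hx' : x ∈ Set.Icc (-1 / 2 : ℝ) (3 / 2) := ⟨hx.1.le, hx.2⟩
      rw [norm_mul]
      apply mul_le_mul (hg2 x hx').2 _ (norm_nonneg _) (by positivity)
      rw [hHx]
      refine htop _ ?_ rfl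
      show |x - 1 / 2| ≤ 1
      rw [abs_le]; constructor <;> linarith [hx'.1, hx'.2]
    rw [show |(3 / 2 : ℝ) - (-1 / 2)| = 2 by norm_num] at this
    have h2 : C1 * Real.log T ^ 2 * ε ≤ C1 * Real.log (T + 2) ^ 2 * ε := by gcongr
    linarith
  -- the right side
  have hRD : ∀ y ∈ Icc U1 U2, deriv riemannZeta (⟨3 / 2, y⟩ : ℂ) / riemannZeta ⟨3 / 2, y⟩ = - H370.DD a (⟨3 / 2, y⟩ : ℂ) := by
    intro y hy
    exact hld _ (by norm_num) (by show (1 : ℝ) ≤ y; linarith [hy.1, hU1.1])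
  have hRb : ‖R‖ ≤ H370.D0 * J1 := by
    refine int_part_le (dec_int hδ hh (by norm_num)) hU12.le hD0 fun v hv => ?_
    rw [norm_mul, hRD v (Ioc_subset_Icc_self hv), norm_neg, hHx]
    norm_num
    exact mul_le_mul_of_nonneg_right (H370.norm_DD a ha v) (norm_nonneg _)
  -- the left side
  have hFl : ∀ y ∈ Icc U1 U2, riemannZeta (⟨-1 / 2, y⟩ : ℂ) ≠ 0 := by
    intro y hy
    exact hF.nzl _ (by norm_num) (by show (1 : ℝ) ≤ y; linarith [hy.1, hU1.1])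
  have hcontl : ContinuousOn (fun y : ℝ => deriv riemannZeta (⟨-1 / 2, y⟩ : ℂ) / riemannZeta ⟨-1 / 2, y⟩) (Icc U1 U2) := by
    intro y hy
    have han := hF.an (⟨-1 / 2, y⟩ : ℂ) (by show (0 : ℝ) < y; linarith [hy.1, hU1.1])
    have h1 : ContinuousAt (fun z => deriv riemannZeta z / riemannZeta z) (⟨-1 / 2, y⟩ : ℂ) :=
      han.deriv.continuousAt.div han.continuousAt (hFl y hy)
    have h2 : ContinuousAt (fun y : ℝ => (⟨-1 / 2, y⟩ : ℂ)) y := by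
      have : (fun y : ℝ => (⟨-1 / 2, y⟩ : ℂ)) = fun y : ℝ => ((-1 / 2 : ℝ) : ℂ) + y * I := by
        funext v; exact H370.mk_eq _ v
      rw [this]; fun_prop
    exact (ContinuousAt.comp (f := fun y : ℝ => (⟨-1 / 2, y⟩ : ℂ)) (x := y) h1 h2).continuousWithinAt
  set E : ℝ → ℂ := fun y => deriv riemannZeta (⟨-1 / 2, y⟩ : ℂ) / riemannZeta ⟨-1 / 2, y⟩ + Real.log y with hE
  have hEb : ∀ y ∈ Icc U1 U2, ‖E y‖ ≤ C2 + H370.D0 := by
    intro y hy
    have hy1 : 1 ≤ y := by linarith [hy.1, hU1.1]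
    have h1 := hleft (⟨-1 / 2, y⟩ : ℂ) (by norm_num) (by norm_num) hy1 (hFl y hy)
    have h2 : (1 : ℂ) - (starRingEnd ℂ) (⟨-1 / 2, y⟩ : ℂ) = ⟨3 / 2, y⟩ := by
      apply Complex.ext <;> simp <;> norm_num
    rw [h2, hRD y hy] at h1
    have h3 : ‖(starRingEnd ℂ) (-H370.DD a (⟨3 / 2, y⟩ : ℂ))‖ ≤ H370.D0 := by
      rw [RCLike.norm_conj, norm_neg]
      exact H370.norm_DD a ha y
    have h5 : E y = (deriv riemannZeta (⟨-1 / 2, y⟩ : ℂ) / riemannZeta ⟨-1 / 2, y⟩ + (Real.log (⟨-1 / 2, y⟩ : ℂ).im : ℂ) +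
        (starRingEnd ℂ) (-H370.DD a (⟨3 / 2, y⟩ : ℂ))) - (starRingEnd ℂ) (-H370.DD a (⟨3 / 2, y⟩ : ℂ)) := by
      simp only [hE]
      ring
    rw [h5]
    exact (norm_sub_le _ _).trans (add_le_add h1 h3)
  have hlogc : ContinuousOn (fun y : ℝ => (Real.log y : ℂ)) (Icc U1 U2) := by
    refine Complex.continuous_ofReal.comp_continuousOn ?_
    refine Real.continuousOn_log.mono fun y hy => ?_
    have : 0 < y := by linarith [hy.1, hU1.1]
    exact this.ne'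
  have hcE : ContinuousOn E (Icc U1 U2) := hcontl.add hlogc
  have hcl := dec_cont hh (-1)
  have hcl0 := dec_cont hh 0
  have hHl : ∀ y : ℝ, H ⟨-1 / 2, y⟩ = h ⟨-1, y⟩ := fun y => by rw [hHx]; norm_num
  set IE := ∫ y in U1..U2, E y * h (⟨-1, y⟩ : ℂ) with hIE
  set IL := ∫ y in U1..U2, (Real.log y : ℂ) * h (⟨-1, y⟩ : ℂ) with hIL
  have hiL : IntervalIntegrable (fun y : ℝ => (Real.log y : ℂ) * h (⟨-1, y⟩ : ℂ)) volume U1 U2 := by
    apply ContinuousOn.intervalIntegrable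
    rw [uIcc_of_le hU12.le]
    exact hlogc.mul hcl.continuousOn
  have hLsplit : Lf = IE - IL := by
    rw [hLf, hIE, hIL, ← intervalIntegral.integral_sub _ hiL]
    · apply intervalIntegral.integral_congr
      intro y _
      simp only [hE]
      rw [hHl]
      ring
    · apply ContinuousOn.intervalIntegrable
      rw [uIcc_of_le hU12.le]
      exact hcE.mul hcl.continuousOn
  have hIEb : ‖IE‖ ≤ (C2 + H370.D0) * J2 := by
    refine int_part_le (dec_int hδ hh (by norm_num)) hU12.le (by positivity) fun v hv => ?_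
    rw [norm_mul]
    exact mul_le_mul_of_nonneg_right (hEb v (Ioc_subset_Icc_self hv)) (norm_nonneg _)
  -- the shift
  set φ : ℂ → ℂ := fun w => Complex.log (-I * w) * h w with hφ
  have hsh := Complex.integral_boundary_rect_eq_zero_of_differentiableOn φ (⟨-1, U1⟩ : ℂ) (⟨0, U2⟩ : ℂ) (by
    intro w hw
    have h1 : U1 ≤ w.im := by
      have := hw.2
      rw [mem_preimage] at this
      simp only at this
      rw [uIcc_of_le hU12.le] at this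
      exact this.1
    exact ((logI_diff (by linarith [hU1.1])).mul (hh.1 w)).differentiableWithinAt)
  simp only at hsh
  have hre : ∀ x : ℝ, ∀ y : ℝ, (x : ℂ) + (y : ℂ) * I = ⟨x, y⟩ := fun x y => (H370.mk_eq x y).symm
  simp only [hre, smul_eq_mul] at hsh
  set CB := ∫ x in (-1 : ℝ)..0, φ ⟨x, U1⟩ with hCB
  set CT := ∫ x in (-1 : ℝ)..0, φ ⟨x, U2⟩ with hCT
  have hlogU : ∀ U : ℝ, 3 ≤ U → ∀ x ∈ Set.uIoc (-1 : ℝ) 0, ‖Complex.log (-I * (⟨x, U⟩ : ℂ))‖ ≤ 5 + Real.log U := by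
    intro U hU x hx
    rw [uIoc_of_le (by norm_num)] at hx
    have h1 := norm_logI (w := (⟨x, U⟩ : ℂ)) (by show |x| ≤ 1; rw [abs_le]; constructor <;> linarith [hx.1, hx.2]) hU
    have h2 : Complex.log (-I * (⟨x, U⟩ : ℂ)) = (Complex.log (-I * (⟨x, U⟩ : ℂ)) - (Real.log U : ℂ)) + (Real.log U : ℂ) := by ring
    rw [h2]
    refine (norm_add_le _ _).trans (add_le_add h1 ?_)
    rw [Complex.norm_real, Real.norm_eq_abs, abs_of_nonneg (Real.log_nonneg (by linarith))]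
  have hCBb : ‖CB‖ ≤ 7 * M := by
    have : ‖CB‖ ≤ (7 * M) * |(0 : ℝ) - (-1)| := by
      apply intervalIntegral.norm_integral_le_of_norm_le_const
      intro x hx
      have h1 := hlogU U1 hU1.1 x hx
      rw [uIoc_of_le (by norm_num)] at hx
      simp only [hφ]
      rw [norm_mul]
      have h2 : Real.log U1 ≤ 2 := by
        rw [Real.log_le_iff_le_exp (by linarith [hU1.1])]
        have h3 := Real.quadratic_le_exp_of_nonneg (x := 2) (by norm_num)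
        linarith [hU1.2]
      refine mul_le_mul (by linarith) (hbot _ ?_) (norm_nonneg _) (by norm_num)
      show |x| ≤ 1
      rw [abs_le]; constructor <;> linarith [hx.1, hx.2]
    norm_num at this
    exact this
  have hCTb : ‖CT‖ ≤ 6 * (Real.log (T + 2) ^ 2 * ε) := by
    have : ‖CT‖ ≤ (6 * (Real.log (T + 2) ^ 2 * ε)) * |(0 : ℝ) - (-1)| := by
      apply intervalIntegral.norm_integral_le_of_norm_le_const
      intro x hx
      have h1 := hlogU U2 (by linarith [hU2.1]) x hx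
      rw [uIoc_of_le (by norm_num)] at hx
      simp only [hφ]
      rw [norm_mul]
      have h2 : Real.log U2 ≤ Real.log (T + 2) := Real.log_le_log (by linarith [hU2.1]) (by linarith [hU2.2])
      have h3 : 5 + Real.log U2 ≤ 6 * Real.log (T + 2) ^ 2 := by nlinarith
      rw [← mul_assoc]
      refine mul_le_mul (h1.trans h3) (htop _ ?_ rfl) (norm_nonneg _) (by positivity)
      show |x| ≤ 1
      rw [abs_le]; constructor <;> linarith [hx.1, hx.2]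
    norm_num at this
    exact this
  have hφ0 : (∫ y in U1..U2, φ ⟨0, y⟩) = ∫ v in U1..U2, (Real.log v : ℂ) * h (⟨0, v⟩ : ℂ) := by
    apply intervalIntegral.integral_congr
    intro y hy
    rw [uIcc_of_le hU12.le] at hy
    simp only [hφ]
    rw [logI_zero (by linarith [hy.1, hU1.1])]
  set IF := ∫ y in U1..U2, (Complex.log (-I * (⟨-1, y⟩ : ℂ)) - (Real.log y : ℂ)) * h (⟨-1, y⟩ : ℂ) with hIF
  have hcφ : ContinuousOn (fun y : ℝ => Complex.log (-I * (⟨-1, y⟩ : ℂ))) (Icc U1 U2) := by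
    intro y hy
    have h1 : ContinuousAt (fun z => Complex.log (-I * z)) (⟨-1, y⟩ : ℂ) :=
      (logI_diff (w := (⟨-1, y⟩ : ℂ)) (by show 0 < y; linarith [hy.1, hU1.1])).continuousAt
    have h2 : ContinuousAt (fun y : ℝ => (⟨-1, y⟩ : ℂ)) y := by
      have : (fun y : ℝ => (⟨-1, y⟩ : ℂ)) = fun y : ℝ => ((-1 : ℝ) : ℂ) + y * I := by
        funext v; exact H370.mk_eq _ v
      rw [this]; fun_prop
    exact (ContinuousAt.comp (f := fun y : ℝ => (⟨-1, y⟩ : ℂ)) (x := y) h1 h2).continuousWithinAt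
  have hφ1 : (∫ y in U1..U2, φ ⟨-1, y⟩) = IF + IL := by
    rw [hIF, hIL, ← intervalIntegral.integral_add _ hiL]
    · apply intervalIntegral.integral_congr
      intro y _
      simp only [hφ]
      ring
    · apply ContinuousOn.intervalIntegrable
      rw [uIcc_of_le hU12.le]
      exact (hcφ.sub hlogc).mul hcl.continuousOn
  have hIFb : ‖IF‖ ≤ 5 * J2 := by
    refine int_part_le (dec_int hδ hh (by norm_num)) hU12.le (by positivity) fun v hv => ?_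
    rw [norm_mul]
    refine mul_le_mul_of_nonneg_right (norm_logI (w := (⟨-1, v⟩ : ℂ)) (by norm_num) ?_) (norm_nonneg _)
    show 3 ≤ v
    linarith [hv.1, hU1.1]
  rw [hφ0, hφ1] at hsh
  set I0 := ∫ v in U1..U2, (Real.log v : ℂ) * h (⟨0, v⟩ : ℂ) with hI0
  have hmain : 2 * Real.pi * SZ h U1 U2 - I0 =
      (-I) * (HB - HT) + R - IE - IF - I * (CB - CT) := by
    have hI : I ≠ 0 := I_ne_zero
    have h4 : 2 * Real.pi * I * SZ h U1 U2 = HB - HT + I * R - I * Lf := hres.symm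
    rw [hLsplit] at h4
    apply mul_left_cancel₀ hI
    linear_combination h4 - hsh + ((HB - HT) + CB - CT) * I_sq
  rw [hmain]
  have hnI : ‖(-I : ℂ)‖ = 1 := by rw [norm_neg, norm_I]
  have b1 : ‖(-I) * (HB - HT)‖ ≤ 8 * C1 * M + 2 * C1 * (Real.log (T + 2) ^ 2 * ε) := by
    rw [norm_mul, hnI, one_mul]
    exact (norm_sub_le _ _).trans (add_le_add hHBb hHTb)
  have b2 : ‖I * (CB - CT)‖ ≤ 7 * M + 6 * (Real.log (T + 2) ^ 2 * ε) := by
    rw [norm_mul, norm_I, one_mul]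
    exact (norm_sub_le _ _).trans (add_le_add hCBb hCTb)
  have b3 : ‖(-I) * (HB - HT) + R - IE - IF - I * (CB - CT)‖ ≤
      ‖(-I) * (HB - HT)‖ + ‖R‖ + ‖IE‖ + ‖IF‖ + ‖I * (CB - CT)‖ := by
    refine (norm_sub_le _ _).trans (add_le_add_left ?_ _)
    refine (norm_sub_le _ _).trans (add_le_add_left ?_ _)
    refine (norm_sub_le _ _).trans (add_le_add_left ?_ _)
    exact norm_add_le _ _
  refine b3.trans ?_
  have hX : 0 ≤ Real.log (T + 2) ^ 2 * ε := by positivity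
  have p1 : 0 ≤ C1 * J1 := by positivity
  have p2 : 0 ≤ C1 * J2 := by positivity
  have p3 : 0 ≤ H370.D0 * M := by positivity
  have p4 : 0 ≤ H370.D0 * J2 := by positivity
  have p5 : 0 ≤ C2 * M := by positivity
  have p6 : 0 ≤ C2 * J1 := by positivity
  have p7 : 0 ≤ C1 * (Real.log (T + 2) ^ 2 * ε) := by positivity
  have p8 : 0 ≤ H370.D0 * (Real.log (T + 2) ^ 2 * ε) := by positivity
  have p9 : 0 ≤ C2 * (Real.log (T + 2) ^ 2 * ε) := by positivity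
  have p10 : 0 ≤ H370.D0 * J1 := by positivity
  set X := Real.log (T + 2) ^ 2 * ε with hXd
  clear_value X
  linarith

end Pool.Agent.Y23
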