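import Pool.Agent.Y23.EF

/-! # The explicit formula, one-sided and two-sided -/

set_option autoImplicit false
set_option maxHeartbeats 2000000

open Complex Filter Topology Set MeasureTheory
open scoped ComplexConjugate

namespace Pool.Agent.Y23

lemma log_sq_exp_tendsto {δ : ℝ} (hδ : 0 < δ) :
    Tendsto (fun T : ℝ => Real.log (T + 2) ^ 2 * Real.exp (-δ * T ^ 2)) atTop (𝓝 0) := by
  have h1 : Tendsto (fun x : ℝ => Real.log x ^ 2 / x) atTop (𝓝 0) :=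
    (Real.isLittleO_pow_log_id_atTop (n := 2)).tendsto_div_nhds_zero
  have h2 : Tendsto (fun T : ℝ => (1 + 1 / δ) * (Real.log (T + 2) ^ 2 / (T + 2))) atTop (𝓝 0) := by
    have := (h1.comp (tendsto_atTop_add_const_right atTop (2 : ℝ) tendsto_id)).const_mul (1 + 1 / δ)
    simpa using this
  refine squeeze_zero' (Eventually.of_forall fun T => by positivity) ?_ h2
  filter_upwards [eventually_ge_atTop (2 : ℝ)] with T hT
  have h3 := exp_neg_le_inv (x := T) hδ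
  have h4 : 1 / (1 + T ^ 2) ≤ 1 / (T + 2) := by
    apply one_div_le_one_div_of_le (by linarith)
    nlinarith
  calc Real.log (T + 2) ^ 2 * Real.exp (-δ * T ^ 2) ≤ Real.log (T + 2) ^ 2 * ((1 + 1 / δ) * (1 / (1 + T ^ 2))) :=
        mul_le_mul_of_nonneg_left h3 (sq_nonneg _)
    _ ≤ Real.log (T + 2) ^ 2 * ((1 + 1 / δ) * (1 / (T + 2))) := by gcongr
    _ = _ := by ring

lemma dec_log_int {h : ℂ → ℂ} {M δ U : ℝ} (hδ : 0 < δ) (hU : 3 ≤ U) (hh : Dec h M δ) :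
    IntegrableOn (fun v : ℝ => (Real.log v : ℂ) * h (⟨0, v⟩ : ℂ)) (Ioi U) := by
  have h1 : IntegrableOn (fun v : ℝ => M * (v * Real.exp (-δ * v ^ 2))) (Ioi U) :=
    ((integrable_mul_exp_neg_mul_sq hδ).const_mul M).integrableOn
  refine h1.mono' ?_ ?_
  · refine AEStronglyMeasurable.mul ?_ (dec_cont hh 0).aestronglyMeasurable
    exact (Complex.measurable_ofReal.comp Real.measurable_log).aestronglyMeasurable
  · rw [ae_restrict_iff' measurableSet_Ioi]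
    refine Eventually.of_forall fun v hv => ?_
    rw [mem_Ioi] at hv
    have hv0 : 0 < v := by linarith
    rw [norm_mul, Complex.norm_real, Real.norm_eq_abs, abs_of_nonneg (Real.log_nonneg (by linarith))]
    have h2 : Real.log v ≤ v := (Real.log_le_sub_one_of_pos hv0).trans (by linarith)
    have h3 := dec_line hh (σ := 0) (by norm_num) v
    calc Real.log v * ‖h (⟨0, v⟩ : ℂ)‖ ≤ v * (M * Real.exp (-δ * v ^ 2)) :=
          mul_le_mul h2 h3 (norm_nonneg _) hv0.le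
      _ = _ := by ring

lemma ef_up : ∃ C U0 : ℝ, 0 < C ∧ 3 ≤ U0 ∧ U0 ≤ 4 ∧
    ∀ (h : ℂ → ℂ) (M δ : ℝ), 0 < δ → 0 ≤ M → Dec h M δ →
      ‖2 * Real.pi * (∑' ρ : Zt, if U0 < (ρ : ℂ).im then (mu ρ : ℂ) * h ((ρ : ℂ) - 1 / 2) else 0) -
        ∫ v in Ioi U0, (Real.log v : ℂ) * h (⟨0, v⟩ : ℂ)‖ ≤
        C * (M + (∫ v : ℝ, ‖h (⟨1, v⟩ : ℂ)‖) + ∫ v : ℝ, ‖h (⟨-1, v⟩ : ℂ)‖) := by
  obtain ⟨C, U0, hC, hU3, hU4, _, hfin⟩ := ef_fin
  refine ⟨C, U0, hC, hU3, hU4, fun h M δ hδ hM hh => ?_⟩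
  choose U2 hU2a hU2b hU2c using fun n : ℕ => hfin h M δ hδ hM hh ((n : ℝ) + 5) (by
    have : (0 : ℝ) ≤ n := Nat.cast_nonneg n
    linarith)
  have hT : Tendsto (fun n : ℕ => (n : ℝ) + 5) atTop atTop :=
    tendsto_atTop_add_const_right _ _ tendsto_natCast_atTop_atTop
  have hU : Tendsto U2 atTop atTop := tendsto_atTop_mono hU2a hT
  have h1 : Tendsto (fun n => SZ h U0 (U2 n)) atTop
      (𝓝 (∑' ρ : Zt, if U0 < (ρ : ℂ).im then (mu ρ : ℂ) * h ((ρ : ℂ) - 1 / 2) else 0)) := by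
    unfold SZ
    refine tendsto_tsum_of_dominated_convergence (dec_summable hδ hM hh) ?_ ?_
    · intro ρ
      refine tendsto_const_nhds.congr' ?_
      filter_upwards [hU.eventually_ge_atTop (ρ : ℂ).im] with n hn
      by_cases h2 : U0 < (ρ : ℂ).im
      · rw [if_pos h2, if_pos ⟨h2, hn⟩]
      · rw [if_neg h2, if_neg (fun h3 => h2 h3.1)]
    · refine Eventually.of_forall fun n ρ => ?_
      split_ifs
      · exact le_rfl
      · rw [norm_zero]; exact norm_nonneg _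
  have h2 : Tendsto (fun n => ∫ v in U0..U2 n, (Real.log v : ℂ) * h (⟨0, v⟩ : ℂ)) atTop
      (𝓝 (∫ v in Ioi U0, (Real.log v : ℂ) * h (⟨0, v⟩ : ℂ))) :=
    intervalIntegral_tendsto_integral_Ioi U0 (dec_log_int hδ hU3 hh) hU
  have h3 := ((h1.const_mul (2 * Real.pi : ℂ)).sub h2).norm
  have h4 : Tendsto (fun n : ℕ => C * (M + (∫ v : ℝ, ‖h (⟨1, v⟩ : ℂ)‖) + ∫ v : ℝ, ‖h (⟨-1, v⟩ : ℂ)‖) +
          C * (Real.log (((n : ℝ) + 5) + 2) ^ 2 * (M * Real.exp (-δ * ((n : ℝ) + 5) ^ 2)))) atTop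
      (𝓝 (C * (M + (∫ v : ℝ, ‖h (⟨1, v⟩ : ℂ)‖) + ∫ v : ℝ, ‖h (⟨-1, v⟩ : ℂ)‖) + 0)) := by
    refine tendsto_const_nhds.add ?_
    have h5 := (((log_sq_exp_tendsto hδ).comp hT).const_mul (C * M))
    rw [mul_zero] at h5
    refine h5.congr fun n => ?_
    simp only [Function.comp]
    ring
  rw [add_zero] at h4
  exact le_of_tendsto_of_tendsto' h3 h4 hU2c

/-- reflection in the real axis -/
lemma dec_conj {h : ℂ → ℂ} {M δ : ℝ} (hh : Dec h M δ) : Dec (fun w => conj (h (conj w))) M δ := by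
  refine ⟨fun w => ?_, fun w hw => ?_⟩
  · have h1 := (hh.1 (conj w)).hasDerivAt.conj_conj
    rw [Complex.conj_conj] at h1
    exact h1.differentiableAt
  · rw [RCLike.norm_conj]
    have := hh.2 (conj w) (by rwa [Complex.conj_re])
    rwa [Complex.conj_im, neg_sq] at this

/-- complex conjugation on the set of zeros -/
noncomputable def cjZ : Zt ≃ Zt where
  toFun ρ := ⟨conj (ρ : ℂ), isZ_conj ρ.2⟩
  invFun ρ := ⟨conj (ρ : ℂ), isZ_conj ρ.2⟩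
  left_inv ρ := by ext1; simp
  right_inv ρ := by ext1; simp

lemma finite_low (R : ℝ) : Set.Finite {ρ : Zt | |(ρ : ℂ).im| ≤ R} := by
  have h := isZ_finite R
  refine Set.Finite.of_finite_image (f := fun ρ : Zt => (ρ : ℂ)) (h.subset ?_) (Subtype.val_injective.injOn)
  rintro s ⟨ρ, hρ, rfl⟩
  exact ⟨ρ.2, hρ⟩

lemma ef_two : ∃ C U0 : ℝ, 0 < C ∧ 3 ≤ U0 ∧ U0 ≤ 4 ∧
    ∀ (h : ℂ → ℂ) (M δ : ℝ), 0 < δ → 0 ≤ M → Dec h M δ →
      ‖2 * Real.pi * (∑' ρ : Zt, (mu ρ : ℂ) * h ((ρ : ℂ) - 1 / 2)) -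
        ((∫ v in Ioi U0, (Real.log v : ℂ) * h (⟨0, v⟩ : ℂ)) + ∫ v in Ioi U0, (Real.log v : ℂ) * h (⟨0, -v⟩ : ℂ))‖ ≤
        C * (M + (∫ v : ℝ, ‖h (⟨1, v⟩ : ℂ)‖) + ∫ v : ℝ, ‖h (⟨-1, v⟩ : ℂ)‖) := by
  classical
  obtain ⟨C, U0, hC, hU3, hU4, hup⟩ := ef_up
  have hlow := finite_low U0
  refine ⟨2 * C + 2 * Real.pi * (∑ ρ ∈ hlow.toFinset, (mu ρ : ℝ)), U0, by positivity, hU3, hU4, fun h M δ hδ hM hh => ?_⟩
  have h1 := hup h M δ hδ hM hh
  have h2 := hup _ M δ hδ hM (dec_conj hh)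
  set J1 := ∫ v : ℝ, ‖h (⟨1, v⟩ : ℂ)‖ with hJ1
  set J2 := ∫ v : ℝ, ‖h (⟨-1, v⟩ : ℂ)‖ with hJ2
  have hc : ∀ x y : ℝ, conj (⟨x, y⟩ : ℂ) = ⟨x, -y⟩ := fun x y => by apply Complex.ext <;> simp
  have e1 : (∫ v : ℝ, ‖conj (h (conj (⟨1, v⟩ : ℂ)))‖) = J1 := by
    rw [hJ1, ← integral_neg_eq_self (fun v => ‖h (⟨1, v⟩ : ℂ)‖) volume]
    refine integral_congr_ae (Eventually.of_forall fun v => ?_)
    show ‖conj (h (conj (⟨1, v⟩ : ℂ)))‖ = ‖h (⟨1, -v⟩ : ℂ)‖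
    rw [RCLike.norm_conj, hc]
  have e2 : (∫ v : ℝ, ‖conj (h (conj (⟨-1, v⟩ : ℂ)))‖) = J2 := by
    rw [hJ2, ← integral_neg_eq_self (fun v => ‖h (⟨-1, v⟩ : ℂ)‖) volume]
    refine integral_congr_ae (Eventually.of_forall fun v => ?_)
    show ‖conj (h (conj (⟨-1, v⟩ : ℂ)))‖ = ‖h (⟨-1, -v⟩ : ℂ)‖
    rw [RCLike.norm_conj, hc]
  have e3 : (∫ v in Ioi U0, (Real.log v : ℂ) * conj (h (conj (⟨0, v⟩ : ℂ)))) =
      conj (∫ v in Ioi U0, (Real.log v : ℂ) * h (⟨0, -v⟩ : ℂ)) := by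
    rw [← integral_conj]
    refine integral_congr_ae (Eventually.of_forall fun v => ?_)
    show (Real.log v : ℂ) * conj (h (conj (⟨0, v⟩ : ℂ))) = conj ((Real.log v : ℂ) * h (⟨0, -v⟩ : ℂ))
    rw [map_mul, Complex.conj_ofReal, hc 0 v]
  set S := fun ρ : Zt => (mu ρ : ℂ) * h ((ρ : ℂ) - 1 / 2) with hS
  have hSs : Summable S := (dec_summable hδ hM hh).of_norm
  have e4 : (∑' ρ : Zt, if U0 < (ρ : ℂ).im then (mu ρ : ℂ) * conj (h (conj ((ρ : ℂ) - 1 / 2))) else 0) =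
      conj (∑' ρ : Zt, if (ρ : ℂ).im < -U0 then S ρ else 0) := by
    rw [Complex.conj_tsum, ← cjZ.tsum_eq]
    refine tsum_congr fun ρ => ?_
    have k1 : ((cjZ ρ : Zt) : ℂ) = conj (ρ : ℂ) := rfl
    rw [k1, Complex.conj_im]
    have k2 : conj (conj (ρ : ℂ) - 1 / 2) = (ρ : ℂ) - 1 / 2 := by
      rw [map_sub, Complex.conj_conj]
      congr 1
      rw [map_div₀, map_one, map_ofNat]
    rw [k2, mu_conj ρ.2]
    by_cases hc2 : (ρ : ℂ).im < -U0
    · rw [if_pos (by linarith), if_pos hc2]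
      simp only [hS, map_mul, Complex.conj_natCast]
    · rw [if_neg (by linarith), if_neg hc2, map_zero]
  rw [e1, e2, e3, e4] at h2
  -- conj
  have h3 : ‖2 * Real.pi * (∑' ρ : Zt, if (ρ : ℂ).im < -U0 then S ρ else 0) -
      ∫ v in Ioi U0, (Real.log v : ℂ) * h (⟨0, -v⟩ : ℂ)‖ ≤ C * (M + J1 + J2) := by
    rw [← RCLike.norm_conj]
    simpa only [map_sub, map_mul, Complex.conj_ofReal, map_ofNat] using h2
  -- splitting of the sum
  have s1 : Summable (fun ρ : Zt => if U0 < (ρ : ℂ).im then S ρ else 0) :=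
    Summable.of_norm_bounded (dec_summable hδ hM hh) fun ρ => by
      split_ifs
      · exact le_rfl
      · rw [norm_zero]; exact norm_nonneg _
  have s2 : Summable (fun ρ : Zt => if (ρ : ℂ).im < -U0 then S ρ else 0) :=
    Summable.of_norm_bounded (dec_summable hδ hM hh) fun ρ => by
      split_ifs
      · exact le_rfl
      · rw [norm_zero]; exact norm_nonneg _
  have s3 : Summable (fun ρ : Zt => if |(ρ : ℂ).im| ≤ U0 then S ρ else 0) :=
    Summable.of_norm_bounded (dec_summable hδ hM hh) fun ρ => by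
      split_ifs
      · exact le_rfl
      · rw [norm_zero]; exact norm_nonneg _
  have hsplit : ∑' ρ : Zt, S ρ = (∑' ρ : Zt, if U0 < (ρ : ℂ).im then S ρ else 0) +
      (∑' ρ : Zt, if (ρ : ℂ).im < -U0 then S ρ else 0) + ∑' ρ : Zt, if |(ρ : ℂ).im| ≤ U0 then S ρ else 0 := by
    rw [← s1.tsum_add s2, ← (s1.add s2).tsum_add s3]
    refine tsum_congr fun ρ => ?_
    have hU0 : 0 < U0 := by linarith
    by_cases k1 : U0 < (ρ : ℂ).im
    · rw [if_pos k1, if_neg (by linarith), if_neg (by rw [abs_le]; rintro ⟨_, k3⟩; linarith)]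
      simp
    · by_cases k2 : (ρ : ℂ).im < -U0
      · rw [if_neg k1, if_pos k2, if_neg (by rw [abs_le]; rintro ⟨k3, _⟩; linarith)]
        simp
      · rw [if_neg k1, if_neg k2, if_pos (by rw [abs_le]; constructor <;> linarith)]
        simp
  have hlowb : ‖∑' ρ : Zt, if |(ρ : ℂ).im| ≤ U0 then S ρ else 0‖ ≤ (∑ ρ ∈ hlow.toFinset, (mu ρ : ℝ)) * M := by
    rw [tsum_eq_sum (s := hlow.toFinset) (fun ρ hρ => by
      rw [Set.Finite.mem_toFinset] at hρ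
      exact if_neg hρ), Finset.sum_mul]
    refine norm_sum_le_of_le _ fun ρ hρ => ?_
    rw [Set.Finite.mem_toFinset] at hρ
    have hρ' : |(ρ : ℂ).im| ≤ U0 := hρ
    rw [if_pos hρ']
    simp only [hS]
    rw [norm_mul, Complex.norm_natCast]
    refine mul_le_mul_of_nonneg_left ?_ (Nat.cast_nonneg _)
    have h4 := hh.2 ((ρ : ℂ) - 1 / 2) (by
      have := ρ.2
      have e : ((ρ : ℂ) - 1 / 2).re = (ρ : ℂ).re - 1 / 2 := by simp
      rw [e, abs_le]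
      constructor <;> linarith [this.2.1, this.2.2])
    refine h4.trans ?_
    have : Real.exp (-δ * ((ρ : ℂ) - 1 / 2).im ^ 2) ≤ 1 := by
      rw [Real.exp_le_one_iff]
      have := sq_nonneg ((ρ : ℂ) - 1 / 2).im
      nlinarith
    nlinarith
  rw [hsplit]
  have key : ∀ A B D X Y : ℂ, 2 * Real.pi * (A + B + D) - (X + Y) =
      (2 * Real.pi * A - X) + (2 * Real.pi * B - Y) + 2 * Real.pi * D := fun _ _ _ _ _ => by ring
  rw [key]
  have hJ10 : 0 ≤ J1 := integral_nonneg fun v => norm_nonneg _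
  have hJ20 : 0 ≤ J2 := integral_nonneg fun v => norm_nonneg _
  have h5 : ‖(2 * Real.pi : ℂ) * (∑' ρ : Zt, if |(ρ : ℂ).im| ≤ U0 then S ρ else 0)‖ ≤
      2 * Real.pi * ((∑ ρ ∈ hlow.toFinset, (mu ρ : ℝ)) * M) := by
    rw [norm_mul]
    have : ‖(2 * Real.pi : ℂ)‖ = 2 * Real.pi := by
      rw [norm_mul, Complex.norm_ofNat, Complex.norm_real, Real.norm_eq_abs, abs_of_pos Real.pi_pos]
    rw [this]
    exact mul_le_mul_of_nonneg_left hlowb (by positivity)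
  have hN : (0 : ℝ) ≤ ∑ ρ ∈ hlow.toFinset, (mu ρ : ℝ) := Finset.sum_nonneg fun _ _ => Nat.cast_nonneg _
  calc _ ≤ C * (M + J1 + J2) + C * (M + J1 + J2) + 2 * Real.pi * ((∑ ρ ∈ hlow.toFinset, (mu ρ : ℝ)) * M) :=
        (norm_add_le _ _).trans (add_le_add ((norm_add_le _ _).trans (add_le_add h1 h3)) h5)
    _ ≤ (2 * C + 2 * Real.pi * (∑ ρ ∈ hlow.toFinset, (mu ρ : ℝ))) * (M + J1 + J2) := by
        set N := ∑ ρ ∈ hlow.toFinset, (mu ρ : ℝ)
        have p1 : 0 ≤ Real.pi * (N * J1) := by positivity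
        have p2 : 0 ≤ Real.pi * (N * J2) := by positivity
        nlinarith

end Pool.Agent.Y23
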