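import Mathlib
import Pool.Agent.TH794.QD.Planch

/-! # Laplace transforms of square integrable functions with compact support -/

set_option autoImplicit false

open MeasureTheory Complex Filter Topology Set
open scoped ComplexConjugate

namespace Pool.Agent.Y23

/-- the two-sided Laplace transform -/
noncomputable def TT (f : ℝ → ℂ) (w : ℂ) : ℂ := ∫ x : ℝ, f x * cexp (w * x)

/-- the square integrable functions which vanish outside `[-a, a]` -/
def Fa (a : ℝ) (f : ℝ → ℂ) : Prop := MemLp f 2 volume ∧ ∀ x : ℝ, a < |x| → f x = 0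

/-- the square of the `L²` norm -/
noncomputable def N2 (f : ℝ → ℂ) : ℝ := ∫ x : ℝ, ‖f x‖ ^ 2

lemma N2_nonneg (f : ℝ → ℂ) : 0 ≤ N2 f := integral_nonneg fun x => by positivity

lemma Fa.sq_int {a : ℝ} {f : ℝ → ℂ} (hf : Fa a f) : Integrable (fun x => ‖f x‖ ^ 2) :=
  hf.1.integrable_norm_pow (by norm_num)

lemma Fa.eq_ind {a : ℝ} {f : ℝ → ℂ} (hf : Fa a f) : (Icc (-a) a).indicator f = f := by
  funext x
  by_cases h : x ∈ Icc (-a) a
  · rw [indicator_of_mem h]
  · rw [indicator_of_notMem h]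
    refine (hf.2 x ?_).symm
    rw [mem_Icc, ← abs_le, not_le] at h
    exact h

lemma Fa.mono {a b : ℝ} {f : ℝ → ℂ} (hf : Fa a f) (h : a ≤ b) : Fa b f :=
  ⟨hf.1, fun x hx => hf.2 x (h.trans_lt hx)⟩

lemma Fa.mul_bdd {a : ℝ} {f g : ℝ → ℂ} (hf : Fa a f) (hg : Continuous g) : Fa a (fun x => f x * g x) := by
  refine ⟨?_, fun x hx => by simp only [hf.2 x hx, zero_mul]⟩
  obtain ⟨C, hC⟩ := (isCompact_Icc (a := -a) (b := a)).exists_bound_of_continuousOn hg.continuousOn
  have e : (fun x => f x * g x) = fun x => f x * (Icc (-a) a).indicator g x := by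
    funext x
    by_cases h : x ∈ Icc (-a) a
    · rw [indicator_of_mem h]
    · rw [indicator_of_notMem h]
      rw [mem_Icc, ← abs_le, not_le] at h
      rw [hf.2 x h, zero_mul, zero_mul]
  rw [e]
  have hb : MemLp (fun x => (Icc (-a) a).indicator g x) ⊤ volume := by
    refine memLp_top_of_bound (hg.aestronglyMeasurable.indicator measurableSet_Icc) (max C 0)
      (Eventually.of_forall fun x => ?_)
    by_cases h : x ∈ Icc (-a) a
    · rw [indicator_of_mem h]
      exact (hC x h).trans (le_max_left _ _)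
    · rw [indicator_of_notMem h, norm_zero]
      exact le_max_right _ _
  exact hb.mul' hf.1

lemma Fa.integrable {a : ℝ} {f : ℝ → ℂ} (hf : Fa a f) : Integrable f := by
  have h1 : IntegrableOn f (Icc (-a) a) := by
    have : IsFiniteMeasure (volume.restrict (Icc (-a) a)) := inferInstance
    exact (hf.1.restrict (Icc (-a) a)).integrable (by norm_num)
  rw [← integrable_indicator_iff measurableSet_Icc, hf.eq_ind] at h1
  exact h1

lemma Fa.integrable_mul {a : ℝ} {f g : ℝ → ℂ} (hf : Fa a f) (hg : Continuous g) :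
    Integrable (fun x => f x * g x) := (hf.mul_bdd hg).integrable

lemma Fa.zero {a : ℝ} : Fa a (fun _ => (0 : ℂ)) := ⟨MemLp.zero', fun _ _ => rfl⟩

lemma Fa.add {a : ℝ} {f g : ℝ → ℂ} (hf : Fa a f) (hg : Fa a g) : Fa a (fun x => f x + g x) :=
  ⟨hf.1.add hg.1, fun x hx => by simp only [hf.2 x hx, hg.2 x hx, add_zero]⟩

lemma Fa.smul {a : ℝ} {f : ℝ → ℂ} (hf : Fa a f) (c : ℂ) : Fa a (fun x => c * f x) :=
  ⟨hf.1.const_mul c, fun x hx => by simp only [hf.2 x hx, mul_zero]⟩

lemma Fa.sub {a : ℝ} {f g : ℝ → ℂ} (hf : Fa a f) (hg : Fa a g) : Fa a (fun x => f x - g x) :=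
  ⟨hf.1.sub hg.1, fun x hx => by simp only [hf.2 x hx, hg.2 x hx, sub_zero]⟩

lemma TT_add {a : ℝ} {f g : ℝ → ℂ} (hf : Fa a f) (hg : Fa a g) (w : ℂ) :
    TT (fun x => f x + g x) w = TT f w + TT g w := by
  unfold TT
  rw [← integral_add (hf.integrable_mul (by fun_prop)) (hg.integrable_mul (by fun_prop))]
  congr 1
  funext x
  ring

lemma TT_sub {a : ℝ} {f g : ℝ → ℂ} (hf : Fa a f) (hg : Fa a g) (w : ℂ) :
    TT (fun x => f x - g x) w = TT f w - TT g w := by
  unfold TT
  rw [← integral_sub (hf.integrable_mul (by fun_prop)) (hg.integrable_mul (by fun_prop))]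
  congr 1
  funext x
  ring

lemma TT_smul (f : ℝ → ℂ) (c : ℂ) (w : ℂ) : TT (fun x => c * f x) w = c * TT f w := by
  unfold TT
  rw [← integral_const_mul]
  congr 1
  funext x
  ring

lemma TT_mul_exp (f : ℝ → ℂ) (v w : ℂ) : TT (fun x => f x * cexp (v * x)) w = TT f (v + w) := by
  unfold TT
  congr 1
  funext x
  rw [mul_assoc, ← Complex.exp_add]
  congr 2
  ring

/-- Cauchy-Schwarz -/
lemma norm_TT_le {a : ℝ} (ha : 0 < a) {f : ℝ → ℂ} (hf : Fa a f) (w : ℂ) :
    ‖TT f w‖ ^ 2 ≤ 2 * a * Real.exp (2 * a * |w.re|) * N2 f := by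
  have h1 : ‖TT f w‖ ≤ ∫ x in Icc (-a) a, ‖f x‖ * Real.exp (a * |w.re|) := by
    unfold TT
    have e : ∫ x : ℝ, f x * cexp (w * x) = ∫ x in Icc (-a) a, f x * cexp (w * x) := by
      rw [← integral_indicator measurableSet_Icc]
      congr 1
      funext x
      by_cases h : x ∈ Icc (-a) a
      · rw [indicator_of_mem h]
      · rw [indicator_of_notMem h]
        rw [mem_Icc, ← abs_le, not_le] at h
        rw [hf.2 x h, zero_mul]
    rw [e]
    refine norm_integral_le_of_norm_le ?_ ?_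
    · exact (hf.integrable.norm.mul_const _).integrableOn
    · refine (ae_restrict_iff' measurableSet_Icc).2 (Eventually.of_forall fun x hx => ?_)
      rw [norm_mul, Complex.norm_exp]
      refine mul_le_mul_of_nonneg_left (Real.exp_le_exp.2 ?_) (norm_nonneg _)
      have h2 : (w * (x : ℂ)).re = w.re * x := by simp
      rw [h2]
      calc w.re * x ≤ |w.re * x| := le_abs_self _
        _ = |w.re| * |x| := abs_mul _ _
        _ ≤ |w.re| * a := mul_le_mul_of_nonneg_left (abs_le.2 hx) (abs_nonneg _)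
        _ = a * |w.re| := mul_comm _ _
  rw [integral_mul_const] at h1
  have h3 : (∫ x in Icc (-a) a, ‖f x‖) ^ 2 ≤ 2 * a * N2 f := by
    have hm : MemLp (fun x => ‖f x‖) 2 (volume.restrict (Icc (-a) a)) := (hf.1.restrict _).norm
    have h4 : (∫ x in Icc (-a) a, ‖f x‖) ^ 2 ≤
        (∫ x in Icc (-a) a, ‖f x‖ ^ 2) * (∫ x in Icc (-a) a, (1 : ℝ) ^ 2) := by
      have h5 := integral_mul_le_Lp_mul_Lq_of_nonneg (μ := volume.restrict (Icc (-a) a))
        (p := 2) (q := 2) (f := fun x => ‖f x‖) (g := fun _ => (1 : ℝ)) (by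
          constructor <;> norm_num) (Eventually.of_forall fun x => norm_nonneg _)
        (Eventually.of_forall fun x => zero_le_one) (by simpa using hm) (by simpa using memLp_const 1)
      have e1 : ∀ g : ℝ → ℝ, (∀ x, 0 ≤ g x) → (∫ x in Icc (-a) a, g x ^ (2 : ℝ)) ^ (1 / (2 : ℝ)) =
          Real.sqrt (∫ x in Icc (-a) a, g x ^ 2) := by
        intro g hg
        rw [Real.sqrt_eq_rpow]
        congr 1
        refine integral_congr_ae (Eventually.of_forall fun x => ?_)
        simp only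
        exact_mod_cast Real.rpow_natCast (g x) 2
      rw [e1 _ (fun x => norm_nonneg _), e1 _ (fun x => zero_le_one)] at h5
      simp only [mul_one] at h5
      have h6 : 0 ≤ ∫ x in Icc (-a) a, ‖f x‖ := integral_nonneg fun x => norm_nonneg _
      have h7 : 0 ≤ ∫ x in Icc (-a) a, ‖f x‖ ^ 2 := integral_nonneg fun x => by positivity
      have h8 : 0 ≤ ∫ x in Icc (-a) a, (1 : ℝ) ^ 2 := integral_nonneg fun x => by positivity
      calc (∫ x in Icc (-a) a, ‖f x‖) ^ 2 ≤ (Real.sqrt (∫ x in Icc (-a) a, ‖f x‖ ^ 2) *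
            Real.sqrt (∫ x in Icc (-a) a, (1 : ℝ) ^ 2)) ^ 2 := pow_le_pow_left₀ h6 h5 2
        _ = _ := by rw [mul_pow, Real.sq_sqrt h7, Real.sq_sqrt h8]
    have h9 : ∫ x in Icc (-a) a, (1 : ℝ) ^ 2 = 2 * a := by
      simp only [one_pow, integral_const, MeasurableSet.univ, measureReal_restrict_apply, univ_inter,
        Real.volume_real_Icc, smul_eq_mul, mul_one]
      rw [max_eq_left (by linarith)]; ring
    have h10 : ∫ x in Icc (-a) a, ‖f x‖ ^ 2 ≤ N2 f :=
      setIntegral_le_integral hf.sq_int (Eventually.of_forall fun x => by positivity)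
    rw [h9] at h4
    nlinarith
  have h11 : 0 ≤ ∫ x in Icc (-a) a, ‖f x‖ := integral_nonneg fun x => norm_nonneg _
  calc ‖TT f w‖ ^ 2 ≤ ((∫ x in Icc (-a) a, ‖f x‖) * Real.exp (a * |w.re|)) ^ 2 :=
        pow_le_pow_left₀ (norm_nonneg _) h1 2
    _ = (∫ x in Icc (-a) a, ‖f x‖) ^ 2 * Real.exp (2 * a * |w.re|) := by
        rw [mul_pow, ← Real.exp_nat_mul]; congr 2; push_cast; ring
    _ ≤ (2 * a * N2 f) * Real.exp (2 * a * |w.re|) := by gcongr
    _ = _ := by ring

end Pool.Agent.Y23
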