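import Pool.Agent.Y23.Fo

set_option autoImplicit false

open MeasureTheory Complex Filter Topology Set FourierTransform
open scoped ComplexConjugate

namespace Pool.Agent.Y23

lemma TT_cont_x (w : ℂ) : Continuous (fun x : ℝ => cexp (w * x)) := by fun_prop

/-- the transform is entire -/
lemma hasDerivAt_TT {a : ℝ} {f : ℝ → ℂ} (hf : Fa a f) (w : ℂ) :
    HasDerivAt (TT f) (TT (fun x => f x * x) w) w := by
  have h1 : ∀ x : ℝ, ∀ v : ℂ, HasDerivAt (fun v : ℂ => f x * cexp (v * x)) (f x * x * cexp (v * x)) v := by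
    intro x v
    have h2 : HasDerivAt (fun v : ℂ => v * (x : ℂ)) x v := by
      simpa using (hasDerivAt_id v).mul_const (x : ℂ)
    have h3 := (h2.cexp).const_mul (f x)
    exact h3.congr_deriv (by ring)
  set R : ℝ := |w.re| + 1 with hR
  have hbd : ∀ x : ℝ, ∀ v ∈ Metric.ball w 1, ‖f x * x * cexp (v * x)‖ ≤ ‖f x‖ * (|a| * Real.exp (R * |a|)) := by
    intro x v hv
    by_cases hx : a < |x|
    · rw [hf.2 x hx]; simp
    · rw [not_lt] at hx
      rw [mul_assoc, norm_mul, norm_mul, Complex.norm_exp]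
      refine mul_le_mul_of_nonneg_left ?_ (norm_nonneg _)
      have hxa : |x| ≤ |a| := hx.trans (le_abs_self a)
      refine mul_le_mul ?_ (Real.exp_le_exp.2 ?_) (Real.exp_pos _).le (abs_nonneg _)
      · simpa using hxa
      · have h4 : |v.re| ≤ R := by
          have h5 : |(v - w).re| ≤ ‖v - w‖ := abs_re_le_norm _
          have h6 : ‖v - w‖ < 1 := by simpa [dist_eq_norm] using hv
          have h7 : v.re = (v - w).re + w.re := by simp
          rw [h7, hR]
          calc |(v - w).re + w.re| ≤ |(v - w).re| + |w.re| := abs_add_le _ _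
            _ ≤ 1 + |w.re| := by linarith
            _ = _ := by ring
        have h8 : (v * (x : ℂ)).re = v.re * x := by simp
        rw [h8]
        calc v.re * x ≤ |v.re * x| := le_abs_self _
          _ = |v.re| * |x| := abs_mul _ _
          _ ≤ R * |a| := mul_le_mul h4 hxa (abs_nonneg _) (by positivity)
  have h := hasDerivAt_integral_of_dominated_loc_of_deriv_le (μ := volume) (F := fun v x => f x * cexp (v * x))
    (F' := fun v x => f x * x * cexp (v * x)) (x₀ := w) (s := Metric.ball w 1)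
    (bound := fun x => ‖f x‖ * (|a| * Real.exp (R * |a|)))
    (Metric.ball_mem_nhds w one_pos)
    (Eventually.of_forall fun v => (hf.integrable_mul (by fun_prop)).aestronglyMeasurable)
    (hf.integrable_mul (by fun_prop))
    (by
      have h9 : Continuous (fun x : ℝ => (x : ℂ) * cexp (w * x)) := by fun_prop
      have h10 := (hf.integrable_mul h9).aestronglyMeasurable
      refine h10.congr (Eventually.of_forall fun x => ?_)
      simp only; ring)
    (Eventually.of_forall fun x v hv => hbd x v hv)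
    (hf.integrable.norm.mul_const _)
    (Eventually.of_forall fun x v _ => h1 x v)
  exact h.2

lemma differentiable_TT {a : ℝ} {f : ℝ → ℂ} (hf : Fa a f) : Differentiable ℂ (TT f) :=
  fun w => (hasDerivAt_TT hf w).differentiableAt

lemma TT_four (f : ℝ → ℂ) (t : ℝ) : TT f (t * I) = 𝓕 f (-t / (2 * Real.pi)) := by
  unfold TT
  rw [Real.fourier_real_eq_integral_exp_smul]
  congr 1
  funext x
  rw [smul_eq_mul, mul_comm]
  congr 2
  push_cast
  have : (Real.pi : ℂ) ≠ 0 := by exact_mod_cast Real.pi_ne_zero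
  field_simp

lemma memLp_four {a : ℝ} {f : ℝ → ℂ} (hf : Fa a f) : MemLp (𝓕 f) 2 volume := by
  have h := TH794.QD.fourier_ae f hf.integrable hf.1
  exact (memLp_congr_ae h).1 (Lp.memLp _)

lemma inner_four {a b : ℝ} {f g : ℝ → ℂ} (hf : Fa a f) (hg : Fa b g) :
    ∫ ξ : ℝ, 𝓕 f ξ * conj (𝓕 g ξ) = ∫ x : ℝ, f x * conj (g x) := by
  have h1 := TH794.QD.fourier_ae f hf.integrable hf.1
  have h2 := TH794.QD.fourier_ae g hg.integrable hg.1
  have h3 := MeasureTheory.Lp.inner_fourier_eq (E := ℝ) (F := ℂ) (hg.1.toLp g) (hf.1.toLp f)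
  obtain ⟨G, hG⟩ : ∃ G : Lp ℂ 2 (volume : Measure ℝ), G = 𝓕 (hg.1.toLp g) := ⟨_, rfl⟩
  obtain ⟨H, hH⟩ : ∃ H : Lp ℂ 2 (volume : Measure ℝ), H = 𝓕 (hf.1.toLp f) := ⟨_, rfl⟩
  rw [← hG, ← hH] at h3
  rw [← hH] at h1
  rw [← hG] at h2
  rw [L2.inner_def, L2.inner_def] at h3
  have e1 : ∫ ξ : ℝ, 𝓕 f ξ * conj (𝓕 g ξ) = ∫ ξ : ℝ, inner ℂ (G ξ) (H ξ) := by
    refine integral_congr_ae ?_
    filter_upwards [h1, h2] with x hx1 hx2
    rw [hx1, hx2]
    rfl
  have e2 : ∫ x : ℝ, f x * conj (g x) = ∫ x : ℝ, inner ℂ ((hg.1.toLp g) x) ((hf.1.toLp f) x) := by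
    refine integral_congr_ae ?_
    filter_upwards [hf.1.coeFn_toLp, hg.1.coeFn_toLp] with x hx1 hx2
    rw [hx1, hx2]
    rfl
  rw [e1, e2]
  exact h3

lemma memLp_TT {a : ℝ} {f : ℝ → ℂ} (hf : Fa a f) : MemLp (fun t : ℝ => TT f (t * I)) 2 volume := by
  have h1 := memLp_four hf
  have h3 : (fun t : ℝ => TT f (t * I)) = fun t => 𝓕 f ((-(2 * Real.pi))⁻¹ * t) := by
    funext t
    rw [TT_four]
    congr 1
    have := Real.pi_ne_zero
    field_simp
  rw [h3]
  have hc : (-(2 * Real.pi))⁻¹ ≠ 0 := by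
    have := Real.pi_ne_zero
    simp [this]
  have hmeas : AEStronglyMeasurable (fun t : ℝ => 𝓕 f ((-(2 * Real.pi))⁻¹ * t)) volume := by
    have h1 : Integrable f := hf.integrable
    have hcont : Continuous (𝓕 f) := by
      exact VectorFourier.fourierIntegral_continuous Real.continuous_fourierChar
        (by exact continuous_inner) h1
    exact (hcont.comp (continuous_const.mul continuous_id)).aestronglyMeasurable
  rw [memLp_two_iff_integrable_sq_norm hmeas]
  have h4 := (memLp_two_iff_integrable_sq_norm h1.1).1 h1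
  exact h4.comp_mul_left' hc

/-- Parseval -/
lemma parseval {a b : ℝ} {f g : ℝ → ℂ} (hf : Fa a f) (hg : Fa b g) :
    ∫ t : ℝ, TT f (t * I) * conj (TT g (t * I)) = 2 * Real.pi * ∫ x : ℝ, f x * conj (g x) := by
  rw [← inner_four hf hg]
  have h3 : ∀ (h : ℝ → ℂ) (t : ℝ), TT h (t * I) = 𝓕 h ((-(2 * Real.pi))⁻¹ * t) := by
    intro h t
    rw [TT_four]
    congr 1
    have := Real.pi_ne_zero
    field_simp
  simp only [h3]
  have h4 := Measure.integral_comp_mul_left (fun ξ : ℝ => 𝓕 f ξ * conj (𝓕 g ξ)) (-(2 * Real.pi))⁻¹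
  rw [h4]
  rw [inv_inv, abs_neg, abs_of_pos (by positivity), real_smul]
  push_cast
  ring

lemma int_TT_mul {a b : ℝ} {f g : ℝ → ℂ} (hf : Fa a f) (hg : Fa b g) :
    Integrable (fun t : ℝ => TT f (t * I) * conj (TT g (t * I))) := by
  have h2 : MemLp (fun t : ℝ => conj (TT g (t * I))) 2 volume := (memLp_TT hg).star
  exact (memLp_TT hf).integrable_mul h2

lemma int_TT_sq {a : ℝ} {f : ℝ → ℂ} (hf : Fa a f) : Integrable (fun t : ℝ => ‖TT f (t * I)‖ ^ 2) :=
  (memLp_TT hf).integrable_norm_pow (by norm_num)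

/-- Plancherel -/
lemma plancherel {a : ℝ} {f : ℝ → ℂ} (hf : Fa a f) :
    ∫ t : ℝ, ‖TT f (t * I)‖ ^ 2 = 2 * Real.pi * N2 f := by
  have h := parseval hf hf
  have e1 : ∫ t : ℝ, TT f (t * I) * conj (TT f (t * I)) = ((∫ t : ℝ, ‖TT f (t * I)‖ ^ 2 : ℝ) : ℂ) := by
    rw [← integral_complex_ofReal]
    congr 1
    funext t
    rw [Complex.mul_conj, Complex.normSq_eq_norm_sq]
  have e2 : ∫ x : ℝ, f x * conj (f x) = ((N2 f : ℝ) : ℂ) := by
    unfold N2
    rw [← integral_complex_ofReal]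
    congr 1
    funext t
    rw [Complex.mul_conj, Complex.normSq_eq_norm_sq]
  rw [e1, e2] at h
  exact_mod_cast h

lemma N2_exp_le {a : ℝ} {f : ℝ → ℂ} (hf : Fa a f) (σ : ℝ) :
    N2 (fun x => f x * cexp ((σ : ℂ) * x)) ≤ Real.exp (2 * a * |σ|) * N2 f := by
  unfold N2
  rw [← integral_const_mul]
  refine integral_mono ((hf.mul_bdd (by fun_prop)).sq_int) (hf.sq_int.const_mul _) fun x => ?_
  simp only
  by_cases hx : a < |x|
  · rw [hf.2 x hx]; simp
  · rw [not_lt] at hx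
    rw [norm_mul, mul_pow, mul_comm]
    refine mul_le_mul_of_nonneg_right ?_ (by positivity)
    rw [Complex.norm_exp, ← Real.exp_nat_mul]
    refine Real.exp_le_exp.2 ?_
    have h8 : ((σ : ℂ) * (x : ℂ)).re = σ * x := by simp
    rw [h8]
    have h9 : σ * x ≤ |σ| * a := by
      calc σ * x ≤ |σ * x| := le_abs_self _
        _ = |σ| * |x| := abs_mul _ _
        _ ≤ _ := mul_le_mul_of_nonneg_left hx (abs_nonneg _)
    push_cast
    nlinarith

lemma TT_line (f : ℝ → ℂ) (σ t : ℝ) : TT f (σ + t * I) = TT (fun x => f x * cexp ((σ : ℂ) * x)) (t * I) := by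
  rw [TT_mul_exp]

lemma int_line_sq {a : ℝ} {f : ℝ → ℂ} (hf : Fa a f) (σ : ℝ) :
    Integrable (fun t : ℝ => ‖TT f (σ + t * I)‖ ^ 2) := by
  simp only [TT_line]
  exact int_TT_sq (hf.mul_bdd (by fun_prop))

lemma line_sq_le {a : ℝ} {f : ℝ → ℂ} (hf : Fa a f) (σ : ℝ) :
    ∫ t : ℝ, ‖TT f (σ + t * I)‖ ^ 2 ≤ 2 * Real.pi * (Real.exp (2 * a * |σ|) * N2 f) := by
  simp only [TT_line]
  rw [plancherel (hf.mul_bdd (by fun_prop))]
  exact mul_le_mul_of_nonneg_left (N2_exp_le hf σ) (by positivity)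

/-- uniqueness -/
lemma eq_zero_of_TT {a : ℝ} {f : ℝ → ℂ} (hf : Fa a f) (h : ∀ t : ℝ, TT f (t * I) = 0) :
    f =ᵐ[volume] 0 := by
  have h1 := plancherel hf
  simp only [h, norm_zero] at h1
  have h2 : N2 f = 0 := by
    have h3 : ∫ _ : ℝ, ((0 : ℝ) ^ 2) = 0 := by simp
    rw [h3] at h1
    have := Real.pi_pos
    nlinarith
  unfold N2 at h2
  rw [integral_eq_zero_iff_of_nonneg (fun x => by positivity) hf.sq_int] at h2
  filter_upwards [h2] with x hx
  simpa using hx

end Pool.Agent.Y23
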