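import Pool.Agent.Y23.Te
import Pool.Agent.Helper242.KK.ShiftLine

/-! # The kernel in the complex strip -/

set_option autoImplicit false
set_option maxHeartbeats 2000000

open Complex Filter Topology Set MeasureTheory
open scoped ComplexConjugate
open Pool.Agent.H24R2.JP (XX)
open Pool.Agent.Helper242.KK (Ph PhC PhC_ofReal continuous_Ph Ph_upper Ph_pos)
open Pool.Agent.Helper242

namespace Pool.Agent.Y23

lemma dexp_bd {κ p : ℝ} (hκ : 0 < κ) (hp : 0 ≤ p) : ∃ C : ℝ, ∀ u : ℝ, 0 ≤ u →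
    p * u + u ^ 2 - κ * Real.exp (2 * u) ≤ C := by
  set U := max 1 (3 * (p + 1) / (4 * κ)) with hU
  refine ⟨(p + 1) * U ^ 2, fun u hu => ?_⟩
  have hU1 : 1 ≤ U := le_max_left _ _
  have hU2 : 3 * (p + 1) / (4 * κ) ≤ U := le_max_right _ _
  rcases le_total u U with h | h
  · have h1 : u ^ 2 ≤ U ^ 2 := pow_le_pow_left₀ hu h 2
    have h2 : u ≤ U ^ 2 := by nlinarith
    have h3 : p * u ≤ p * U ^ 2 := mul_le_mul_of_nonneg_left h2 hp
    have := Real.exp_pos (2 * u)
    nlinarith [mul_pos hκ this]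
  · have h0 : 1 ≤ u := hU1.trans h
    have h1 : 3 * (p + 1) / (4 * κ) ≤ u := hU2.trans h
    rw [div_le_iff₀ (by positivity)] at h1
    have h2 := Real.pow_div_factorial_le_exp (2 * u) (by positivity) 3
    have h3 : (2 * u) ^ 3 / ((3 : ℕ).factorial : ℝ) = 4 / 3 * u ^ 3 := by
      norm_num [Nat.factorial]
      ring
    rw [h3] at h2
    have h4 : κ * (4 / 3 * u ^ 3) ≤ κ * Real.exp (2 * u) := mul_le_mul_of_nonneg_left h2 hκ.le
    have h5 : p * u + u ^ 2 ≤ (p + 1) * u ^ 2 := by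
      have : u ≤ u ^ 2 := by nlinarith
      have := mul_le_mul_of_nonneg_left this hp
      linarith
    have h6 : (p + 1) * u ^ 2 ≤ κ * (4 / 3 * u ^ 3) := by
      have : 0 ≤ u ^ 2 := sq_nonneg u
      nlinarith
    have h7 : 0 ≤ (p + 1) * U ^ 2 := by positivity
    linarith

/-- pointwise bound of the kernel in closed substrips -/
lemma PhiC_bd {Y : ℝ} (hY0 : 0 ≤ Y) (hY : Y < Real.pi / 8) :
    ∃ A : ℝ, 0 < A ∧ ∀ t : ℂ, |t.im| ≤ Y →
      ‖RK.PhiC t‖ ≤ A * Real.exp (9 * |t.re| - Real.pi * Real.cos (4 * t.im) * Real.exp (4 * |t.re|)) := by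
  have hcos : 0 < Real.cos (4 * Y) := Real.cos_pos_of_mem_Ioo ⟨by linarith [Real.pi_pos], by linarith⟩
  have hκ : 0 < Real.pi * Real.cos (4 * Y) := by positivity
  obtain ⟨A, hA, h⟩ := RK.norm_g_le hκ
  have key : ∀ t : ℂ, |t.im| ≤ Y → 0 ≤ t.re →
      ‖RK.PhiC t‖ ≤ A * Real.pi ^ 2 *
        Real.exp (9 * |t.re| - Real.pi * Real.cos (4 * t.im) * Real.exp (4 * |t.re|)) := by
    intro t ht ht0
    have h0 : ((Real.pi : ℂ) * cexp (4 * t)).re = Real.pi * Real.cos (4 * t.im) * Real.exp (4 * t.re) := by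
      rw [RK.re_exp4]; ring
    have h1 : Real.pi * Real.cos (4 * Y) * Real.exp (4 * t.re)
        ≤ ((Real.pi : ℂ) * cexp (4 * t)).re := by
      rw [h0]
      have : Real.cos (4 * Y) ≤ Real.cos (4 * t.im) := by
        rw [← Real.cos_abs (4 * t.im)]
        apply Real.cos_le_cos_of_nonneg_of_le_pi (abs_nonneg _)
        · linarith [Real.pi_pos]
        · rw [abs_mul]; simp; linarith
      have h2 : 0 < Real.pi * Real.exp (4 * t.re) := by positivity
      nlinarith
    have h2 : Real.pi * Real.cos (4 * Y) ≤ ((Real.pi : ℂ) * cexp (4 * t)).re := by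
      refine le_trans ?_ h1
      have : 1 ≤ Real.exp (4 * t.re) := Real.one_le_exp (by linarith)
      nlinarith
    have h3 : ‖(Real.pi : ℂ) * cexp (4 * t)‖ = Real.pi * Real.exp (4 * t.re) := by
      rw [norm_mul, norm_real, Real.norm_of_nonneg Real.pi_pos.le, norm_exp]
      simp
    have h4 := h _ h2
    rw [RK.PhiC, norm_mul, norm_exp, abs_of_nonneg ht0]
    calc Real.exp t.re * ‖RK.g ((Real.pi : ℂ) * cexp (4 * t))‖
        ≤ Real.exp t.re * (A * ‖(Real.pi : ℂ) * cexp (4 * t)‖ ^ 2 *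
          Real.exp (-((Real.pi : ℂ) * cexp (4 * t)).re)) := by gcongr
      _ = Real.exp t.re * (A * (Real.pi * Real.exp (4 * t.re)) ^ 2 *
          Real.exp (-(Real.pi * Real.cos (4 * t.im) * Real.exp (4 * t.re)))) := by
          rw [h3, h0]
      _ = A * Real.pi ^ 2 * (Real.exp t.re * (Real.exp (4 * t.re)) ^ 2 *
          Real.exp (-(Real.pi * Real.cos (4 * t.im) * Real.exp (4 * t.re)))) := by ring
      _ = A * Real.pi ^ 2 *
          Real.exp (9 * t.re - Real.pi * Real.cos (4 * t.im) * Real.exp (4 * t.re)) := by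
          rw [← Real.exp_nat_mul, ← Real.exp_add, ← Real.exp_add]
          congr 2
          push_cast
          ring
  refine ⟨A * Real.pi ^ 2, by positivity, fun t ht => ?_⟩
  rcases le_total 0 t.re with h0 | h0
  · exact key t ht h0
  · have h1 := key (-t) (by simpa using ht) (by simpa using h0)
    rw [RK.PhiC_even (RK.mem_S_of_le hY ht)] at h1
    have e : Real.cos (4 * (-t).im) = Real.cos (4 * t.im) := by
      rw [Complex.neg_im, mul_neg, Real.cos_neg]
    rw [e] at h1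
    simpa using h1

lemma half_mem_S {z : ℂ} (h : |z.im| < Real.pi / 4) : z / 2 ∈ RK.S := by
  simp only [RK.S, Set.mem_ofPred_eq]
  have e : (z / 2).im = z.im / 2 := by simp
  rw [e, abs_div, abs_of_pos (by norm_num : (0 : ℝ) < 2)]
  linarith

lemma PhC_bd {Y : ℝ} (hY0 : 0 ≤ Y) (hY : Y < Real.pi / 4) : ∃ A : ℝ, 0 < A ∧ ∀ z : ℂ, |z.im| ≤ Y →
    ‖PhC z‖ ≤ A * Real.exp (5 * |z.re| - Real.pi * Real.cos (2 * z.im) * Real.exp (2 * |z.re|)) := by
  obtain ⟨A, hA, h⟩ := PhiC_bd (Y := Y / 2) (by linarith) (by linarith)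
  refine ⟨2 * A, by positivity, fun z hz => ?_⟩
  have him : (z / 2).im = z.im / 2 := by simp
  have hre : (z / 2).re = z.re / 2 := by simp
  have h1 := h (z / 2) (by
    rw [him, abs_div, abs_of_pos (by norm_num : (0 : ℝ) < 2)]; linarith)
  rw [him, hre, abs_div, abs_of_pos (by norm_num : (0 : ℝ) < 2)] at h1
  unfold KK.PhC
  rw [norm_mul]
  simp only [norm_ofNat]
  rw [mul_assoc]
  refine mul_le_mul_of_nonneg_left (h1.trans ?_) (by norm_num)
  refine mul_le_mul_of_nonneg_left (Real.exp_le_exp.2 ?_) hA.le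
  have e1 : 4 * (z.im / 2) = 2 * z.im := by ring
  have e2 : 4 * (|z.re| / 2) = 2 * |z.re| := by ring
  rw [e1, e2]
  have := abs_nonneg z.re
  linarith

lemma PhC_diff {z : ℂ} (h : |z.im| < Real.pi / 4) : DifferentiableAt ℂ PhC z := by
  unfold KK.PhC
  have h1 := RK.differentiableAt_PhiC (half_mem_S h)
  have h2 : DifferentiableAt ℂ (fun t : ℂ => RK.PhiC (t / 2)) z :=
    DifferentiableAt.comp (f := fun t : ℂ => t / 2) (g := RK.PhiC) z h1 (differentiableAt_id.div_const 2)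
  exact h2.const_mul 2

lemma PhC_even {z : ℂ} (h : |z.im| < Real.pi / 4) : PhC (-z) = PhC z := by
  unfold KK.PhC
  rw [neg_div, RK.PhiC_even (half_mem_S h)]

/-- the gaussian bound of the kernel times an exponential -/
lemma PhC_gauss {Y : ℝ} (hY0 : 0 ≤ Y) (hY : Y < Real.pi / 4) (w : ℂ) : ∃ K : ℝ, 0 < K ∧ ∀ z : ℂ, |z.im| ≤ Y →
    ‖PhC z * cexp (w * z)‖ ≤ K * Real.exp (-1 * z.re ^ 2) := by
  obtain ⟨A, hA, h⟩ := PhC_bd hY0 hY
  have hc : 0 < Real.cos (2 * Y) := Real.cos_pos_of_mem_Ioo ⟨by linarith [Real.pi_pos], by linarith⟩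
  obtain ⟨C, hC⟩ := dexp_bd (κ := Real.pi * Real.cos (2 * Y)) (p := 5 + |w.re|) (by positivity) (by positivity)
  refine ⟨A * Real.exp (C + |w.im| * Y), by positivity, fun z hz => ?_⟩
  have h1 := h z hz
  have h2 := hC |z.re| (abs_nonneg _)
  rw [sq_abs] at h2
  have h3 : Real.cos (2 * Y) ≤ Real.cos (2 * z.im) := by
    rw [← Real.cos_abs (2 * z.im)]
    apply Real.cos_le_cos_of_nonneg_of_le_pi (abs_nonneg _)
    · linarith [Real.pi_pos]
    · rw [abs_mul]; simp; linarith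
  have h4 : (w * z).re ≤ |w.re| * |z.re| + |w.im| * Y := by
    rw [Complex.mul_re]
    have a1 : w.re * z.re ≤ |w.re| * |z.re| := by rw [← abs_mul]; exact le_abs_self _
    have a2 : -(w.im * z.im) ≤ |w.im| * |z.im| := by rw [← abs_mul]; exact neg_le_abs _
    have a3 : |w.im| * |z.im| ≤ |w.im| * Y := mul_le_mul_of_nonneg_left hz (abs_nonneg _)
    linarith
  rw [norm_mul, Complex.norm_exp]
  calc ‖PhC z‖ * Real.exp (w * z).re ≤
      (A * Real.exp (5 * |z.re| - Real.pi * Real.cos (2 * z.im) * Real.exp (2 * |z.re|))) *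
        Real.exp (|w.re| * |z.re| + |w.im| * Y) :=
        mul_le_mul h1 (Real.exp_le_exp.2 h4) (Real.exp_pos _).le (by positivity)
    _ = A * Real.exp ((5 * |z.re| - Real.pi * Real.cos (2 * z.im) * Real.exp (2 * |z.re|)) +
        (|w.re| * |z.re| + |w.im| * Y)) := by
        rw [Real.exp_add (5 * |z.re| - Real.pi * Real.cos (2 * z.im) * Real.exp (2 * |z.re|))]; ring
    _ ≤ A * Real.exp ((C + |w.im| * Y) + -1 * z.re ^ 2) := by
        refine mul_le_mul_of_nonneg_left (Real.exp_le_exp.2 ?_) hA.le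
        have h5 : Real.pi * Real.cos (2 * Y) * Real.exp (2 * |z.re|) ≤ Real.pi * Real.cos (2 * z.im) * Real.exp (2 * |z.re|) := by
          have : 0 < Real.pi * Real.exp (2 * |z.re|) := by positivity
          nlinarith
        nlinarith
    _ = _ := by rw [Real.exp_add]; ring

/-- the transform of the shifted kernel -/
lemma TT_PhC {y : ℝ} (hy : |y| < Real.pi / 4) (w : ℂ) :
    ∫ x : ℝ, PhC (x + y * I) * cexp (w * x) = cexp (-(w * (y * I))) * (XX w / 8) := by
  obtain ⟨K, hK, hb⟩ := PhC_gauss (abs_nonneg y) hy w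
  have hle : ∀ z : ℂ, z.im ∈ Set.uIcc 0 y → |z.im| ≤ |y| := by
    intro z hz
    rcases le_total 0 y with h | h
    · rw [uIcc_of_le h] at hz
      rw [abs_of_nonneg hz.1, abs_of_nonneg h]; exact hz.2
    · rw [uIcc_of_ge h] at hz
      rw [abs_of_nonpos hz.2, abs_of_nonpos h]; linarith [hz.1]
  have hs := KK.shift_line (H := fun z => PhC z * cexp (w * z)) (a := 0) (b := y) one_pos
    (fun z hz => (PhC_diff ((hle z hz).trans_lt hy)).mul (by fun_prop)) (fun z hz => hb z (hle z hz))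
  have e1 : ∫ t : ℝ, (fun z => PhC z * cexp (w * z)) ((t : ℂ) + ((0 : ℝ) : ℂ) * I) = XX w / 8 := by
    rw [XX_int, mul_div_cancel_left₀ _ (by norm_num : (8 : ℂ) ≠ 0)]
    refine integral_congr_ae (Eventually.of_forall fun t => ?_)
    simp only [ofReal_zero, zero_mul, add_zero]
    rw [PhC_ofReal]
  rw [e1] at hs
  rw [hs, ← integral_const_mul]
  refine integral_congr_ae (Eventually.of_forall fun t => ?_)
  simp only
  rw [mul_left_comm, ← Complex.exp_add]
  congr 2
  ring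

lemma PhC_line_cont {y : ℝ} (hy : |y| < Real.pi / 4) : Continuous (fun x : ℝ => PhC (x + y * I)) := by
  rw [continuous_iff_continuousAt]
  intro x
  have h1 : ContinuousAt PhC ((x : ℂ) + y * I) := (PhC_diff (by simpa using hy)).continuousAt
  exact ContinuousAt.comp (f := fun x : ℝ => (x : ℂ) + y * I) (x := x) h1 (by fun_prop)

lemma PhC_line_int {y : ℝ} (hy : |y| < Real.pi / 4) (w : ℂ) : Integrable (fun x : ℝ => PhC (x + y * I) * cexp (w * x)) := by
  obtain ⟨K, hK, hb⟩ := PhC_gauss (abs_nonneg y) hy w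
  refine ((integrable_exp_neg_mul_sq one_pos).const_mul (K * ‖cexp (-(w * (y * I)))‖)).mono'
    ((PhC_line_cont hy).mul (by fun_prop)).aestronglyMeasurable (Eventually.of_forall fun x => ?_)
  have h1 := hb ((x : ℂ) + y * I) (by simp)
  have h2 : ((x : ℂ) + y * I).re = x := by simp
  rw [h2] at h1
  have e : PhC (x + y * I) * cexp (w * x) = cexp (-(w * (y * I))) * (PhC (x + y * I) * cexp (w * ((x : ℂ) + y * I))) := by
    rw [mul_left_comm, ← Complex.exp_add]
    congr 2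
    ring
  rw [e, norm_mul]
  calc ‖cexp (-(w * (y * I)))‖ * ‖PhC (x + y * I) * cexp (w * ((x : ℂ) + y * I))‖ ≤
      ‖cexp (-(w * (y * I)))‖ * (K * Real.exp (-1 * x ^ 2)) := mul_le_mul_of_nonneg_left h1 (norm_nonneg _)
    _ = _ := by ring

end Pool.Agent.Y23
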