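import Pool.Agent.Y23.Ka1

/-! # Superposition of the shifted kernels -/

set_option autoImplicit false
set_option maxHeartbeats 2000000

open Complex Filter Topology Set MeasureTheory
open scoped ComplexConjugate
open Pool.Agent.H24R2.JP (XX)
open Pool.Agent.Helper242.KK (Ph PhC PhC_ofReal continuous_Ph Ph_upper Ph_pos)
open Pool.Agent.Helper242

namespace Pool.Agent.Y23

/-- the integrand, for a complex angle -/
noncomputable def Fz (L x : ℝ) (z : ℂ) : ℂ := cexp (2 * Real.pi * L * Complex.cos z) * PhC (x + z / 2 * I)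

/-- the superposed kernel -/
noncomputable def fK (L p x : ℝ) : ℂ := ∫ φ in (-p)..p, Fz L x φ

/-- the multiplier -/
noncomputable def AK (L p : ℝ) (w : ℂ) : ℂ :=
  ∫ φ in (-p)..p, cexp (2 * Real.pi * L * Complex.cos φ) * cexp (-(w * (φ / 2 * I)))

lemma norm_wt (L : ℝ) (z : ℂ) :
    ‖cexp (2 * Real.pi * L * Complex.cos z)‖ = Real.exp (2 * Real.pi * L * (Real.cos z.re * Real.cosh z.im)) := by
  rw [Complex.norm_exp]
  congr 1
  have e : (2 * Real.pi * L * Complex.cos z : ℂ) = ((2 * Real.pi * L : ℝ) : ℂ) * Complex.cos z := by push_cast; ring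
  rw [e, Complex.re_ofReal_mul]
  congr 1
  rw [Complex.cos_eq]
  simp only [Complex.sub_re, Complex.mul_re, Complex.mul_im, Complex.I_re, Complex.I_im, mul_zero, mul_one, zero_sub]
  rw [← Complex.ofReal_cos, ← Complex.ofReal_cosh, ← Complex.ofReal_sin, ← Complex.ofReal_sinh]
  simp only [Complex.ofReal_re, Complex.ofReal_im]
  ring

lemma arg_re (x : ℝ) (z : ℂ) : ((x : ℂ) + z / 2 * I).re = x - z.im / 2 := by
  simp only [Complex.add_re, Complex.ofReal_re, Complex.mul_re, Complex.I_re, Complex.I_im, mul_zero, mul_one, zero_sub]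
  have : (z / 2).im = z.im / 2 := by simp
  rw [this]; ring

lemma arg_im (x : ℝ) (z : ℂ) : ((x : ℂ) + z / 2 * I).im = z.re / 2 := by
  simp only [Complex.add_im, Complex.ofReal_im, Complex.mul_im, Complex.I_re, Complex.I_im, mul_zero, mul_one, zero_add, add_zero]
  simp

lemma Fz_diff {L x : ℝ} {z : ℂ} (hz : |z.re| < Real.pi / 2) : DifferentiableAt ℂ (Fz L x) z := by
  unfold Fz
  refine DifferentiableAt.mul (by fun_prop) ?_
  have h1 : DifferentiableAt ℂ PhC ((x : ℂ) + z / 2 * I) := PhC_diff (by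
    rw [arg_im, abs_div, abs_two]; linarith)
  exact DifferentiableAt.comp (f := fun z : ℂ => (x : ℂ) + z / 2 * I) (g := PhC) z h1 (by fun_prop)

/-- the basic bound of the integrand -/
lemma Fz_bd {p : ℝ} (hp0 : 0 ≤ p) (hp : p < Real.pi / 2) : ∃ A : ℝ, 0 < A ∧ ∀ (L x : ℝ) (z : ℂ), 0 < L → 0 ≤ x →
    |z.re| ≤ p → z.im ≤ 0 → ‖Fz L x z‖ ≤ A * Real.exp (5 * (x - z.im / 2)) *
      Real.exp (Real.pi * Real.cos z.re * (L * Real.exp z.im - (Real.exp (2 * x) - L) * Real.exp (-z.im))) := by
  obtain ⟨A, hA, h⟩ := PhC_bd (Y := p / 2) (by linarith) (by linarith)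
  refine ⟨A, hA, fun L x z hL hx hz hz2 => ?_⟩
  have h1 := h ((x : ℂ) + z / 2 * I) (by rw [arg_im, abs_div, abs_two]; linarith)
  rw [arg_re, arg_im, abs_of_nonneg (by linarith : 0 ≤ x - z.im / 2)] at h1
  unfold Fz
  rw [norm_mul, norm_wt]
  have e1 : 2 * (z.re / 2) = z.re := by ring
  have e2 : 2 * (x - z.im / 2) = 2 * x + -z.im := by ring
  rw [e1, e2, Real.exp_add] at h1
  calc Real.exp (2 * Real.pi * L * (Real.cos z.re * Real.cosh z.im)) * ‖PhC ((x : ℂ) + z / 2 * I)‖ ≤
      Real.exp (2 * Real.pi * L * (Real.cos z.re * Real.cosh z.im)) *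
        (A * Real.exp (5 * (x - z.im / 2) - Real.pi * Real.cos z.re * (Real.exp (2 * x) * Real.exp (-z.im)))) :=
        mul_le_mul_of_nonneg_left h1 (Real.exp_pos _).le
    _ = A * (Real.exp (2 * Real.pi * L * (Real.cos z.re * Real.cosh z.im)) *
        Real.exp (5 * (x - z.im / 2) - Real.pi * Real.cos z.re * (Real.exp (2 * x) * Real.exp (-z.im)))) := by ring
    _ = A * (Real.exp (5 * (x - z.im / 2)) *
      Real.exp (Real.pi * Real.cos z.re * (L * Real.exp z.im - (Real.exp (2 * x) - L) * Real.exp (-z.im)))) := by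
        rw [← Real.exp_add (2 * Real.pi * L * (Real.cos z.re * Real.cosh z.im)),
          ← Real.exp_add (5 * (x - z.im / 2)) (Real.pi * Real.cos z.re * (L * Real.exp z.im - (Real.exp (2 * x) - L) * Real.exp (-z.im)))]
        congr 2
        rw [Real.cosh_eq]
        ring
    _ = _ := by ring

/-- the superposed kernel is even -/
lemma fK_even {L p x : ℝ} (hp0 : 0 ≤ p) (hp : p < Real.pi / 2) : fK L p (-x) = fK L p x := by
  unfold fK
  have h := intervalIntegral.integral_comp_neg (a := -p) (b := p) (fun φ : ℝ => Fz L x φ)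
  rw [neg_neg] at h
  rw [← h]
  refine intervalIntegral.integral_congr fun φ hφ => ?_
  rw [uIcc_of_le (by linarith), mem_Icc, ← abs_le] at hφ
  show Fz L (-x) φ = Fz L x ((-φ : ℝ) : ℂ)
  unfold Fz
  have e1 : Complex.cos ((-φ : ℝ) : ℂ) = Complex.cos φ := by push_cast; rw [Complex.cos_neg]
  have e2 : (x : ℂ) + ((-φ : ℝ) : ℂ) / 2 * I = -(((-x : ℝ) : ℂ) + φ / 2 * I) := by push_cast; ring
  rw [e1, e2, PhC_even (by
    rw [arg_im, Complex.ofReal_re, abs_div, abs_two]; linarith)]

/-- the tail bound of the superposed kernel -/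
lemma fK_tail {p σ : ℝ} (hp0 : 0 ≤ p) (hp : p < Real.pi / 2) (hσ : 0 ≤ σ) : ∃ C : ℝ, 0 < C ∧ ∀ L x : ℝ, 0 < L → 0 ≤ x →
    L ≤ Real.exp (2 * x) → ‖fK L p x‖ ≤ C * Real.exp (5 * x) *
      Real.exp (Real.pi * L * (Real.cos p + Real.exp (-σ)) - Real.pi * Real.cos p * (Real.exp (2 * x) - L)) := by
  obtain ⟨A, hA, hb⟩ := Fz_bd hp0 hp
  have hcp : 0 < Real.cos p := Real.cos_pos_of_mem_Ioo ⟨by linarith [Real.pi_pos], hp⟩
  refine ⟨A * Real.exp (5 * (σ / 2)) * (2 * p + 2 * σ + 1), by positivity, fun L x hL hx hLx => ?_⟩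
  have hD : 0 ≤ Real.exp (2 * x) - L := by linarith
  -- the contour shift
  have hs := Complex.integral_boundary_rect_eq_zero_of_differentiableOn (Fz L x) (⟨-p, -σ⟩ : ℂ) (⟨p, 0⟩ : ℂ) (by
    intro z hz
    have h1 := hz.1
    rw [mem_preimage] at h1
    simp only at h1
    rw [uIcc_of_le (by linarith), mem_Icc, ← abs_le] at h1
    exact (Fz_diff (h1.trans_lt hp)).differentiableWithinAt)
  simp only [Complex.ofReal_neg, Complex.ofReal_zero, zero_mul, add_zero, smul_eq_mul] at hs
  have e0 : fK L p x = (∫ y in (-p)..p, Fz L x (y + -σ * I)) + I * (∫ y in (-σ)..0, Fz L x (p + y * I)) -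
      I * ∫ y in (-σ)..0, Fz L x (-p + y * I) := by
    unfold fK
    linear_combination -hs
  set B := Real.exp (Real.pi * L * (Real.cos p + Real.exp (-σ)) - Real.pi * Real.cos p * (Real.exp (2 * x) - L)) with hB
  have hπL : 0 < Real.pi * L := by positivity
  -- bottom
  have b1 : ‖∫ y in (-p)..p, Fz L x (y + -σ * I)‖ ≤ (A * Real.exp (5 * (σ / 2)) * Real.exp (5 * x) * B) * |p - -p| := by
    apply intervalIntegral.norm_integral_le_of_norm_le_const
    intro y hy
    rw [uIoc_of_le (by linarith)] at hy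
    have hre : ((y : ℂ) + -σ * I).re = y := by simp
    have him : ((y : ℂ) + -σ * I).im = -σ := by simp
    have hy' : |y| ≤ p := by rw [abs_le]; constructor <;> linarith [hy.1, hy.2]
    have h1 := hb L x ((y : ℂ) + -σ * I) hL hx (by rw [hre]; exact hy') (by rw [him]; linarith)
    rw [hre, him, neg_neg] at h1
    have hc1 : Real.cos p ≤ Real.cos y := by
      rw [← Real.cos_abs y]
      exact Real.cos_le_cos_of_nonneg_of_le_pi (abs_nonneg _) (by linarith) hy'
    have hc2 : Real.cos y ≤ 1 := Real.cos_le_one _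
    have hc0 : 0 ≤ Real.cos y := hcp.le.trans hc1
    have h2 : Real.pi * Real.cos y * (L * Real.exp (-σ) - (Real.exp (2 * x) - L) * Real.exp σ) ≤
        Real.pi * L * (Real.cos p + Real.exp (-σ)) - Real.pi * Real.cos p * (Real.exp (2 * x) - L) := by
      have a1 : Real.pi * Real.cos y * (L * Real.exp (-σ)) ≤ Real.pi * L * Real.exp (-σ) := by
        have : 0 < Real.pi * L * Real.exp (-σ) := by positivity
        nlinarith
      have a2 : Real.cos p * (Real.exp (2 * x) - L) ≤ Real.cos y * ((Real.exp (2 * x) - L) * Real.exp σ) := by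
        have a3 : 1 ≤ Real.exp σ := Real.one_le_exp hσ
        have a4 : (Real.exp (2 * x) - L) * 1 ≤ (Real.exp (2 * x) - L) * Real.exp σ := mul_le_mul_of_nonneg_left a3 hD
        have a5 : 0 ≤ (Real.exp (2 * x) - L) * Real.exp σ := by positivity
        nlinarith
      have a6 := mul_le_mul_of_nonneg_left a2 Real.pi_pos.le
      have a7 : 0 ≤ Real.pi * L * Real.cos p := by positivity
      linarith
    refine h1.trans ?_
    have e5 : x - -σ / 2 = σ / 2 + x := by ring
    rw [e5, mul_add, Real.exp_add]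
    have h3 := Real.exp_le_exp.2 h2
    rw [← hB] at h3
    calc A * (Real.exp (5 * (σ / 2)) * Real.exp (5 * x)) * _ ≤ A * (Real.exp (5 * (σ / 2)) * Real.exp (5 * x)) * B :=
          mul_le_mul_of_nonneg_left h3 (by positivity)
      _ = _ := by ring
  -- sides
  have hside : ∀ q : ℝ, |q| = p → ‖∫ y in (-σ)..0, Fz L x (q + y * I)‖ ≤
      (A * Real.exp (5 * (σ / 2)) * Real.exp (5 * x) * B) * |0 - -σ| := by
    intro q hq
    apply intervalIntegral.norm_integral_le_of_norm_le_const
    intro y hy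
    rw [uIoc_of_le (by linarith)] at hy
    have hre : ((q : ℂ) + y * I).re = q := by simp
    have him : ((q : ℂ) + y * I).im = y := by simp
    have h1 := hb L x ((q : ℂ) + y * I) hL hx (by rw [hre, hq]) (by rw [him]; linarith [hy.2])
    rw [hre, him] at h1
    have hcq : Real.cos q = Real.cos p := by rw [← Real.cos_abs q, hq]
    rw [hcq] at h1
    have h2 : Real.pi * Real.cos p * (L * Real.exp y - (Real.exp (2 * x) - L) * Real.exp (-y)) ≤
        Real.pi * L * (Real.cos p + Real.exp (-σ)) - Real.pi * Real.cos p * (Real.exp (2 * x) - L) := by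
      have a0 : Real.exp y ≤ 1 := by rw [Real.exp_le_one_iff]; exact hy.2
      have a1 : L * Real.exp y ≤ L := by nlinarith
      have a3 : 1 ≤ Real.exp (-y) := Real.one_le_exp (by linarith [hy.2])
      have a4 : (Real.exp (2 * x) - L) * 1 ≤ (Real.exp (2 * x) - L) * Real.exp (-y) := mul_le_mul_of_nonneg_left a3 hD
      have a5 : L * Real.exp y - (Real.exp (2 * x) - L) * Real.exp (-y) ≤ L - (Real.exp (2 * x) - L) := by linarith
      have a6 := mul_le_mul_of_nonneg_left a5 (by positivity : 0 ≤ Real.pi * Real.cos p)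
      have a7 : 0 ≤ Real.pi * L * Real.exp (-σ) := by positivity
      linarith
    refine h1.trans ?_
    have e5 : Real.exp (5 * (x - y / 2)) ≤ Real.exp (5 * (σ / 2)) * Real.exp (5 * x) := by
      rw [← Real.exp_add]
      apply Real.exp_le_exp.2
      linarith [hy.1]
    have h3 := Real.exp_le_exp.2 h2
    rw [← hB] at h3
    calc A * Real.exp (5 * (x - y / 2)) * _ ≤ A * (Real.exp (5 * (σ / 2)) * Real.exp (5 * x)) * B :=
          mul_le_mul (mul_le_mul_of_nonneg_left e5 hA.le) h3 (Real.exp_pos _).le (by positivity)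
      _ = _ := by ring
  have b2 := hside p (abs_of_nonneg hp0)
  have b3 := hside (-p) (by rw [abs_neg, abs_of_nonneg hp0])
  rw [Complex.ofReal_neg] at b3
  rw [e0]
  have hq1 : |p - -p| = 2 * p := by rw [abs_of_nonneg (by linarith)]; ring
  have hq2 : |0 - -σ| = σ := by rw [abs_of_nonneg (by linarith)]; ring
  rw [hq1] at b1
  rw [hq2] at b2 b3
  set Q := A * Real.exp (5 * (σ / 2)) * Real.exp (5 * x) * B with hQ
  have hQ0 : 0 < Q := by positivity
  calc ‖(∫ y in (-p)..p, Fz L x (y + -σ * I)) + I * (∫ y in (-σ)..0, Fz L x (p + y * I)) -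
      I * ∫ y in (-σ)..0, Fz L x (-p + y * I)‖ ≤ Q * (2 * p) + Q * σ + Q * σ := by
        refine (norm_sub_le _ _).trans (add_le_add ((norm_add_le _ _).trans (add_le_add b1 ?_)) ?_)
        · rw [norm_mul, norm_I, one_mul]; exact b2
        · rw [norm_mul, norm_I, one_mul]; exact b3
    _ ≤ Q * (2 * p + 2 * σ + 1) := by linarith
    _ = _ := by rw [hQ]; ring

end Pool.Agent.Y23
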