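import Pool.Agent.Y23.Ka2

/-! # The transform of the superposed kernel -/

set_option autoImplicit false
set_option maxHeartbeats 2000000

open Complex Filter Topology Set MeasureTheory
open scoped ComplexConjugate
open Pool.Agent.H24R2.JP (XX)
open Pool.Agent.Helper242.KK (Ph PhC PhC_ofReal continuous_Ph Ph_upper Ph_pos)
open Pool.Agent.Helper242

namespace Pool.Agent.Y23

/-- clamping of an angle -/
noncomputable def cl (p φ : ℝ) : ℝ := max (-p) (min p φ)

lemma cl_cont (p : ℝ) : Continuous (cl p) := by unfold cl; fun_prop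

lemma cl_abs {p : ℝ} (hp : 0 ≤ p) (φ : ℝ) : |cl p φ| ≤ p := by
  unfold cl
  rw [abs_le]
  exact ⟨le_max_left _ _, max_le (by linarith) (min_le_left _ _)⟩

lemma cl_eq {p φ : ℝ} (h : |φ| ≤ p) : cl p φ = φ := by
  unfold cl
  rw [abs_le] at h
  rw [min_eq_right h.2, max_eq_right h.1]

/-- joint continuity -/
lemma Fz_cl_cont {L p : ℝ} (hp0 : 0 ≤ p) (hp : p < Real.pi / 2) :
    Continuous (fun q : ℝ × ℝ => Fz L q.1 ((cl p q.2 : ℝ) : ℂ)) := by
  unfold Fz
  refine Continuous.mul ?_ ?_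
  · exact Complex.continuous_exp.comp (continuous_const.mul (Complex.continuous_cos.comp
      (Complex.continuous_ofReal.comp ((cl_cont p).comp continuous_snd))))
  · rw [continuous_iff_continuousAt]
    intro q
    have h1 : ContinuousAt PhC ((q.1 : ℂ) + ((cl p q.2 : ℝ) : ℂ) / 2 * I) := (PhC_diff (by
      rw [arg_im, Complex.ofReal_re, abs_div, abs_two]
      have := cl_abs hp0 q.2
      linarith)).continuousAt
    have h2 : Continuous (fun q : ℝ × ℝ => (q.1 : ℂ) + ((cl p q.2 : ℝ) : ℂ) / 2 * I) := by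
      refine Continuous.add (Complex.continuous_ofReal.comp continuous_fst) (Continuous.mul (Continuous.div_const ?_ _) continuous_const)
      exact Complex.continuous_ofReal.comp ((cl_cont p).comp continuous_snd)
    exact ContinuousAt.comp (f := fun q : ℝ × ℝ => (q.1 : ℂ) + ((cl p q.2 : ℝ) : ℂ) / 2 * I) (x := q) h1 h2.continuousAt

lemma fK_cl {L p : ℝ} (hp0 : 0 ≤ p) (x : ℝ) : fK L p x = ∫ φ in (-p)..p, Fz L x ((cl p φ : ℝ) : ℂ) := by
  unfold fK
  refine intervalIntegral.integral_congr fun φ hφ => ?_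
  rw [uIcc_of_le (by linarith), mem_Icc, ← abs_le] at hφ
  simp only [cl_eq hφ]

lemma fK_cont {L p : ℝ} (hp0 : 0 ≤ p) (hp : p < Real.pi / 2) : Continuous (fK L p) := by
  have : fK L p = fun x => ∫ φ in (-p)..p, Fz L x ((cl p φ : ℝ) : ℂ) := by
    funext x; exact fK_cl hp0 x
  rw [this]
  exact intervalIntegral.continuous_parametric_intervalIntegral_of_continuous' (Fz_cl_cont hp0 hp) _ _

/-- the gaussian bound -/
lemma Fz_gauss {p : ℝ} (hp0 : 0 ≤ p) (hp : p < Real.pi / 2) (w : ℂ) : ∃ K : ℝ, 0 < K ∧ ∀ (L x φ : ℝ), 0 < L → |φ| ≤ p →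
    ‖Fz L x φ * cexp (w * x)‖ ≤ K * Real.exp (2 * Real.pi * L) * Real.exp (-1 * x ^ 2) := by
  obtain ⟨K, hK, h⟩ := PhC_gauss (Y := p / 2) (by linarith) (by linarith) w
  refine ⟨K * Real.exp (|w.im| * (p / 2) + |w.re| * (p / 2)), by positivity, fun L x φ hL hφ => ?_⟩
  have h1 := h ((x : ℂ) + φ / 2 * I) (by rw [arg_im, Complex.ofReal_re, abs_div, abs_two]; linarith)
  have hre : ((x : ℂ) + φ / 2 * I).re = x := by rw [arg_re]; simp
  rw [hre] at h1
  have e : Fz L x φ * cexp (w * x) = cexp (2 * Real.pi * L * Complex.cos φ) * (cexp (-(w * (φ / 2 * I))) *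
      (PhC ((x : ℂ) + φ / 2 * I) * cexp (w * ((x : ℂ) + φ / 2 * I)))) := by
    unfold Fz
    have : cexp (w * x) = cexp (-(w * (φ / 2 * I))) * cexp (w * ((x : ℂ) + φ / 2 * I)) := by
      rw [← Complex.exp_add]; congr 1; ring
    rw [this]; ring
  rw [e, norm_mul, norm_mul, norm_wt, Complex.ofReal_re, Complex.ofReal_im, Real.cosh_zero, mul_one]
  have h2 : ‖cexp (-(w * (φ / 2 * I)))‖ ≤ Real.exp (|w.im| * (p / 2) + |w.re| * (p / 2)) := by
    rw [Complex.norm_exp]
    refine Real.exp_le_exp.2 ?_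
    have e3 : (-(w * (φ / 2 * I))).re = w.im * (φ / 2) := by
      have : (φ / 2 : ℂ) = ((φ / 2 : ℝ) : ℂ) := by push_cast; ring
      rw [this]
      simp only [Complex.neg_re, Complex.mul_re, Complex.mul_im, Complex.ofReal_re, Complex.ofReal_im, Complex.I_re, Complex.I_im]
      ring
    rw [e3]
    have h4 : w.im * (φ / 2) ≤ |w.im| * |φ / 2| := by rw [← abs_mul]; exact le_abs_self _
    have h5 : |φ / 2| ≤ p / 2 := by rw [abs_div, abs_two]; linarith
    have h6 : |w.im| * |φ / 2| ≤ |w.im| * (p / 2) := mul_le_mul_of_nonneg_left h5 (abs_nonneg _)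
    have h7 : 0 ≤ |w.re| * (p / 2) := by positivity
    linarith
  have h3 : Real.exp (2 * Real.pi * L * Real.cos φ) ≤ Real.exp (2 * Real.pi * L) := by
    refine Real.exp_le_exp.2 ?_
    have := Real.cos_le_one φ
    have : 0 < 2 * Real.pi * L := by positivity
    nlinarith
  calc Real.exp (2 * Real.pi * L * Real.cos φ) * (‖cexp (-(w * (φ / 2 * I)))‖ * _) ≤
      Real.exp (2 * Real.pi * L) * (Real.exp (|w.im| * (p / 2) + |w.re| * (p / 2)) * (K * Real.exp (-1 * x ^ 2))) :=
        mul_le_mul h3 (mul_le_mul h2 h1 (norm_nonneg _) (Real.exp_pos _).le) (by positivity) (Real.exp_pos _).le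
    _ = _ := by ring

lemma fK_gauss {p : ℝ} (hp0 : 0 ≤ p) (hp : p < Real.pi / 2) (w : ℂ) : ∃ K : ℝ, 0 < K ∧ ∀ (L x : ℝ), 0 < L →
    ‖fK L p x * cexp (w * x)‖ ≤ K * Real.exp (2 * Real.pi * L) * Real.exp (-1 * x ^ 2) := by
  obtain ⟨K, hK, h⟩ := Fz_gauss hp0 hp w
  refine ⟨K * (2 * p + 1), by positivity, fun L x hL => ?_⟩
  unfold fK
  rw [← intervalIntegral.integral_mul_const]
  have h1 : ‖∫ φ in (-p)..p, Fz L x φ * cexp (w * x)‖ ≤ (K * Real.exp (2 * Real.pi * L) * Real.exp (-1 * x ^ 2)) * |p - -p| := by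
    apply intervalIntegral.norm_integral_le_of_norm_le_const
    intro φ hφ
    rw [uIoc_of_le (by linarith)] at hφ
    exact h L x φ hL (by rw [abs_le]; constructor <;> linarith [hφ.1, hφ.2])
  have h2 : |p - -p| = 2 * p := by rw [abs_of_nonneg (by linarith)]; ring
  rw [h2] at h1
  refine h1.trans ?_
  have : 0 < K * Real.exp (2 * Real.pi * L) * Real.exp (-1 * x ^ 2) := by positivity
  nlinarith

lemma fK_int {L p : ℝ} (hL : 0 < L) (hp0 : 0 ≤ p) (hp : p < Real.pi / 2) (w : ℂ) :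
    Integrable (fun x : ℝ => fK L p x * cexp (w * x)) := by
  obtain ⟨K, hK, h⟩ := fK_gauss hp0 hp w
  exact ((integrable_exp_neg_mul_sq one_pos).const_mul (K * Real.exp (2 * Real.pi * L))).mono'
    ((fK_cont hp0 hp).mul (by fun_prop)).aestronglyMeasurable (Eventually.of_forall fun x => h L x hL)

/-- the transform of the superposed kernel -/
lemma TT_fK {L p : ℝ} (hL : 0 < L) (hp0 : 0 ≤ p) (hp : p < Real.pi / 2) (w : ℂ) :
    ∫ x : ℝ, fK L p x * cexp (w * x) = AK L p w * (XX w / 8) := by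
  obtain ⟨K, hK, h⟩ := Fz_gauss hp0 hp w
  have e1 : ∀ x : ℝ, fK L p x * cexp (w * x) = ∫ φ in (-p)..p, Fz L x ((cl p φ : ℝ) : ℂ) * cexp (w * x) := by
    intro x
    rw [fK_cl hp0, intervalIntegral.integral_mul_const]
  simp only [e1]
  simp only [intervalIntegral.integral_of_le (by linarith : -p ≤ p)]
  have hcont : Continuous (fun q : ℝ × ℝ => Fz L q.1 ((cl p q.2 : ℝ) : ℂ) * cexp (w * q.1)) := by
    refine (Fz_cl_cont hp0 hp).mul (Complex.continuous_exp.comp (continuous_const.mul (Complex.continuous_ofReal.comp continuous_fst)))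
  have hint : Integrable (Function.uncurry fun (x φ : ℝ) => Fz L x ((cl p φ : ℝ) : ℂ) * cexp (w * x))
      (volume.prod (volume.restrict (Ioc (-p) p))) := by
    have h2 : Integrable (fun q : ℝ × ℝ => K * Real.exp (2 * Real.pi * L) * Real.exp (-1 * q.1 ^ 2))
        (volume.prod (volume.restrict (Ioc (-p) p))) :=
      ((integrable_exp_neg_mul_sq one_pos).const_mul (K * Real.exp (2 * Real.pi * L))).comp_fst _
    refine h2.mono' hcont.aestronglyMeasurable (Eventually.of_forall fun q => ?_)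
    exact h L q.1 _ hL (cl_abs hp0 q.2)
  rw [integral_integral_swap hint]
  unfold AK
  rw [intervalIntegral.integral_of_le (by linarith : -p ≤ p), ← integral_mul_const]
  refine setIntegral_congr_fun measurableSet_Ioc fun φ hφ => ?_
  have hφ' : |φ| ≤ p := by rw [abs_le]; constructor <;> linarith [hφ.1, hφ.2]
  simp only [cl_eq hφ']
  have h3 := TT_PhC (y := φ / 2) (by rw [abs_div, abs_two]; linarith) w
  have e2 : ((φ / 2 : ℝ) : ℂ) = (φ : ℂ) / 2 := by push_cast; ring
  rw [e2] at h3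
  unfold Fz
  have e3 : ∀ x : ℝ, cexp (2 * Real.pi * L * Complex.cos φ) * PhC (x + φ / 2 * I) * cexp (w * x) =
      cexp (2 * Real.pi * L * Complex.cos φ) * (PhC (x + φ / 2 * I) * cexp (w * x)) := fun x => by ring
  simp only [e3]
  rw [integral_const_mul, h3]
  ring

/-- the truncated superposed kernel -/
noncomputable def uK (L p b : ℝ) (x : ℝ) : ℂ := (Icc (-b) b).indicator (fK L p) x

/-- its tail -/
noncomputable def tK (L p b : ℝ) (w : ℂ) : ℂ := ∫ x in (Icc (-b) b)ᶜ, fK L p x * cexp (w * x)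

lemma Fa_uK {L p b : ℝ} (hp0 : 0 ≤ p) (hp : p < Real.pi / 2) : Fa b (uK L p b) := by
  obtain ⟨C, hC⟩ := (isCompact_Icc (a := -b) (b := b)).exists_bound_of_continuousOn (fK_cont (L := L) hp0 hp).continuousOn
  refine Fa_bdd ?_ (C := max C 0) ?_ ?_
  · exact (fK_cont hp0 hp).aestronglyMeasurable.indicator measurableSet_Icc
  · intro x
    unfold uK
    by_cases h : x ∈ Icc (-b) b
    · rw [indicator_of_mem h]; exact (hC x h).trans (le_max_left _ _)
    · rw [indicator_of_notMem h, norm_zero]; exact le_max_right _ _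
  · intro x hx
    unfold uK
    rw [indicator_of_notMem]
    rw [mem_Icc, ← abs_le]
    exact not_le.2 hx

lemma TT_uK {L p b : ℝ} (hL : 0 < L) (hp0 : 0 ≤ p) (hp : p < Real.pi / 2) (w : ℂ) :
    TT (uK L p b) w = AK L p w * (XX w / 8) - tK L p b w := by
  rw [← TT_fK hL hp0 hp w]
  have h1 := integral_add_compl (measurableSet_Icc (a := -b) (b := b)) (fK_int hL hp0 hp w)
  rw [← h1]
  unfold tK
  rw [add_sub_cancel_right]
  unfold TT uK
  rw [← integral_indicator measurableSet_Icc]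
  refine integral_congr_ae (Eventually.of_forall fun x => ?_)
  simp only
  by_cases h : x ∈ Icc (-b) b
  · rw [indicator_of_mem h, indicator_of_mem h]
  · rw [indicator_of_notMem h, indicator_of_notMem h, zero_mul]

lemma N2_uK {p : ℝ} (hp0 : 0 ≤ p) (hp : p < Real.pi / 2) : ∃ C : ℝ, 0 < C ∧ ∀ L b : ℝ, 0 < L →
    N2 (uK L p b) ≤ C * Real.exp (4 * Real.pi * L) := by
  obtain ⟨K, hK, h⟩ := fK_gauss hp0 hp 0
  have hi : Integrable (fun x : ℝ => Real.exp (-2 * x ^ 2)) := integrable_exp_neg_mul_sq two_pos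
  refine ⟨K ^ 2 * (∫ x : ℝ, Real.exp (-2 * x ^ 2)) + 1, ?_, fun L b hL => ?_⟩
  · have : 0 ≤ ∫ x : ℝ, Real.exp (-2 * x ^ 2) := integral_nonneg fun x => (Real.exp_pos _).le
    positivity
  · unfold N2
    have h1 : ∫ x : ℝ, ‖uK L p b x‖ ^ 2 ≤ ∫ x : ℝ, (K ^ 2 * Real.exp (4 * Real.pi * L)) * Real.exp (-2 * x ^ 2) := by
      refine integral_mono (Fa_uK hp0 hp).sq_int (hi.const_mul _) fun x => ?_
      simp only
      have h2 : ‖uK L p b x‖ ≤ K * Real.exp (2 * Real.pi * L) * Real.exp (-1 * x ^ 2) := by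
        unfold uK
        by_cases hx : x ∈ Icc (-b) b
        · rw [indicator_of_mem hx]
          have := h L x hL
          simpa using this
        · rw [indicator_of_notMem hx, norm_zero]; positivity
      have h3 := pow_le_pow_left₀ (norm_nonneg _) h2 2
      refine h3.trans (le_of_eq ?_)
      rw [mul_pow, mul_pow, ← Real.exp_nat_mul, ← Real.exp_nat_mul]
      have a1 : ((2 : ℕ) : ℝ) * (2 * Real.pi * L) = 4 * Real.pi * L := by push_cast; ring
      have a2 : ((2 : ℕ) : ℝ) * (-1 * x ^ 2) = -2 * x ^ 2 := by push_cast; ring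
      rw [a1, a2]
    rw [integral_const_mul] at h1
    have : 0 ≤ Real.exp (4 * Real.pi * L) := (Real.exp_pos _).le
    nlinarith

/-- the tail bound -/
lemma tK_bound {p σ : ℝ} (hp0 : 0 ≤ p) (hp : p < Real.pi / 2) (hσ : 0 ≤ σ) : ∃ C : ℝ, 0 < C ∧ ∀ b : ℝ, 0 ≤ b → ∀ w : ℂ,
    |w.re| ≤ 1 → ‖tK (Real.exp (2 * b)) p b w‖ ≤
      C * Real.exp (6 * b) * Real.exp (Real.pi * Real.exp (2 * b) * (Real.cos p + Real.exp (-σ))) := by
  obtain ⟨A, hA, hf⟩ := fK_tail hp0 hp hσ
  have hcp : 0 < Real.cos p := Real.cos_pos_of_mem_Ioo ⟨by linarith [Real.pi_pos], hp⟩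
  obtain ⟨C, hC⟩ := dexp_bd (κ := Real.pi * Real.cos p) (p := 6) (by positivity) (by norm_num)
  have hi : Integrable (fun x : ℝ => Real.exp (-1 * x ^ 2)) := integrable_exp_neg_mul_sq one_pos
  set J := ∫ x : ℝ, Real.exp (-1 * x ^ 2) with hJ
  have hJ0 : 0 ≤ J := integral_nonneg fun x => (Real.exp_pos _).le
  refine ⟨A * Real.exp (C + Real.pi * Real.cos p) * (2 * J + 1), by positivity, fun b hb w hw => ?_⟩
  set L := Real.exp (2 * b) with hL
  have hL0 : 0 < L := Real.exp_pos _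
  have hL1 : 1 ≤ L := Real.one_le_exp (by linarith)
  set B := Real.exp (6 * b) * Real.exp (Real.pi * L * (Real.cos p + Real.exp (-σ))) with hB
  have hB0 : 0 < B := by positivity
  have hpt : ∀ x : ℝ, x ∈ (Icc (-b) b)ᶜ → ‖fK L p x * cexp (w * x)‖ ≤
      (A * Real.exp (C + Real.pi * Real.cos p) * B) * (Real.exp (-1 * (x - b) ^ 2) + Real.exp (-1 * (x + b) ^ 2)) := by
    intro x hx
    rw [mem_compl_iff, mem_Icc, ← abs_le, not_le] at hx
    have h0 : fK L p x = fK L p |x| := by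
      rcases le_total 0 x with h | h
      · rw [abs_of_nonneg h]
      · rw [abs_of_nonpos h, fK_even hp0 hp]
    have hx0 : 0 ≤ |x| := abs_nonneg _
    have h1 := hf L |x| hL0 hx0 (Real.exp_le_exp.2 (by linarith))
    have h2 : ‖cexp (w * x)‖ ≤ Real.exp |x| := by
      rw [Complex.norm_exp]
      refine Real.exp_le_exp.2 ?_
      rw [Complex.re_mul_ofReal]
      calc w.re * x ≤ |w.re * x| := le_abs_self _
        _ = |w.re| * |x| := abs_mul _ _
        _ ≤ 1 * |x| := mul_le_mul_of_nonneg_right hw hx0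
        _ = |x| := one_mul _
    set u := |x| - b with hu
    have hu0 : 0 ≤ u := by rw [hu]; linarith
    have h3 := hC u hu0
    -- the exponent
    have h4 : Real.exp (2 * u) - 1 ≤ Real.exp (2 * |x|) - L := by
      have : Real.exp (2 * |x|) = L * Real.exp (2 * u) := by
        rw [hL, ← Real.exp_add]; congr 1; rw [hu]; ring
      rw [this]
      have h5 : 1 ≤ Real.exp (2 * u) := Real.one_le_exp (by linarith)
      nlinarith
    have h5 : 5 * |x| + |x| + (Real.pi * L * (Real.cos p + Real.exp (-σ)) - Real.pi * Real.cos p * (Real.exp (2 * |x|) - L)) ≤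
        (C + Real.pi * Real.cos p) + (6 * b + Real.pi * L * (Real.cos p + Real.exp (-σ))) + -1 * u ^ 2 := by
      have h6 := mul_le_mul_of_nonneg_left h4 (by positivity : 0 ≤ Real.pi * Real.cos p)
      have h7 : |x| = u + b := by rw [hu]; ring
      rw [h7] at h6 ⊢
      linarith
    have h6 : Real.exp (-1 * u ^ 2) ≤ Real.exp (-1 * (x - b) ^ 2) + Real.exp (-1 * (x + b) ^ 2) := by
      rcases le_total 0 x with h | h
      · rw [hu, abs_of_nonneg h]
        have := Real.exp_pos (-1 * (x + b) ^ 2)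
        linarith
      · rw [hu, abs_of_nonpos h]
        have e : (-x - b) ^ 2 = (x + b) ^ 2 := by ring
        rw [e]
        have := Real.exp_pos (-1 * (x - b) ^ 2)
        linarith
    rw [norm_mul, h0]
    calc ‖fK L p |x|‖ * ‖cexp (w * x)‖ ≤ (A * Real.exp (5 * |x|) *
          Real.exp (Real.pi * L * (Real.cos p + Real.exp (-σ)) - Real.pi * Real.cos p * (Real.exp (2 * |x|) - L))) * Real.exp |x| :=
          mul_le_mul h1 h2 (norm_nonneg _) (by positivity)
      _ = A * Real.exp (5 * |x| + |x| + (Real.pi * L * (Real.cos p + Real.exp (-σ)) - Real.pi * Real.cos p * (Real.exp (2 * |x|) - L))) := by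
          rw [Real.exp_add (5 * |x| + |x|), Real.exp_add (5 * |x|)]; ring
      _ ≤ A * Real.exp ((C + Real.pi * Real.cos p) + (6 * b + Real.pi * L * (Real.cos p + Real.exp (-σ))) + -1 * u ^ 2) :=
          mul_le_mul_of_nonneg_left (Real.exp_le_exp.2 h5) hA.le
      _ = (A * Real.exp (C + Real.pi * Real.cos p) * B) * Real.exp (-1 * u ^ 2) := by
          rw [hB, ← Real.exp_add (6 * b), Real.exp_add _ (-1 * u ^ 2), Real.exp_add (C + Real.pi * Real.cos p)]; ring
      _ ≤ _ := mul_le_mul_of_nonneg_left h6 (by positivity)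
  have hi1 : Integrable (fun x : ℝ => Real.exp (-1 * (x - b) ^ 2)) := hi.comp_sub_right b
  have hi2 : Integrable (fun x : ℝ => Real.exp (-1 * (x + b) ^ 2)) := hi.comp_add_right b
  have hI1 : ∫ x : ℝ, Real.exp (-1 * (x - b) ^ 2) = J := integral_sub_right_eq_self (fun x : ℝ => Real.exp (-1 * x ^ 2)) b
  have hI2 : ∫ x : ℝ, Real.exp (-1 * (x + b) ^ 2) = J := integral_add_right_eq_self (fun x : ℝ => Real.exp (-1 * x ^ 2)) b
  unfold tK
  calc ‖∫ x in (Icc (-b) b)ᶜ, fK L p x * cexp (w * x)‖ ≤ ∫ x in (Icc (-b) b)ᶜ,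
        (A * Real.exp (C + Real.pi * Real.cos p) * B) * (Real.exp (-1 * (x - b) ^ 2) + Real.exp (-1 * (x + b) ^ 2)) := by
        refine norm_integral_le_of_norm_le ((hi1.add hi2).const_mul _).integrableOn ?_
        rw [ae_restrict_iff' measurableSet_Icc.compl]
        exact Eventually.of_forall hpt
    _ ≤ ∫ x : ℝ, (A * Real.exp (C + Real.pi * Real.cos p) * B) * (Real.exp (-1 * (x - b) ^ 2) + Real.exp (-1 * (x + b) ^ 2)) := by
        refine setIntegral_le_integral ((hi1.add hi2).const_mul _) (Eventually.of_forall fun x => ?_)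
        simp only [Pi.zero_apply]
        positivity
    _ = (A * Real.exp (C + Real.pi * Real.cos p) * B) * (2 * J) := by
        rw [integral_const_mul, integral_add hi1 hi2, hI1, hI2]; ring
    _ ≤ (A * Real.exp (C + Real.pi * Real.cos p) * B) * (2 * J + 1) := by
        refine mul_le_mul_of_nonneg_left (by linarith) (by positivity)
    _ = _ := by rw [hB]; ring

end Pool.Agent.Y23
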