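import Pool.Agent.Y23.Rr

/-! # Zeros of the generator near the zeros of zeta: the pointwise theorem -/

set_option autoImplicit false
set_option maxHeartbeats 2000000

open Complex Filter Topology Set MeasureTheory
open scoped ComplexConjugate
open Pool.Agent.H24R2.JP (XX)

namespace Pool.Agent.Y23

lemma XX_one_ne : XX 1 ≠ 0 := by
  intro h
  have h1 := (isZ_iff (1 + 1 / 2)).2 (by rw [add_sub_cancel_right]; exact h)
  have h2 := h1.2.2
  norm_num at h2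

lemma sh_ne {η : ℝ} (hη : 0 < η) {w : ℂ} (hw : cexp (2 * η * w) ≠ 1) : sh η w ≠ 0 := by
  unfold sh
  refine div_ne_zero ?_ (by
    have : (η : ℂ) ≠ 0 := by exact_mod_cast hη.ne'
    exact mul_ne_zero two_ne_zero this)
  intro h
  apply hw
  have h1 : cexp (η * w) = cexp (-(η * w)) := sub_eq_zero.1 h
  calc cexp (2 * η * w) = cexp (η * w) * cexp (η * w) := by rw [← Complex.exp_add]; congr 1; ring
    _ = cexp (η * w) * cexp (-(η * w)) := by rw [← h1]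
    _ = 1 := by rw [← Complex.exp_add, add_neg_cancel, Complex.exp_zero]

lemma exists_sep (ρ0 : Zt) : ∃ r : ℝ, 0 < r ∧ r ≤ 1 / 2 ∧ r ≤ ‖(ρ0 : ℂ) - 1 / 2‖ ∧
    ∀ ρ : Zt, ρ ≠ ρ0 → r ≤ ‖(ρ : ℂ) - ρ0‖ := by
  classical
  have hfin := finite_low (|(ρ0 : ℂ).im| + 1)
  obtain ⟨c, hc, hlow⟩ := zero_lower
  have h0 : 0 < ‖(ρ0 : ℂ) - 1 / 2‖ := by
    have h1 := hlow ρ0
    have h2 : 0 < c * (1 + (ρ0 : ℂ).im ^ 2) := by positivity
    have h3 : 0 < ‖(ρ0 : ℂ) - 1 / 2‖ ^ 2 := lt_of_lt_of_le h2 h1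
    refine lt_of_le_of_ne (norm_nonneg _) fun h => ?_
    rw [← h] at h3
    norm_num at h3
  obtain ⟨d, hd, hdb⟩ : ∃ d : ℝ, 0 < d ∧ ∀ ρ ∈ hfin.toFinset.erase ρ0, d ≤ ‖(ρ : ℂ) - ρ0‖ := by
    rcases (hfin.toFinset.erase ρ0).eq_empty_or_nonempty with h | h
    · exact ⟨1, one_pos, fun ρ hρ => by rw [h] at hρ; simp at hρ⟩
    · obtain ⟨ρ1, h1, h2⟩ := (hfin.toFinset.erase ρ0).exists_min_image (fun ρ : Zt => ‖(ρ : ℂ) - ρ0‖) h
      refine ⟨_, ?_, h2⟩
      rw [norm_pos_iff, sub_ne_zero]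
      exact fun h3 => (Finset.mem_erase.1 h1).1 (Subtype.ext h3)
  refine ⟨min (min d (1 / 2)) ‖(ρ0 : ℂ) - 1 / 2‖, by positivity, (min_le_left _ _).trans (min_le_right _ _),
    min_le_right _ _, fun ρ hρ => ?_⟩
  rcases le_or_gt |(ρ : ℂ).im| (|(ρ0 : ℂ).im| + 1) with h | h
  · exact ((min_le_left _ _).trans (min_le_left _ _)).trans
      (hdb ρ (Finset.mem_erase.2 ⟨hρ, by rw [Set.Finite.mem_toFinset]; exact h⟩))
  · have h1 : |(ρ : ℂ).im| - |(ρ0 : ℂ).im| ≤ ‖(ρ : ℂ) - ρ0‖ := by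
      refine (abs_sub_abs_le_abs_sub _ _).trans ?_
      rw [← Complex.sub_im]
      exact Complex.abs_im_le_norm _
    have h2 : min (min d (1 / 2)) ‖(ρ0 : ℂ) - 1 / 2‖ ≤ 1 / 2 := (min_le_left _ _).trans (min_le_right _ _)
    linarith

/-- an upper bound for the ground energy -/
lemma GM_upper (hRH : ∀ ρ : Zt, (ρ : ℂ).re = 1 / 2) {η : ℝ} (hη : 0 < η) (hη1 : η < 1) :
    ∃ C A : ℝ, 0 < C ∧ 1 ≤ A ∧ ∀ a : ℝ, A ≤ a → GM a ≤ C * (a * Real.exp (2 * a) * ta (a - η) ^ 2) := by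
  obtain ⟨C, hC, ht⟩ := test_est
  obtain ⟨K, hK, htl⟩ := tl_bound
  have hs0 : 0 < ‖sh η 1‖ := by
    rw [norm_pos_iff]
    refine sh_ne hη fun h => ?_
    have h1 := congrArg norm h
    rw [Complex.norm_exp, norm_one] at h1
    have h2 : ((2 : ℂ) * η * 1).re = 2 * η := by simp
    rw [h2, Real.exp_eq_one_iff] at h1
    linarith
  have hX0 : 0 < ‖XX 1‖ := norm_pos_iff.2 XX_one_ne
  set s0 := ‖sh η 1‖ * (‖XX 1‖ / 16) with hs0d
  have hs00 : 0 < s0 := by positivity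
  have hlim := ta_lim (η := η) (c := 0) (by positivity) 0 hη
  simp only [pow_zero, one_mul, zero_mul, Real.exp_zero, mul_one] at hlim
  have hev := (hlim.eventually (gt_mem_nhds (show 0 < ‖XX 1‖ / (16 * K) by positivity))).and (eventually_ge_atTop (1 : ℝ))
  obtain ⟨A, hA⟩ := eventually_atTop.1 hev
  refine ⟨2 * C / η ^ 2 / s0 ^ 2, max A 1, by positivity, le_max_right _ _, fun a ha => ?_⟩
  obtain ⟨h1, h2⟩ := hA a (le_of_max_le_left ha)
  have ha0 : 0 < a := by linarith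
  obtain ⟨g, hg, h3, h4, _⟩ := ht a η ha0 hη hη1.le (by linarith)
  have hta := ta_pos (a - η)
  have h5 : ta (a - η) ≤ ‖XX 1‖ / (16 * K) := by
    have : 1 ≤ Real.exp (2 * a) := Real.one_le_exp (by linarith)
    nlinarith
  have h6 : ‖tl (a - η) 1‖ ≤ ‖XX 1‖ / 16 := by
    have h7 : ‖tl (a - η) 1‖ ≤ K * ta (a - η) := htl (a - η) (by linarith) 1 (by simp)
    refine h7.trans ?_
    calc K * ta (a - η) ≤ K * (‖XX 1‖ / (16 * K)) := mul_le_mul_of_nonneg_left h5 hK.le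
      _ = ‖XX 1‖ / 16 := by field_simp
  have h7 : s0 ≤ ‖TT g 1‖ := by
    have h8 := h3 1
    rw [one_mul] at h8
    rw [h8, norm_mul, hs0d]
    refine mul_le_mul_of_nonneg_left ?_ hs0.le
    have h9 := norm_sub_norm_le (XX 1 / 8) (tl (a - η) 1)
    have h10 : ‖XX 1 / 8‖ = ‖XX 1‖ / 8 := by rw [norm_div]; norm_num
    rw [h10] at h9
    linarith
  have h8 : s0 ^ 2 ≤ 2 * a * Real.exp (2 * a) * N2 g := by
    have h9 := norm_TT_le ha0 hg.1 1
    simp only [Complex.one_re, abs_one, mul_one] at h9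
    exact (pow_le_pow_left₀ hs00.le h7 2).trans h9
  have h9 : GM a * N2 g ≤ SS g := by
    have := bq_nonneg ha0 hg
    unfold bq at this
    rw [QQ_eq_SS hRH] at this
    linarith
  have hG := GM_nonneg hRH a
  have h10 : GM a * s0 ^ 2 ≤ 2 * a * Real.exp (2 * a) * (C / η ^ 2 * ta (a - η) ^ 2) := by
    calc GM a * s0 ^ 2 ≤ GM a * (2 * a * Real.exp (2 * a) * N2 g) := mul_le_mul_of_nonneg_left h8 hG
      _ = 2 * a * Real.exp (2 * a) * (GM a * N2 g) := by ring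
      _ ≤ 2 * a * Real.exp (2 * a) * SS g := mul_le_mul_of_nonneg_left h9 (by positivity)
      _ ≤ _ := mul_le_mul_of_nonneg_left h4 (by positivity)
  have h11 : 2 * C / η ^ 2 / s0 ^ 2 * (a * Real.exp (2 * a) * ta (a - η) ^ 2) =
      (2 * a * Real.exp (2 * a) * (C / η ^ 2 * ta (a - η) ^ 2)) / s0 ^ 2 := by ring
  rw [h11, le_div_iff₀ (by positivity)]
  exact h10

/-- on the Riemann hypothesis the generators have zeros close to each zero of zeta -/
theorem near (hRH : ∀ ρ : Zt, (ρ : ℂ).re = 1 / 2) (ρ0 : Zt) {c : ℝ} (hc : c < Real.pi) :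
    ∃ A : ℝ, 1 ≤ A ∧ ∀ a : ℝ, A ≤ a → ∀ e : ℝ → ℂ, KK a e →
      ∃ w : ℂ, ‖w - ((ρ0 : ℂ) - 1 / 2)‖ ≤ Real.exp (-c * Real.exp (2 * a)) ∧ TT e w = 0 := by
  obtain ⟨r, hr, hr1, hr0, hsep⟩ := exists_sep ρ0
  set w0 := (ρ0 : ℂ) - 1 / 2 with hw0
  have hre : w0.re = 0 := by rw [hw0]; simp [hRH ρ0]
  have hw0pos : 0 < ‖w0‖ := lt_of_lt_of_le hr hr0
  -- choice of eta
  obtain ⟨η, hη, hη1, hηc, hsh⟩ : ∃ η : ℝ, 0 < η ∧ η < 1 ∧ c < Real.pi * Real.exp (-(2 * η)) ∧ sh η w0 ≠ 0 := by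
    have h1 : Tendsto (fun η : ℝ => Real.pi * Real.exp (-(2 * η))) (𝓝[>] 0) (𝓝 (Real.pi * Real.exp (-(2 * 0)))) :=
      ((by fun_prop : Continuous fun η : ℝ => Real.pi * Real.exp (-(2 * η))).tendsto 0).mono_left nhdsWithin_le_nhds
    have h2 : ∀ᶠ η in 𝓝[>] (0 : ℝ), c < Real.pi * Real.exp (-(2 * η)) :=
      h1.eventually (lt_mem_nhds (by simpa using hc))
    have h3 : ∀ᶠ η in 𝓝[>] (0 : ℝ), η < min 1 (1 / ‖w0‖) :=
      nhdsWithin_le_nhds (gt_mem_nhds (by positivity))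
    have h4 : ∀ᶠ η in 𝓝[>] (0 : ℝ), (0 : ℝ) < η := self_mem_nhdsWithin
    obtain ⟨η, h5, h6, h7⟩ := (h2.and (h3.and h4)).exists
    refine ⟨η, h7, h6.trans_le (min_le_left _ _), h5, sh_ne h7 fun h8 => ?_⟩
    have h9 : η * ‖w0‖ < 1 := by
      have := h6.trans_le (min_le_right _ _)
      rwa [lt_div_iff₀ hw0pos] at this
    have h10 : w0 = (w0.im : ℂ) * I := by
      apply Complex.ext <;> simp [hre]
    have h11 : ‖w0‖ = |w0.im| := by
      conv_lhs => rw [h10]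
      rw [norm_mul, norm_I, mul_one, Complex.norm_real, Real.norm_eq_abs]
    have h12 : (2 * (η : ℂ) * w0) = ((2 * η * w0.im : ℝ) : ℂ) * I := by
      rw [h10]; simp only [Complex.mul_im, Complex.ofReal_re, Complex.ofReal_im, Complex.I_re, Complex.I_im]; push_cast; ring
    rw [h12, Complex.exp_mul_I, ← Complex.ofReal_cos, ← Complex.ofReal_sin] at h8
    have h13 := congrArg Complex.im h8
    simp only [Complex.add_im, Complex.ofReal_im, Complex.mul_im, Complex.ofReal_re, Complex.I_re, Complex.I_im,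
      mul_zero, mul_one, zero_add, Complex.one_im, add_zero] at h13
    have h14 : |2 * η * w0.im| < Real.pi := by
      rw [abs_mul, abs_of_pos (by positivity : (0 : ℝ) < 2 * η), ← h11]
      have := Real.pi_gt_three
      nlinarith
    rw [abs_lt] at h14
    have h15 := (Real.sin_eq_zero_iff_of_lt_of_lt h14.1 h14.2).1 h13
    have h16 : w0.im ≠ 0 := by
      intro h
      rw [h11, h, abs_zero] at hw0pos
      exact lt_irrefl _ hw0pos
    have h17 : 2 * η ≠ 0 := by positivity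
    rcases mul_eq_zero.1 h15 with h | h
    · exact h17 h
    · exact h16 h
  -- the order
  have hord : analyticOrderAt XX w0 = (mu ρ0 : ℕ∞) := by
    have h1 := order_eq ρ0.2.2.1 ρ0.2.2.2
    rw [← hw0] at h1
    have h2 := XX_ne_top w0
    have h3 : mu ρ0 = analyticOrderNatAt XX w0 := mu_eq ρ0.2.2.1 ρ0.2.2.2
    rw [h3]
    exact (Nat.cast_analyticOrderNatAt h2).symm
  obtain ⟨G1, hG1, hXG1⟩ := entire_div XX_diff w0 (mu ρ0) hord.ge
  have hG1ne : G1 w0 ≠ 0 := by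
    intro h
    have h1 := ((XX_an w0).analyticOrderAt_eq_natCast).1 hord
    obtain ⟨g, hg, hg0, hgX⟩ := h1
    have h2 : ∀ᶠ z in 𝓝 w0, z ≠ w0 → g z = G1 z := by
      filter_upwards [hgX] with z hz hne
      rw [hXG1, smul_eq_mul] at hz
      exact (mul_left_cancel₀ (pow_ne_zero _ (sub_ne_zero.2 hne)) hz).symm
    have h3 : Tendsto g (𝓝[≠] w0) (𝓝 (g w0)) := hg.continuousAt.tendsto.mono_left nhdsWithin_le_nhds
    have h4 : Tendsto G1 (𝓝[≠] w0) (𝓝 (G1 w0)) := hG1.continuous.continuousAt.tendsto.mono_left nhdsWithin_le_nhds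
    have h5 : Tendsto g (𝓝[≠] w0) (𝓝 (G1 w0)) := by
      refine h4.congr' ?_
      have h6 := eventually_nhdsWithin_iff.2 h2
      filter_upwards [h6] with z hz
      exact hz.symm
    have h6 := tendsto_nhds_unique h3 h5
    rw [h] at h6
    exact hg0 h6
  set G : ℂ → ℂ := fun w => sh η w * (G1 w / 8) with hGd
  have hshd : Differentiable ℂ (sh η) := by unfold sh; fun_prop
  have hG : Differentiable ℂ G := hshd.mul (hG1.div_const 8)
  have hXG : ∀ w, sh η w * (XX w / 8) = (w - w0) ^ (mu ρ0) * G w := fun w => by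
    simp only [hGd]; rw [hXG1 w]; ring
  have hGne : G w0 ≠ 0 := mul_ne_zero hsh (div_ne_zero hG1ne (by norm_num))
  have hm : 1 ≤ mu ρ0 := mu_pos ρ0.2
  obtain ⟨C, hC, hX⟩ := ind hRH ρ0 hw0 hr hr1 hr0 hsep hη hη1 hG hXG (mu ρ0 - 1) (by omega)
  obtain ⟨C', hC', hstep⟩ := step_lem hRH ρ0 hw0 hr hr1 hr0 C hC
  obtain ⟨CM, AM, hCM, hAM, hGM⟩ := GM_upper hRH hη hη1
  -- constants
  set b0 := ‖G w0‖ / (2 * ‖w0‖) with hb0
  have hGp : 0 < ‖G w0‖ := norm_pos_iff.2 hGne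
  have hb00 : 0 < b0 := by positivity
  set D := Real.sqrt (64 * C' / b0 ^ 2) with hD
  have hD0 : 0 < D := Real.sqrt_pos.2 (by positivity)
  -- limits
  have hl1 := ta_lim (η := η) (c := 0) (by positivity) 0 hη
  simp only [pow_zero, one_mul, zero_mul, Real.exp_zero, mul_one] at hl1
  have hl2 := ta_lim (η := η) (c := 0) (by positivity) (2 * (mu ρ0 - 1) + 2 + 2 + 1) hη
  simp only [zero_mul, Real.exp_zero, mul_one] at hl2
  have hl3 := ta_lim hηc 0 hη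
  simp only [pow_zero, one_mul] at hl3
  have hev := (hl1.eventually (gt_mem_nhds (show 0 < ‖G w0‖ / (2 * C') by positivity))).and
    ((hl2.eventually (gt_mem_nhds (show 0 < b0 ^ 2 / (2 * (CM * (8 * C + 9 * C')) * 3) by positivity))).and
    ((hl3.eventually (gt_mem_nhds (show 0 < 1 / D by positivity))).and (eventually_ge_atTop AM)))
  obtain ⟨A, hA⟩ := eventually_atTop.1 hev
  refine ⟨max A 1, le_max_right _ _, fun a ha e he => ?_⟩
  obtain ⟨h1, h2, h3, h4⟩ := hA a (le_of_max_le_left ha)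
  have ha1 : 1 ≤ a := le_of_max_le_right ha
  have ha0 : 0 < a := by linarith
  have hta := ta_pos (a - η)
  have hta3 := ta_le_one (b := a - η) (by linarith)
  have hexp1 : 1 ≤ Real.exp (2 * a) := Real.one_le_exp (by linarith)
  obtain ⟨X, hXH, hXb, hXS, hXN⟩ := hX a ha1
  have hmm : mu ρ0 - (mu ρ0 - 1) = 0 + 1 := by omega
  rw [hmm] at hXb
  obtain ⟨U, W, hU, hW, hUW, hUS, hWN, hWb⟩ := hstep a (ta (a - η)) ha1 hta X hXH 0 G hG hXb hXS
  by_contra hcon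
  push Not at hcon
  -- lower bound for the value at the zero
  have hW0 : b0 ≤ ‖TT W w0‖ := by
    have h5 := hWb w0 (by simp [hr.le])
    rw [pow_zero, one_mul] at h5
    have h6 : C' * ta (a - η) ≤ ‖G w0‖ / 2 := by
      have h7 : ta (a - η) ≤ ‖G w0‖ / (2 * C') := by nlinarith
      calc C' * ta (a - η) ≤ C' * (‖G w0‖ / (2 * C')) := mul_le_mul_of_nonneg_left h7 hC'.le
        _ = ‖G w0‖ / 2 := by field_simp
    have h7 : ‖G w0‖ ≤ ‖w0 * TT W w0 - G w0‖ + ‖w0 * TT W w0‖ := by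
      have h8 : G w0 = w0 * TT W w0 - (w0 * TT W w0 - G w0) := by ring
      calc ‖G w0‖ = ‖w0 * TT W w0 - (w0 * TT W w0 - G w0)‖ := by rw [← h8]
        _ ≤ ‖w0 * TT W w0‖ + ‖w0 * TT W w0 - G w0‖ := norm_sub_le _ _
        _ = _ := by ring
    rw [norm_mul w0 (TT W w0)] at h7
    rw [hb0, div_le_iff₀ (by positivity)]
    linarith
  -- lower bound for the form
  have hSW : b0 ^ 2 ≤ SS W := by
    have h5 : (mu ρ0 : ℝ) * ‖TT W ((ρ0 : ℂ) - 1 / 2)‖ ^ 2 ≤ SS W :=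
      (hW.dom ha0).le_tsum ρ0 fun _ _ => by positivity
    rw [← hw0] at h5
    have h6 : (1 : ℝ) ≤ mu ρ0 := by exact_mod_cast hm
    have h7 := pow_le_pow_left₀ hb00.le hW0 2
    nlinarith [sq_nonneg ‖TT W w0‖]
  have hbW : b0 ^ 2 / 2 ≤ bq (GM a) W := by
    have h5 := hGM a h4
    set P := 2 * (mu ρ0 - 1) + 2 with hP
    have h6 : N2 W ≤ (8 * C + 9 * C') * a ^ (P + 2) := by
      have e1 : a ^ (P + 2) = a ^ 2 * a ^ P := by rw [← pow_add]; congr 1; ring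
      have e2 : a ^ 2 ≤ a ^ (P + 2) := pow_le_pow_right₀ ha1 (by omega)
      have e3 : ta (a - η) ^ 2 ≤ 9 := by nlinarith
      have e4 : C' * a ^ 2 * ta (a - η) ^ 2 ≤ C' * a ^ (P + 2) * 9 := by gcongr
      have e5 : 8 * a ^ 2 * N2 X ≤ 8 * C * a ^ (P + 2) := by
        rw [e1]
        have := mul_le_mul_of_nonneg_left hXN (by positivity : 0 ≤ 8 * a ^ 2)
        linarith
      linarith
    have h7 : GM a * N2 W ≤ (CM * (8 * C + 9 * C')) * 3 * (a ^ (P + 2 + 1) * Real.exp (2 * a) * ta (a - η)) := by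
      calc GM a * N2 W ≤ (CM * (a * Real.exp (2 * a) * ta (a - η) ^ 2)) * ((8 * C + 9 * C') * a ^ (P + 2)) :=
            mul_le_mul h5 h6 (N2_nonneg _) (by positivity)
        _ = (CM * (8 * C + 9 * C')) * ta (a - η) * (a ^ (P + 2 + 1) * Real.exp (2 * a) * ta (a - η)) := by
            rw [pow_succ a (P + 2)]; ring
        _ ≤ _ := by gcongr
    have h8 : (CM * (8 * C + 9 * C')) * 3 * (a ^ (P + 2 + 1) * Real.exp (2 * a) * ta (a - η)) ≤ b0 ^ 2 / 2 := by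
      have h9 := h2.le
      calc (CM * (8 * C + 9 * C')) * 3 * (a ^ (P + 2 + 1) * Real.exp (2 * a) * ta (a - η))
          ≤ (CM * (8 * C + 9 * C')) * 3 * (b0 ^ 2 / (2 * (CM * (8 * C + 9 * C')) * 3)) :=
            mul_le_mul_of_nonneg_left h9 (by positivity)
        _ = b0 ^ 2 / 2 := by field_simp
    unfold bq
    rw [QQ_eq_SS hRH]
    linarith
  -- the gap
  have hδ : 0 < D * ta (a - η) := by positivity
  have hDle : D * ta (a - η) ≤ Real.exp (-c * Real.exp (2 * a)) := by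
    have h5 : ta (a - η) * Real.exp (c * Real.exp (2 * a)) ≤ 1 / D := by
      refine le_trans ?_ h3.le
      have : 0 ≤ ta (a - η) * Real.exp (c * Real.exp (2 * a)) := by positivity
      nlinarith
    rw [neg_mul, Real.exp_neg, ← one_div, le_div_iff₀ (Real.exp_pos _)]
    rw [le_div_iff₀ hD0] at h5
    linarith
  have hgap := gap ha0 he hre hδ (fun w hw => hcon w (hw.le.trans hDle)) hW hU hUW
  have hbU : bq (GM a) U ≤ C' * ta (a - η) ^ 2 := (bq_le_SS hRH U).trans hUS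
  have hD2 : D ^ 2 = 64 * C' / b0 ^ 2 := Real.sq_sqrt (by positivity)
  rw [mul_pow, hD2] at hgap
  have h5 : 64 * C' / b0 ^ 2 * ta (a - η) ^ 2 * (b0 ^ 2 / 2) ≤ 64 * C' / b0 ^ 2 * ta (a - η) ^ 2 * bq (GM a) W :=
    mul_le_mul_of_nonneg_left hbW (by positivity)
  have h6 : 64 * C' / b0 ^ 2 * ta (a - η) ^ 2 * (b0 ^ 2 / 2) = 32 * C' * ta (a - η) ^ 2 := by
    field_simp
    ring
  have h7 : 0 < C' * ta (a - η) ^ 2 := by positivity
  linarith

end Pool.Agent.Y23
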