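import Pool.Agent.Y23.Ka3
import Pool.Agent.Y23.Rs

/-! # Lower bounds of the multiplier, parameters, and general test functions -/

set_option autoImplicit false
set_option maxHeartbeats 2000000

open Complex Filter Topology Set MeasureTheory
open scoped ComplexConjugate
open Pool.Agent.H24R2.JP (XX)

namespace Pool.Agent.Y23

lemma AK_im (L p γ : ℝ) : AK L p (γ * I) =
    ((∫ φ in (-p)..p, Real.exp (2 * Real.pi * L * Real.cos φ) * Real.exp (γ * φ / 2) : ℝ) : ℂ) := by
  unfold AK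
  rw [← intervalIntegral.integral_ofReal]
  refine intervalIntegral.integral_congr fun φ _ => ?_
  push_cast
  congr 2
  have : (γ : ℂ) * I * (φ / 2 * I) = (γ * φ / 2) * (I * I) := by ring
  rw [this, I_mul_I]
  ring

lemma AK_diff (L p : ℝ) : Differentiable ℂ (AK L p) := by
  have h : AK L p = fun w => ∫ φ in (-p)..p, cexp (2 * Real.pi * L * Complex.cos φ) * cexp (-(w * (φ / 2 * I))) := rfl
  rw [h]
  intro w0
  have hF : ∀ φ : ℝ, ∀ w : ℂ, HasDerivAt (fun w : ℂ => cexp (2 * Real.pi * L * Complex.cos φ) * cexp (-(w * (φ / 2 * I))))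
      (cexp (2 * Real.pi * L * Complex.cos φ) * (cexp (-(w * (φ / 2 * I))) * (-(φ / 2 * I)))) w := by
    intro φ w
    have h1 : HasDerivAt (fun w : ℂ => -(w * (φ / 2 * I))) (-(φ / 2 * I)) w := by
      have := ((hasDerivAt_id w).mul_const ((φ : ℂ) / 2 * I)).neg
      rw [one_mul] at this
      exact this
    exact (h1.cexp).const_mul _
  have hcont : Continuous (fun q : ℂ × ℝ => cexp (2 * Real.pi * L * Complex.cos q.2) * (cexp (-(q.1 * (q.2 / 2 * I))) * (-(q.2 / 2 * I)))) := by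
    fun_prop
  have hK : IsCompact (Metric.closedBall w0 1 ×ˢ uIcc (-p) p) := (isCompact_closedBall _ _).prod isCompact_uIcc
  obtain ⟨B, hB⟩ := hK.exists_bound_of_continuousOn hcont.continuousOn
  have h2 := intervalIntegral.hasDerivAt_integral_of_dominated_loc_of_deriv_le (μ := volume) (a := -p) (b := p)
    (F := fun (w : ℂ) (φ : ℝ) => cexp (2 * Real.pi * L * Complex.cos φ) * cexp (-(w * (φ / 2 * I))))
    (F' := fun (w : ℂ) (φ : ℝ) => cexp (2 * Real.pi * L * Complex.cos φ) * (cexp (-(w * (φ / 2 * I))) * (-(φ / 2 * I))))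
    (x₀ := w0) (s := Metric.ball w0 1) (bound := fun _ => B) (Metric.ball_mem_nhds w0 one_pos)
    (Eventually.of_forall fun w => (by fun_prop : Continuous fun φ : ℝ => cexp (2 * Real.pi * L * Complex.cos φ) * cexp (-(w * (φ / 2 * I)))).aestronglyMeasurable)
    ((by fun_prop : Continuous fun φ : ℝ => cexp (2 * Real.pi * L * Complex.cos φ) * cexp (-(w0 * (φ / 2 * I)))).intervalIntegrable _ _)
    ((by fun_prop : Continuous fun φ : ℝ => cexp (2 * Real.pi * L * Complex.cos φ) * (cexp (-(w0 * (φ / 2 * I))) * (-(φ / 2 * I)))).aestronglyMeasurable)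
    (Eventually.of_forall fun φ hφ w hw => hB (w, φ) ⟨Metric.ball_subset_closedBall hw, uIoc_subset_uIcc hφ⟩)
    intervalIntegrable_const
    (Eventually.of_forall fun φ hφ w hw => hF φ w)
  exact h2.2.differentiableAt

lemma AK_even (L p : ℝ) (w : ℂ) : AK L p (-w) = AK L p w := by
  unfold AK
  have h := intervalIntegral.integral_comp_neg (a := -p) (b := p)
    (fun φ : ℝ => cexp (2 * Real.pi * L * Complex.cos φ) * cexp (-(w * (φ / 2 * I))))
  rw [neg_neg] at h
  rw [← h]
  refine intervalIntegral.integral_congr fun φ _ => ?_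
  push_cast
  rw [Complex.cos_neg]
  congr 2
  ring

/-- lower bound on the critical line -/
lemma AK_low {L p φe κ γ : ℝ} (hL : 0 ≤ L) (hκ : 0 ≤ κ) (hκe : κ ≤ φe) (hep : φe ≤ p) (hp : p < Real.pi / 2) (hγ : 0 ≤ γ) :
    κ * (Real.exp (2 * Real.pi * L * Real.cos φe) * Real.exp (γ * (φe - κ) / 2)) ≤ ‖AK L p (γ * I)‖ := by
  rw [AK_im, Complex.norm_real, Real.norm_eq_abs]
  refine le_trans ?_ (le_abs_self _)
  set F : ℝ → ℝ := fun φ => Real.exp (2 * Real.pi * L * Real.cos φ) * Real.exp (γ * φ / 2) with hF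
  have hFc : Continuous F := by rw [hF]; fun_prop
  have h1 : ∫ φ in (φe - κ)..φe, F φ ≤ ∫ φ in (-p)..p, F φ := by
    apply intervalIntegral.integral_mono_interval (by linarith) (by linarith) hep
      (Eventually.of_forall fun φ => by rw [hF]; positivity) (hFc.intervalIntegrable _ _)
  have h2 : ∫ φ in (φe - κ)..φe, (Real.exp (2 * Real.pi * L * Real.cos φe) * Real.exp (γ * (φe - κ) / 2)) ≤ ∫ φ in (φe - κ)..φe, F φ := by
    apply intervalIntegral.integral_mono_on (by linarith) (by simp) (hFc.intervalIntegrable _ _)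
    intro φ hφ
    rw [hF]
    simp only
    have hc : Real.cos φe ≤ Real.cos φ := Real.cos_le_cos_of_nonneg_of_le_pi (by linarith [hφ.1]) (by linarith [Real.pi_pos]) hφ.2
    have h3 : 2 * Real.pi * L * Real.cos φe ≤ 2 * Real.pi * L * Real.cos φ := mul_le_mul_of_nonneg_left hc (by positivity)
    have h4 : γ * (φe - κ) / 2 ≤ γ * φ / 2 := by
      have := mul_le_mul_of_nonneg_left hφ.1 hγ
      linarith
    exact mul_le_mul (Real.exp_le_exp.2 h3) (Real.exp_le_exp.2 h4) (Real.exp_pos _).le (Real.exp_pos _).le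
  rw [intervalIntegral.integral_const, smul_eq_mul] at h2
  have e : φe - (φe - κ) = κ := by ring
  rw [e] at h2
  exact h2.trans h1

/-- lower bound at the point one -/
lemma AK_low_one {L p κ : ℝ} (hL : 0 ≤ L) (hκ : 0 ≤ κ) (hep : κ ≤ p) (hp : p < Real.pi / 2) :
    κ / 2 * Real.exp (2 * Real.pi * L * Real.cos κ) ≤ ‖AK L p 1‖ := by
  refine le_trans ?_ (Complex.re_le_norm _)
  have e0 : (AK L p 1).re = ∫ φ in (-p)..p, Real.exp (2 * Real.pi * L * Real.cos φ) * Real.cos (φ / 2) := by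
    unfold AK
    have h := Complex.reCLM.intervalIntegral_comp_comm (μ := volume) (a := -p) (b := p)
      (f := fun φ : ℝ => cexp (2 * Real.pi * L * Complex.cos φ) * cexp (-(1 * (φ / 2 * I))))
      ((by fun_prop : Continuous fun φ : ℝ => cexp (2 * Real.pi * L * Complex.cos φ) * cexp (-(1 * (φ / 2 * I)))).intervalIntegrable _ _)
    simp only [Complex.reCLM_apply] at h
    rw [← h]
    refine intervalIntegral.integral_congr fun φ _ => ?_
    have e1 : (2 * Real.pi * L * Complex.cos φ : ℂ) = ((2 * Real.pi * L * Real.cos φ : ℝ) : ℂ) := by push_cast; ring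
    have e2 : -(1 * ((φ : ℂ) / 2 * I)) = ((-(φ / 2) : ℝ) : ℂ) * I := by push_cast; ring
    rw [e1, ← Complex.ofReal_exp, Complex.re_ofReal_mul, e2, Complex.exp_mul_I, ← Complex.ofReal_cos, ← Complex.ofReal_sin]
    simp only [Complex.add_re, Complex.mul_re, Complex.ofReal_re, Complex.ofReal_im, Complex.I_re, Complex.I_im, mul_zero,
      zero_mul, sub_zero, add_zero, Real.cos_neg]
  rw [e0]
  set F : ℝ → ℝ := fun φ => Real.exp (2 * Real.pi * L * Real.cos φ) * Real.cos (φ / 2) with hF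
  have hFc : Continuous F := by rw [hF]; fun_prop
  have hch : ∀ φ : ℝ, |φ| ≤ p → 1 / 2 ≤ Real.cos (φ / 2) := by
    intro φ hφ
    rw [← Real.cos_pi_div_three, ← Real.cos_abs (φ / 2)]
    apply Real.cos_le_cos_of_nonneg_of_le_pi (abs_nonneg _)
    · linarith [Real.pi_pos]
    · rw [abs_div, abs_two]
      linarith [Real.pi_pos]
  have h1 : ∫ φ in (0)..κ, F φ ≤ ∫ φ in (-p)..p, F φ := by
    apply intervalIntegral.integral_mono_interval (by linarith) hκ hep
      _ (hFc.intervalIntegrable _ _)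
    rw [Filter.EventuallyLE, ae_restrict_iff' measurableSet_Ioc]
    refine Eventually.of_forall fun φ hφ => ?_
    have := hch φ (by rw [abs_le]; constructor <;> linarith [hφ.1, hφ.2])
    simp only [Pi.zero_apply, hF]
    positivity
  have h2 : ∫ φ in (0)..κ, (Real.exp (2 * Real.pi * L * Real.cos κ) * (1 / 2)) ≤ ∫ φ in (0)..κ, F φ := by
    apply intervalIntegral.integral_mono_on hκ (by simp) (hFc.intervalIntegrable _ _)
    intro φ hφ
    rw [hF]
    simp only
    have hc : Real.cos κ ≤ Real.cos φ := Real.cos_le_cos_of_nonneg_of_le_pi hφ.1 (by linarith [Real.pi_pos]) hφ.2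
    have h3 : 2 * Real.pi * L * Real.cos κ ≤ 2 * Real.pi * L * Real.cos φ := mul_le_mul_of_nonneg_left hc (by positivity)
    exact mul_le_mul (Real.exp_le_exp.2 h3) (hch φ (by rw [abs_le]; constructor <;> linarith [hφ.1, hφ.2])) (by norm_num) (Real.exp_pos _).le
  rw [intervalIntegral.integral_const, smul_eq_mul, sub_zero] at h2
  calc κ / 2 * Real.exp (2 * Real.pi * L * Real.cos κ) = κ * (Real.exp (2 * Real.pi * L * Real.cos κ) * (1 / 2)) := by ring
    _ ≤ _ := h2.trans h1

/-- choice of the angle and of the shift -/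
lemma exists_pσ {ε q : ℝ} (hε : 0 < ε) (hq : q < Real.pi / 2) : ∃ p σ : ℝ, q < p ∧ p < Real.pi / 2 ∧ 0 ≤ σ ∧
    Real.cos p + Real.exp (-σ) < ε := by
  have h1 : Tendsto Real.cos (𝓝[<] (Real.pi / 2)) (𝓝 (Real.cos (Real.pi / 2))) :=
    (Real.continuous_cos.tendsto _).mono_left nhdsWithin_le_nhds
  rw [Real.cos_pi_div_two] at h1
  have h2 : ∀ᶠ p in 𝓝[<] (Real.pi / 2), Real.cos p < ε / 2 := h1.eventually (gt_mem_nhds (by positivity))
  have h3 : ∀ᶠ p in 𝓝[<] (Real.pi / 2), q < p := nhdsWithin_le_nhds (lt_mem_nhds hq)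
  have h4 : ∀ᶠ p in 𝓝[<] (Real.pi / 2), p < Real.pi / 2 := self_mem_nhdsWithin
  obtain ⟨p, h5, h6, h7⟩ := (h2.and (h3.and h4)).exists
  have h8 : ∀ᶠ σ : ℝ in atTop, Real.exp (-σ) < ε / 2 :=
    (Real.tendsto_exp_neg_atTop_nhds_zero).eventually (gt_mem_nhds (by positivity))
  obtain ⟨σ, h9, h10⟩ := (h8.and (eventually_ge_atTop 0)).exists
  exact ⟨p, σ, h6, h7, h10, by linarith⟩

/-- polynomial and exponential factors are absorbed -/
lemma absorb (C m : ℝ) (n : ℕ) {ε : ℝ} (hε : 0 < ε) : ∀ᶠ a : ℝ in atTop,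
    C * a ^ n * Real.exp (m * a) ≤ Real.exp (ε * Real.exp (2 * a)) := by
  set Q : ℝ := |C| * (n.factorial : ℝ) with hQ
  have hQ0 : 0 ≤ Q := by positivity
  filter_upwards [eventually_ge_atTop (0 : ℝ), eventually_ge_atTop ((Q + |m| + 1) / ε)] with a ha ha2
  rw [div_le_iff₀ hε] at ha2
  have h1 : a ^ n ≤ (n.factorial : ℝ) * Real.exp a := by
    have := Real.pow_div_factorial_le_exp a ha n
    rwa [div_le_iff₀' (by positivity)] at this
  have h2 : C * a ^ n * Real.exp (m * a) ≤ Q * Real.exp a * Real.exp (|m| * a) := by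
    have h3 : C * a ^ n ≤ |C| * ((n.factorial : ℝ) * Real.exp a) := by
      calc C * a ^ n ≤ |C| * a ^ n := mul_le_mul_of_nonneg_right (le_abs_self _) (by positivity)
        _ ≤ _ := mul_le_mul_of_nonneg_left h1 (abs_nonneg _)
    have h4 : Real.exp (m * a) ≤ Real.exp (|m| * a) :=
      Real.exp_le_exp.2 (mul_le_mul_of_nonneg_right (le_abs_self _) ha)
    calc C * a ^ n * Real.exp (m * a) ≤ (|C| * ((n.factorial : ℝ) * Real.exp a)) * Real.exp (m * a) :=
          mul_le_mul_of_nonneg_right h3 (Real.exp_pos _).le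
      _ ≤ (|C| * ((n.factorial : ℝ) * Real.exp a)) * Real.exp (|m| * a) := mul_le_mul_of_nonneg_left h4 (by positivity)
      _ = _ := by rw [hQ]; ring
  refine h2.trans ?_
  have h5 : Q ≤ Real.exp Q := by linarith [Real.add_one_le_exp Q]
  calc Q * Real.exp a * Real.exp (|m| * a) ≤ Real.exp Q * Real.exp a * Real.exp (|m| * a) := by gcongr
    _ = Real.exp (Q + a + |m| * a) := by rw [Real.exp_add, Real.exp_add]
    _ ≤ _ := by
        refine Real.exp_le_exp.2 ?_
        have h6 := Real.quadratic_le_exp_of_nonneg (x := 2 * a) (by linarith)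
        have h7 : ε * (1 + 2 * a + (2 * a) ^ 2 / 2) ≤ ε * Real.exp (2 * a) := mul_le_mul_of_nonneg_left h6 hε.le
        have h8 : (Q + |m| + 1) * (1 + 2 * a) ≤ a * ε * (1 + 2 * a) := mul_le_mul_of_nonneg_right ha2 (by linarith)
        have h9 : 0 ≤ |m| := abs_nonneg _
        nlinarith [mul_nonneg hQ0 ha, mul_nonneg h9 ha, mul_pos hε (by linarith : (0 : ℝ) < 1 + a)]

end Pool.Agent.Y23
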