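import Pool.Agent.Y23.Kb1

/-! # General test functions and the ground energy -/

set_option autoImplicit false
set_option maxHeartbeats 2000000

open Complex Filter Topology Set MeasureTheory
open scoped ComplexConjugate
open Pool.Agent.H24R2.JP (XX)

namespace Pool.Agent.Y23

/-- test functions with all the estimates, for a general multiplier -/
lemma test_gen : ∃ C : ℝ, 0 < C ∧ ∀ (a η τ : ℝ) (Q T : ℂ → ℂ) (u : ℝ → ℂ), 0 < a → 0 < η → η ≤ 1 → η < a →
    Fa (a - η) u → (∀ w, TT u w = Q w * XX w - T w) → (∀ w : ℂ, |w.re| ≤ 1 → ‖T w‖ ≤ τ) →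
    ∃ g : ℝ → ℂ, Hd a g ∧ (∀ w, w * TT g w = sh η w * (Q w * XX w - T w)) ∧ SS g ≤ C * (τ ^ 2 / η ^ 2) ∧
      N2 g ≤ C * (a ^ 2 * N2 u / η ^ 2) := by
  obtain ⟨c, hc, hlow⟩ := zero_lower
  set Z : ℝ := ∑' ρ : Zt, (mu ρ : ℝ) * (1 / (1 + ((ρ : ℂ).im - 0) ^ 2)) with hZ
  have hZ0 : 0 ≤ Z := tsum_nonneg fun ρ => by positivity
  refine ⟨9 / c * Z + 4, by positivity, fun a η τ Q T u ha hη hη1 hηa hu hTu hT => ?_⟩
  have hτ : 0 ≤ τ := (norm_nonneg _).trans (hT 0 (by simp))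
  have h1 : Fa a (fun x => u (x + η)) := Fa_shift (by rw [abs_of_pos hη]; linarith) hu
  have h2 : Fa a (fun x => u (x + -η)) := Fa_shift (by rw [abs_neg, abs_of_pos hη]; linarith) hu
  set c' : ℂ := ((1 / (2 * η) : ℝ) : ℂ) with hc'
  have h3 : Fa a (fun x => c' * (u (x + -η) - u (x + η))) := (h2.sub h1).smul c'
  have h4 : ∀ w, TT (fun x => c' * (u (x + -η) - u (x + η))) w = sh η w * (Q w * XX w - T w) := by
    intro w
    rw [TT_smul, TT_sub h2 h1, TT_shift, TT_shift, hTu, hc']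
    unfold sh
    have e1 : -(w * ((-η : ℝ) : ℂ)) = η * w := by push_cast; ring
    have e2 : -(w * ((η : ℝ) : ℂ)) = -(η * w) := by ring
    rw [e1, e2]
    push_cast
    ring
  obtain ⟨g, hg, h5, h6⟩ := division ha h3 0 (by
    rw [h4]; unfold sh; simp)
  have h7 : ∀ w, w * TT g w = sh η w * (Q w * XX w - T w) := fun w => by rw [← h4, ← h5, sub_zero]
  -- values at the zeros
  have hval : ∀ ρ : Zt, (mu ρ : ℝ) * ‖TT g ((ρ : ℂ) - 1 / 2)‖ ^ 2 ≤
      (9 / c * (τ ^ 2 / η ^ 2)) * ((mu ρ : ℝ) * (1 / (1 + ((ρ : ℂ).im - 0) ^ 2))) := by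
    intro ρ
    set w := (ρ : ℂ) - 1 / 2 with hw
    have hX : XX w = 0 := (isZ_iff ρ).1 ρ.2
    have hre : |w.re| ≤ 1 := (half_re ρ).trans (by norm_num)
    have e1 := congrArg norm (h7 w)
    rw [hX, mul_zero, zero_sub, norm_mul, norm_mul, norm_neg] at e1
    have e2 := sh_bound hη hη1 hre
    have e3 : ‖T w‖ ≤ τ := hT w hre
    have e4 : ‖w‖ * ‖TT g w‖ ≤ 3 / η * τ := by
      rw [e1]
      exact mul_le_mul e2 e3 (norm_nonneg _) (by positivity)
    have e5 : ‖w‖ ^ 2 * ‖TT g w‖ ^ 2 ≤ 9 * (τ ^ 2 / η ^ 2) := by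
      have := pow_le_pow_left₀ (by positivity) e4 2
      rw [mul_pow] at this
      refine this.trans (le_of_eq ?_)
      field_simp
      ring
    have e6 := hlow ρ
    have e7 : ‖TT g w‖ ^ 2 ≤ 9 / c * (τ ^ 2 / η ^ 2) * (1 / (1 + ((ρ : ℂ).im - 0) ^ 2)) := by
      rw [sub_zero, mul_one_div, le_div_iff₀ (by positivity)]
      have e8 : c * (1 + (ρ : ℂ).im ^ 2) * ‖TT g w‖ ^ 2 ≤ 9 * (τ ^ 2 / η ^ 2) :=
        (mul_le_mul_of_nonneg_right e6 (sq_nonneg _)).trans e5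
      have e9 : 9 / c * (τ ^ 2 / η ^ 2) = (9 * (τ ^ 2 / η ^ 2)) / c := by ring
      rw [e9, le_div_iff₀ hc]
      linarith
    calc (mu ρ : ℝ) * ‖TT g w‖ ^ 2 ≤ (mu ρ : ℝ) * (9 / c * (τ ^ 2 / η ^ 2) * (1 / (1 + ((ρ : ℂ).im - 0) ^ 2))) :=
          mul_le_mul_of_nonneg_left e7 (Nat.cast_nonneg _)
      _ = _ := by ring
  have hdom : Dom g := Summable.of_nonneg_of_le (fun ρ => by positivity) hval ((zsummable 0).mul_left _)
  refine ⟨g, (Hd_iff ha g).2 ⟨hg, hdom⟩, h7, ?_, ?_⟩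
  · have h8 : SS g ≤ (9 / c * (τ ^ 2 / η ^ 2)) * Z := by
      unfold SS
      rw [hZ, ← tsum_mul_left]
      exact hdom.tsum_le_tsum hval ((zsummable 0).mul_left _)
    refine h8.trans ?_
    have h9 : 0 ≤ 4 * (τ ^ 2 / η ^ 2) := by positivity
    linarith
  · have h8 := h6 (by simp)
    have hNu := N2_nonneg u
    have h9 : N2 (fun x => c' * (u (x + -η) - u (x + η))) ≤ N2 u / η ^ 2 := by
      rw [N2_smul]
      have e1 : ‖c'‖ ^ 2 = 1 / (4 * η ^ 2) := by
        rw [hc', Complex.norm_real, Real.norm_eq_abs, sq_abs]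
        field_simp
        norm_num
      have e2 : N2 (fun x => u (x + -η) - u (x + η)) ≤ 4 * N2 u := by
        have e3 := N2_add_le h2 (h1.smul (-1))
        have e4 : (fun x => u (x + -η) + -1 * u (x + η)) = fun x => u (x + -η) - u (x + η) := by funext x; ring
        rw [e4, N2_smul] at e3
        have e5 : N2 (fun x => u (x + -η)) = N2 u := by
          unfold N2
          exact integral_add_right_eq_self (fun x => ‖u x‖ ^ 2) (-η)
        have e6 : N2 (fun x => u (x + η)) = N2 u := by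
          unfold N2
          exact integral_add_right_eq_self (fun x => ‖u x‖ ^ 2) η
        rw [e5, e6, norm_neg, norm_one] at e3
        linarith
      rw [e1]
      calc 1 / (4 * η ^ 2) * N2 (fun x => u (x + -η) - u (x + η)) ≤ 1 / (4 * η ^ 2) * (4 * N2 u) :=
            mul_le_mul_of_nonneg_left e2 (by positivity)
        _ = N2 u / η ^ 2 := by field_simp
    have h10 : 0 ≤ 9 / c * Z * (a ^ 2 * N2 u / η ^ 2) := by positivity
    calc N2 g ≤ 4 * a ^ 2 * (N2 u / η ^ 2) := h8.trans (mul_le_mul_of_nonneg_left h9 (by positivity))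
      _ ≤ 4 * (a ^ 2 * N2 u / η ^ 2) + 9 / c * Z * (a ^ 2 * N2 u / η ^ 2) := by
          have : 4 * a ^ 2 * (N2 u / η ^ 2) = 4 * (a ^ 2 * N2 u / η ^ 2) := by ring
          linarith
      _ = _ := by ring

/-- the test functions built from the superposed kernel -/
lemma testK {p σ : ℝ} (hp0 : 0 ≤ p) (hp : p < Real.pi / 2) (hσ : 0 ≤ σ) : ∃ C : ℝ, 0 < C ∧ ∀ a η : ℝ, 0 < η → η ≤ 1 → η < a →
    ∃ (g : ℝ → ℂ) (R : ℂ → ℂ), Hd a g ∧ (∀ w, w * TT g w = sh η w * (AK (Real.exp (2 * (a - η))) p w / 8) * XX w - R w) ∧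
      (∀ w : ℂ, |w.re| ≤ 1 → ‖R w‖ ≤ C * Real.exp (6 * a) / η *
        Real.exp (Real.pi * Real.exp (2 * (a - η)) * (Real.cos p + Real.exp (-σ)))) ∧
      SS g ≤ C * Real.exp (12 * a) / η ^ 2 *
        Real.exp (2 * (Real.pi * Real.exp (2 * (a - η)) * (Real.cos p + Real.exp (-σ)))) ∧
      N2 g ≤ C * a ^ 2 / η ^ 2 * Real.exp (4 * Real.pi * Real.exp (2 * (a - η))) := by
  obtain ⟨C, hC, h⟩ := test_gen
  obtain ⟨D, hD, hN⟩ := N2_uK hp0 hp
  obtain ⟨K, hK, ht⟩ := tK_bound hp0 hp hσ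
  refine ⟨3 * K + C * K ^ 2 + C * D, by positivity, fun a η hη hη1 hηa => ?_⟩
  set L := Real.exp (2 * (a - η)) with hL
  have hL0 : 0 < L := Real.exp_pos _
  have ha : 0 < a := by linarith
  set B := Real.exp (Real.pi * L * (Real.cos p + Real.exp (-σ))) with hB
  have hB0 : 0 < B := Real.exp_pos _
  have hb6 : Real.exp (6 * (a - η)) ≤ Real.exp (6 * a) := Real.exp_le_exp.2 (by linarith)
  have hT : ∀ w : ℂ, |w.re| ≤ 1 → ‖tK L p (a - η) w‖ ≤ K * Real.exp (6 * a) * B := by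
    intro w hw
    refine (ht (a - η) (by linarith) w hw).trans ?_
    gcongr
  obtain ⟨g, hg, h1, h2, h3⟩ := h a η (K * Real.exp (6 * a) * B) (fun w => AK L p w / 8) (tK L p (a - η)) (uK L p (a - η))
    ha hη hη1 hηa (Fa_uK hp0 hp) (fun w => by rw [TT_uK hL0 hp0 hp]; ring) hT
  refine ⟨g, fun w => sh η w * tK L p (a - η) w, hg, fun w => by rw [h1]; ring, fun w hw => ?_, ?_, ?_⟩
  · rw [norm_mul]
    calc ‖sh η w‖ * ‖tK L p (a - η) w‖ ≤ 3 / η * (K * Real.exp (6 * a) * B) :=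
          mul_le_mul (sh_bound hη hη1 hw) (hT w hw) (norm_nonneg _) (by positivity)
      _ = (3 * K) * Real.exp (6 * a) / η * B := by ring
      _ ≤ _ := by
          have : 0 ≤ C * K ^ 2 + C * D := by positivity
          gcongr
          linarith
  · refine h2.trans ?_
    have e1 : Real.exp (12 * a) = Real.exp (6 * a) ^ 2 := by rw [← Real.exp_nat_mul]; congr 1; push_cast; ring
    have e2 : Real.exp (2 * (Real.pi * L * (Real.cos p + Real.exp (-σ)))) = B ^ 2 := by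
      rw [hB, ← Real.exp_nat_mul]; congr 1
    rw [e1, e2]
    have e3 : C * ((K * Real.exp (6 * a) * B) ^ 2 / η ^ 2) = (C * K ^ 2) * Real.exp (6 * a) ^ 2 / η ^ 2 * B ^ 2 := by ring
    rw [e3]
    have : 0 ≤ 3 * K + C * D := by positivity
    gcongr
    linarith
  · refine h3.trans ?_
    have e1 := hN L (a - η) hL0
    calc C * (a ^ 2 * N2 (uK L p (a - η)) / η ^ 2) ≤ C * (a ^ 2 * (D * Real.exp (4 * Real.pi * L)) / η ^ 2) := by gcongr
      _ = (C * D) * a ^ 2 / η ^ 2 * Real.exp (4 * Real.pi * L) := by ring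
      _ ≤ _ := by
          have : 0 ≤ 3 * K + C * K ^ 2 := by positivity
          gcongr
          linarith

end Pool.Agent.Y23
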