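import Pool.Agent.Y23.Kb2

/-! # The ground energy and the division process -/

set_option autoImplicit false
set_option maxHeartbeats 2000000

open Complex Filter Topology Set MeasureTheory
open scoped ComplexConjugate
open Pool.Agent.H24R2.JP (XX)

namespace Pool.Agent.Y23

lemma GM_up_aux (hRH : ∀ ρ : Zt, (ρ : ℂ).re = 1 / 2) {ε : ℝ} (hε : 0 < ε) (hε1 : ε ≤ 1) :
    ∃ A : ℝ, 1 ≤ A ∧ ∀ a : ℝ, A ≤ a → GM a ≤ Real.exp (-(4 * Real.pi - ε) * Real.exp (2 * a)) := by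
  obtain ⟨η, hη, hη1, hηq⟩ : ∃ η : ℝ, 0 < η ∧ η < 1 ∧
      4 * Real.pi - ε / 2 < Real.exp (-(2 * η)) * (4 * Real.pi * Real.cos η - 2 * Real.pi * η) := by
    have h1 : Tendsto (fun η : ℝ => Real.exp (-(2 * η)) * (4 * Real.pi * Real.cos η - 2 * Real.pi * η)) (𝓝[>] 0)
        (𝓝 (Real.exp (-(2 * 0)) * (4 * Real.pi * Real.cos 0 - 2 * Real.pi * 0))) :=
      ((by fun_prop : Continuous fun η : ℝ => Real.exp (-(2 * η)) * (4 * Real.pi * Real.cos η - 2 * Real.pi * η)).tendsto 0).mono_left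
        nhdsWithin_le_nhds
    have h2 : ∀ᶠ η in 𝓝[>] (0 : ℝ), 4 * Real.pi - ε / 2 < Real.exp (-(2 * η)) * (4 * Real.pi * Real.cos η - 2 * Real.pi * η) :=
      h1.eventually (lt_mem_nhds (by simp; linarith))
    have h3 : ∀ᶠ η in 𝓝[>] (0 : ℝ), η < 1 := nhdsWithin_le_nhds (gt_mem_nhds one_pos)
    have h4 : ∀ᶠ η in 𝓝[>] (0 : ℝ), (0 : ℝ) < η := self_mem_nhdsWithin
    obtain ⟨η, h5, h6, h7⟩ := (h2.and (h3.and h4)).exists
    exact ⟨η, h7, h6, h5⟩
  have hπ := Real.pi_gt_three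
  obtain ⟨p, σ, hqp, hp, hσ, hs⟩ := exists_pσ (ε := η) (q := η) hη (by linarith)
  have hp0 : 0 ≤ p := by linarith
  obtain ⟨C, hC, hg⟩ := testK hp0 hp hσ
  set s := Real.cos p + Real.exp (-σ) with hsd
  have hs0 : 0 < ‖sh η 1‖ := by
    rw [norm_pos_iff]
    refine sh_ne hη fun h => ?_
    have h1 := congrArg norm h
    rw [Complex.norm_exp, norm_one] at h1
    have h2 : ((2 : ℂ) * η * 1).re = 2 * η := by simp
    rw [h2, Real.exp_eq_one_iff] at h1
    linarith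
  have hX0 : 0 < ‖XX 1‖ := norm_pos_iff.2 XX_one_ne
  set c1 := ‖sh η 1‖ * (η / 16) * ‖XX 1‖ with hc1
  have hc10 : 0 < c1 := by positivity
  set δ1 := Real.pi * (2 * Real.cos η - s) with hδ1
  have hδ10 : 0 < δ1 := by
    have h1 : 0 < Real.exp (-(2 * η)) * (4 * Real.pi * Real.cos η - 2 * Real.pi * η) := by linarith
    have h2 : 0 < 4 * Real.pi * Real.cos η - 2 * Real.pi * η := (mul_pos_iff_of_pos_left (Real.exp_pos _)).1 h1
    rw [hδ1]
    nlinarith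
  have hab1 := absorb (2 * C / (η * c1)) 6 0 (ε := δ1 * Real.exp (-(2 * η))) (by positivity)
  have hab2 := absorb (8 * C / (η ^ 2 * c1 ^ 2)) 14 1 (ε := ε / 2) (by positivity)
  obtain ⟨A, hA⟩ := eventually_atTop.1 (hab1.and hab2)
  refine ⟨max A 1, le_max_right _ _, fun a ha => ?_⟩
  obtain ⟨h1, h2⟩ := hA a (le_of_max_le_left ha)
  have ha1 : 1 ≤ a := le_of_max_le_right ha
  have ha0 : 0 < a := by linarith
  obtain ⟨g, R, hgH, hgT, hgR, hgS, hgN⟩ := hg a η hη hη1.le (by linarith)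
  set L := Real.exp (2 * (a - η)) with hL
  have hL0 : 0 < L := Real.exp_pos _
  have hLe : Real.exp (-(2 * η)) * Real.exp (2 * a) = L := by rw [hL, ← Real.exp_add]; congr 1; ring
  rw [pow_zero, mul_one, mul_assoc δ1, hLe] at h1
  rw [pow_one] at h2
  have hAK := AK_low_one (L := L) (p := p) (κ := η) hL0.le hη.le hqp.le hp
  -- lower bound at one
  set s0 := c1 / 2 * Real.exp (2 * Real.pi * L * Real.cos η) with hs0d
  have hs00 : 0 < s0 := by positivity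
  have hR1 := hgR 1 (by simp)
  have hR2 : ‖R 1‖ ≤ s0 := by
    refine hR1.trans ?_
    have e1 : Real.exp (2 * Real.pi * L * Real.cos η) = Real.exp (δ1 * L) * Real.exp (Real.pi * L * s) := by
      rw [← Real.exp_add, hδ1]; congr 1; ring
    rw [hs0d, e1]
    have e2 : C * Real.exp (6 * a) / η = c1 / 2 * (2 * C / (η * c1) * Real.exp (6 * a)) := by field_simp
    rw [e2]
    have e3 : c1 / 2 * (2 * C / (η * c1) * Real.exp (6 * a)) ≤ c1 / 2 * Real.exp (δ1 * L) :=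
      mul_le_mul_of_nonneg_left h1 (by positivity)
    calc c1 / 2 * (2 * C / (η * c1) * Real.exp (6 * a)) * Real.exp (Real.pi * L * s) ≤
        c1 / 2 * Real.exp (δ1 * L) * Real.exp (Real.pi * L * s) := mul_le_mul_of_nonneg_right e3 (Real.exp_pos _).le
      _ = _ := by ring
  have h7 : s0 ≤ ‖TT g 1‖ := by
    have h8 := hgT 1
    rw [one_mul] at h8
    have h9 : 2 * s0 ≤ ‖sh η 1 * (AK L p 1 / 8) * XX 1‖ := by
      rw [norm_mul, norm_mul, norm_div]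
      have : ‖(8 : ℂ)‖ = 8 := by norm_num
      rw [this, hs0d, hc1]
      calc 2 * (‖sh η 1‖ * (η / 16) * ‖XX 1‖ / 2 * Real.exp (2 * Real.pi * L * Real.cos η)) =
          ‖sh η 1‖ * ((η / 2 * Real.exp (2 * Real.pi * L * Real.cos η)) / 8) * ‖XX 1‖ := by ring
        _ ≤ _ := by gcongr
    have h10 := norm_sub_norm_le (sh η 1 * (AK L p 1 / 8) * XX 1) (R 1)
    rw [h8]
    linarith
  have h8 : s0 ^ 2 ≤ 2 * a * Real.exp (2 * a) * N2 g := by
    have h9 := norm_TT_le ha0 hgH.1 1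
    simp only [Complex.one_re, abs_one, mul_one] at h9
    exact (pow_le_pow_left₀ hs00.le h7 2).trans h9
  have h9 : GM a * N2 g ≤ SS g := by
    have := bq_nonneg ha0 hgH
    unfold bq at this
    rw [QQ_eq_SS hRH] at this
    linarith
  have hG := GM_nonneg hRH a
  have h10 : GM a * s0 ^ 2 ≤ 2 * a * Real.exp (2 * a) * (C * Real.exp (12 * a) / η ^ 2 * Real.exp (2 * (Real.pi * L * s))) := by
    calc GM a * s0 ^ 2 ≤ GM a * (2 * a * Real.exp (2 * a) * N2 g) := mul_le_mul_of_nonneg_left h8 hG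
      _ = 2 * a * Real.exp (2 * a) * (GM a * N2 g) := by ring
      _ ≤ 2 * a * Real.exp (2 * a) * SS g := mul_le_mul_of_nonneg_left h9 (by positivity)
      _ ≤ _ := mul_le_mul_of_nonneg_left hgS (by positivity)
  have h11 : GM a ≤ 8 * C / (η ^ 2 * c1 ^ 2) * a * Real.exp (14 * a) *
      Real.exp (2 * (Real.pi * L * s) - 4 * Real.pi * L * Real.cos η) := by
    have e1 : s0 ^ 2 = c1 ^ 2 / 4 * Real.exp (4 * Real.pi * L * Real.cos η) := by
      rw [hs0d, mul_pow, ← Real.exp_nat_mul, div_pow]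
      have : ((2 : ℕ) : ℝ) * (2 * Real.pi * L * Real.cos η) = 4 * Real.pi * L * Real.cos η := by push_cast; ring
      rw [this]; ring
    rw [e1] at h10
    have e2 : Real.exp (14 * a) = Real.exp (2 * a) * Real.exp (12 * a) := by rw [← Real.exp_add]; congr 1; ring
    rw [Real.exp_sub, ← mul_div_assoc, le_div_iff₀ (Real.exp_pos _), e2]
    have e3 : GM a * Real.exp (4 * Real.pi * L * Real.cos η) = 4 / c1 ^ 2 * (GM a * (c1 ^ 2 / 4 * Real.exp (4 * Real.pi * L * Real.cos η))) := by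
      field_simp
    rw [e3]
    refine (mul_le_mul_of_nonneg_left h10 (by positivity)).trans (le_of_eq ?_)
    field_simp
    ring
  refine h11.trans ?_
  have h12 : 2 * (Real.pi * L * s) - 4 * Real.pi * L * Real.cos η ≤ -(4 * Real.pi - ε / 2) * Real.exp (2 * a) := by
    have e1 : 4 * Real.pi - ε / 2 ≤ Real.exp (-(2 * η)) * (4 * Real.pi * Real.cos η - 2 * Real.pi * s) := by
      have : Real.exp (-(2 * η)) * (4 * Real.pi * Real.cos η - 2 * Real.pi * η) ≤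
          Real.exp (-(2 * η)) * (4 * Real.pi * Real.cos η - 2 * Real.pi * s) := by
        refine mul_le_mul_of_nonneg_left ?_ (Real.exp_pos _).le
        nlinarith
      linarith
    have e2 := mul_le_mul_of_nonneg_right e1 (Real.exp_pos (2 * a)).le
    have e3 : Real.exp (-(2 * η)) * (4 * Real.pi * Real.cos η - 2 * Real.pi * s) * Real.exp (2 * a) =
        L * (4 * Real.pi * Real.cos η - 2 * Real.pi * s) := by rw [← hLe]; ring
    rw [e3] at e2
    linarith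
  calc 8 * C / (η ^ 2 * c1 ^ 2) * a * Real.exp (14 * a) * Real.exp (2 * (Real.pi * L * s) - 4 * Real.pi * L * Real.cos η) ≤
      Real.exp (ε / 2 * Real.exp (2 * a)) * Real.exp (-(4 * Real.pi - ε / 2) * Real.exp (2 * a)) :=
        mul_le_mul h2 (Real.exp_le_exp.2 h12) (Real.exp_pos _).le (Real.exp_pos _).le
    _ = _ := by rw [← Real.exp_add]; congr 1; ring

/-- an upper bound for the ground energy, with the optimal exponent of the method -/
lemma GM_up (hRH : ∀ ρ : Zt, (ρ : ℂ).re = 1 / 2) {ε : ℝ} (hε : 0 < ε) :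
    ∃ A : ℝ, 1 ≤ A ∧ ∀ a : ℝ, A ≤ a → GM a ≤ Real.exp (-(4 * Real.pi - ε) * Real.exp (2 * a)) := by
  obtain ⟨A, hA1, hA⟩ := GM_up_aux hRH (ε := min ε 1) (by positivity) (min_le_right _ _)
  refine ⟨A, hA1, fun a ha => (hA a ha).trans (Real.exp_le_exp.2 ?_)⟩
  have h1 : min ε 1 ≤ ε := min_le_left _ _
  have h2 := Real.exp_pos (2 * a)
  nlinarith

/-- the division process at one zero -/
lemma ind2 (hRH : ∀ ρ : Zt, (ρ : ℂ).re = 1 / 2) (ρ0 : Zt) {w0 : ℂ} (hw0 : w0 = (ρ0 : ℂ) - 1 / 2) {r : ℝ}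
    (hr : 0 < r) (hr1 : r ≤ 1 / 2) (hr0 : r ≤ ‖w0‖) (hsep : ∀ ρ : Zt, ρ ≠ ρ0 → r ≤ ‖(ρ : ℂ) - ρ0‖) (j : ℕ) :
    ∀ C : ℝ, 0 < C → ∃ C' : ℝ, 0 < C' ∧ ∀ (a τ : ℝ), 1 ≤ a → 0 < τ → ∀ (X : ℝ → ℂ), Hd a X → ∀ (k : ℕ) (G : ℂ → ℂ),
      Differentiable ℂ G → (∀ w, ‖w - w0‖ ≤ r → ‖w * TT X w - (w - w0) ^ (k + 1 + j) * G w‖ ≤ C * τ) →
      SS X ≤ C * τ ^ 2 → ∃ X' : ℝ → ℂ, Hd a X' ∧
        (∀ w, ‖w - w0‖ ≤ r → ‖w * TT X' w - (w - w0) ^ (k + 1) * G w‖ ≤ C' * τ) ∧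
        SS X' ≤ C' * τ ^ 2 ∧ N2 X' ≤ C' * a ^ (2 * j) * (N2 X + τ ^ 2) := by
  induction j with
  | zero =>
    intro C hC
    refine ⟨C + 1, by positivity, fun a τ ha hτ X hX k G hG hb hS => ⟨X, hX, fun w hw => ?_, ?_, ?_⟩⟩
    · have h1 := hb w hw
      rw [add_zero] at h1
      nlinarith
    · nlinarith [sq_nonneg τ]
    · have h1 := N2_nonneg X
      have h2 := sq_nonneg τ
      rw [mul_zero, pow_zero, mul_one]
      nlinarith
  | succ j ih =>
    intro C hC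
    obtain ⟨C1, hC1, hstep⟩ := step_lem hRH ρ0 hw0 hr hr1 hr0 C hC
    set C2 := 1 / r ^ 2 * C1 + (mu ρ0 : ℝ) * (C1 / r) ^ 2 + C1 with hC2
    have hC20 : 0 < C2 := by positivity
    obtain ⟨C3, hC3, hih⟩ := ih C2 hC20
    refine ⟨C3 * (9 + C1), by positivity, fun a τ ha hτ X hX k G hG hb hS => ?_⟩
    have ha0 : 0 < a := by linarith
    have e0 : k + 1 + (j + 1) = (k + 1 + j) + 1 := by omega
    rw [e0] at hb
    obtain ⟨U, W, hU, hW, hUW, hUS, hWN, hWb⟩ := hstep a τ ha hτ X hX _ G hG hb hS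
    have hW0 : ‖TT W w0‖ ≤ C1 / r * τ := by
      have h1 := hWb w0 (by simp [hr.le])
      have hk : k + 1 + j = (k + j) + 1 := by omega
      rw [hk, sub_self, pow_succ, mul_zero, zero_mul, sub_zero, norm_mul] at h1
      have h2 : r * ‖TT W w0‖ ≤ C1 * τ := (mul_le_mul_of_nonneg_right hr0 (norm_nonneg _)).trans h1
      rw [div_mul_eq_mul_div, le_div_iff₀ hr]
      linarith
    have hWS : SS W ≤ C2 * τ ^ 2 := by
      have h1 := SS_div ha0 hU hW ρ0 hw0 hr hsep hUW hW0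
      have h2 : 1 / r ^ 2 * SS U ≤ 1 / r ^ 2 * (C1 * τ ^ 2) := mul_le_mul_of_nonneg_left hUS (by positivity)
      have h3 : 0 ≤ C1 * τ ^ 2 := by positivity
      calc SS W ≤ 1 / r ^ 2 * (C1 * τ ^ 2) + (mu ρ0 : ℝ) * (C1 / r * τ) ^ 2 := h1.trans (by linarith)
        _ ≤ _ := by
            have e : 1 / r ^ 2 * (C1 * τ ^ 2) + (mu ρ0 : ℝ) * (C1 / r * τ) ^ 2 =
              (1 / r ^ 2 * C1 + (mu ρ0 : ℝ) * (C1 / r) ^ 2) * τ ^ 2 := by ring
            rw [e, hC2]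
            nlinarith
    obtain ⟨X', hX', h1, h2, h3⟩ := hih a τ ha hτ W hW k G hG (fun w hw => by
      refine (hWb w hw).trans (mul_le_mul_of_nonneg_right ?_ hτ.le)
      rw [hC2]
      have : 0 ≤ 1 / r ^ 2 * C1 + (mu ρ0 : ℝ) * (C1 / r) ^ 2 := by positivity
      linarith) hWS
    have hCC : C3 ≤ C3 * (9 + C1) := by nlinarith
    refine ⟨X', hX', fun w hw => (h1 w hw).trans (mul_le_mul_of_nonneg_right hCC hτ.le),
      h2.trans (mul_le_mul_of_nonneg_right hCC (by positivity)), h3.trans ?_⟩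
    have h4 : N2 W + τ ^ 2 ≤ (9 + C1) * a ^ 2 * (N2 X + τ ^ 2) := by
      have h5 : 1 ≤ a ^ 2 := by nlinarith
      have h6 := N2_nonneg X
      have h7 : τ ^ 2 ≤ a ^ 2 * τ ^ 2 := by nlinarith [sq_nonneg τ]
      have h8 : 0 ≤ C1 * a ^ 2 * N2 X := by positivity
      have h9 : 0 ≤ a ^ 2 * N2 X := by positivity
      have h10 : 0 ≤ a ^ 2 * τ ^ 2 := by positivity
      nlinarith
    calc C3 * a ^ (2 * j) * (N2 W + τ ^ 2) ≤ C3 * a ^ (2 * j) * ((9 + C1) * a ^ 2 * (N2 X + τ ^ 2)) :=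
          mul_le_mul_of_nonneg_left h4 (by positivity)
      _ = _ := by
          have : a ^ (2 * (j + 1)) = a ^ (2 * j) * a ^ 2 := by rw [← pow_add]; congr 1
          rw [this]; ring

end Pool.Agent.Y23
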