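import Pool.Agent.Y23.Co
import Pool.Agent.H370R2.Local

/-! # The logarithmic derivative of the completed zeta function -/

set_option autoImplicit false
set_option maxHeartbeats 2000000

open Complex Filter Topology Set MeasureTheory
open scoped ComplexConjugate
open Pool.Agent.H24R2.JP (XX)

namespace Pool.Agent.Y23

/-- the logarithmic derivative of the completed function -/
noncomputable def ZZ (w : ℂ) : ℂ := deriv XX w / XX w

/-- the archimedean factor -/
noncomputable def YY (w : ℂ) : ℂ := (4 * w ^ 2 - 1) * Gammaℝ (1 / 2 + w)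

/-- its logarithmic derivative -/
noncomputable def YL (w : ℂ) : ℂ := 8 * w / (4 * w ^ 2 - 1) + logDeriv Gammaℝ (1 / 2 + w)

lemma ZZ_conj (w : ℂ) : ZZ (conj w) = conj (ZZ w) := by
  unfold ZZ
  have h1 : deriv XX (conj w) = conj (deriv XX w) := by
    have h2 := ((XX_diff w).hasDerivAt).conj_conj
    have e : (fun z => conj (XX (conj z))) = XX := by
      funext z
      rw [Pool.Agent.H24R2.JP.B1h.XX_conj, Complex.conj_conj]
    have h3 : HasDerivAt XX (conj (deriv XX w)) (conj w) := by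
      have h4 := h2
      change HasDerivAt (fun z => conj (XX (conj z))) _ _ at h4
      rw [e] at h4
      exact h4
    exact h3.deriv
  rw [h1, Pool.Agent.H24R2.JP.B1h.XX_conj, map_div₀]

lemma ZZ_neg (w : ℂ) : ZZ (-w) = -ZZ w := by
  unfold ZZ
  have h1 : deriv XX (-w) = -deriv XX w := by
    have h2 : HasDerivAt (fun z => XX (-z)) (-deriv XX (-w)) w := by
      have := (XX_diff (-w)).hasDerivAt.comp w (hasDerivAt_neg w)
      rw [mul_neg_one] at this
      exact this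
    have e : (fun z => XX (-z)) = XX := by
      funext z
      exact Pool.Agent.H24R2.JP.Zer.XX_even z
    rw [e] at h2
    rw [h2.deriv, neg_neg]
  rw [h1, Pool.Agent.H24R2.JP.Zer.XX_even, neg_div]

lemma an_Gammaℝ {s : ℂ} (hs : 0 < s.re) : DifferentiableAt ℂ Gammaℝ s := by
  have h1 := (differentiable_Gammaℝ_inv s).inv (inv_ne_zero (Gammaℝ_ne_zero_of_re_pos hs))
  have e : (fun s : ℂ => ((Gammaℝ s)⁻¹)⁻¹) = Gammaℝ := by
    funext z; rw [inv_inv]
  have h2 : DifferentiableAt ℂ (fun s : ℂ => ((Gammaℝ s)⁻¹)⁻¹) s := h1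
  rwa [e] at h2

/-- the region considered -/
def Rg : Set ℂ := {w | w ≠ 1 / 2 ∧ w ≠ -(1 / 2) ∧ (-1 / 2 < w.re ∨ w.im ≠ 0)}

lemma Rg_open : IsOpen Rg := by
  have h1 : IsOpen {w : ℂ | w ≠ 1 / 2} := isOpen_ne
  have h2 : IsOpen {w : ℂ | w ≠ -(1 / 2)} := isOpen_ne
  have h3 : IsOpen {w : ℂ | -1 / 2 < w.re} := isOpen_lt continuous_const Complex.continuous_re
  have h4 : IsOpen {w : ℂ | w.im ≠ 0} := isOpen_ne.preimage Complex.continuous_im
  exact (h1.inter (h2.inter (h3.union h4)))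

lemma gr_ne {w : ℂ} (h : -1 / 2 < w.re ∨ w.im ≠ 0) : Gammaℝ (1 / 2 + w) ≠ 0 := by
  rcases h with h | h
  · refine Gammaℝ_ne_zero_of_re_pos ?_
    have : (1 / 2 + w : ℂ).re = 1 / 2 + w.re := by simp
    rw [this]; linarith
  · refine H370.DL.Gammaℝ_ne_zero_of_im ?_
    have : (1 / 2 + w : ℂ).im = w.im := by simp
    rwa [this]

lemma gr_diff {w : ℂ} (h : -1 / 2 < w.re ∨ w.im ≠ 0) : DifferentiableAt ℂ Gammaℝ (1 / 2 + w) := by
  rcases h with h | h
  · refine an_Gammaℝ ?_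
    have : (1 / 2 + w : ℂ).re = 1 / 2 + w.re := by simp
    rw [this]; linarith
  · refine (H370.DL.analyticAt_Gammaℝ ?_).differentiableAt
    have : (1 / 2 + w : ℂ).im = w.im := by simp
    rwa [this]

lemma four_sq_ne {w : ℂ} (h1 : w ≠ 1 / 2) (h2 : w ≠ -(1 / 2)) : 4 * w ^ 2 - 1 ≠ 0 := by
  have : (4 * w ^ 2 - 1 : ℂ) = 4 * ((w - 1 / 2) * (w - -(1 / 2))) := by ring
  rw [this]
  exact mul_ne_zero (by norm_num) (mul_ne_zero (sub_ne_zero.2 h1) (sub_ne_zero.2 h2))

lemma YY_ne {w : ℂ} (h : w ∈ Rg) : YY w ≠ 0 := mul_ne_zero (four_sq_ne h.1 h.2.1) (gr_ne h.2.2)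

lemma XX_YY {w : ℂ} (h : w ∈ Rg) : XX w = YY w * riemannZeta (1 / 2 + w) := by
  obtain ⟨h1, h2, h3⟩ := h
  have e1 : (1 / 2 + w : ℂ) ≠ 0 := by
    intro h0; exact h2 (by linear_combination h0)
  have e2 : (1 - (1 / 2 + w) : ℂ) ≠ 0 := by
    intro h0; exact h1 (by linear_combination -h0)
  rw [Pool.Agent.H24R2.JP.Zer.XX_eq w e1 e2, riemannZeta_def_of_ne_zero e1]
  unfold YY
  have := gr_ne h3
  rw [mul_assoc, mul_div_cancel₀ _ this]

lemma YY_hasDeriv {w : ℂ} (h : -1 / 2 < w.re ∨ w.im ≠ 0) :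
    HasDerivAt YY (8 * w * Gammaℝ (1 / 2 + w) + (4 * w ^ 2 - 1) * deriv Gammaℝ (1 / 2 + w)) w := by
  unfold YY
  have h1 : HasDerivAt (fun w : ℂ => 4 * w ^ 2 - 1) (8 * w) w := by
    have := (((hasDerivAt_id w).pow 2).const_mul 4).sub_const 1
    refine this.congr_deriv ?_
    simp; ring
  have h2 : HasDerivAt (fun w : ℂ => Gammaℝ (1 / 2 + w)) (deriv Gammaℝ (1 / 2 + w)) w :=
    (gr_diff h).hasDerivAt.comp_const_add (1 / 2) w
  exact h1.mul h2

lemma YL_eq {w : ℂ} (h : w ∈ Rg) : deriv YY w / YY w = YL w := by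
  rw [(YY_hasDeriv h.2.2).deriv]
  unfold YY YL
  rw [logDeriv_apply]
  have h1 := four_sq_ne h.1 h.2.1
  have h2 := gr_ne h.2.2
  generalize Gammaℝ (1 / 2 + w) = A at *
  generalize deriv Gammaℝ (1 / 2 + w) = B at *
  generalize (4 * w ^ 2 - 1 : ℂ) = D at *
  field_simp

lemma zeta_diff {w : ℂ} (h : w ∈ Rg) : DifferentiableAt ℂ riemannZeta (1 / 2 + w) := by
  refine differentiableAt_riemannZeta ?_
  intro h0
  exact h.1 (by linear_combination h0)

lemma ZZ_eq {w : ℂ} (h : w ∈ Rg) (h0 : riemannZeta (1 / 2 + w) ≠ 0) :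
    ZZ w = YL w + deriv riemannZeta (1 / 2 + w) / riemannZeta (1 / 2 + w) := by
  have h2 : HasDerivAt (fun w : ℂ => riemannZeta (1 / 2 + w)) (deriv riemannZeta (1 / 2 + w)) w :=
    (zeta_diff h).hasDerivAt.comp_const_add (1 / 2) w
  have h4 := (YY_hasDeriv h.2.2).mul h2
  have h5 : XX =ᶠ[𝓝 w] fun z => YY z * riemannZeta (1 / 2 + z) := by
    filter_upwards [Rg_open.mem_nhds h] with z hz
    exact XX_YY hz
  have h6 : deriv XX w = (deriv YY w) * riemannZeta (1 / 2 + w) + YY w * deriv riemannZeta (1 / 2 + w) := by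
    rw [h5.deriv_eq, (YY_hasDeriv h.2.2).deriv]
    exact h4.deriv
  rw [← YL_eq h]
  unfold ZZ
  rw [h6, XX_YY h]
  have h7 := YY_ne h
  generalize riemannZeta (1 / 2 + w) = A at *
  generalize deriv riemannZeta (1 / 2 + w) = B at *
  generalize YY w = D at *
  generalize deriv YY w = F at *
  field_simp

end Pool.Agent.Y23
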