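import Pool.Agent.Y23.Cp

/-! # Completeness -/

set_option autoImplicit false
set_option maxHeartbeats 2000000

open Complex Filter Topology Set MeasureTheory
open scoped ComplexConjugate ENNReal

namespace Pool.Agent.Y23

lemma norm_toLp_sq {f : ℝ → ℂ} (hf : MemLp f 2 volume) : ‖hf.toLp f‖ ^ 2 = N2 f := by
  rw [Lp.norm_toLp, hf.eLpNorm_eq_integral_rpow_norm (by norm_num) (by norm_num)]
  have h0 : 0 ≤ ∫ x : ℝ, ‖f x‖ ^ (2 : ℝ≥0∞).toReal :=
    integral_nonneg fun x => by positivity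
  rw [ENNReal.toReal_ofReal (by positivity)]
  have e : (2 : ℝ≥0∞).toReal = 2 := by norm_num
  rw [← Real.rpow_natCast, ← Real.rpow_mul h0, e]
  norm_num
  rfl

lemma fatou_line {u : ℕ → ℝ → ℂ} {v : ℝ → ℂ} (hu : ∀ n, Continuous (u n)) (hv : Continuous v)
    (hui : ∀ n, Integrable (fun t => Lg t * ‖u n t‖ ^ 2)) (huv : ∀ t, Tendsto (fun n => u n t) atTop (𝓝 (v t)))
    {ε : ℝ} (hε : 0 ≤ ε) (hb : ∀ᶠ n in atTop, ∫ t, Lg t * ‖u n t‖ ^ 2 ≤ ε) :
    Integrable (fun t => Lg t * ‖v t‖ ^ 2) ∧ ∫ t, Lg t * ‖v t‖ ^ 2 ≤ ε := by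
  have hnn : ∀ (w : ℝ → ℂ) (t : ℝ), 0 ≤ Lg t * ‖w t‖ ^ 2 := fun w t => mul_nonneg (Lg_pos t).le (sq_nonneg _)
  have hm : ∀ n, Measurable (fun t => ENNReal.ofReal (Lg t * ‖u n t‖ ^ 2)) := fun n =>
    (Lg_cont.mul ((hu n).norm.pow 2)).measurable.ennreal_ofReal
  have h1 := lintegral_liminf_le (μ := volume) (u := atTop) hm
  have h2 : ∀ t, liminf (fun n => ENNReal.ofReal (Lg t * ‖u n t‖ ^ 2)) atTop = ENNReal.ofReal (Lg t * ‖v t‖ ^ 2) := by
    intro t
    refine Tendsto.liminf_eq ?_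
    exact (ENNReal.continuous_ofReal.tendsto _).comp (((huv t).norm.pow 2).const_mul _)
  have h3 : liminf (fun n => ∫⁻ t, ENNReal.ofReal (Lg t * ‖u n t‖ ^ 2)) atTop ≤ ENNReal.ofReal ε := by
    have h4 : ∀ᶠ n in atTop, ∫⁻ t, ENNReal.ofReal (Lg t * ‖u n t‖ ^ 2) ≤ ENNReal.ofReal ε := by
      filter_upwards [hb] with n hn
      rw [← ofReal_integral_eq_lintegral_ofReal (hui n) (Eventually.of_forall (hnn (u n)))]
      exact ENNReal.ofReal_le_ofReal hn
    calc liminf (fun n => ∫⁻ t, ENNReal.ofReal (Lg t * ‖u n t‖ ^ 2)) atTop ≤ liminf (fun _ : ℕ => ENNReal.ofReal ε) atTop :=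
          liminf_le_liminf h4
      _ = ENNReal.ofReal ε := by simp
  simp only [h2] at h1
  have h5 := h1.trans h3
  have hvi : Integrable (fun t => Lg t * ‖v t‖ ^ 2) := by
    refine ⟨(Lg_cont.mul (hv.norm.pow 2)).aestronglyMeasurable, ?_⟩
    rw [hasFiniteIntegral_iff_ofReal (Eventually.of_forall (hnn v))]
    exact lt_of_le_of_lt h5 ENNReal.ofReal_lt_top
  refine ⟨hvi, ?_⟩
  rw [← ofReal_integral_eq_lintegral_ofReal hvi (Eventually.of_forall (hnn v))] at h5
  exact (ENNReal.ofReal_le_ofReal_iff hε).1 h5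

/-- the form domain is complete -/
theorem complete_seq {a : ℝ} (ha : 0 < a) {f : ℕ → ℝ → ℂ} (hf : ∀ n, Hd a (f n))
    (hc : ∀ ε : ℝ, 0 < ε → ∃ N : ℕ, ∀ m n : ℕ, N ≤ m → N ≤ n → LL (fun x => f m x - f n x) ≤ ε) :
    ∃ g : ℝ → ℂ, Hd a g ∧ ∀ ε : ℝ, 0 < ε → ∃ N : ℕ, ∀ n : ℕ, N ≤ n → LL (fun x => f n x - g x) ≤ ε := by
  have hM : ∀ n, MemLp (f n) 2 volume := fun n => (hf n).1.1
  have hcau : CauchySeq (fun n => (hM n).toLp (f n)) := by
    rw [Metric.cauchySeq_iff]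
    intro ε hε
    obtain ⟨N, hN⟩ := hc (ε ^ 2) (by positivity)
    refine ⟨N, fun m hm n hn => ?_⟩
    have h1 := hN m n hm hn
    have h2 := N2_le_LL ((hf m).sub (hf n))
    have h3 : ‖(hM m).toLp (f m) - (hM n).toLp (f n)‖ ^ 2 = N2 (fun x => f m x - f n x) := by
      rw [← MemLp.toLp_sub]
      exact norm_toLp_sq _
    rw [dist_eq_norm]
    have h4 := Real.pi_gt_three
    have h5 : ‖(hM m).toLp (f m) - (hM n).toLp (f n)‖ ^ 2 < ε ^ 2 := by
      rw [h3]
      have := N2_nonneg (fun x => f m x - f n x)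
      have : 0 < ε ^ 2 := by positivity
      nlinarith
    exact lt_of_pow_lt_pow_left₀ 2 hε.le h5
  obtain ⟨u, hu⟩ := cauchySeq_tendsto_of_complete hcau
  set g : ℝ → ℂ := (Icc (-a) a).indicator (u : ℝ → ℂ) with hg
  have hgF : Fa a g := by
    refine ⟨(Lp.memLp u).indicator measurableSet_Icc, fun x hx => ?_⟩
    rw [hg, indicator_of_notMem]
    rw [mem_Icc, ← abs_le]
    exact not_le.2 hx
  have hN2 : ∀ n, N2 (fun x => f n x - g x) ≤ ‖(hM n).toLp (f n) - u‖ ^ 2 := by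
    intro n
    have hmu : MemLp (fun x => f n x - (u : ℝ → ℂ) x) 2 volume := (hM n).sub (Lp.memLp u)
    have h1 : (hM n).toLp (f n) - u = hmu.toLp _ := by
      have : u = (Lp.memLp u).toLp (u : ℝ → ℂ) := (Lp.toLp_coeFn u (Lp.memLp u)).symm
      conv_lhs => rw [this]
      rw [← MemLp.toLp_sub]
      rfl
    rw [h1, norm_toLp_sq]
    unfold N2
    refine integral_mono ((hf n).1.sub hgF).sq_int (hmu.integrable_norm_pow (by norm_num)) fun x => ?_
    simp only
    by_cases hx : x ∈ Icc (-a) a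
    · rw [hg, indicator_of_mem hx]
    · rw [hg, indicator_of_notMem hx]
      have : f n x = 0 := (hf n).1.2 x (by rw [mem_Icc, ← abs_le, not_le] at hx; exact hx)
      rw [this]
      simp
  have hN0 : Tendsto (fun n => N2 (fun x => f n x - g x)) atTop (𝓝 0) := by
    have h1 : Tendsto (fun n => ‖(hM n).toLp (f n) - u‖ ^ 2) atTop (𝓝 0) := by
      have := (tendsto_iff_norm_sub_tendsto_zero.1 hu).pow 2
      simpa using this
    exact squeeze_zero (fun n => N2_nonneg _) hN2 h1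
  have hpt : ∀ v : ℝ, Tendsto (fun n => TT (f n) (v * I)) atTop (𝓝 (TT g (v * I))) := by
    intro v
    rw [tendsto_iff_norm_sub_tendsto_zero]
    have h1 : Tendsto (fun n => Real.sqrt (2 * a * N2 (fun x => f n x - g x))) atTop (𝓝 0) := by
      have := (Real.continuous_sqrt.tendsto _).comp (hN0.const_mul (2 * a))
      simpa [Function.comp_def] using this
    refine squeeze_zero (fun n => norm_nonneg _) (fun n => ?_) h1
    rw [← TT_sub (hf n).1 hgF]
    exact norm_TT_line ha ((hf n).1.sub hgF) v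
  -- Fatou
  have key : ∀ n : ℕ, ∀ ε : ℝ, 0 ≤ ε → (∀ᶠ m in atTop, LL (fun x => f n x - f m x) ≤ ε) →
      Integrable (fun t : ℝ => Lg t * ‖TT (fun x => f n x - g x) (t * I)‖ ^ 2) ∧ LL (fun x => f n x - g x) ≤ ε := by
    intro n ε hε hev
    refine fatou_line (u := fun m t => TT (fun x => f n x - f m x) (t * I)) ?_ ?_ ?_ ?_ hε hev
    · exact fun m => TT_line_cont ((hf n).1.sub (hf m).1)
    · exact TT_line_cont ((hf n).1.sub hgF)
    · exact fun m => ((hf n).sub (hf m)).2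
    · intro t
      rw [TT_sub (hf n).1 hgF]
      have h1 := (hpt t).const_sub (TT (f n) (t * I))
      refine h1.congr fun m => ?_
      rw [TT_sub (hf n).1 (hf m).1]
  have hgH : Hd a g := by
    obtain ⟨N, hN⟩ := hc 1 one_pos
    have h1 := (key N 1 zero_le_one (by
      filter_upwards [eventually_ge_atTop N] with m hm
      exact hN N m le_rfl hm)).1
    have h2 : Hd a (fun x => f N x - g x) := ⟨(hf N).1.sub hgF, h1⟩
    have h3 := (hf N).sub h2
    have e : (fun x => f N x - (f N x - g x)) = g := by funext x; ring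
    rwa [e] at h3
  refine ⟨g, hgH, fun ε hε => ?_⟩
  obtain ⟨N, hN⟩ := hc ε hε
  refine ⟨N, fun n hn => (key n ε hε.le ?_).2⟩
  filter_upwards [eventually_ge_atTop N] with m hm
  exact hN n m hn hm

end Pool.Agent.Y23
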