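import Pool.Agent.Y23.Al

/-! # Normalisation of the generator -/

set_option autoImplicit false
set_option maxHeartbeats 2000000

open Complex Filter Topology Set MeasureTheory
open scoped ComplexConjugate

namespace Pool.Agent.Y23

lemma TT_cj (f : ℝ → ℂ) (w : ℂ) : TT (fun x => conj (f x)) w = conj (TT f (conj w)) := by
  rw [TT_conj, Complex.conj_conj]

lemma TT_rf (f : ℝ → ℂ) (w : ℂ) : TT (fun x => f (-x)) w = TT f (-w) := by
  unfold TT
  have h := integral_neg_eq_self (fun x : ℝ => f (-x) * cexp (w * x)) volume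
  rw [← h]
  refine integral_congr_ae (Eventually.of_forall fun x => ?_)
  simp only [neg_neg]
  congr 2
  push_cast
  ring

lemma Fa_cj {a : ℝ} {f : ℝ → ℂ} (hf : Fa a f) : Fa a (fun x => conj (f x)) :=
  ⟨hf.1.star, fun x hx => by show conj (f x) = 0; rw [hf.2 x hx, map_zero]⟩

lemma Fa_rf {a : ℝ} {f : ℝ → ℂ} (hf : Fa a f) : Fa a (fun x => f (-x)) :=
  ⟨hf.1.comp_measurePreserving (Measure.measurePreserving_neg volume), fun x hx => hf.2 (-x) (by rwa [abs_neg])⟩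

lemma Hd_cj {a : ℝ} {f : ℝ → ℂ} (hf : Hd a f) : Hd a (fun x => conj (f x)) := by
  refine ⟨Fa_cj hf.1, ?_⟩
  have h1 := hf.2.comp_neg
  refine h1.congr (Eventually.of_forall fun v => ?_)
  simp only
  rw [TT_cj, RCLike.norm_conj, Lg_neg]
  congr 4
  simp

lemma Hd_rf {a : ℝ} {f : ℝ → ℂ} (hf : Hd a f) : Hd a (fun x => f (-x)) := by
  refine ⟨Fa_rf hf.1, ?_⟩
  have h1 := hf.2.comp_neg
  refine h1.congr (Eventually.of_forall fun v => ?_)
  simp only
  rw [TT_rf, Lg_neg]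
  congr 4
  simp

lemma N2_cj (f : ℝ → ℂ) : N2 (fun x => conj (f x)) = N2 f := by
  unfold N2
  simp only [RCLike.norm_conj]

lemma N2_rf (f : ℝ → ℂ) : N2 (fun x => f (-x)) = N2 f := by
  unfold N2
  exact integral_neg_eq_self (fun x => ‖f x‖ ^ 2) volume

lemma cj_sub (ρ : Zt) : ((cjZ ρ : Zt) : ℂ) - 1 / 2 = conj ((ρ : ℂ) - 1 / 2) := by
  have k1 : ((cjZ ρ : Zt) : ℂ) = conj (ρ : ℂ) := rfl
  rw [k1, map_sub, map_div₀, map_one, map_ofNat]

lemma QQ_cj (f : ℝ → ℂ) : QQ (fun x => conj (f x)) = QQ f := by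
  unfold QQ
  rw [← cjZ.tsum_eq]
  refine tsum_congr fun ρ => ?_
  rw [cj_sub]
  have k1 : ((cjZ ρ : Zt) : ℂ) = conj (ρ : ℂ) := rfl
  rw [k1, mu_conj ρ.2]
  congr 1
  set z := (ρ : ℂ) - 1 / 2
  have e1 : TT (fun x => conj (f x)) (conj z) = conj (TT f z) := by rw [TT_cj, Complex.conj_conj]
  have e2 : TT (fun x => conj (f x)) (-conj (conj z)) = conj (TT f (-conj z)) := by
    rw [TT_cj, map_neg, Complex.conj_conj]
  unfold GG
  rw [e1, e2, ← map_mul, Complex.conj_re]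

lemma QQ_rf (f : ℝ → ℂ) : QQ (fun x => f (-x)) = QQ f := by
  unfold QQ
  rw [← (rfZ.trans cjZ).tsum_eq (fun ρ : Zt => (mu ρ : ℝ) * (GG f f ((ρ : ℂ) - 1 / 2)).re)]
  refine tsum_congr fun ρ => ?_
  have k1 : (((rfZ.trans cjZ) ρ : Zt) : ℂ) - 1 / 2 = -((ρ : ℂ) - 1 / 2) := by
    rw [Equiv.trans_apply, cj_sub, rfZ_sub, map_neg, Complex.conj_conj]
  have k2 : mu (((rfZ.trans cjZ) ρ : Zt) : ℂ) = mu ρ := by
    rw [Equiv.trans_apply]
    have : ((cjZ (rfZ ρ) : Zt) : ℂ) = conj ((rfZ ρ : Zt) : ℂ) := rfl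
    rw [this, mu_conj (rfZ ρ).2, mu_rfZ]
  rw [k1, k2]
  congr 1
  unfold GG
  rw [TT_rf, TT_rf]
  congr 3

lemma KK.cj {a : ℝ} {f : ℝ → ℂ} (hf : KK a f) : KK a (fun x => conj (f x)) := by
  refine ⟨Hd_cj hf.1, ?_⟩
  have := hf.2
  unfold bq at this ⊢
  rw [QQ_cj, N2_cj, this]

lemma KK.rf {a : ℝ} {f : ℝ → ℂ} (hf : KK a f) : KK a (fun x => f (-x)) := by
  refine ⟨Hd_rf hf.1, ?_⟩
  have := hf.2
  unfold bq at this ⊢
  rw [QQ_rf, N2_rf, this]

/-- a polynomial with a polynomial inverse is constant -/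
lemma poly_const {p q : Polynomial ℂ} (h : q * p = 1) : ∃ c : ℂ, p = Polynomial.C c ∧ c ≠ 0 := by
  have hu : IsUnit p := IsUnit.of_mul_eq_one q (by rw [mul_comm]; exact h)
  obtain ⟨c, hc, hcp⟩ := Polynomial.isUnit_iff.1 hu
  exact ⟨c, hcp.symm, hc.ne_zero⟩

lemma poly_one {r : Polynomial ℂ} {E : ℂ → ℂ} (hE : Differentiable ℂ E) {w1 : ℂ} (hE1 : E w1 ≠ 0)
    (h : ∀ w, r.eval w * E w = E w) : r = 1 := by
  have h1 : ∀ w, (fun w => r.eval w - 1) w * E w = 0 := fun w => by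
    simp only
    linear_combination h w
  have h2 := entire_mul_zero (r := fun w => r.eval w - 1) ((poly_diff r).sub_const 1) hE hE1 h1
  refine Polynomial.funext fun w => ?_
  rw [Polynomial.eval_one]
  exact sub_eq_zero.1 (h2 w)

/-- the conjugate of the generator is a multiple of the generator -/
lemma GData.conj_mul {a : ℝ} (ha : 0 < a) {e : ℝ → ℂ} {N : ℕ} {w1 : ℂ} (h : GData a e N w1) :
    ∃ c : ℂ, c ≠ 0 ∧ ∀ w, conj (TT e (conj w)) = c * TT e w := by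
  obtain ⟨p, _, hp⟩ := h.all ha h.mem.cj
  have h1 : ∀ w, conj (TT e (conj w)) = p.eval w * TT e w := fun w => by rw [← TT_cj, hp]
  have h2 : ∀ w, TT e w = (p.map (starRingEnd ℂ)).eval w * conj (TT e (conj w)) := by
    intro w
    have h3 := congrArg (starRingEnd ℂ) (h1 (conj w))
    rw [Complex.conj_conj, Complex.conj_conj, map_mul] at h3
    rw [h3]
    congr 1
    have h4 := Polynomial.eval_map_apply (f := starRingEnd ℂ) (p := p) (conj w)
    rw [Complex.conj_conj] at h4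
    exact h4.symm
  have h3 := poly_one (r := p.map (starRingEnd ℂ) * p) (differentiable_TT h.mem.1.1) h.nz (fun w => by
    rw [Polynomial.eval_mul, mul_assoc, ← h1, ← h2])
  obtain ⟨c, hc, hc0⟩ := poly_const h3
  refine ⟨c, hc0, fun w => ?_⟩
  rw [h1, hc, Polynomial.eval_C]

/-- parity of the generator -/
lemma GData.parity {a : ℝ} (ha : 0 < a) {e : ℝ → ℂ} {N : ℕ} {w1 : ℂ} (h : GData a e N w1) :
    (∀ w, TT e (-w) = TT e w) ∨ (∀ w, TT e (-w) = -TT e w) := by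
  obtain ⟨p, _, hp⟩ := h.all ha h.mem.rf
  have h1 : ∀ w, TT e (-w) = p.eval w * TT e w := fun w => by rw [← TT_rf, hp]
  have h2 : ∀ w, TT e w = (p.comp (-Polynomial.X)).eval w * TT e (-w) := by
    intro w
    have h3 := h1 (-w)
    rw [neg_neg] at h3
    rw [h3]
    congr 1
    simp [Polynomial.eval_comp]
  have h3 := poly_one (r := p.comp (-Polynomial.X) * p) (differentiable_TT h.mem.1.1) h.nz (fun w => by
    rw [Polynomial.eval_mul, mul_assoc, ← h1, ← h2])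
  obtain ⟨c, hc, hc0⟩ := poly_const h3
  rw [hc, Polynomial.C_comp, ← Polynomial.C_mul] at h3
  have h4 : c * c = 1 := by
    have := congrArg (Polynomial.eval 0) h3
    simpa using this
  rcases mul_self_eq_one_iff.1 h4 with h5 | h5
  · left; intro w; rw [h1, hc, Polynomial.eval_C, h5, one_mul]
  · right; intro w; rw [h1, hc, Polynomial.eval_C, h5, neg_one_mul]

lemma GData.smul {a : ℝ} {e : ℝ → ℂ} {N : ℕ} {w1 : ℂ} (h : GData a e N w1) {c : ℂ} (hc : c ≠ 0) :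
    GData a (fun x => c * e x) N w1 := by
  refine ⟨h.mem.smul c, h.off, ?_, fun j hj => ?_, h.max⟩
  · rw [TT_smul]; exact mul_ne_zero hc h.nz
  · obtain ⟨g, hg, h1⟩ := h.pow j hj
    refine ⟨fun x => c * g x, hg.smul c, fun w => ?_⟩
    rw [TT_smul, TT_smul, h1]; ring

/-- a real generator -/
lemma exists_real_data {a : ℝ} (ha : 0 < a) : ∃ (e : ℝ → ℂ) (N : ℕ) (w1 : ℂ), GData a e N w1 ∧
    ∀ w, TT e (conj w) = conj (TT e w) := by
  obtain ⟨e, N, w1, h⟩ := exists_data ha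
  obtain ⟨c, hc0, hc⟩ := h.conj_mul ha
  by_cases h1 : c = -1
  · refine ⟨fun x => I * e x, N, w1, h.smul I_ne_zero, fun w => ?_⟩
    have h2 := hc w
    rw [h1] at h2
    have h3 : TT e (conj w) = -conj (TT e w) := by
      have := congrArg (starRingEnd ℂ) h2
      rw [Complex.conj_conj, map_mul, map_neg, map_one] at this
      rw [this]; ring
    rw [TT_smul, TT_smul, map_mul, Complex.conj_I, h3]
    ring
  · have h2 : 1 + c ≠ 0 := by
      intro h3
      exact h1 (by linear_combination h3)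
    refine ⟨fun x => (1 + c) * e x, N, w1, h.smul h2, fun w => ?_⟩
    have h3 : ∀ w, TT (fun x => (1 + c) * e x) w = TT e w + conj (TT e (conj w)) := by
      intro w
      rw [TT_smul, hc]; ring
    rw [h3, h3, map_add, Complex.conj_conj, Complex.conj_conj, add_comm]

/-- the structure theorem -/
theorem structure_thm {a : ℝ} (ha : 0 < a) : ∃ (e : ℝ → ℂ) (N : ℕ), KK a e ∧ N2 e ≠ 0 ∧
    (∀ w, TT e (conj w) = conj (TT e w)) ∧
    ((∀ w, TT e (-w) = TT e w) ∨ (∀ w, TT e (-w) = -TT e w)) ∧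
    (∀ w, TT e w = 0 → w.re = 0 ∧ deriv (TT e) w ≠ 0) ∧
    (∀ f, Hd a f → (KK a f ↔ ∃ p : Polynomial ℂ, p.natDegree ≤ N ∧ ∀ w, TT f w = p.eval w * TT e w)) := by
  obtain ⟨e, N, w1, h, hreal⟩ := exists_real_data ha
  refine ⟨e, N, h.mem, fun h0 => h.nz (TT_zero_of_N2 ha h.mem.1.1 h0 w1), hreal, h.parity ha,
    fun w hw => ⟨h.line ha hw, h.simple ha hw⟩, fun f hf => ⟨fun hK => h.all ha hK, ?_⟩⟩
  rintro ⟨p, hp, h1⟩
  obtain ⟨g, hg, h2⟩ := h.poly ha p hp
  exact hg.congr hf fun w => by rw [h1, h2]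

end Pool.Agent.Y23
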