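import Pool.Agent.Y23.Fo2

set_option autoImplicit false

open MeasureTheory Complex Filter Topology Set
open scoped ComplexConjugate

namespace Pool.Agent.Y23

/-- Cauchy-Schwarz for nonnegative functions -/
lemma cs_int {f g : ℝ → ℝ} (hf : MemLp f 2 volume) (hg : MemLp g 2 volume) (hf0 : ∀ x, 0 ≤ f x)
    (hg0 : ∀ x, 0 ≤ g x) : (∫ x, f x * g x) ^ 2 ≤ (∫ x, f x ^ 2) * (∫ x, g x ^ 2) := by
  have h5 := integral_mul_le_Lp_mul_Lq_of_nonneg (μ := volume) (p := 2) (q := 2) (f := f) (g := g) (by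
      constructor <;> norm_num) (Eventually.of_forall hf0) (Eventually.of_forall hg0)
      (by simpa using hf) (by simpa using hg)
  have e1 : ∀ g : ℝ → ℝ, (∀ x, 0 ≤ g x) → (∫ x, g x ^ (2 : ℝ)) ^ (1 / (2 : ℝ)) =
      Real.sqrt (∫ x, g x ^ 2) := by
    intro g _
    rw [Real.sqrt_eq_rpow]
    congr 1
    refine integral_congr_ae (Eventually.of_forall fun x => ?_)
    simp only
    exact_mod_cast Real.rpow_natCast (g x) 2
  rw [e1 _ hf0, e1 _ hg0] at h5
  have h6 : 0 ≤ ∫ x, f x * g x := integral_nonneg fun x => mul_nonneg (hf0 x) (hg0 x)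
  have h7 : 0 ≤ ∫ x, f x ^ 2 := integral_nonneg fun x => by positivity
  have h8 : 0 ≤ ∫ x, g x ^ 2 := integral_nonneg fun x => by positivity
  calc _ ≤ (Real.sqrt (∫ x, f x ^ 2) * Real.sqrt (∫ x, g x ^ 2)) ^ 2 := pow_le_pow_left₀ h6 h5 2
    _ = _ := by rw [mul_pow, Real.sq_sqrt h7, Real.sq_sqrt h8]

/-- the tent function -/
noncomputable def tent (b x : ℝ) : ℝ := if |x| ≤ b then 1 - |x| / b else 0

lemma tent_meas (b : ℝ) : Measurable (tent b) := by
  unfold tent
  exact Measurable.ite (measurableSet_le (by fun_prop) measurable_const) (by fun_prop) measurable_const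

lemma tent_nonneg {b : ℝ} (hb : 0 < b) (x : ℝ) : 0 ≤ tent b x := by
  unfold tent
  split_ifs with h
  · have : |x| / b ≤ 1 := (div_le_one hb).2 h
    linarith
  · exact le_rfl

lemma tent_le {b : ℝ} (hb : 0 < b) (x : ℝ) : tent b x ≤ 1 := by
  unfold tent
  split_ifs with h
  · have : 0 ≤ |x| / b := by positivity
    linarith
  · exact zero_le_one

lemma Fa_bdd {b : ℝ} {f : ℝ → ℂ} (hm : AEStronglyMeasurable f volume) {C : ℝ}
    (hC : ∀ x, ‖f x‖ ≤ C) (h0 : ∀ x : ℝ, b < |x| → f x = 0) : Fa b f := by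
  refine ⟨?_, h0⟩
  have h1 : MemLp ((Icc (-b) b).indicator fun _ : ℝ => (C : ℝ)) 2 volume :=
    memLp_indicator_const 2 measurableSet_Icc C (Or.inr (by simp))
  refine h1.mono hm (Eventually.of_forall fun x => ?_)
  by_cases h : x ∈ Icc (-b) b
  · rw [indicator_of_mem h]
    exact (hC x).trans (le_abs_self C)
  · rw [indicator_of_notMem h]
    rw [mem_Icc, ← abs_le, not_le] at h
    rw [h0 x h]; simp

lemma Fa_tent {b : ℝ} (hb : 0 < b) : Fa b (fun x => (tent b x : ℂ)) := by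
  refine Fa_bdd (Complex.measurable_ofReal.comp (tent_meas b)).aestronglyMeasurable (C := 1)
    (fun x => ?_) (fun x hx => ?_)
  · rw [Complex.norm_real, Real.norm_eq_abs, abs_of_nonneg (tent_nonneg hb x)]
    exact tent_le hb x
  · simp only [tent, if_neg (not_le.2 hx), ofReal_zero]

lemma TT_interval {b : ℝ} (hb : 0 < b) {f : ℝ → ℂ} (hf : Fa b f) (w : ℂ) :
    TT f w = ∫ x in (-b)..b, f x * cexp (w * x) := by
  rw [intervalIntegral.integral_of_le (by linarith), ← integral_Icc_eq_integral_Ioc,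
    ← integral_indicator measurableSet_Icc]
  unfold TT
  congr 1
  funext x
  by_cases h : x ∈ Icc (-b) b
  · rw [indicator_of_mem h]
  · rw [indicator_of_notMem h]
    rw [mem_Icc, ← abs_le, not_le] at h
    rw [hf.2 x h, zero_mul]

/-- the transform of the tent function -/
lemma TT_tent {b : ℝ} (hb : 0 < b) (w : ℂ) :
    w ^ 2 * TT (fun x => (tent b x : ℂ)) w = (cexp (b * w) + cexp (-(b * w)) - 2) / b := by
  rcases eq_or_ne w 0 with rfl | hw
  · simp
    norm_num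
  have hbc : (b : ℂ) ≠ 0 := by exact_mod_cast hb.ne'
  rw [TT_interval hb (Fa_tent hb)]
  have hcont : Continuous (fun x : ℝ => (1 - (|x| / b : ℝ) : ℂ) * cexp (w * x)) := by fun_prop
  have e0 : ∫ x in (-b)..b, (tent b x : ℂ) * cexp (w * x) =
      ∫ x in (-b)..b, (1 - (|x| / b : ℝ) : ℂ) * cexp (w * x) := by
    refine intervalIntegral.integral_congr fun x hx => ?_
    rw [uIcc_of_le (by linarith)] at hx
    rw [tent, if_pos (abs_le.2 hx)]
    push_cast; rfl
  rw [e0, ← intervalIntegral.integral_add_adjacent_intervals (b := 0) (hcont.intervalIntegrable _ _)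
    (hcont.intervalIntegrable _ _)]
  have e1 : ∫ x in (-b)..0, (1 - (|x| / b : ℝ) : ℂ) * cexp (w * x) =
      ((1 + ((0 : ℝ) : ℂ) / b) / w - 1 / (b * w ^ 2)) * cexp (w * ((0 : ℝ) : ℂ)) -
      ((1 + ((-b : ℝ) : ℂ) / b) / w - 1 / (b * w ^ 2)) * cexp (w * ((-b : ℝ) : ℂ)) := by
    have h1 : ∫ x in (-b)..0, (1 - (|x| / b : ℝ) : ℂ) * cexp (w * x) =
        ∫ x in (-b)..0, (1 + (x : ℂ) / b) * cexp (w * x) := by
      refine intervalIntegral.integral_congr fun x hx => ?_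
      rw [uIcc_of_le (by linarith)] at hx
      rw [abs_of_nonpos hx.2]
      push_cast
      ring
    rw [h1]
    refine intervalIntegral.integral_eq_sub_of_hasDerivAt (f := fun x : ℝ =>
      ((1 + (x : ℂ) / b) / w - 1 / (b * w ^ 2)) * cexp (w * x)) (fun x _ => ?_)
      ((by fun_prop : Continuous (fun x : ℝ => (1 + (x : ℂ) / b) * cexp (w * x))).intervalIntegrable _ _)
    have h2 : HasDerivAt (fun x : ℝ => (x : ℂ)) 1 x := Complex.ofRealCLM.hasDerivAt
    have h3 : HasDerivAt (fun x : ℝ => cexp (w * x)) (cexp (w * x) * (w * 1)) x := (h2.const_mul w).cexp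
    have h4 : HasDerivAt (fun x : ℝ => ((1 + (x : ℂ) / b) / w - 1 / (b * w ^ 2))) (1 / b / w) x := by
      simpa using ((h2.div_const (b : ℂ)).const_add 1 |>.div_const w).sub_const (1 / (b * w ^ 2))
    refine (h4.mul h3).congr_deriv ?_
    field_simp
    ring
  have e2 : ∫ x in (0)..b, (1 - (|x| / b : ℝ) : ℂ) * cexp (w * x) =
      ((1 - ((b : ℝ) : ℂ) / b) / w + 1 / (b * w ^ 2)) * cexp (w * ((b : ℝ) : ℂ)) -
      ((1 - ((0 : ℝ) : ℂ) / b) / w + 1 / (b * w ^ 2)) * cexp (w * ((0 : ℝ) : ℂ)) := by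
    have h1 : ∫ x in (0)..b, (1 - (|x| / b : ℝ) : ℂ) * cexp (w * x) =
        ∫ x in (0)..b, (1 - (x : ℂ) / b) * cexp (w * x) := by
      refine intervalIntegral.integral_congr fun x hx => ?_
      rw [uIcc_of_le hb.le] at hx
      rw [abs_of_nonneg hx.1]
      push_cast
      ring
    rw [h1]
    refine intervalIntegral.integral_eq_sub_of_hasDerivAt (f := fun x : ℝ =>
      ((1 - (x : ℂ) / b) / w + 1 / (b * w ^ 2)) * cexp (w * x)) (fun x _ => ?_)
      ((by fun_prop : Continuous (fun x : ℝ => (1 - (x : ℂ) / b) * cexp (w * x))).intervalIntegrable _ _)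
    have h2 : HasDerivAt (fun x : ℝ => (x : ℂ)) 1 x := Complex.ofRealCLM.hasDerivAt
    have h3 : HasDerivAt (fun x : ℝ => cexp (w * x)) (cexp (w * x) * (w * 1)) x := (h2.const_mul w).cexp
    have h4 : HasDerivAt (fun x : ℝ => ((1 - (x : ℂ) / b) / w + 1 / (b * w ^ 2))) (-(1 / b) / w) x := by
      have := ((h2.div_const (b : ℂ)).const_sub 1 |>.div_const w).add_const (1 / (b * w ^ 2))
      simpa using this
    refine (h4.mul h3).congr_deriv ?_
    field_simp
    ring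
  rw [e1, e2]
  have h5 : w * ((-b : ℝ) : ℂ) = -(b * w) := by push_cast; ring
  have h6 : w * ((b : ℝ) : ℂ) = b * w := by ring
  rw [h5, h6]
  simp only [ofReal_zero, mul_zero, Complex.exp_zero, zero_div]
  push_cast
  field_simp
  ring

/-- the reproducing kernel -/
noncomputable def kap (a x : ℝ) : ℂ := 2 * (tent (2 * a) x : ℂ) - (tent a x : ℂ)

lemma Fa_kap {a : ℝ} (ha : 0 < a) : Fa (2 * a) (kap a) :=
  ((Fa_tent (by linarith : 0 < 2 * a)).smul 2).sub ((Fa_tent ha).mono (by linarith))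

lemma kap_one {a x : ℝ} (ha : 0 < a) (hx : |x| ≤ a) : kap a x = 1 := by
  unfold kap tent
  rw [if_pos (by linarith), if_pos hx]
  have : (a : ℂ) ≠ 0 := by exact_mod_cast ha.ne'
  push_cast
  field_simp
  ring

lemma kap_conj (a x : ℝ) : conj (kap a x) = kap a x := by
  unfold kap
  rw [map_sub, map_mul, conj_ofReal, conj_ofReal, map_ofNat]

lemma TT_kap_sq {a : ℝ} (ha : 0 < a) (w : ℂ) : w ^ 2 * TT (kap a) w =
    (cexp (2 * a * w) + cexp (-(2 * a * w)) - cexp (a * w) - cexp (-(a * w))) / a := by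
  have h1 := TT_tent (by linarith : 0 < 2 * a) w
  have h2 := TT_tent ha w
  have h3 : TT (kap a) w = 2 * TT (fun x => (tent (2 * a) x : ℂ)) w - TT (fun x => (tent a x : ℂ)) w := by
    have := TT_sub ((Fa_tent (by linarith : 0 < 2 * a)).smul 2) ((Fa_tent ha).mono (by linarith)) w
    rw [TT_smul] at this
    exact this
  rw [h3, mul_sub, mul_left_comm, h1, h2]
  have : (a : ℂ) ≠ 0 := by exact_mod_cast ha.ne'
  push_cast
  field_simp
  ring

lemma TT_conj (f : ℝ → ℂ) (w : ℂ) : conj (TT f w) = TT (fun x => conj (f x)) (conj w) := by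
  unfold TT
  rw [← integral_conj]
  congr 1
  funext x
  rw [map_mul, ← Complex.exp_conj, map_mul, conj_ofReal]

/-- the kernel decays quadratically in the strip -/
lemma kap_bound {a : ℝ} (ha : 0 < a) : ∃ C : ℝ, 0 < C ∧ ∀ w : ℂ, |w.re| ≤ 1 →
    ‖TT (kap a) w‖ ≤ C / (1 + w.im ^ 2) := by
  set C1 : ℝ := Real.sqrt (2 * (2 * a) * Real.exp (2 * (2 * a)) * N2 (kap a)) with hC1
  set C2 : ℝ := (2 * Real.exp (2 * a) + 2 * Real.exp a) / a with hC2
  have hC2p : 0 < C2 := by positivity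
  refine ⟨C1 + C2, by positivity, fun w hw => ?_⟩
  have h1 : ‖TT (kap a) w‖ ≤ C1 := by
    rw [hC1]
    refine Real.le_sqrt_of_sq_le ((norm_TT_le (by linarith) (Fa_kap ha) w).trans ?_)
    refine mul_le_mul_of_nonneg_right ?_ (N2_nonneg _)
    refine mul_le_mul_of_nonneg_left (Real.exp_le_exp.2 ?_) (by positivity)
    nlinarith
  have h2 : ‖w‖ ^ 2 * ‖TT (kap a) w‖ ≤ C2 := by
    rw [← norm_pow, ← norm_mul, TT_kap_sq ha, norm_div, Complex.norm_real, Real.norm_eq_abs,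
      abs_of_pos ha, hC2]
    refine div_le_div_of_nonneg_right ?_ ha.le
    have h3 : ∀ (c : ℝ), 0 ≤ c → ‖cexp ((c : ℂ) * w)‖ ≤ Real.exp c ∧ ‖cexp (-((c : ℂ) * w))‖ ≤ Real.exp c := by
      intro c hc
      have hre : ((c : ℂ) * w).re = c * w.re := by simp
      rw [abs_le] at hw
      constructor
      · rw [Complex.norm_exp, hre]
        exact Real.exp_le_exp.2 (by nlinarith [hw.2])
      · rw [Complex.norm_exp, neg_re, hre]
        exact Real.exp_le_exp.2 (by nlinarith [hw.1])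
    obtain ⟨h4, h5⟩ := h3 (2 * a) (by linarith)
    obtain ⟨h6, h7⟩ := h3 a ha.le
    push_cast at h4 h5
    calc _ ≤ ‖cexp (2 * a * w)‖ + ‖cexp (-(2 * a * w))‖ + ‖cexp (a * w)‖ + ‖cexp (-(a * w))‖ := by
          refine (norm_sub_le _ _).trans (add_le_add_left ?_ _)
          refine (norm_sub_le _ _).trans (add_le_add_left ?_ _)
          exact norm_add_le _ _
      _ ≤ _ := by linarith
  have h3 : w.im ^ 2 ≤ ‖w‖ ^ 2 := by
    rw [← Complex.normSq_eq_norm_sq, Complex.normSq_apply]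
    nlinarith [sq_nonneg w.re]
  rw [le_div_iff₀ (by positivity)]
  have h4 : w.im ^ 2 * ‖TT (kap a) w‖ ≤ C2 :=
    (mul_le_mul_of_nonneg_right h3 (norm_nonneg _)).trans h2
  nlinarith

/-- the reproducing formula -/
lemma reproduce {a : ℝ} (ha : 0 < a) {f : ℝ → ℂ} (hf : Fa a f) (w : ℂ) :
    ∫ t : ℝ, TT f (t * I) * TT (kap a) (w - t * I) = 2 * Real.pi * TT f w := by
  have hg : Fa (2 * a) (fun x => kap a x * cexp (conj w * x)) := (Fa_kap ha).mul_bdd (by fun_prop)
  have h := parseval hf hg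
  have e1 : ∫ x : ℝ, f x * conj (kap a x * cexp (conj w * x)) = TT f w := by
    unfold TT
    congr 1
    funext x
    by_cases hx : a < |x|
    · rw [hf.2 x hx]; simp
    · rw [not_lt] at hx
      rw [kap_one ha hx, one_mul, ← Complex.exp_conj, map_mul, conj_ofReal, conj_conj]
  rw [e1] at h
  rw [← h]
  congr 1
  funext t
  rw [TT_mul_exp, TT_conj]
  simp only [kap_conj]
  congr 2
  rw [map_add, conj_conj, map_mul, conj_I, conj_ofReal]
  ring

lemma int_kernel (y : ℝ) : Integrable (fun t : ℝ => 1 / (1 + (y - t) ^ 2)) ∧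
    ∫ t : ℝ, 1 / (1 + (y - t) ^ 2) = Real.pi := by
  have h1 : Integrable (fun t : ℝ => 1 / (1 + t ^ 2)) := by
    simpa using integrable_inv_one_add_sq
  refine ⟨h1.comp_sub_left y, ?_⟩
  rw [integral_sub_left_eq_self (fun t : ℝ => 1 / (1 + t ^ 2)) volume y]
  simp

/-- Plancherel-Polya in the strip -/
lemma pp {a : ℝ} (ha : 0 < a) : ∃ C : ℝ, 0 < C ∧ ∀ f : ℝ → ℂ, Fa a f → ∀ w : ℂ, |w.re| ≤ 1 →
    ‖TT f w‖ ^ 2 ≤ C * ∫ t : ℝ, ‖TT f (t * I)‖ ^ 2 * (1 / (1 + (w.im - t) ^ 2)) := by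
  obtain ⟨C, hC, hK⟩ := kap_bound ha
  refine ⟨C ^ 2, by positivity, fun f hf w hw => ?_⟩
  have hF := memLp_TT hf
  have hk := int_kernel w.im
  have hk0 : ∀ t : ℝ, 0 ≤ 1 / (1 + (w.im - t) ^ 2) := fun t => by positivity
  have hk1 : ∀ t : ℝ, 1 / (1 + (w.im - t) ^ 2) ≤ 1 := fun t => by
    rw [div_le_one (by positivity)]; nlinarith [sq_nonneg (w.im - t)]
  set v : ℝ → ℝ := fun t => Real.sqrt (1 / (1 + (w.im - t) ^ 2)) with hv
  have hvm : AEStronglyMeasurable v volume := by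
    have : Continuous v := by
      refine Real.continuous_sqrt.comp (Continuous.div continuous_const (by fun_prop) fun t => ?_)
      positivity
    exact this.aestronglyMeasurable
  have hv2 : ∀ t, v t ^ 2 = 1 / (1 + (w.im - t) ^ 2) := fun t => Real.sq_sqrt (hk0 t)
  have hvL : MemLp v 2 volume := by
    rw [memLp_two_iff_integrable_sq hvm]
    simp only [hv2]
    exact hk.1
  have hv1 : ∀ t, v t ≤ 1 := fun t => Real.sqrt_le_one.2 (hk1 t)
  have hu : MemLp (fun t : ℝ => ‖TT f (t * I)‖ * v t) 2 volume := by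
    refine hF.norm.mono (hF.norm.1.mul hvm) (Eventually.of_forall fun t => ?_)
    rw [norm_mul]
    have : ‖v t‖ ≤ 1 := by
      rw [Real.norm_eq_abs, abs_of_nonneg (Real.sqrt_nonneg _)]; exact hv1 t
    exact mul_le_of_le_one_right (norm_nonneg _) this
  have h1 : ‖2 * Real.pi * TT f w‖ ≤ ∫ t : ℝ, (‖TT f (t * I)‖ * v t) * (C * v t) := by
    rw [← reproduce ha hf w]
    refine norm_integral_le_of_norm_le (hu.integrable_mul (hvL.const_mul C)) (Eventually.of_forall fun t => ?_)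
    rw [norm_mul]
    have h2 := hK (w - t * I) (by simpa using hw)
    have h3 : (w - t * I).im = w.im - t := by simp
    rw [h3] at h2
    have h4 : (‖TT f (t * I)‖ * v t) * (C * v t) = ‖TT f (t * I)‖ * (C / (1 + (w.im - t) ^ 2)) := by
      calc _ = ‖TT f (t * I)‖ * (C * v t ^ 2) := by ring
        _ = _ := by rw [hv2]; ring
    rw [h4]
    exact mul_le_mul_of_nonneg_left h2 (norm_nonneg _)
  have h2 := cs_int hu (hvL.const_mul C) (fun t => mul_nonneg (norm_nonneg _) (Real.sqrt_nonneg _))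
    (fun t => mul_nonneg hC.le (Real.sqrt_nonneg _))
  have e1 : ∫ t : ℝ, (‖TT f (t * I)‖ * v t) ^ 2 =
      ∫ t : ℝ, ‖TT f (t * I)‖ ^ 2 * (1 / (1 + (w.im - t) ^ 2)) := by
    congr 1
    funext t
    rw [mul_pow, hv2]
  have e2 : ∫ t : ℝ, (C * v t) ^ 2 = C ^ 2 * Real.pi := by
    have : (fun t => (C * v t) ^ 2) = fun t => C ^ 2 * (1 / (1 + (w.im - t) ^ 2)) := by
      funext t
      rw [mul_pow, hv2]
    rw [this, integral_const_mul, hk.2]
  rw [e1, e2] at h2
  set J := ∫ t : ℝ, ‖TT f (t * I)‖ ^ 2 * (1 / (1 + (w.im - t) ^ 2)) with hJ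
  have hJ0 : 0 ≤ J := integral_nonneg fun t => mul_nonneg (by positivity) (hk0 t)
  have h3 : ‖2 * Real.pi * TT f w‖ ^ 2 ≤ J * (C ^ 2 * Real.pi) :=
    (pow_le_pow_left₀ (norm_nonneg _) h1 2).trans h2
  have h4 : ‖2 * Real.pi * TT f w‖ ^ 2 = (2 * Real.pi) ^ 2 * ‖TT f w‖ ^ 2 := by
    rw [norm_mul, mul_pow]
    congr 2
    have : ‖((2 * Real.pi : ℝ) : ℂ)‖ = 2 * Real.pi := by
      rw [Complex.norm_real, Real.norm_eq_abs, abs_of_pos (by positivity)]
    push_cast at this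
    exact this
  rw [h4] at h3
  have hpi := Real.pi_gt_three
  have h5 : 0 ≤ C ^ 2 * J := by positivity
  have h6 : Real.pi * ‖TT f w‖ ^ 2 ≤ Real.pi * (C ^ 2 * J) := by
    nlinarith [sq_nonneg ‖TT f w‖, Real.pi_pos, mul_nonneg Real.pi_pos.le (sq_nonneg ‖TT f w‖)]
  exact le_of_mul_le_mul_left h6 Real.pi_pos

end Pool.Agent.Y23
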