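import Pool.Agent.Y23.Te

/-! # Zeros of the generator near the zeros of zeta -/

set_option autoImplicit false
set_option maxHeartbeats 2000000

open Complex Filter Topology Set MeasureTheory
open scoped ComplexConjugate
open Pool.Agent.H24R2.JP (XX)
open Pool.Agent.Helper242.KK (Ph continuous_Ph Ph_upper Ph_pos)

namespace Pool.Agent.Y23

/-- the size of the tail -/
noncomputable def ta (b : ℝ) : ℝ := Real.exp (7 * b - Real.pi * Real.exp (2 * b))

lemma ta_pos (b : ℝ) : 0 < ta b := Real.exp_pos _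

lemma ta_le_one {b : ℝ} (hb : 0 ≤ b) : ta b ≤ 3 := by
  unfold ta
  have h1 := exp_tail le_rfl hb
  have h2 := Real.exp_le_exp.2 h1
  refine h2.trans ?_
  have h3 : 7 * 0 - Real.pi * Real.exp (2 * 0) + 1 ≤ 0 := by
    have := Real.pi_gt_three
    norm_num
    linarith
  have := Real.exp_le_exp.2 h3
  rw [Real.exp_zero] at this
  linarith

lemma QQ_eq_SS (hRH : ∀ ρ : Zt, (ρ : ℂ).re = 1 / 2) (f : ℝ → ℂ) : QQ f = SS f := by
  unfold QQ SS
  refine tsum_congr fun ρ => ?_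
  have h1 : -conj ((ρ : ℂ) - 1 / 2) = (ρ : ℂ) - 1 / 2 := by
    apply Complex.ext
    · simp [hRH ρ]
    · simp
  unfold GG
  rw [h1, Complex.mul_conj, Complex.ofReal_re, Complex.normSq_eq_norm_sq]

lemma GM_nonneg (hRH : ∀ ρ : Zt, (ρ : ℂ).re = 1 / 2) (a : ℝ) : 0 ≤ GM a := by
  refine Real.sInf_nonneg ?_
  rintro r ⟨f, _, _, rfl⟩
  rw [QQ_eq_SS hRH]
  exact SS_nonneg f

lemma bq_le_SS (hRH : ∀ ρ : Zt, (ρ : ℂ).re = 1 / 2) {a : ℝ} (f : ℝ → ℂ) : bq (GM a) f ≤ SS f := by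
  unfold bq
  rw [QQ_eq_SS hRH]
  have := mul_nonneg (GM_nonneg hRH a) (N2_nonneg f)
  linarith

lemma SS_add_le {a : ℝ} (ha : 0 < a) {f g : ℝ → ℂ} (hf : Hd a f) (hg : Hd a g) :
    SS (fun x => f x + g x) ≤ 2 * SS f + 2 * SS g := by
  unfold SS
  have h1 := hf.dom ha
  have h2 := hg.dom ha
  rw [← tsum_mul_left, ← tsum_mul_left, ← (h1.mul_left 2).tsum_add (h2.mul_left 2)]
  refine ((hf.add hg).dom ha).tsum_le_tsum (fun ρ => ?_) ((h1.mul_left 2).add (h2.mul_left 2))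
  rw [TT_add hf.1 hg.1]
  have h3 := mul_le_mul_of_nonneg_left (sq_add_le' (TT f ((ρ : ℂ) - 1 / 2)) (TT g ((ρ : ℂ) - 1 / 2)))
    (Nat.cast_nonneg (mu ρ) : (0 : ℝ) ≤ mu ρ)
  linarith

lemma SS_smul (f : ℝ → ℂ) (c : ℂ) : SS (fun x => c * f x) = ‖c‖ ^ 2 * SS f := by
  unfold SS
  rw [← tsum_mul_left]
  refine tsum_congr fun ρ => ?_
  rw [TT_smul, norm_mul]; ring

lemma N2_ub_le : ∃ C : ℝ, 0 < C ∧ ∀ b : ℝ, N2 (ub b) ≤ C := by
  obtain ⟨D, hD⟩ := Pool.Agent.H24R2.JP.MomAux.Cl_Ph.2 0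
  have hi : Integrable (fun x : ℝ => Ph x ^ 2) := by
    refine ((integrable_exp_neg_mul_sq one_pos).const_mul (D ^ 2)).mono' (continuous_Ph.pow 2).aestronglyMeasurable
      (Eventually.of_forall fun x => ?_)
    have h1 := hD x
    rw [zero_mul, Real.exp_zero, mul_one] at h1
    have h2 : |Ph x| ^ 2 ≤ (D * Real.exp (-1 * x ^ 2)) ^ 2 := pow_le_pow_left₀ (abs_nonneg _) h1 2
    rw [Real.norm_eq_abs, abs_of_nonneg (sq_nonneg _), ← sq_abs]
    refine h2.trans ?_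
    rw [mul_pow]
    refine mul_le_mul_of_nonneg_left ?_ (sq_nonneg _)
    rw [sq]
    have h3 : Real.exp (-1 * x ^ 2) ≤ 1 := by
      rw [Real.exp_le_one_iff]
      have := sq_nonneg x
      linarith
    have h4 := Real.exp_pos (-1 * x ^ 2)
    nlinarith
  refine ⟨(∫ x : ℝ, Ph x ^ 2) + 1, ?_, fun b => ?_⟩
  · have : 0 ≤ ∫ x : ℝ, Ph x ^ 2 := integral_nonneg fun x => sq_nonneg _
    linarith
  · have : N2 (ub b) ≤ ∫ x : ℝ, Ph x ^ 2 := by
      unfold N2
      refine integral_mono (Fa_ub b).sq_int hi fun x => ?_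
      simp only
      unfold ub
      by_cases h : x ∈ Icc (-b) b
      · rw [indicator_of_mem h, Complex.norm_real, Real.norm_eq_abs, sq_abs]
      · rw [indicator_of_notMem h]; simp; positivity
    linarith

/-- test functions with all the estimates -/
lemma test_est : ∃ C : ℝ, 0 < C ∧ ∀ a η : ℝ, 0 < a → 0 < η → η ≤ 1 → η < a → ∃ g : ℝ → ℂ, Hd a g ∧
    (∀ w, w * TT g w = sh η w * (XX w / 8 - tl (a - η) w)) ∧ SS g ≤ C / η ^ 2 * ta (a - η) ^ 2 ∧
      N2 g ≤ C / η ^ 2 * a ^ 2 := by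
  obtain ⟨K, hK, htl⟩ := tl_bound
  obtain ⟨c, hc, hlow⟩ := zero_lower
  obtain ⟨D, hD, hub⟩ := N2_ub_le
  set Z : ℝ := ∑' ρ : Zt, (mu ρ : ℝ) * (1 / (1 + ((ρ : ℂ).im - 0) ^ 2)) with hZ
  have hZ0 : 0 ≤ Z := tsum_nonneg fun ρ => by positivity
  refine ⟨9 * K ^ 2 / c * Z + 4 * D, by positivity, fun a η ha hη hη1 hηa => ?_⟩
  have h1 : Fa a (fun x => ub (a - η) (x + η)) := Fa_shift (by rw [abs_of_pos hη]; linarith) (Fa_ub _)
  have h2 : Fa a (fun x => ub (a - η) (x + -η)) := Fa_shift (by rw [abs_neg, abs_of_pos hη]; linarith) (Fa_ub _)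
  set c' : ℂ := ((1 / (2 * η) : ℝ) : ℂ) with hc'
  have h3 : Fa a (fun x => c' * (ub (a - η) (x + -η) - ub (a - η) (x + η))) := (h2.sub h1).smul c'
  have h4 : ∀ w, TT (fun x => c' * (ub (a - η) (x + -η) - ub (a - η) (x + η))) w = sh η w * (XX w / 8 - tl (a - η) w) := by
    intro w
    rw [TT_smul, TT_sub h2 h1, TT_shift, TT_shift, TT_ub, hc']
    unfold sh
    have e1 : -(w * ((-η : ℝ) : ℂ)) = η * w := by push_cast; ring
    have e2 : -(w * ((η : ℝ) : ℂ)) = -(η * w) := by ring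
    rw [e1, e2]
    push_cast
    ring
  obtain ⟨g, hg, h5, h6⟩ := division ha h3 0 (by
    rw [h4]; unfold sh; simp)
  have h7 : ∀ w, w * TT g w = sh η w * (XX w / 8 - tl (a - η) w) := fun w => by rw [← h4, ← h5, sub_zero]
  -- values at the zeros
  have hval : ∀ ρ : Zt, (mu ρ : ℝ) * ‖TT g ((ρ : ℂ) - 1 / 2)‖ ^ 2 ≤
      (9 * K ^ 2 / c * (ta (a - η) ^ 2 / η ^ 2)) * ((mu ρ : ℝ) * (1 / (1 + ((ρ : ℂ).im - 0) ^ 2))) := by
    intro ρ
    set w := (ρ : ℂ) - 1 / 2 with hw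
    have hX : XX w = 0 := (isZ_iff ρ).1 ρ.2
    have hre : |w.re| ≤ 1 := (half_re ρ).trans (by norm_num)
    have e1 := congrArg norm (h7 w)
    rw [hX, zero_div, zero_sub, norm_mul, norm_mul, norm_neg] at e1
    have e2 := sh_bound hη hη1 hre
    have e3 : ‖tl (a - η) w‖ ≤ K * ta (a - η) := htl (a - η) (by linarith) w hre
    have e4 : ‖w‖ * ‖TT g w‖ ≤ 3 / η * (K * ta (a - η)) := by
      rw [e1]
      exact mul_le_mul e2 e3 (norm_nonneg _) (by positivity)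
    have e5 : ‖w‖ ^ 2 * ‖TT g w‖ ^ 2 ≤ 9 * K ^ 2 * (ta (a - η) ^ 2 / η ^ 2) := by
      have := pow_le_pow_left₀ (by positivity) e4 2
      rw [mul_pow] at this
      refine this.trans (le_of_eq ?_)
      field_simp
      ring
    have e6 := hlow ρ
    have e7 : ‖TT g w‖ ^ 2 ≤ 9 * K ^ 2 / c * (ta (a - η) ^ 2 / η ^ 2) * (1 / (1 + ((ρ : ℂ).im - 0) ^ 2)) := by
      rw [sub_zero, mul_one_div, le_div_iff₀ (by positivity)]
      have e8 : c * (1 + (ρ : ℂ).im ^ 2) * ‖TT g w‖ ^ 2 ≤ 9 * K ^ 2 * (ta (a - η) ^ 2 / η ^ 2) :=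
        (mul_le_mul_of_nonneg_right e6 (sq_nonneg _)).trans e5
      have e9 : 9 * K ^ 2 / c * (ta (a - η) ^ 2 / η ^ 2) = (9 * K ^ 2 * (ta (a - η) ^ 2 / η ^ 2)) / c := by ring
      rw [e9, le_div_iff₀ hc]
      linarith
    calc (mu ρ : ℝ) * ‖TT g w‖ ^ 2 ≤ (mu ρ : ℝ) * (9 * K ^ 2 / c * (ta (a - η) ^ 2 / η ^ 2) * (1 / (1 + ((ρ : ℂ).im - 0) ^ 2))) :=
          mul_le_mul_of_nonneg_left e7 (Nat.cast_nonneg _)
      _ = _ := by ring
  have hdom : Dom g := Summable.of_nonneg_of_le (fun ρ => by positivity) hval ((zsummable 0).mul_left _)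
  refine ⟨g, (Hd_iff ha g).2 ⟨hg, hdom⟩, h7, ?_, ?_⟩
  · have h8 : SS g ≤ (9 * K ^ 2 / c * (ta (a - η) ^ 2 / η ^ 2)) * Z := by
      unfold SS
      rw [hZ, ← tsum_mul_left]
      exact hdom.tsum_le_tsum hval ((zsummable 0).mul_left _)
    refine h8.trans ?_
    have h9 : 0 ≤ 4 * D * (ta (a - η) ^ 2 / η ^ 2) := by positivity
    have h10 : (9 * K ^ 2 / c * Z + 4 * D) / η ^ 2 * ta (a - η) ^ 2 =
        9 * K ^ 2 / c * (ta (a - η) ^ 2 / η ^ 2) * Z + 4 * D * (ta (a - η) ^ 2 / η ^ 2) := by ring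
    rw [h10]
    linarith
  · have h8 := h6 (by simp)
    have h9 : N2 (fun x => c' * (ub (a - η) (x + -η) - ub (a - η) (x + η))) ≤ D / η ^ 2 := by
      rw [N2_smul]
      have e1 : ‖c'‖ ^ 2 = 1 / (4 * η ^ 2) := by
        rw [hc', Complex.norm_real, Real.norm_eq_abs, sq_abs]
        field_simp
        norm_num
      have e2 : N2 (fun x => ub (a - η) (x + -η) - ub (a - η) (x + η)) ≤ 4 * D := by
        have e3 := N2_add_le h2 (h1.smul (-1))
        have e4 : (fun x => ub (a - η) (x + -η) + -1 * ub (a - η) (x + η)) =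
          fun x => ub (a - η) (x + -η) - ub (a - η) (x + η) := by funext x; ring
        rw [e4, N2_smul] at e3
        have e5 : N2 (fun x => ub (a - η) (x + -η)) = N2 (ub (a - η)) := by
          unfold N2
          exact integral_add_right_eq_self (fun x => ‖ub (a - η) x‖ ^ 2) (-η)
        have e6 : N2 (fun x => ub (a - η) (x + η)) = N2 (ub (a - η)) := by
          unfold N2
          exact integral_add_right_eq_self (fun x => ‖ub (a - η) x‖ ^ 2) η
        rw [e5, e6, norm_neg, norm_one] at e3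
        have := hub (a - η)
        linarith
      rw [e1]
      calc 1 / (4 * η ^ 2) * N2 (fun x => ub (a - η) (x + -η) - ub (a - η) (x + η)) ≤ 1 / (4 * η ^ 2) * (4 * D) :=
            mul_le_mul_of_nonneg_left e2 (by positivity)
        _ = D / η ^ 2 := by field_simp
    have h10 : 0 ≤ 9 * K ^ 2 / c * Z * (a ^ 2 / η ^ 2) := by positivity
    calc N2 g ≤ 4 * a ^ 2 * (D / η ^ 2) := h8.trans (mul_le_mul_of_nonneg_left h9 (by positivity))
      _ ≤ 4 * D * (a ^ 2 / η ^ 2) + 9 * K ^ 2 / c * Z * (a ^ 2 / η ^ 2) := by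
          have : 4 * a ^ 2 * (D / η ^ 2) = 4 * D * (a ^ 2 / η ^ 2) := by ring
          linarith
      _ = _ := by ring

/-- a fixed function in the form domain with nonvanishing integral -/
lemma exists_bump : ∃ h : ℝ → ℂ, Fa (1 / 4) h ∧ TT h 0 ≠ 0 ∧ ∃ C : ℝ, 0 < C ∧ ∀ w : ℂ, |w.re| ≤ 1 →
    ‖TT h w‖ ≤ C / (1 + w.im ^ 2) := by
  have h8 : (0 : ℝ) < 1 / 8 := by norm_num
  obtain ⟨C, hC, hk⟩ := kap_bound h8
  have hF : Fa (1 / 4) (kap (1 / 8)) := by
    have := Fa_kap h8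
    rwa [show 2 * (1 / 8 : ℝ) = 1 / 4 by norm_num] at this
  refine ⟨kap (1 / 8), hF, ?_, C, hC, hk⟩
  -- the kernel is nonnegative
  have hre : ∀ x, 0 ≤ (kap (1 / 8) x).re := by
    intro x
    unfold kap tent
    by_cases h1 : |x| ≤ 1 / 8
    · rw [if_pos h1, if_pos (by linarith)]
      simp only [Complex.sub_re, Complex.mul_re, Complex.ofReal_re, Complex.ofReal_im]
      norm_num
      linarith
    · by_cases h2 : |x| ≤ 2 * (1 / 8)
      · rw [if_neg h1, if_pos h2]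
        simp only [Complex.sub_re, Complex.mul_re, Complex.ofReal_re, Complex.ofReal_im]
        norm_num
        linarith
      · rw [if_neg h1, if_neg h2]
        simp
  have hi := hF.integrable
  have h2 : TT (kap (1 / 8)) 0 = ∫ x, kap (1 / 8) x := by
    unfold TT
    refine integral_congr_ae (Eventually.of_forall fun x => ?_)
    simp
  rw [h2]
  intro h3
  have h4 : ∫ x, (kap (1 / 8) x).re = 0 := by
    have h5 := integral_re hi
    have h6 := congrArg Complex.re h3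
    rw [Complex.zero_re] at h6
    rw [← h6]
    exact h5
  have h5 : ∫ x in Icc (-(1 / 8 : ℝ)) (1 / 8), (kap (1 / 8) x).re ≤ ∫ x, (kap (1 / 8) x).re :=
    setIntegral_le_integral hi.re (Eventually.of_forall hre)
  have h6 : ∫ x in Icc (-(1 / 8 : ℝ)) (1 / 8), (kap (1 / 8) x).re = ∫ x in Icc (-(1 / 8 : ℝ)) (1 / 8), (1 : ℝ) := by
    refine setIntegral_congr_fun measurableSet_Icc fun x hx => ?_
    show (kap (1 / 8) x).re = 1
    rw [kap_one h8 (abs_le.2 hx), Complex.one_re]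
  rw [h6, h4] at h5
  simp at h5
  norm_num at h5

end Pool.Agent.Y23
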