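import Pool.Agent.Y23.Rp

/-! # The division step -/

set_option autoImplicit false
set_option maxHeartbeats 2000000

open Complex Filter Topology Set MeasureTheory
open scoped ComplexConjugate
open Pool.Agent.H24R2.JP (XX)

namespace Pool.Agent.Y23

lemma Hd.mono {a b : ℝ} {f : ℝ → ℂ} (hf : Hd a f) (h : a ≤ b) : Hd b f := ⟨hf.1.mono h, hf.2⟩

/-- division of entire functions -/
lemma entire_div {F : ℂ → ℂ} (hF : Differentiable ℂ F) (w0 : ℂ) (n : ℕ) :
    (n : ℕ∞) ≤ analyticOrderAt F w0 → ∃ G : ℂ → ℂ, Differentiable ℂ G ∧ ∀ w, F w = (w - w0) ^ n * G w := by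
  induction n generalizing F with
  | zero => intro _; exact ⟨F, hF, fun w => by simp⟩
  | succ n ih =>
    intro h
    have h0 : F w0 = 0 := order_pos (hF.analyticAt w0) h
    have hd : Differentiable ℂ (dslope F w0) := by
      rw [← differentiableOn_univ, Complex.differentiableOn_dslope univ_mem]
      exact hF.differentiableOn
    have h1 : ∀ w, (w - w0) * dslope F w0 w = F w := by
      intro w
      have := sub_smul_dslope F w0 w
      rw [h0, sub_zero, smul_eq_mul] at this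
      exact this
    have h2 := order_div (hd.analyticAt w0) h1
    rw [h2] at h
    have h3 : (n : ℕ∞) ≤ analyticOrderAt (dslope F w0) w0 := by
      have h4 : (1 : ℕ∞) + (n : ℕ∞) ≤ 1 + analyticOrderAt (dslope F w0) w0 := by
        rw [add_comm (1 : ℕ∞) (n : ℕ∞)]
        exact_mod_cast h
      exact (ENat.add_le_add_iff_left (by simp)).1 h4
    obtain ⟨G, hG, h5⟩ := ih hd h3
    exact ⟨G, hG, fun w => by rw [← h1, h5, pow_succ]; ring⟩

/-- modulated bumps -/
lemma bump_mod : ∃ C c0 : ℝ, 0 < C ∧ 0 < c0 ∧ ∀ w0 : ℂ, w0.re = 0 → ∃ T : ℝ → ℂ, Hd (1 / 4) T ∧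
    ‖TT T w0‖ = c0 ∧ SS T ≤ C * Lg w0.im ∧ N2 T ≤ C ∧ ∀ w : ℂ, |w.re| ≤ 1 → ‖TT T w‖ ≤ C := by
  obtain ⟨h, hF, h0, C, hC, hb⟩ := exists_bump
  obtain ⟨K, hK, hz⟩ := zsum_le
  have hN := N2_nonneg h
  refine ⟨C ^ 2 * K + N2 h + C, ‖TT h 0‖, by positivity, norm_pos_iff.2 h0, fun w0 hw0 => ?_⟩
  have hT : Fa (1 / 4) (fun x : ℝ => h x * cexp (-w0 * x)) := hF.mul_bdd (by fun_prop)
  have hv : ∀ w, TT (fun x : ℝ => h x * cexp (-w0 * x)) w = TT h (-w0 + w) := fun w => TT_mul_exp h (-w0) w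
  have hbd : ∀ w : ℂ, |w.re| ≤ 1 → ‖TT (fun x : ℝ => h x * cexp (-w0 * x)) w‖ ≤ C / (1 + (w.im - w0.im) ^ 2) := by
    intro w hw
    rw [hv]
    have h1 := hb (-w0 + w) (by rw [Complex.add_re, Complex.neg_re, hw0, neg_zero, zero_add]; exact hw)
    have e : (-w0 + w).im = w.im - w0.im := by rw [Complex.add_im, Complex.neg_im]; ring
    rwa [e] at h1
  have hterm : ∀ ρ : Zt, (mu ρ : ℝ) * ‖TT (fun x : ℝ => h x * cexp (-w0 * x)) ((ρ : ℂ) - 1 / 2)‖ ^ 2 ≤
      C ^ 2 * ((mu ρ : ℝ) * (1 / (1 + ((ρ : ℂ).im - w0.im) ^ 2))) := by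
    intro ρ
    have h1 := hbd ((ρ : ℂ) - 1 / 2) ((half_re ρ).trans (by norm_num))
    have e : ((ρ : ℂ) - 1 / 2).im = (ρ : ℂ).im := by simp
    rw [e] at h1
    have h2 := pow_le_pow_left₀ (norm_nonneg _) h1 2
    have h3 : (C / (1 + ((ρ : ℂ).im - w0.im) ^ 2)) ^ 2 ≤ C ^ 2 * (1 / (1 + ((ρ : ℂ).im - w0.im) ^ 2)) := by
      rw [div_pow, ← mul_one_div]
      refine mul_le_mul_of_nonneg_left ?_ (sq_nonneg _)
      apply one_div_le_one_div_of_le (by positivity)
      have := sq_nonneg ((ρ : ℂ).im - w0.im)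
      nlinarith
    calc _ ≤ (mu ρ : ℝ) * (C ^ 2 * (1 / (1 + ((ρ : ℂ).im - w0.im) ^ 2))) :=
          mul_le_mul_of_nonneg_left (h2.trans h3) (Nat.cast_nonneg _)
      _ = _ := by ring
  have hdom : Dom (fun x : ℝ => h x * cexp (-w0 * x)) :=
    Summable.of_nonneg_of_le (fun ρ => by positivity) hterm ((zsummable w0.im).mul_left _)
  refine ⟨fun x : ℝ => h x * cexp (-w0 * x), (Hd_iff (by norm_num) _).2 ⟨hT, hdom⟩, ?_, ?_, ?_, ?_⟩
  · rw [hv, neg_add_cancel]
  · have h1 : SS (fun x : ℝ => h x * cexp (-w0 * x)) ≤ C ^ 2 * ∑' ρ : Zt, (mu ρ : ℝ) * (1 / (1 + ((ρ : ℂ).im - w0.im) ^ 2)) := by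
      unfold SS
      rw [← tsum_mul_left]
      exact hdom.tsum_le_tsum hterm ((zsummable w0.im).mul_left _)
    have h2 := hz w0.im
    have h3 := Lg_pos w0.im
    calc _ ≤ C ^ 2 * (K * Lg w0.im) := h1.trans (mul_le_mul_of_nonneg_left h2 (by positivity))
      _ ≤ (C ^ 2 * K + N2 h + C) * Lg w0.im := by
          have : 0 ≤ (N2 h + C) * Lg w0.im := by positivity
          nlinarith
  · have h1 : N2 (fun x : ℝ => h x * cexp (-w0 * x)) = N2 h := by
      unfold N2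
      refine integral_congr_ae (Eventually.of_forall fun x => ?_)
      simp only
      rw [norm_mul, Complex.norm_exp, Complex.re_mul_ofReal, Complex.neg_re, hw0]
      simp
    rw [h1]
    have : 0 ≤ C ^ 2 * K := by positivity
    linarith
  · intro w hw
    refine (hbd w hw).trans ?_
    have h1 : C / (1 + (w.im - w0.im) ^ 2) ≤ C := by
      rw [div_le_iff₀ (by positivity)]
      have := sq_nonneg (w.im - w0.im)
      nlinarith
    have : 0 ≤ C ^ 2 * K := by positivity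
    linarith

/-- one step of the division process -/
lemma step_lem (hRH : ∀ ρ : Zt, (ρ : ℂ).re = 1 / 2) (ρ0 : Zt) {w0 : ℂ} (hw0 : w0 = (ρ0 : ℂ) - 1 / 2) {r : ℝ}
    (hr : 0 < r) (hr1 : r ≤ 1 / 2) (hr0 : r ≤ ‖w0‖) (C : ℝ) (hC : 0 < C) :
    ∃ C' : ℝ, 0 < C' ∧ ∀ (a τ : ℝ), 1 ≤ a → 0 < τ → ∀ (X : ℝ → ℂ), Hd a X → ∀ (k : ℕ), ∀ G : ℂ → ℂ,
      Differentiable ℂ G → (∀ w, ‖w - w0‖ ≤ r → ‖w * TT X w - (w - w0) ^ (k + 1) * G w‖ ≤ C * τ) →
      SS X ≤ C * τ ^ 2 → ∃ U W : ℝ → ℂ, Hd a U ∧ Hd a W ∧ (∀ w, TT U w = (w - w0) * TT W w) ∧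
        SS U ≤ C' * τ ^ 2 ∧ N2 W ≤ 8 * a ^ 2 * N2 X + C' * a ^ 2 * τ ^ 2 ∧
        (∀ w, ‖w - w0‖ ≤ r → ‖w * TT W w - (w - w0) ^ k * G w‖ ≤ C' * τ) := by
  obtain ⟨C1, c0, hC1, hc0, hb⟩ := bump_mod
  have hre : w0.re = 0 := by rw [hw0]; simp [hRH ρ0]
  obtain ⟨T, hT, hT0, hTS, hTN, hTb⟩ := hb w0 hre
  have hL := Lg_pos w0.im
  set M := C / (r * c0) with hM
  have hM0 : 0 < M := by positivity
  set D1 := 2 * C + 2 * M ^ 2 * (C1 * Lg w0.im) with hD1
  set D2 := 8 * (M ^ 2 * C1) with hD2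
  set D3 := (C + (‖w0‖ + 1) * M * C1) / r with hD3
  have hD10 : 0 < D1 := by positivity
  have hD20 : 0 < D2 := by positivity
  have hD30 : 0 < D3 := by positivity
  refine ⟨D1 + D2 + D3, by positivity, fun a τ ha hτ X hX k G hG hball hSX => ?_⟩
  have ha0 : 0 < a := by linarith
  have hT' : Hd a T := hT.mono (by linarith)
  have hT0' : TT T w0 ≠ 0 := by rw [← norm_pos_iff, hT0]; exact hc0
  set c := TT X w0 / TT T w0 with hc
  have hcb : ‖c‖ ≤ M * τ := by
    have h1 := hball w0 (by simp [hr.le])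
    rw [sub_self, pow_succ, mul_zero, zero_mul, sub_zero, norm_mul] at h1
    have h2 : r * ‖TT X w0‖ ≤ C * τ := (mul_le_mul_of_nonneg_right hr0 (norm_nonneg _)).trans h1
    rw [hc, norm_div, hT0, hM, div_le_iff₀ hc0, div_mul_eq_mul_div, div_mul_eq_mul_div, le_div_iff₀ (by positivity)]
    nlinarith
  have hU : Hd a (fun x => X x - c * T x) := hX.sub (hT'.smul c)
  have hUT : ∀ w, TT (fun x => X x - c * T x) w = TT X w - c * TT T w := fun w => by
    rw [TT_sub hX.1 (hT'.smul c).1, TT_smul]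
  obtain ⟨W, hW, h1, h2⟩ := hU.div ha0 w0 (by rw [hUT, hc, div_mul_cancel₀ _ hT0', sub_self])
  refine ⟨fun x => X x - c * T x, W, hU, hW, fun w => (h1 w).symm, ?_, ?_, ?_⟩
  · have e : (fun x => X x - c * T x) = fun x => X x + (-c) * T x := by funext x; ring
    have h3 := SS_add_le ha0 hX (hT'.smul (-c))
    rw [← e, SS_smul, norm_neg] at h3
    have h4 : ‖c‖ ^ 2 * SS T ≤ (M * τ) ^ 2 * (C1 * Lg w0.im) :=
      mul_le_mul (pow_le_pow_left₀ (norm_nonneg _) hcb 2) hTS (SS_nonneg _) (by positivity)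
    have h5 : D1 * τ ^ 2 ≤ (D1 + D2 + D3) * τ ^ 2 := by
      have : 0 < τ ^ 2 := by positivity
      nlinarith
    refine le_trans ?_ h5
    rw [hD1]
    nlinarith
  · have h3 := h2 hre
    have e : (fun x => X x - c * T x) = fun x => X x + (-c) * T x := by funext x; ring
    have h4 := N2_add_le hX.1 (hT'.smul (-c)).1
    rw [← e, N2_smul, norm_neg] at h4
    have h5 : ‖c‖ ^ 2 * N2 T ≤ (M * τ) ^ 2 * C1 :=
      mul_le_mul (pow_le_pow_left₀ (norm_nonneg _) hcb 2) hTN (N2_nonneg _) (by positivity)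
    have h6 : D2 * (a ^ 2 * τ ^ 2) ≤ (D1 + D2 + D3) * (a ^ 2 * τ ^ 2) := by
      have : 0 < a ^ 2 * τ ^ 2 := by positivity
      nlinarith
    have h7 : 4 * a ^ 2 * N2 (fun x => X x - c * T x) ≤ 4 * a ^ 2 * (2 * N2 X + 2 * ((M * τ) ^ 2 * C1)) := by
      refine mul_le_mul_of_nonneg_left ?_ (by positivity)
      linarith
    calc N2 W ≤ _ := h3
      _ ≤ _ := h7
      _ = 8 * a ^ 2 * N2 X + D2 * (a ^ 2 * τ ^ 2) := by rw [hD2]; ring
      _ ≤ _ := by linarith
  · -- maximum principle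
    have hd : Differentiable ℂ (fun w => w * TT W w - (w - w0) ^ k * G w) :=
      (differentiable_id.mul (differentiable_TT hW.1)).sub (Differentiable.mul (by fun_prop) hG)
    intro w hw
    have h3 := Complex.norm_le_of_forall_mem_frontier_norm_le (U := Metric.ball w0 r) Metric.isBounded_ball
      hd.diffContOnCl (C := D3 * τ) (by
        intro z hz
        rw [frontier_ball w0 hr.ne', mem_sphere_iff_norm] at hz
        have h4 := hball z hz.le
        have h5 : (z - w0) * (z * TT W z - (z - w0) ^ k * G z) =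
            (z * TT X z - (z - w0) ^ (k + 1) * G z) - z * c * TT T z := by
          have h6 := h1 z
          rw [hUT] at h6
          rw [pow_succ]
          linear_combination z * h6
        have h6 := congrArg norm h5
        rw [norm_mul, hz] at h6
        have hz1 : |z.re| ≤ 1 := by
          have h7 := Complex.abs_re_le_norm (z - w0)
          rw [Complex.sub_re, hre, sub_zero, hz] at h7
          linarith
        have hz2 : ‖z‖ ≤ ‖w0‖ + 1 := by
          have h8 : z = (z - w0) + w0 := by ring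
          calc ‖z‖ = ‖(z - w0) + w0‖ := by rw [← h8]
            _ ≤ ‖z - w0‖ + ‖w0‖ := norm_add_le _ _
            _ ≤ _ := by rw [hz]; linarith
        have h7 : ‖z * c * TT T z‖ ≤ (‖w0‖ + 1) * (M * τ) * C1 := by
          rw [norm_mul, norm_mul]
          exact mul_le_mul (mul_le_mul hz2 hcb (norm_nonneg _) (by positivity)) (hTb z hz1) (norm_nonneg _) (by positivity)
        have h8 : r * ‖z * TT W z - (z - w0) ^ k * G z‖ ≤ C * τ + (‖w0‖ + 1) * (M * τ) * C1 := by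
          rw [h6]
          exact (norm_sub_le _ _).trans (add_le_add h4 h7)
        rw [hD3, div_mul_eq_mul_div, le_div_iff₀ hr]
        nlinarith) (z := w) (by rw [closure_ball w0 hr.ne', mem_closedBall_iff_norm]; exact hw)
    refine h3.trans ?_
    have : 0 ≤ (D1 + D2) * τ := by positivity
    nlinarith

end Pool.Agent.Y23
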