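import Pool.Agent.Y23.Rq

/-! # Zeros of the generator near the zeros of zeta: the pointwise theorem -/

set_option autoImplicit false
set_option maxHeartbeats 2000000

open Complex Filter Topology Set MeasureTheory
open scoped ComplexConjugate
open Pool.Agent.H24R2.JP (XX)

namespace Pool.Agent.Y23

lemma SS_div {a : ℝ} (ha : 0 < a) {U W : ℝ → ℂ} (hU : Hd a U) (hW : Hd a W) (ρ0 : Zt) {w0 : ℂ}
    (hw0 : w0 = (ρ0 : ℂ) - 1 / 2) {r : ℝ} (hr : 0 < r) (hsep : ∀ ρ : Zt, ρ ≠ ρ0 → r ≤ ‖(ρ : ℂ) - ρ0‖)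
    (hUW : ∀ w, TT U w = (w - w0) * TT W w) {E : ℝ} (hE : ‖TT W w0‖ ≤ E) :
    SS W ≤ 1 / r ^ 2 * SS U + (mu ρ0 : ℝ) * E ^ 2 := by
  classical
  have hE0 : 0 ≤ E := (norm_nonneg _).trans hE
  have h1 := (hU.dom ha).mul_left (1 / r ^ 2)
  have h2 : Summable (fun ρ : Zt => if ρ = ρ0 then (mu ρ0 : ℝ) * E ^ 2 else 0) :=
    summable_of_ne_finset_zero (s := {ρ0}) fun b hb => by
      rw [Finset.mem_singleton] at hb
      rw [if_neg hb]
  have h3 : ∑' ρ : Zt, (if ρ = ρ0 then (mu ρ0 : ℝ) * E ^ 2 else 0) = (mu ρ0 : ℝ) * E ^ 2 := by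
    rw [tsum_ite_eq]
  unfold SS
  rw [← h3, ← tsum_mul_left, ← h1.tsum_add h2]
  refine (hW.dom ha).tsum_le_tsum (fun ρ => ?_) (h1.add h2)
  by_cases h : ρ = ρ0
  · rw [if_pos h, h]
    have h4 : (mu ρ0 : ℝ) * ‖TT W ((ρ0 : ℂ) - 1 / 2)‖ ^ 2 ≤ (mu ρ0 : ℝ) * E ^ 2 := by
      rw [← hw0]
      exact mul_le_mul_of_nonneg_left (pow_le_pow_left₀ (norm_nonneg _) hE 2) (Nat.cast_nonneg _)
    have h5 : 0 ≤ 1 / r ^ 2 * ((mu ρ0 : ℝ) * ‖TT U ((ρ0 : ℂ) - 1 / 2)‖ ^ 2) := by positivity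
    linarith
  · rw [if_neg h, add_zero]
    have h4 := hsep ρ h
    have h5 : (ρ : ℂ) - 1 / 2 - w0 = (ρ : ℂ) - ρ0 := by rw [hw0]; ring
    have h6 := congrArg norm (hUW ((ρ : ℂ) - 1 / 2))
    rw [norm_mul, h5] at h6
    have h7 : r * ‖TT W ((ρ : ℂ) - 1 / 2)‖ ≤ ‖TT U ((ρ : ℂ) - 1 / 2)‖ := by
      rw [h6]; exact mul_le_mul_of_nonneg_right h4 (norm_nonneg _)
    have h8 := pow_le_pow_left₀ (by positivity) h7 2
    rw [mul_pow] at h8
    have h9 : ‖TT W ((ρ : ℂ) - 1 / 2)‖ ^ 2 ≤ 1 / r ^ 2 * ‖TT U ((ρ : ℂ) - 1 / 2)‖ ^ 2 := by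
      rw [one_div_mul_eq_div, le_div_iff₀ (by positivity)]
      linarith
    calc (mu ρ : ℝ) * ‖TT W ((ρ : ℂ) - 1 / 2)‖ ^ 2 ≤ (mu ρ : ℝ) * (1 / r ^ 2 * ‖TT U ((ρ : ℂ) - 1 / 2)‖ ^ 2) :=
          mul_le_mul_of_nonneg_left h9 (Nat.cast_nonneg _)
      _ = _ := by ring

lemma ind (hRH : ∀ ρ : Zt, (ρ : ℂ).re = 1 / 2) (ρ0 : Zt) {w0 : ℂ} (hw0 : w0 = (ρ0 : ℂ) - 1 / 2) {r : ℝ}
    (hr : 0 < r) (hr1 : r ≤ 1 / 2) (hr0 : r ≤ ‖w0‖) (hsep : ∀ ρ : Zt, ρ ≠ ρ0 → r ≤ ‖(ρ : ℂ) - ρ0‖)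
    {η : ℝ} (hη : 0 < η) (hη1 : η < 1) {m : ℕ} {G : ℂ → ℂ} (hG : Differentiable ℂ G)
    (hXG : ∀ w, sh η w * (XX w / 8) = (w - w0) ^ m * G w) (j : ℕ) : j + 1 ≤ m →
    ∃ C : ℝ, 0 < C ∧ ∀ a : ℝ, 1 ≤ a → ∃ X : ℝ → ℂ, Hd a X ∧
      (∀ w, ‖w - w0‖ ≤ r → ‖w * TT X w - (w - w0) ^ (m - j) * G w‖ ≤ C * ta (a - η)) ∧
      SS X ≤ C * ta (a - η) ^ 2 ∧ N2 X ≤ C * a ^ (2 * j + 2) := by
  have hre : w0.re = 0 := by rw [hw0]; simp [hRH ρ0]
  induction j with
  | zero =>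
    intro _
    obtain ⟨C, hC, ht⟩ := test_est
    obtain ⟨K, hK, htl⟩ := tl_bound
    refine ⟨C / η ^ 2 + 3 / η * K, by positivity, fun a ha => ?_⟩
    obtain ⟨g, hg, h1, h2, h3⟩ := ht a η (by linarith) hη hη1.le (by linarith)
    have hta := ta_pos (a - η)
    refine ⟨g, hg, fun w hw => ?_, ?_, ?_⟩
    · have hw1 : |w.re| ≤ 1 := by
        have h7 := Complex.abs_re_le_norm (w - w0)
        rw [Complex.sub_re, hre, sub_zero] at h7
        linarith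
      rw [h1, Nat.sub_zero, ← hXG]
      have e : sh η w * (XX w / 8 - tl (a - η) w) - sh η w * (XX w / 8) = -(sh η w * tl (a - η) w) := by ring
      rw [e, norm_neg, norm_mul]
      have h4 : ‖tl (a - η) w‖ ≤ K * ta (a - η) := htl (a - η) (by linarith) w hw1
      calc ‖sh η w‖ * ‖tl (a - η) w‖ ≤ 3 / η * (K * ta (a - η)) :=
            mul_le_mul (sh_bound hη hη1.le hw1) h4 (norm_nonneg _) (by positivity)
        _ ≤ (C / η ^ 2 + 3 / η * K) * ta (a - η) := by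
            have : 0 ≤ C / η ^ 2 * ta (a - η) := by positivity
            nlinarith
    · refine h2.trans (mul_le_mul_of_nonneg_right ?_ (by positivity))
      have : 0 ≤ 3 / η * K := by positivity
      linarith
    · simp only [mul_zero, zero_add]
      refine h3.trans (mul_le_mul_of_nonneg_right ?_ (by positivity))
      have : 0 ≤ 3 / η * K := by positivity
      linarith
  | succ j ih =>
    intro hj
    obtain ⟨C, hC, hX⟩ := ih (by omega)
    obtain ⟨C', hC', hstep⟩ := step_lem hRH ρ0 hw0 hr hr1 hr0 C hC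
    refine ⟨1 / r ^ 2 * C' + (mu ρ0 : ℝ) * (C' / r) ^ 2 + C' + (8 * C + 9 * C'), by positivity, fun a ha => ?_⟩
    have hta := ta_pos (a - η)
    have hta3 := ta_le_one (b := a - η) (by linarith)
    obtain ⟨X, hXH, hXb, hXS, hXN⟩ := hX a ha
    have hmj : m - j = (m - (j + 1)) + 1 := by omega
    rw [hmj] at hXb
    obtain ⟨U, W, hU, hW, hUW, hUS, hWN, hWb⟩ := hstep a (ta (a - η)) ha hta X hXH _ G hG hXb hXS
    have ha0 : 0 < a := by linarith
    have hW0 : ‖TT W w0‖ ≤ C' / r * ta (a - η) := by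
      have h1 := hWb w0 (by simp [hr.le])
      have hk : m - (j + 1) = (m - (j + 1) - 1) + 1 := by omega
      rw [hk, sub_self, pow_succ, mul_zero, zero_mul, sub_zero, norm_mul] at h1
      have h2 : r * ‖TT W w0‖ ≤ C' * ta (a - η) := (mul_le_mul_of_nonneg_right hr0 (norm_nonneg _)).trans h1
      rw [div_mul_eq_mul_div, le_div_iff₀ hr]
      linarith
    refine ⟨W, hW, fun w hw => ?_, ?_, ?_⟩
    · refine (hWb w hw).trans (mul_le_mul_of_nonneg_right ?_ hta.le)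
      have : 0 ≤ 1 / r ^ 2 * C' + (mu ρ0 : ℝ) * (C' / r) ^ 2 + (8 * C + 9 * C') := by positivity
      linarith
    · have h1 := SS_div ha0 hU hW ρ0 hw0 hr hsep hUW hW0
      have h2 : 1 / r ^ 2 * SS U ≤ 1 / r ^ 2 * (C' * ta (a - η) ^ 2) := mul_le_mul_of_nonneg_left hUS (by positivity)
      have h3 : 0 ≤ (C' + (8 * C + 9 * C')) * ta (a - η) ^ 2 := by positivity
      calc SS W ≤ 1 / r ^ 2 * (C' * ta (a - η) ^ 2) + (mu ρ0 : ℝ) * (C' / r * ta (a - η)) ^ 2 := h1.trans (by linarith)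
        _ ≤ _ := by
            have e : 1 / r ^ 2 * (C' * ta (a - η) ^ 2) + (mu ρ0 : ℝ) * (C' / r * ta (a - η)) ^ 2 =
              (1 / r ^ 2 * C' + (mu ρ0 : ℝ) * (C' / r) ^ 2) * ta (a - η) ^ 2 := by ring
            rw [e]
            nlinarith
    · have h1 : a ^ (2 * (j + 1) + 2) = a ^ 2 * a ^ (2 * j + 2) := by rw [← pow_add]; congr 1; ring
      have h2 : a ^ 2 ≤ a ^ (2 * (j + 1) + 2) := pow_le_pow_right₀ ha (by omega)
      have h3 : ta (a - η) ^ 2 ≤ 9 := by nlinarith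
      have h4 : C' * a ^ 2 * ta (a - η) ^ 2 ≤ C' * a ^ (2 * (j + 1) + 2) * 9 := by gcongr
      have h5 : 8 * a ^ 2 * N2 X ≤ 8 * C * a ^ (2 * (j + 1) + 2) := by
        rw [h1]
        have := mul_le_mul_of_nonneg_left hXN (by positivity : 0 ≤ 8 * a ^ 2)
        linarith
      have h6 : 0 ≤ (1 / r ^ 2 * C' + (mu ρ0 : ℝ) * (C' / r) ^ 2 + C') * a ^ (2 * (j + 1) + 2) := by positivity
      nlinarith

lemma ta_lim {η c : ℝ} (hc : c < Real.pi * Real.exp (-(2 * η))) (p : ℕ) (hη : 0 < η) :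
    Tendsto (fun a : ℝ => a ^ p * Real.exp (2 * a) * ta (a - η) * Real.exp (c * Real.exp (2 * a))) atTop (𝓝 0) := by
  set κ := Real.pi * Real.exp (-(2 * η)) - c with hκ
  have hκ0 : 0 < κ := by rw [hκ]; linarith
  have h1 : Tendsto (fun a : ℝ => (p.factorial : ℝ) * Real.exp (-a)) atTop (𝓝 0) := by
    have := (Real.tendsto_exp_neg_atTop_nhds_zero).const_mul (p.factorial : ℝ)
    simpa using this
  refine squeeze_zero' ?_ ?_ h1
  · filter_upwards [eventually_ge_atTop (0 : ℝ)] with a ha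
    have := ta_pos (a - η)
    positivity
  · filter_upwards [eventually_ge_atTop (0 : ℝ), eventually_ge_atTop (11 / (2 * κ))] with a ha ha2
    have h2 : a ^ p ≤ (p.factorial : ℝ) * Real.exp a := by
      have := Real.pow_div_factorial_le_exp a ha p
      rwa [div_le_iff₀' (by positivity)] at this
    have h3 : ta (a - η) * Real.exp (c * Real.exp (2 * a)) = Real.exp (7 * (a - η) - κ * Real.exp (2 * a)) := by
      unfold ta
      rw [← Real.exp_add]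
      congr 1
      have : Real.exp (2 * (a - η)) = Real.exp (-(2 * η)) * Real.exp (2 * a) := by
        rw [← Real.exp_add]; congr 1; ring
      rw [this, hκ]
      ring
    have h4 := Real.quadratic_le_exp_of_nonneg (x := 2 * a) (by linarith)
    have h5 : 11 * a ≤ 2 * κ * a ^ 2 := by
      rw [div_le_iff₀ (by positivity)] at ha2
      nlinarith
    have h6 : κ * Real.exp (2 * a) ≥ 11 * a := by
      have : κ * (1 + 2 * a + (2 * a) ^ 2 / 2) ≤ κ * Real.exp (2 * a) := mul_le_mul_of_nonneg_left h4 hκ0.le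
      have : 0 ≤ κ * (1 + 2 * a) := by positivity
      nlinarith
    calc a ^ p * Real.exp (2 * a) * ta (a - η) * Real.exp (c * Real.exp (2 * a))
        = a ^ p * Real.exp (2 * a) * (ta (a - η) * Real.exp (c * Real.exp (2 * a))) := by ring
      _ ≤ ((p.factorial : ℝ) * Real.exp a) * Real.exp (2 * a) * Real.exp (7 * (a - η) - κ * Real.exp (2 * a)) := by
          rw [h3]; gcongr
      _ = (p.factorial : ℝ) * Real.exp (a + 2 * a + (7 * (a - η) - κ * Real.exp (2 * a))) := by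
          rw [Real.exp_add, Real.exp_add]; ring
      _ ≤ (p.factorial : ℝ) * Real.exp (-a) := by
          refine mul_le_mul_of_nonneg_left (Real.exp_le_exp.2 ?_) (Nat.cast_nonneg _)
          linarith

end Pool.Agent.Y23
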