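import Pool.Agent.Y23.We1

/-! # The sum over the zeros as an integral on a vertical line -/

set_option autoImplicit false
set_option maxHeartbeats 2000000

open Complex Filter Topology Set MeasureTheory
open scoped ComplexConjugate
open Pool.Agent.H24R2.JP (XX)

namespace Pool.Agent.Y23

lemma gr_an {s : ℂ} (h : Gammaℝ s ≠ 0) : AnalyticAt ℂ Gammaℝ s := by
  have h1 : AnalyticAt ℂ (fun s : ℂ => (Gammaℝ s)⁻¹) s := differentiable_Gammaℝ_inv.analyticAt s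
  have h2 := h1.inv (inv_ne_zero h)
  refine h2.congr (Eventually.of_forall fun z => ?_)
  show ((Gammaℝ z)⁻¹)⁻¹ = Gammaℝ z
  rw [inv_inv]

lemma LG_cont {s : ℂ} (h : Gammaℝ s ≠ 0) : ContinuousAt (logDeriv Gammaℝ) s := by
  have h1 := gr_an h
  have h2 : ContinuousAt (fun z => deriv Gammaℝ z / Gammaℝ z) s := h1.deriv.continuousAt.div h1.continuousAt h
  exact h2

lemma line_ct (x : ℝ) : Continuous (fun y : ℝ => (⟨x, y⟩ : ℂ)) := by
  have : (fun y : ℝ => (⟨x, y⟩ : ℂ)) = fun y : ℝ => (x : ℂ) + y * I := by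
    funext v; exact H370.mk_eq _ v
  rw [this]; fun_prop

lemma glob_bd {φ : ℝ → ℂ} (hc : Continuous φ) {C : ℝ} (hb : ∀ y, 1 ≤ |y| → ‖φ y‖ ≤ C * (1 + |y|)) :
    ∃ C', 0 < C' ∧ ∀ y, ‖φ y‖ ≤ C' * (1 + |y|) := by
  obtain ⟨K, hK⟩ := (isCompact_Icc (a := (-1 : ℝ)) (b := 1)).exists_bound_of_continuousOn hc.continuousOn
  refine ⟨max (max C K) 1, by positivity, fun y => ?_⟩
  have hy : 0 ≤ |y| := abs_nonneg y
  rcases le_total 1 |y| with h | h
  · refine (hb y h).trans ?_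
    have : C ≤ max (max C K) 1 := (le_max_left _ _).trans (le_max_left _ _)
    exact mul_le_mul_of_nonneg_right this (by linarith)
  · have h1 := hK y (by rw [mem_Icc, ← abs_le]; exact h)
    have : K ≤ max (max C K) 1 := (le_max_right _ _).trans (le_max_left _ _)
    have h3 : 0 ≤ max (max C K) 1 := by positivity
    nlinarith

lemma YL_bd : ∃ C : ℝ, 0 < C ∧ ∀ w : ℂ, |w.re| ≤ 1 → 1 ≤ |w.im| → ‖YL w‖ ≤ C * (1 + |w.im|) := by
  obtain ⟨C, hC0, hC⟩ := H370.DL.logDeriv_Gammaℝ_bound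
  refine ⟨C + 4, by positivity, fun w h1 h2 => ?_⟩
  have hw : 1 ≤ ‖w‖ := h2.trans (Complex.abs_im_le_norm w)
  unfold YL
  have b1 : ‖8 * w / (4 * w ^ 2 - 1)‖ ≤ 3 := by
    rw [norm_div]
    have h3 : 3 * ‖w‖ ^ 2 ≤ ‖4 * w ^ 2 - 1‖ := by
      have h4 := norm_sub_norm_le (4 * w ^ 2) 1
      rw [norm_mul, norm_pow, norm_one, Complex.norm_ofNat] at h4
      nlinarith
    rw [div_le_iff₀ (by nlinarith), norm_mul, Complex.norm_ofNat]
    nlinarith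
  have him : (1 / 2 + w : ℂ).im = w.im := by simp
  have hre : (1 / 2 + w : ℂ).re = 1 / 2 + w.re := by simp
  rw [abs_le] at h1
  have h3 := hC (1 / 2 + w) (by rw [hre]; linarith) (by rw [hre]; linarith) (by rw [him]; exact h2)
  rw [him] at h3
  have b2 : ‖logDeriv Gammaℝ (1 / 2 + w)‖ ≤ C + |w.im| := by
    have e : logDeriv Gammaℝ (1 / 2 + w) = (logDeriv Gammaℝ (1 / 2 + w) - 1 / 2 * Real.log |w.im|) +
        ((1 / 2 * Real.log |w.im| : ℝ) : ℂ) := by push_cast; ring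
    rw [e]
    refine (norm_add_le _ _).trans (add_le_add h3 ?_)
    rw [Complex.norm_real, Real.norm_eq_abs, abs_of_nonneg (by
      have := Real.log_nonneg h2
      positivity)]
    have := Real.log_le_sub_one_of_pos (by linarith : 0 < |w.im|)
    have := Real.log_nonneg h2
    linarith
  refine (norm_add_le _ _).trans ((add_le_add b1 b2).trans ?_)
  nlinarith

lemma YL_contAt {w : ℂ} (h : w ∈ Rg) : ContinuousAt YL w := by
  unfold YL
  refine ContinuousAt.add ?_ ?_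
  · exact ContinuousAt.div (by fun_prop) (by fun_prop) (four_sq_ne h.1 h.2.1)
  · have h1 := LG_cont (gr_ne h.2.2)
    exact ContinuousAt.comp (f := fun w : ℂ => 1 / 2 + w) (x := w) h1 (by fun_prop)

lemma Rg_one (y : ℝ) : (⟨1, y⟩ : ℂ) ∈ Rg := by
  refine ⟨fun h => ?_, fun h => ?_, Or.inl ?_⟩
  · have := congrArg Complex.re h; norm_num at this
  · have := congrArg Complex.re h; norm_num at this
  · norm_num

lemma Rg_zero (y : ℝ) : (⟨0, y⟩ : ℂ) ∈ Rg := by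
  refine ⟨fun h => ?_, fun h => ?_, Or.inl ?_⟩
  · have := congrArg Complex.re h; norm_num at this
  · have := congrArg Complex.re h; norm_num at this
  · norm_num

lemma Rg_im {w : ℂ} (h : w.im ≠ 0) : w ∈ Rg := by
  refine ⟨fun h' => ?_, fun h' => ?_, Or.inr h⟩
  · rw [h'] at h; norm_num at h
  · rw [h'] at h; norm_num at h

lemma YL_line {x : ℝ} (hx : |x| ≤ 1) (h : ∀ y : ℝ, (⟨x, y⟩ : ℂ) ∈ Rg) :
    Continuous (fun y : ℝ => YL ⟨x, y⟩) ∧ ∃ C, 0 < C ∧ ∀ y : ℝ, ‖YL ⟨x, y⟩‖ ≤ C * (1 + |y|) := by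
  have h1 : Continuous (fun y : ℝ => YL ⟨x, y⟩) := by
    rw [continuous_iff_continuousAt]
    intro y
    exact ContinuousAt.comp (f := fun y : ℝ => (⟨x, y⟩ : ℂ)) (x := y) (YL_contAt (h y)) (line_ct x).continuousAt
  obtain ⟨C, _, hC⟩ := YL_bd
  exact ⟨h1, glob_bd h1 fun y hy => hC ⟨x, y⟩ hx hy⟩

lemma lin_dec_int {φ : ℝ → ℂ} (hc : Continuous φ) {C : ℝ} (hb : ∀ y, ‖φ y‖ ≤ C * (1 + |y|)) {g : ℝ → ℂ}
    (hg : Continuous g) {M δ : ℝ} (hδ : 0 < δ) (hgb : ∀ y, ‖g y‖ ≤ M * Real.exp (-δ * y ^ 2)) :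
    Integrable (fun y => φ y * g y) := by
  have hM : 0 ≤ M := by
    have := (norm_nonneg _).trans (hgb 0)
    simpa using this
  have hC : 0 ≤ C := by
    have := (norm_nonneg _).trans (hb 0)
    simpa using this
  have i1 : Integrable (fun y : ℝ => Real.exp (-δ * y ^ 2)) := integrable_exp_neg_mul_sq hδ
  have i2 : Integrable (fun y : ℝ => |y| * Real.exp (-δ * y ^ 2)) := by
    have := (integrable_mul_exp_neg_mul_sq hδ).norm
    refine this.congr (Eventually.of_forall fun y => ?_)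
    show ‖y * Real.exp (-δ * y ^ 2)‖ = |y| * Real.exp (-δ * y ^ 2)
    rw [norm_mul, Real.norm_eq_abs, Real.norm_eq_abs, abs_of_pos (Real.exp_pos _)]
  refine ((i1.add i2).const_mul (C * M)).mono' (hc.mul hg).aestronglyMeasurable (Eventually.of_forall fun y => ?_)
  rw [norm_mul]
  calc ‖φ y‖ * ‖g y‖ ≤ (C * (1 + |y|)) * (M * Real.exp (-δ * y ^ 2)) :=
        mul_le_mul (hb y) (hgb y) (norm_nonneg _) (by positivity)
    _ = _ := by simp only [Pi.add_apply]; ring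

lemma sq_exp_tendsto {δ : ℝ} (hδ : 0 < δ) {U : ℕ → ℝ} (hU : Tendsto U atTop atTop) :
    Tendsto (fun n => (1 + U n ^ 2) * Real.exp (-δ * U n ^ 2)) atTop (𝓝 0) := by
  have h1 : Tendsto (fun x : ℝ => (1 + 2 / δ) ^ 2 * (1 / (1 + x ^ 2))) atTop (𝓝 ((1 + 2 / δ) ^ 2 * 0)) := by
    refine Tendsto.const_mul _ ?_
    have h2 : Tendsto (fun x : ℝ => 1 + x ^ 2) atTop atTop :=
      tendsto_atTop_add_const_left _ _ (tendsto_pow_atTop two_ne_zero)
    refine h2.inv_tendsto_atTop.congr fun x => ?_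
    rw [one_div]; rfl
  rw [mul_zero] at h1
  refine squeeze_zero (fun n => by positivity) (fun n => ?_) (h1.comp hU)
  simp only [Function.comp]
  have h3 := exp_neg_le_inv (δ := δ / 2) (x := U n) (by positivity)
  have e : 1 / (δ / 2) = 2 / δ := by field_simp
  rw [e] at h3
  have h4 : Real.exp (-δ * U n ^ 2) = Real.exp (-(δ / 2) * U n ^ 2) ^ 2 := by
    rw [← Real.exp_nat_mul]; congr 1; push_cast; ring
  rw [h4]
  have hp : 0 < 1 + U n ^ 2 := by positivity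
  have h5 : Real.exp (-(δ / 2) * U n ^ 2) ^ 2 ≤ ((1 + 2 / δ) * (1 / (1 + U n ^ 2))) ^ 2 :=
    pow_le_pow_left₀ (Real.exp_pos _).le h3 2
  calc (1 + U n ^ 2) * Real.exp (-(δ / 2) * U n ^ 2) ^ 2 ≤ (1 + U n ^ 2) * ((1 + 2 / δ) * (1 / (1 + U n ^ 2))) ^ 2 :=
        mul_le_mul_of_nonneg_left h5 hp.le
    _ = _ := by field_simp

/-- bounds on good horizontal lines -/
lemma good_ZZ : ∃ C : ℝ, 0 < C ∧ ∀ T : ℝ, 3 ≤ T → ∃ U : ℝ, T ≤ U ∧ U ≤ T + 1 ∧ ∀ x : ℝ, |x| ≤ 1 →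
    XX ⟨x, U⟩ ≠ 0 ∧ XX ⟨x, -U⟩ ≠ 0 ∧ ‖ZZ ⟨x, U⟩‖ ≤ C * (1 + U ^ 2) ∧ ‖ZZ ⟨x, -U⟩‖ ≤ C * (1 + U ^ 2) := by
  obtain ⟨C, hC, hgh⟩ := H370.good_height H370.good_zeta
  obtain ⟨C1, hC1, hYL⟩ := YL_bd
  refine ⟨C + 2 * C1, by positivity, fun T hT => ?_⟩
  obtain ⟨U, hU, hg⟩ := hgh T hT
  refine ⟨U, hU.1, hU.2, fun x hx => ?_⟩
  have hU3 : 3 ≤ U := hT.trans hU.1
  have hx' := abs_le.1 hx
  have e : (1 / 2 + (⟨x, U⟩ : ℂ)) = ⟨1 / 2 + x, U⟩ := by apply Complex.ext <;> simp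
  obtain ⟨g1, g2⟩ := hg (1 / 2 + x) ⟨by linarith, by linarith⟩
  have hR : (⟨x, U⟩ : ℂ) ∈ Rg := Rg_im (by show U ≠ 0; linarith)
  have hX : XX ⟨x, U⟩ ≠ 0 := by
    rw [XX_YY hR, e]
    exact mul_ne_zero (YY_ne hR) g1
  have hZ : ‖ZZ ⟨x, U⟩‖ ≤ (C + 2 * C1) * (1 + U ^ 2) := by
    rw [ZZ_eq hR (by rw [e]; exact g1), e]
    have h1 := hYL ⟨x, U⟩ hx (by show 1 ≤ |U|; rw [abs_of_pos (by linarith)]; linarith)
    have h2 : |(⟨x, U⟩ : ℂ).im| = U := abs_of_pos (by show 0 < U; linarith)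
    rw [h2] at h1
    have h3 : Real.log T ^ 2 ≤ U ^ 2 := by
      have h4 : Real.log T ≤ U := by
        have := Real.log_le_sub_one_of_pos (by linarith : 0 < T)
        linarith [hU.1]
      exact pow_le_pow_left₀ (Real.log_nonneg (by linarith)) h4 2
    refine (norm_add_le _ _).trans ((add_le_add h1 g2).trans ?_)
    have h4 : C * Real.log T ^ 2 ≤ C * U ^ 2 := mul_le_mul_of_nonneg_left h3 hC.le
    have h5 : C1 * (1 + U) ≤ C1 * (2 * (1 + U ^ 2)) := mul_le_mul_of_nonneg_left (by nlinarith) hC1.le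
    nlinarith
  have ec : (⟨x, -U⟩ : ℂ) = conj (⟨x, U⟩ : ℂ) := by apply Complex.ext <;> simp
  refine ⟨hX, ?_, hZ, ?_⟩
  · rw [ec, Pool.Agent.H24R2.JP.B1h.XX_conj]
    intro h
    rw [map_eq_zero] at h
    exact hX h
  · rw [ec, ZZ_conj, RCLike.norm_conj]
    exact hZ

/-- the sum over the zeros in a rectangle -/
lemma finsum_XX (g : ℂ → ℂ) {U : ℝ} (hfin : Set.Finite {s : ℂ | s ∈ Set.Ioo (-1 : ℝ) 1 ×ℂ Set.Ioo (-U) U ∧ XX s = 0}) :
    ∑ᶠ s ∈ {s : ℂ | s ∈ Set.Ioo (-1 : ℝ) 1 ×ℂ Set.Ioo (-U) U ∧ XX s = 0}, (H370.mult XX s : ℂ) * g s =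
      ∑' ρ : Zt, if |(ρ : ℂ).im| < U then (mu ρ : ℂ) * g ((ρ : ℂ) - 1 / 2) else 0 := by
  classical
  set A : Set ℂ := {s : ℂ | s ∈ Set.Ioo (-1 : ℝ) 1 ×ℂ Set.Ioo (-U) U ∧ XX s = 0} with hA
  set F : ℂ → ℂ := fun s => (H370.mult XX s : ℂ) * g s with hF
  have e1 : ∑' ρ : Zt, (if |(ρ : ℂ).im| < U then (mu ρ : ℂ) * g ((ρ : ℂ) - 1 / 2) else 0) =
      ∑' s : ℂ, ({s : ℂ | riemannZeta s = 0 ∧ 0 < s.re ∧ s.re < 1} : Set ℂ).indicator
        (fun s => if |s.im| < U then (mu s : ℂ) * g (s - 1 / 2) else 0) s :=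
    tsum_subtype ({s : ℂ | riemannZeta s = 0 ∧ 0 < s.re ∧ s.re < 1} : Set ℂ)
      (fun s => if |s.im| < U then (mu s : ℂ) * g (s - 1 / 2) else 0)
  have e2 : (fun s : ℂ => ({s : ℂ | riemannZeta s = 0 ∧ 0 < s.re ∧ s.re < 1} : Set ℂ).indicator
        (fun s => if |s.im| < U then (mu s : ℂ) * g (s - 1 / 2) else 0) s) =
      fun s => A.indicator F ((Equiv.subRight (1 / 2 : ℂ)) s) := by
    funext s
    have es : (Equiv.subRight (1 / 2 : ℂ)) s = s - 1 / 2 := rfl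
    rw [es]
    have him : (s - 1 / 2 : ℂ).im = s.im := by simp
    have hre : (s - 1 / 2 : ℂ).re = s.re - 1 / 2 := by simp
    by_cases hs : IsZ s
    · have hs' : s ∈ ({s : ℂ | riemannZeta s = 0 ∧ 0 < s.re ∧ s.re < 1} : Set ℂ) := hs
      rw [indicator_of_mem hs']
      by_cases hU : |s.im| < U
      · have hm : s - 1 / 2 ∈ A := by
          refine ⟨⟨?_, ?_⟩, (isZ_iff s).1 hs⟩
          · rw [mem_preimage, hre]; exact ⟨by linarith [hs.2.1], by linarith [hs.2.2]⟩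
          · rw [mem_preimage, him]; exact abs_lt.1 hU
        rw [if_pos hU, indicator_of_mem hm]
        simp only [hF]
        rw [mu_eq hs.2.1 hs.2.2]
        rfl
      · have hm : s - 1 / 2 ∉ A := by
          rintro ⟨⟨_, h2⟩, _⟩
          rw [mem_preimage, him] at h2
          exact hU (abs_lt.2 h2)
        rw [if_neg hU, indicator_of_notMem hm]
    · have hs' : s ∉ ({s : ℂ | riemannZeta s = 0 ∧ 0 < s.re ∧ s.re < 1} : Set ℂ) := hs
      have hm : s - 1 / 2 ∉ A := fun h => hs ((isZ_iff s).2 h.2)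
      rw [indicator_of_notMem hs', indicator_of_notMem hm]
  rw [e1, e2, (Equiv.subRight (1 / 2 : ℂ)).tsum_eq (A.indicator F), finsum_mem_eq_finite_toFinset_sum _ hfin,
    tsum_eq_sum (s := hfin.toFinset)]
  · refine Finset.sum_congr rfl fun s hs => ?_
    rw [Set.Finite.mem_toFinset] at hs
    rw [indicator_of_mem hs]
  · intro s hs
    rw [Set.Finite.mem_toFinset] at hs
    rw [indicator_of_notMem hs]

end Pool.Agent.Y23
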