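import Pool.Agent.Y23.We2

/-! # The explicit formula for entire functions with gaussian decay -/

set_option autoImplicit false
set_option maxHeartbeats 2000000

open Complex Filter Topology Set MeasureTheory
open scoped ComplexConjugate
open Pool.Agent.H24R2.JP (XX)

namespace Pool.Agent.Y23

/-- the even part (doubled) -/
noncomputable def ev (h : ℂ → ℂ) (w : ℂ) : ℂ := h w + h (-w)

lemma ev_dec {h : ℂ → ℂ} {M δ : ℝ} (hh : Dec h M δ) : Dec (ev h) (2 * M) δ := by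
  refine ⟨?_, fun w hw => ?_⟩
  · unfold ev
    exact hh.1.add (hh.1.comp differentiable_neg)
  · unfold ev
    have h1 := hh.2 w hw
    have h2 := hh.2 (-w) (by rwa [Complex.neg_re, abs_neg])
    rw [Complex.neg_im, neg_sq] at h2
    refine (norm_add_le _ _).trans ((add_le_add h1 h2).trans (le_of_eq ?_))
    ring

lemma dec_mul_int {φ : ℝ → ℂ} (hc : Continuous φ) {C : ℝ} (hb : ∀ y, ‖φ y‖ ≤ C * (1 + |y|)) {h : ℂ → ℂ} {M δ : ℝ}
    (hδ : 0 < δ) (hh : Dec h M δ) {σ : ℝ} (hσ : |σ| ≤ 1) : Integrable (fun y => φ y * h ⟨σ, y⟩) :=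
  lin_dec_int hc hb (dec_cont hh σ) hδ fun y => dec_line hh hσ y

/-- von Mangoldt coefficients -/
noncomputable def Lam (n : ℕ) : ℂ := (ArithmeticFunction.vonMangoldt n : ℂ)

lemma Lam_norm (n : ℕ) : ‖Lam n‖ ≤ ArithmeticFunction.vonMangoldt n := by
  unfold Lam
  rw [Complex.norm_real, Real.norm_eq_abs, abs_of_nonneg ArithmeticFunction.vonMangoldt_nonneg]

lemma Lam_zero : Lam 0 = 0 := by simp [Lam]

lemma zeta_log (y : ℝ) : deriv riemannZeta (⟨3 / 2, y⟩ : ℂ) / riemannZeta ⟨3 / 2, y⟩ = -H370.DD Lam ⟨3 / 2, y⟩ := by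
  have h := ArithmeticFunction.LSeries_vonMangoldt_eq_deriv_riemannZeta_div (s := (⟨3 / 2, y⟩ : ℂ)) (by norm_num)
  have e : LSeries (fun n => (ArithmeticFunction.vonMangoldt n : ℂ)) (⟨3 / 2, y⟩ : ℂ) = H370.DD Lam ⟨3 / 2, y⟩ := by
    unfold LSeries H370.DD
    refine tsum_congr fun n => ?_
    exact H370.DL.term_eq_mul_cpow Lam Lam_zero _ n
  rw [e] at h
  rw [h]
  ring

lemma ZZ_one (y : ℝ) : ZZ ⟨1, y⟩ = YL ⟨1, y⟩ - H370.DD Lam ⟨3 / 2, y⟩ := by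
  have e : (1 / 2 + (⟨1, y⟩ : ℂ)) = ⟨3 / 2, y⟩ := by apply Complex.ext <;> simp; norm_num
  rw [ZZ_eq (Rg_one y) (by
    rw [e]; exact riemannZeta_ne_zero_of_one_le_re (by norm_num)), e, zeta_log]
  ring

lemma DD_cont : Continuous (fun y : ℝ => H370.DD Lam ⟨3 / 2, y⟩) := H370.DD_cont Lam Lam_norm

lemma DD_bd (y : ℝ) : ‖H370.DD Lam ⟨3 / 2, y⟩‖ ≤ H370.D0 * (1 + |y|) := by
  refine (H370.norm_DD Lam Lam_norm y).trans ?_
  have := H370.D0_nonneg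
  have := abs_nonneg y
  nlinarith

lemma horiz_zero {φ : ℂ → ℂ} {h : ℂ → ℂ} {M δ C : ℝ} (hδ : 0 < δ) (hM : 0 ≤ M) (hC : 0 ≤ C) (hh : Dec h M δ)
    {a b : ℝ} (ha : -1 ≤ a) (hb : b ≤ 1) (hab : a ≤ b) {U V : ℕ → ℝ} (hU : Tendsto U atTop atTop)
    (hV : ∀ n, |V n| = |U n|)
    (hφ : ∀ n, ∀ x : ℝ, |x| ≤ 1 → ‖φ ⟨x, V n⟩‖ ≤ C * (1 + U n ^ 2)) :
    Tendsto (fun n => ∫ x in a..b, φ ⟨x, V n⟩ * h ⟨x, V n⟩) atTop (𝓝 0) := by
  have h1 := (sq_exp_tendsto hδ hU).const_mul (C * M * |b - a|)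
  rw [mul_zero] at h1
  refine squeeze_zero_norm (fun n => ?_) h1
  have h2 : ‖∫ x in a..b, φ ⟨x, V n⟩ * h ⟨x, V n⟩‖ ≤ (C * (1 + U n ^ 2) * (M * Real.exp (-δ * U n ^ 2))) * |b - a| := by
    apply intervalIntegral.norm_integral_le_of_norm_le_const
    intro x hx
    rw [uIoc_of_le hab] at hx
    have hx1 : |x| ≤ 1 := by
      rw [abs_le]; constructor <;> linarith [hx.1, hx.2]
    rw [norm_mul]
    have h3 := dec_line hh hx1 (V n)
    have h4 : V n ^ 2 = U n ^ 2 := by rw [← sq_abs, hV n, sq_abs]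
    rw [h4] at h3
    exact mul_le_mul (hφ n x hx1) h3 (norm_nonneg _) (by positivity)
  refine h2.trans (le_of_eq ?_)
  ring

/-- shifting the line of integration -/
lemma dec_shift {g : ℂ → ℂ} {M δ : ℝ} (hδ : 0 < δ) (hM : 0 ≤ M) (hg : Dec g M δ) :
    ∫ y : ℝ, g ⟨1, y⟩ = ∫ y : ℝ, g ⟨0, y⟩ := by
  have hU : Tendsto (fun n : ℕ => (n : ℝ)) atTop atTop := tendsto_natCast_atTop_atTop
  have hU' : Tendsto (fun n : ℕ => -(n : ℝ)) atTop atBot := tendsto_neg_atTop_atBot.comp hU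
  have key : ∀ n : ℕ, (∫ x in (0 : ℝ)..1, (1 : ℂ) * g ⟨x, -(n : ℝ)⟩) - (∫ x in (0 : ℝ)..1, (1 : ℂ) * g ⟨x, (n : ℝ)⟩) +
      I * (∫ y in (-(n : ℝ))..(n : ℝ), g ⟨1, y⟩) - I * (∫ y in (-(n : ℝ))..(n : ℝ), g ⟨0, y⟩) = 0 := by
    intro n
    have h := Complex.integral_boundary_rect_eq_zero_of_differentiableOn g (⟨0, -(n : ℝ)⟩ : ℂ) (⟨1, (n : ℝ)⟩ : ℂ)
      hg.1.differentiableOn
    have hre : ∀ x : ℝ, ∀ y : ℝ, (x : ℂ) + (y : ℂ) * I = ⟨x, y⟩ := fun x y => (H370.mk_eq x y).symm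
    simp only [hre, smul_eq_mul] at h
    simpa only [one_mul] using h
  have h1 := horiz_zero (φ := fun _ => 1) (C := 1) hδ hM zero_le_one hg (a := 0) (b := 1) (by norm_num) le_rfl zero_le_one
    hU (V := fun n : ℕ => -(n : ℝ)) (fun n => abs_neg _) (fun n x _ => by
      simp only [norm_one, one_mul]
      have := sq_nonneg (n : ℝ)
      linarith)
  have h2 := horiz_zero (φ := fun _ => 1) (C := 1) hδ hM zero_le_one hg (a := 0) (b := 1) (by norm_num) le_rfl zero_le_one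
    hU (V := fun n : ℕ => (n : ℝ)) (fun n => rfl) (fun n x _ => by
      simp only [norm_one, one_mul]
      have := sq_nonneg (n : ℝ)
      linarith)
  have h3 := intervalIntegral_tendsto_integral (dec_int hδ hg (σ := 1) (by norm_num)) hU' hU
  have h4 := intervalIntegral_tendsto_integral (dec_int hδ hg (σ := 0) (by norm_num)) hU' hU
  have h5 := (((h1.sub h2).add (h3.const_mul I)).sub (h4.const_mul I))
  have h6 := tendsto_nhds_unique (h5.congr key) tendsto_const_nhds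
  rw [sub_zero, zero_add, ← mul_sub] at h6
  rcases mul_eq_zero.1 h6 with h7 | h7
  · exact absurd h7 I_ne_zero
  · exact sub_eq_zero.1 h7

/-- the sum over the zeros -/
lemma zeros_line {h : ℂ → ℂ} {M δ : ℝ} (hδ : 0 < δ) (hM : 0 ≤ M) (hh : Dec h M δ) :
    2 * Real.pi * ∑' ρ : Zt, (mu ρ : ℂ) * h ((ρ : ℂ) - 1 / 2) = ∫ y : ℝ, ZZ ⟨1, y⟩ * ev h ⟨1, y⟩ := by
  obtain ⟨C, hC, hgood⟩ := good_ZZ
  choose U hUa hUb hUc using fun n : ℕ => hgood ((n : ℝ) + 3) (by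
    have : (0 : ℝ) ≤ n := Nat.cast_nonneg n
    linarith)
  have hT : Tendsto (fun n : ℕ => (n : ℝ) + 3) atTop atTop :=
    tendsto_atTop_add_const_right _ _ tendsto_natCast_atTop_atTop
  have hU : Tendsto U atTop atTop := tendsto_atTop_mono hUa hT
  have hU' : Tendsto (fun n => -U n) atTop atBot := tendsto_neg_atTop_atBot.comp hU
  have hU3 : ∀ n, 3 ≤ U n := fun n => by
    have : (0 : ℝ) ≤ n := Nat.cast_nonneg n
    linarith [hUa n]
  have hzero : ∀ n, ∀ s ∈ Set.Icc (-1 : ℝ) 1 ×ℂ Set.Icc (-U n) (U n), XX s = 0 →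
      s ∈ Set.Ioo (-1 : ℝ) 1 ×ℂ Set.Ioo (-U n) (U n) := by
    intro n s hs h0
    obtain ⟨h1, h2⟩ := hs
    rw [mem_preimage] at h1 h2
    have h3 : IsZ (s + 1 / 2) := by
      rw [isZ_iff]
      have : s + 1 / 2 - 1 / 2 = s := by ring
      rw [this]; exact h0
    have hre : (s + 1 / 2 : ℂ).re = s.re + 1 / 2 := by simp
    obtain ⟨_, h4, h5⟩ := h3
    rw [hre] at h4 h5
    have hs' : s = ⟨s.re, s.im⟩ := rfl
    have hx : |s.re| ≤ 1 := by rw [abs_le]; constructor <;> linarith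
    refine ⟨⟨by linarith, by linarith⟩, ⟨?_, ?_⟩⟩
    · refine lt_of_le_of_ne h2.1 fun he => ?_
      apply (hUc n s.re hx).2.1
      rw [he]; exact h0
    · refine lt_of_le_of_ne h2.2 fun he => ?_
      apply (hUc n s.re hx).1
      rw [← he]; exact h0
  have hres := fun n => H370.rect_residue XX h (-1) 1 (-U n) (U n) (by norm_num) (by linarith [hU3 n])
    (fun s _ => XX_an s) hh.1 (hzero n)
  have key : ∀ n, (∫ x in (-1 : ℝ)..1, ZZ ⟨x, -U n⟩ * h ⟨x, -U n⟩) - (∫ x in (-1 : ℝ)..1, ZZ ⟨x, U n⟩ * h ⟨x, U n⟩) +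
      I * (∫ y in (-U n)..U n, ZZ ⟨1, y⟩ * ev h ⟨1, y⟩) =
      2 * Real.pi * I * ∑' ρ : Zt, if |(ρ : ℂ).im| < U n then (mu ρ : ℂ) * h ((ρ : ℂ) - 1 / 2) else 0 := by
    intro n
    rw [← finsum_XX h (hres n).1, ← (hres n).2]
    have e1 : (∫ y in (-U n)..U n, deriv XX (⟨-1, y⟩ : ℂ) / XX ⟨-1, y⟩ * h ⟨-1, y⟩) =
        -∫ y in (-U n)..U n, ZZ ⟨1, y⟩ * h (-⟨1, y⟩) := by
      have e2 := intervalIntegral.integral_comp_neg (a := -U n) (b := U n)
        (fun y : ℝ => deriv XX (⟨-1, y⟩ : ℂ) / XX ⟨-1, y⟩ * h ⟨-1, y⟩)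
      rw [neg_neg] at e2
      rw [← e2, ← intervalIntegral.integral_neg]
      refine intervalIntegral.integral_congr fun y _ => ?_
      have e3 : (⟨-1, -y⟩ : ℂ) = -⟨1, y⟩ := by apply Complex.ext <;> simp
      show ZZ ⟨-1, -y⟩ * h ⟨-1, -y⟩ = -(ZZ ⟨1, y⟩ * h (-⟨1, y⟩))
      rw [e3, ZZ_neg]
      ring
    have hZc : ContinuousOn (fun y : ℝ => ZZ ⟨1, y⟩) (uIcc (-U n) (U n)) := by
      have : (fun y : ℝ => ZZ ⟨1, y⟩) = fun y : ℝ => YL ⟨1, y⟩ - H370.DD Lam ⟨3 / 2, y⟩ := by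
        funext y; exact ZZ_one y
      rw [this]
      exact ((YL_line (x := 1) (by norm_num) Rg_one).1.sub DD_cont).continuousOn
    have hc1 : Continuous (fun y : ℝ => h ⟨1, y⟩) := dec_cont hh 1
    have hc2 : Continuous (fun y : ℝ => h (-⟨1, y⟩)) := by
      exact hh.1.continuous.comp (line_ct 1).neg
    have e4 : (∫ y in (-U n)..U n, ZZ ⟨1, y⟩ * ev h ⟨1, y⟩) =
        (∫ y in (-U n)..U n, ZZ ⟨1, y⟩ * h ⟨1, y⟩) + ∫ y in (-U n)..U n, ZZ ⟨1, y⟩ * h (-⟨1, y⟩) := by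
      have i1 : IntervalIntegrable (fun y : ℝ => ZZ ⟨1, y⟩ * h ⟨1, y⟩) volume (-U n) (U n) :=
        (hZc.mul hc1.continuousOn).intervalIntegrable
      have i2 : IntervalIntegrable (fun y : ℝ => ZZ ⟨1, y⟩ * h (-⟨1, y⟩)) volume (-U n) (U n) :=
        (hZc.mul hc2.continuousOn).intervalIntegrable
      rw [← intervalIntegral.integral_add i1 i2]
      refine intervalIntegral.integral_congr fun y _ => ?_
      show ZZ ⟨1, y⟩ * (h ⟨1, y⟩ + h (-⟨1, y⟩)) = _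
      ring
    rw [e1, e4]
    unfold ZZ
    ring
  have h1 := horiz_zero (φ := ZZ) hδ hM hC.le hh (a := -1) (b := 1) le_rfl le_rfl (by norm_num)
    hU (V := fun n : ℕ => -U n) (fun n => abs_neg _) (fun n x hx => (hUc n x hx).2.2.2)
  have h2 := horiz_zero (φ := ZZ) hδ hM hC.le hh (a := -1) (b := 1) le_rfl le_rfl (by norm_num)
    hU (V := fun n : ℕ => U n) (fun n => rfl) (fun n x hx => (hUc n x hx).2.2.1)
  obtain ⟨hYc, C1, hC1, hYb⟩ := YL_line (x := 1) (by norm_num) Rg_one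
  have hint : Integrable (fun y : ℝ => ZZ ⟨1, y⟩ * ev h ⟨1, y⟩) := by
    have : (fun y : ℝ => ZZ ⟨1, y⟩) = fun y : ℝ => YL ⟨1, y⟩ - H370.DD Lam ⟨3 / 2, y⟩ := by
      funext y; exact ZZ_one y
    simp only [congrFun this]
    refine dec_mul_int (hYc.sub DD_cont) (C := C1 + H370.D0) (fun y => ?_) hδ (ev_dec hh) (by norm_num)
    refine (norm_sub_le _ _).trans ((add_le_add (hYb y) (DD_bd y)).trans (le_of_eq ?_))
    ring
  have h3 := intervalIntegral_tendsto_integral hint hU' hU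
  have h4 : Tendsto (fun n => ∑' ρ : Zt, if |(ρ : ℂ).im| < U n then (mu ρ : ℂ) * h ((ρ : ℂ) - 1 / 2) else 0) atTop
      (𝓝 (∑' ρ : Zt, (mu ρ : ℂ) * h ((ρ : ℂ) - 1 / 2))) := by
    refine tendsto_tsum_of_dominated_convergence (dec_summable hδ hM hh) ?_ ?_
    · intro ρ
      refine tendsto_const_nhds.congr' ?_
      filter_upwards [hU.eventually_gt_atTop |(ρ : ℂ).im|] with n hn
      rw [if_pos hn]
    · refine Eventually.of_forall fun n ρ => ?_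
      split_ifs
      · exact le_rfl
      · rw [norm_zero]; exact norm_nonneg _
  have h5 := (h1.sub h2).add (h3.const_mul I)
  have h6 := h4.const_mul (2 * Real.pi * I)
  have h7 := tendsto_nhds_unique (h5.congr key) h6
  rw [sub_zero, zero_add] at h7
  apply mul_left_cancel₀ I_ne_zero
  rw [h7]
  ring

end Pool.Agent.Y23
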