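import Pool.Agent.Y23.We3

/-! # The archimedean part of the explicit formula -/

set_option autoImplicit false
set_option maxHeartbeats 2000000

open Complex Filter Topology Set MeasureTheory
open scoped ComplexConjugate

namespace Pool.Agent.Y23

lemma YY_an {w : ℂ} (h : -1 / 2 < w.re ∨ w.im ≠ 0) : AnalyticAt ℂ YY w := by
  unfold YY
  have h1 : AnalyticAt ℂ (fun w : ℂ => Gammaℝ (1 / 2 + w)) w := by
    have h2 : AnalyticAt ℂ (fun w : ℂ => 1 / 2 + w) w := by fun_prop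
    exact (gr_an (gr_ne h)).comp_of_eq h2 rfl
  exact AnalyticAt.mul (by fun_prop) h1

lemma half_an_order : analyticOrderAt YY (1 / 2) = 1 := by
  have hr : -1 / 2 < ((1 : ℂ) / 2).re := by norm_num
  have h0 : AnalyticAt ℂ YY (1 / 2) := YY_an (Or.inl hr)
  rw [show (1 : ℕ∞) = ((1 : ℕ) : ℕ∞) by rfl, h0.analyticOrderAt_eq_natCast]
  refine ⟨fun w => 4 * (w + 1 / 2) * Gammaℝ (1 / 2 + w), ?_, ?_, Eventually.of_forall fun z => ?_⟩
  · have h1 : AnalyticAt ℂ (fun w : ℂ => Gammaℝ (1 / 2 + w)) (1 / 2) := by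
      have h2 : AnalyticAt ℂ (fun w : ℂ => 1 / 2 + w) (1 / 2) := by fun_prop
      exact (gr_an (gr_ne (Or.inl hr))).comp_of_eq h2 rfl
    exact AnalyticAt.mul (by fun_prop) h1
  · refine mul_ne_zero (by norm_num) (gr_ne (Or.inl hr))
  · unfold YY
    rw [pow_one, smul_eq_mul]
    ring

/-- moving the line of integration in the archimedean part -/
lemma arch_shift {H : ℂ → ℂ} {M δ : ℝ} (hδ : 0 < δ) (hM : 0 ≤ M) (hh : Dec H M δ) :
    ∫ y : ℝ, YL ⟨1, y⟩ * H ⟨1, y⟩ = 2 * Real.pi * H (1 / 2) + ∫ y : ℝ, YL ⟨0, y⟩ * H ⟨0, y⟩ := by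
  set U : ℕ → ℝ := fun n => (n : ℝ) + 1 with hUd
  have hU1 : ∀ n, 1 ≤ U n := fun n => by
    have : (0 : ℝ) ≤ n := Nat.cast_nonneg n
    simp only [hUd]; linarith
  have hU : Tendsto U atTop atTop := tendsto_atTop_add_const_right _ _ tendsto_natCast_atTop_atTop
  have hU' : Tendsto (fun n => -U n) atTop atBot := tendsto_neg_atTop_atBot.comp hU
  obtain ⟨C, hC, hYL⟩ := YL_bd
  have hz : ∀ n, ∀ s ∈ Set.Icc (0 : ℝ) 1 ×ℂ Set.Icc (-U n) (U n), YY s = 0 → s = 1 / 2 := by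
    intro n s hs h0
    have h1 : -1 / 2 < s.re := by
      have := hs.1
      rw [mem_preimage] at this
      linarith [this.1]
    unfold YY at h0
    rcases mul_eq_zero.1 h0 with h2 | h2
    · by_contra hne
      refine four_sq_ne hne (fun h3 => ?_) h2
      rw [h3] at h1
      norm_num at h1
    · exact absurd h2 (gr_ne (Or.inl h1))
  have hmem : ∀ n, (1 / 2 : ℂ) ∈ Set.Ioo (0 : ℝ) 1 ×ℂ Set.Ioo (-U n) (U n) := by
    intro n
    refine ⟨?_, ?_⟩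
    · rw [mem_preimage]; norm_num
    · rw [mem_preimage]
      have : (1 / 2 : ℂ).im = 0 := by norm_num
      rw [this]
      exact ⟨by linarith [hU1 n], by linarith [hU1 n]⟩
  have hYY0 : YY (1 / 2) = 0 := by
    unfold YY; norm_num
  have hres := fun n => (H370.rect_residue YY H 0 1 (-U n) (U n) (by norm_num) (by linarith [hU1 n])
    (fun s hs => YY_an (Or.inl (by
      have := hs.1
      rw [mem_preimage] at this
      linarith [this.1]))) hh.1 (fun s hs h0 => by rw [hz n s hs h0]; exact hmem n)).2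
  have hset : ∀ n, {s : ℂ | s ∈ Set.Ioo (0 : ℝ) 1 ×ℂ Set.Ioo (-U n) (U n) ∧ YY s = 0} = {1 / 2} := by
    intro n
    ext s
    constructor
    · rintro ⟨h1, h2⟩
      exact hz n s ⟨Ioo_subset_Icc_self h1.1, Ioo_subset_Icc_self h1.2⟩ h2
    · intro h
      rw [mem_singleton_iff] at h
      rw [h]
      exact ⟨hmem n, hYY0⟩
  have hmult : H370.mult YY (1 / 2) = 1 := by
    unfold H370.mult analyticOrderNatAt
    rw [half_an_order]
    rfl
  have key : ∀ n, (∫ x in (0 : ℝ)..1, YL ⟨x, -U n⟩ * H ⟨x, -U n⟩) - (∫ x in (0 : ℝ)..1, YL ⟨x, U n⟩ * H ⟨x, U n⟩) +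
      I * (∫ y in (-U n)..U n, YL ⟨1, y⟩ * H ⟨1, y⟩) - I * (∫ y in (-U n)..U n, YL ⟨0, y⟩ * H ⟨0, y⟩) =
      2 * Real.pi * I * H (1 / 2) := by
    intro n
    have h := hres n
    rw [hset n, finsum_mem_singleton, hmult, Nat.cast_one, one_mul] at h
    rw [← h]
    have e1 : ∀ x : ℝ, YL ⟨x, -U n⟩ = deriv YY ⟨x, -U n⟩ / YY ⟨x, -U n⟩ := fun x =>
      (YL_eq (Rg_im (w := ⟨x, -U n⟩) (by show -U n ≠ 0; linarith [hU1 n]))).symm
    have e2 : ∀ x : ℝ, YL ⟨x, U n⟩ = deriv YY ⟨x, U n⟩ / YY ⟨x, U n⟩ := fun x =>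
      (YL_eq (Rg_im (w := ⟨x, U n⟩) (by show U n ≠ 0; linarith [hU1 n]))).symm
    have e3 : ∀ y : ℝ, YL ⟨1, y⟩ = deriv YY ⟨1, y⟩ / YY ⟨1, y⟩ := fun y => (YL_eq (Rg_one y)).symm
    have e4 : ∀ y : ℝ, YL ⟨0, y⟩ = deriv YY ⟨0, y⟩ / YY ⟨0, y⟩ := fun y => (YL_eq (Rg_zero y)).symm
    simp only [e1, e2, e3, e4]
  have hb : ∀ (n : ℕ) (V : ℝ), |V| = U n → ∀ x : ℝ, |x| ≤ 1 → ‖YL ⟨x, V⟩‖ ≤ (2 * C) * (1 + U n ^ 2) := by
    intro n V hV x hx
    have h1 := hYL ⟨x, V⟩ hx (by show 1 ≤ |V|; rw [hV]; exact hU1 n)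
    have h2 : |(⟨x, V⟩ : ℂ).im| = U n := hV
    rw [h2] at h1
    refine h1.trans ?_
    have := hU1 n
    have h3 : 1 + U n ≤ 2 * (1 + U n ^ 2) := by nlinarith
    nlinarith [mul_le_mul_of_nonneg_left h3 hC.le]
  have hUabs : ∀ n, |U n| = U n := fun n => abs_of_pos (by linarith [hU1 n])
  have h1 := horiz_zero (φ := YL) (V := fun n => -U n) hδ hM (by positivity : 0 ≤ 2 * C) hh (a := 0) (b := 1)
    (by norm_num) le_rfl zero_le_one hU (fun n => abs_neg _) (fun n => hb n _ (by rw [abs_neg, hUabs n]))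
  have h2 := horiz_zero (φ := YL) (V := fun n => U n) hδ hM (by positivity : 0 ≤ 2 * C) hh (a := 0) (b := 1)
    (by norm_num) le_rfl zero_le_one hU (fun n => rfl) (fun n => hb n _ (hUabs n))
  obtain ⟨c1, C1, _, b1⟩ := YL_line (x := 1) (by norm_num) Rg_one
  obtain ⟨c0, C0, _, b0⟩ := YL_line (x := 0) (by norm_num) Rg_zero
  have h3 := intervalIntegral_tendsto_integral (dec_mul_int c1 b1 hδ hh (σ := 1) (by norm_num)) hU' hU
  have h4 := intervalIntegral_tendsto_integral (dec_mul_int c0 b0 hδ hh (σ := 0) (by norm_num)) hU' hU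
  have h5 := ((h1.sub h2).add (h3.const_mul I)).sub (h4.const_mul I)
  have h6 := tendsto_nhds_unique (h5.congr key) tendsto_const_nhds
  rw [sub_zero, zero_add] at h6
  apply mul_left_cancel₀ I_ne_zero
  linear_combination h6

/-! ### the archimedean density -/

lemma logDeriv_GR {z : ℂ} (hz : 0 < z.re) :
    logDeriv Gammaℝ z = -(Real.log Real.pi : ℂ) / 2 + 1 / 2 * logDeriv Gamma (z / 2) := by
  have hz2 : ∀ m : ℕ, z / 2 ≠ -m := by
    intro m h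
    have := congrArg Complex.re h
    have h2 : (z / 2).re = z.re / 2 := by simp
    rw [h2] at this
    simp at this
    have h3 : (0 : ℝ) ≤ m := Nat.cast_nonneg m
    linarith
  have hpi : (Real.pi : ℂ) ≠ 0 := ofReal_ne_zero.mpr Real.pi_ne_zero
  have d1 : HasDerivAt (fun z : ℂ => (Real.pi : ℂ) ^ (-z / 2))
      ((Real.pi : ℂ) ^ (-z / 2) * log (Real.pi : ℂ) * (-1 / 2)) z := by
    have h1 : HasDerivAt (fun z : ℂ => -z / 2) (-1 / 2) z := by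
      simpa using ((hasDerivAt_id z).neg).div_const 2
    exact h1.const_cpow (Or.inl hpi)
  have d2 : HasDerivAt (fun z : ℂ => Gamma (z / 2)) (deriv Gamma (z / 2) * (1 / 2)) z := by
    have h1 : HasDerivAt (fun z : ℂ => z / 2) (1 / 2) z := by
      simpa using (hasDerivAt_id z).div_const 2
    exact HasDerivAt.comp z (differentiableAt_Gamma _ hz2).hasDerivAt h1
  have hG : Gammaℝ = fun z : ℂ => (Real.pi : ℂ) ^ (-z / 2) * Gamma (z / 2) := by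
    funext z
    rw [Gammaℝ_def]
  have d3 := d1.mul d2
  have hΓ : Gamma (z / 2) ≠ 0 := Gamma_ne_zero hz2
  have hpc : (Real.pi : ℂ) ^ (-z / 2) ≠ 0 := by
    rw [Ne, cpow_eq_zero_iff]
    exact fun h => hpi h.1
  rw [logDeriv_apply, logDeriv_apply, hG]
  erw [d3.deriv]
  rw [← Complex.ofReal_log Real.pi_pos.le]
  field_simp

lemma LGR_conj {z : ℂ} (hz : Gammaℝ z ≠ 0) : logDeriv Gammaℝ (conj z) = conj (logDeriv Gammaℝ z) := by
  have h1 : deriv Gammaℝ (conj z) = conj (deriv Gammaℝ z) := by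
    have h2 := ((gr_an hz).differentiableAt.hasDerivAt).conj_conj
    have e : (fun z => conj (Gammaℝ (conj z))) = Gammaℝ := by
      funext z
      rw [Pool.Agent.H24R2.JP.B1h.GR_conj, Complex.conj_conj]
    have h3 : HasDerivAt Gammaℝ (conj (deriv Gammaℝ z)) (conj z) := by
      have h4 := h2
      change HasDerivAt (fun z => conj (Gammaℝ (conj z))) _ _ at h4
      rw [e] at h4
      exact h4
    exact h3.deriv
  rw [logDeriv_apply, logDeriv_apply, h1, Pool.Agent.H24R2.JP.B1h.GR_conj, map_div₀]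

/-- the archimedean density -/
noncomputable def DG (y : ℝ) : ℝ := (digamma (1 / 4 + y / 2 * I)).re - Real.log Real.pi

lemma DG_eq (y : ℝ) : YL ⟨0, y⟩ + YL ⟨0, -y⟩ = (DG y : ℂ) := by
  have hne : Gammaℝ (1 / 2 + (⟨0, y⟩ : ℂ)) ≠ 0 := gr_ne (Rg_zero y).2.2
  have e1 : (1 / 2 + (⟨0, -y⟩ : ℂ)) = conj (1 / 2 + (⟨0, y⟩ : ℂ)) := by apply Complex.ext <;> simp
  have e2 : 8 * (⟨0, -y⟩ : ℂ) / (4 * (⟨0, -y⟩ : ℂ) ^ 2 - 1) = -(8 * (⟨0, y⟩ : ℂ) / (4 * (⟨0, y⟩ : ℂ) ^ 2 - 1)) := by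
    have : (⟨0, -y⟩ : ℂ) = -⟨0, y⟩ := by apply Complex.ext <;> simp
    rw [this, neg_sq]; ring
  have e3 : (1 / 2 + (⟨0, y⟩ : ℂ)) / 2 = 1 / 4 + y / 2 * I := by
    have : (⟨0, y⟩ : ℂ) = y * I := by apply Complex.ext <;> simp
    rw [this]; ring
  unfold YL
  rw [e1, LGR_conj hne, e2]
  have e4 : 8 * (⟨0, y⟩ : ℂ) / (4 * (⟨0, y⟩ : ℂ) ^ 2 - 1) + logDeriv Gammaℝ (1 / 2 + (⟨0, y⟩ : ℂ)) +
      (-(8 * (⟨0, y⟩ : ℂ) / (4 * (⟨0, y⟩ : ℂ) ^ 2 - 1)) + conj (logDeriv Gammaℝ (1 / 2 + (⟨0, y⟩ : ℂ)))) =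
      logDeriv Gammaℝ (1 / 2 + (⟨0, y⟩ : ℂ)) + conj (logDeriv Gammaℝ (1 / 2 + (⟨0, y⟩ : ℂ))) := by ring
  rw [e4, Complex.add_conj]
  congr 1
  rw [logDeriv_GR (by norm_num), e3]
  unfold DG digamma
  have e5 : (-(Real.log Real.pi : ℂ) / 2 + 1 / 2 * logDeriv Gamma (1 / 4 + y / 2 * I)).re =
      -Real.log Real.pi / 2 + 1 / 2 * (logDeriv Gamma (1 / 4 + y / 2 * I)).re := by
    have e6 : (-(Real.log Real.pi : ℂ) / 2 + 1 / 2 * logDeriv Gamma (1 / 4 + y / 2 * I)) =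
        ((-Real.log Real.pi / 2 : ℝ) : ℂ) + ((1 / 2 : ℝ) : ℂ) * logDeriv Gamma (1 / 4 + y / 2 * I) := by
      push_cast; ring
    rw [e6, Complex.add_re, Complex.ofReal_re, Complex.re_ofReal_mul]
  rw [e5]
  ring

lemma DG_cont : Continuous DG := by
  have h1 := (YL_line (x := 0) (by norm_num) Rg_zero).1
  have h2 : Continuous (fun y : ℝ => YL ⟨0, y⟩ + YL ⟨0, -y⟩) := h1.add (h1.comp continuous_neg)
  have h3 : DG = fun y => (YL ⟨0, y⟩ + YL ⟨0, -y⟩).re := by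
    funext y; rw [DG_eq, Complex.ofReal_re]
  rw [h3]
  exact Complex.continuous_re.comp h2

lemma DG_neg (y : ℝ) : DG (-y) = DG y := by
  have h1 := DG_eq y
  have h2 := DG_eq (-y)
  rw [neg_neg, add_comm] at h2
  exact_mod_cast (h2.symm.trans h1)

lemma DG_bd : ∃ C : ℝ, 0 < C ∧ ∀ y : ℝ, |DG y| ≤ C * Lg y := by
  obtain ⟨C, hC0, hC⟩ := H370.DL.logDeriv_Gammaℝ_bound
  obtain ⟨K, hK⟩ := (isCompact_Icc (a := (-1 : ℝ)) (b := 1)).exists_bound_of_continuousOn DG_cont.continuousOn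
  refine ⟨max (2 * C + 1) K, by positivity, fun y => ?_⟩
  have hL := one_le_Lg y
  rcases le_total 1 |y| with h | h
  · have h1 := hC (1 / 2 + (⟨0, y⟩ : ℂ)) (by simp; norm_num) (by simp; norm_num) (by simpa using h)
    have him : (1 / 2 + (⟨0, y⟩ : ℂ)).im = y := by simp
    rw [him] at h1
    have h2 : DG y = 2 * (logDeriv Gammaℝ (1 / 2 + (⟨0, y⟩ : ℂ)) - 1 / 2 * Real.log |y|).re + Real.log |y| := by
      have h3 := DG_eq y
      have hne : Gammaℝ (1 / 2 + (⟨0, y⟩ : ℂ)) ≠ 0 := gr_ne (Rg_zero y).2.2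
      have e1 : (1 / 2 + (⟨0, -y⟩ : ℂ)) = conj (1 / 2 + (⟨0, y⟩ : ℂ)) := by apply Complex.ext <;> simp
      have e2 : 8 * (⟨0, -y⟩ : ℂ) / (4 * (⟨0, -y⟩ : ℂ) ^ 2 - 1) = -(8 * (⟨0, y⟩ : ℂ) / (4 * (⟨0, y⟩ : ℂ) ^ 2 - 1)) := by
        have : (⟨0, -y⟩ : ℂ) = -⟨0, y⟩ := by apply Complex.ext <;> simp
        rw [this, neg_sq]; ring
      unfold YL at h3
      rw [e1, LGR_conj hne, e2] at h3
      have h4 := congrArg Complex.re h3
      rw [Complex.ofReal_re] at h4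
      rw [← h4]
      have e6 : (1 / 2 * (Real.log |y| : ℂ)).re = Real.log |y| / 2 := by
        have : (1 / 2 * (Real.log |y| : ℂ)) = ((Real.log |y| / 2 : ℝ) : ℂ) := by push_cast; ring
        rw [this, Complex.ofReal_re]
      simp only [Complex.add_re, Complex.sub_re, Complex.neg_re, Complex.conj_re, e6]
      ring
    have h3 := (Complex.abs_re_le_norm _).trans h1
    have h5 : 0 ≤ Real.log |y| := Real.log_nonneg h
    have h6 : Real.log |y| ≤ Lg y := by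
      unfold Lg
      exact Real.log_le_log (by linarith) (by linarith)
    rw [h2]
    set r : ℝ := (logDeriv Gammaℝ (1 / 2 + (⟨0, y⟩ : ℂ)) - 1 / 2 * Real.log |y|).re with hr
    set q : ℝ := Real.log |y| with hq
    have h7 : |2 * r + q| ≤ 2 * C + q := by
      refine (abs_add_le _ _).trans (add_le_add ?_ (le_of_eq (abs_of_nonneg h5)))
      rw [abs_mul, abs_two]
      linarith
    refine h7.trans ?_
    have h8 : (2 * C + 1) * Lg y ≤ max (2 * C + 1) K * Lg y := mul_le_mul_of_nonneg_right (le_max_left _ _) (by linarith)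
    nlinarith
  · have h1 := hK y (by rw [mem_Icc, ← abs_le]; exact h)
    rw [Real.norm_eq_abs] at h1
    have h8 : K ≤ max (2 * C + 1) K := le_max_right _ _
    have h9 : 0 ≤ max (2 * C + 1) K := by positivity
    nlinarith

/-- the archimedean part on the central line -/
lemma arch_half {h : ℂ → ℂ} {M δ : ℝ} (hδ : 0 < δ) (hh : Dec h M δ) :
    ∫ y : ℝ, YL ⟨0, y⟩ * ev h ⟨0, y⟩ = ∫ y : ℝ, (DG y : ℂ) * h ⟨0, y⟩ := by
  obtain ⟨c0, C0, _, b0⟩ := YL_line (x := 0) (by norm_num) Rg_zero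
  have i1 : Integrable (fun y : ℝ => YL ⟨0, y⟩ * h ⟨0, y⟩) := dec_mul_int c0 b0 hδ hh (by norm_num)
  have i2 : Integrable (fun y : ℝ => YL ⟨0, -y⟩ * h ⟨0, y⟩) :=
    dec_mul_int (φ := fun y : ℝ => YL ⟨0, -y⟩) (C := C0) (c0.comp continuous_neg)
      (fun y => by have := b0 (-y); rwa [abs_neg] at this) hδ hh (by norm_num)
  have i3 : Integrable (fun y : ℝ => YL ⟨0, y⟩ * h ⟨0, -y⟩) := by
    have := i2.comp_neg
    simpa using this
  have e1 : (∫ y : ℝ, YL ⟨0, y⟩ * h ⟨0, -y⟩) = ∫ y : ℝ, YL ⟨0, -y⟩ * h ⟨0, y⟩ := by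
    rw [← integral_neg_eq_self (fun y : ℝ => YL ⟨0, -y⟩ * h ⟨0, y⟩) volume]
    simp only [neg_neg]
  have e2 : (∫ y : ℝ, YL ⟨0, y⟩ * ev h ⟨0, y⟩) = (∫ y : ℝ, YL ⟨0, y⟩ * h ⟨0, y⟩) + ∫ y : ℝ, YL ⟨0, y⟩ * h ⟨0, -y⟩ := by
    rw [← integral_add i1 i3]
    refine integral_congr_ae (Eventually.of_forall fun y => ?_)
    have : -(⟨0, y⟩ : ℂ) = ⟨0, -y⟩ := by apply Complex.ext <;> simp
    show YL ⟨0, y⟩ * ev h ⟨0, y⟩ = YL ⟨0, y⟩ * h ⟨0, y⟩ + YL ⟨0, y⟩ * h ⟨0, -y⟩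
    unfold ev
    rw [this]
    ring
  rw [e2, e1, ← integral_add i1 i2]
  refine integral_congr_ae (Eventually.of_forall fun y => ?_)
  show YL ⟨0, y⟩ * h ⟨0, y⟩ + YL ⟨0, -y⟩ * h ⟨0, y⟩ = (DG y : ℂ) * h ⟨0, y⟩
  rw [← DG_eq]
  ring

end Pool.Agent.Y23
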