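import Pool.Agent.Y23.We4

/-! # The prime part of the explicit formula -/

set_option autoImplicit false
set_option maxHeartbeats 2000000

open Complex Filter Topology Set MeasureTheory
open scoped ComplexConjugate

namespace Pool.Agent.Y23

/-- one term of the sum over the prime powers -/
noncomputable def JJ (H : ℂ → ℂ) (L : ℝ) : ℂ := ∫ y : ℝ, cexp (-(L : ℂ) * (1 / 2 + ⟨0, y⟩)) * H ⟨0, y⟩

lemma norm_cexp_L (L : ℝ) (w : ℂ) : ‖cexp (-(L : ℂ) * (1 / 2 + w))‖ = Real.exp (-(L * (1 / 2 + w.re))) := by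
  rw [Complex.norm_exp]
  congr 1
  rw [neg_mul, Complex.neg_re, Complex.re_ofReal_mul]
  simp

lemma JJ_eq {H : ℂ → ℂ} {M δ : ℝ} (hδ : 0 < δ) (hM : 0 ≤ M) (hh : Dec H M δ) {L : ℝ} (hL : 0 ≤ L) :
    ∫ y : ℝ, cexp (-(L : ℂ) * (1 / 2 + ⟨1, y⟩)) * H ⟨1, y⟩ = JJ H L := by
  refine dec_shift (g := fun w => cexp (-(L : ℂ) * (1 / 2 + w)) * H w) (M := Real.exp (L / 2) * M) hδ (by positivity) ⟨?_, ?_⟩
  · exact Differentiable.mul (by fun_prop) hh.1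
  · intro w hw
    rw [norm_mul, norm_cexp_L, mul_assoc]
    refine mul_le_mul (Real.exp_le_exp.2 ?_) (hh.2 w hw) (norm_nonneg _) (Real.exp_pos _).le
    have := (abs_le.1 hw).1
    nlinarith

lemma JJ_norm {H : ℂ → ℂ} {M δ : ℝ} (hδ : 0 < δ) (hM : 0 ≤ M) (hh : Dec H M δ) {L : ℝ} (hL : 0 ≤ L) :
    ‖JJ H L‖ ≤ Real.exp (-(3 / 2 * L)) * ∫ y : ℝ, ‖H ⟨1, y⟩‖ := by
  rw [← JJ_eq hδ hM hh hL, ← integral_const_mul]
  refine (norm_integral_le_integral_norm _).trans (le_of_eq ?_)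
  refine integral_congr_ae (Eventually.of_forall fun y => ?_)
  show ‖cexp (-(L : ℂ) * (1 / 2 + ⟨1, y⟩)) * H ⟨1, y⟩‖ = Real.exp (-(3 / 2 * L)) * ‖H ⟨1, y⟩‖
  rw [norm_mul, norm_cexp_L]
  congr 2
  show -(L * (1 / 2 + 1)) = _
  ring

lemma exp_log_pow {n : ℕ} (hn : 0 < n) : Real.exp (-(3 / 2 * Real.log n)) = (n : ℝ) ^ (-(3 / 2 : ℝ)) := by
  rw [Real.rpow_def_of_pos (by exact_mod_cast hn)]
  congr 1; ring

lemma term_norm {H : ℂ → ℂ} {M δ : ℝ} (hδ : 0 < δ) (hM : 0 ≤ M) (hh : Dec H M δ) (n : ℕ) :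
    ‖Lam n * JJ H (Real.log n)‖ ≤ (ArithmeticFunction.vonMangoldt n * (n : ℝ) ^ (-(3 / 2 : ℝ))) * ∫ y : ℝ, ‖H ⟨1, y⟩‖ := by
  rcases Nat.eq_zero_or_pos n with h | h
  · subst h
    rw [Lam_zero, zero_mul, norm_zero]
    simp
  · rw [norm_mul, mul_assoc]
    refine mul_le_mul (Lam_norm n) ?_ (norm_nonneg _) ArithmeticFunction.vonMangoldt_nonneg
    rw [← exp_log_pow h]
    exact JJ_norm hδ hM hh (Real.log_natCast_nonneg n)

lemma prime_line {H : ℂ → ℂ} {M δ : ℝ} (hδ : 0 < δ) (hM : 0 ≤ M) (hh : Dec H M δ) :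
    HasSum (fun n : ℕ => Lam n * JJ H (Real.log n)) (∫ y : ℝ, H370.DD Lam ⟨3 / 2, y⟩ * H ⟨1, y⟩) := by
  set f : ℕ → ℝ → ℂ := fun n v => Lam n * (n : ℂ) ^ (-(⟨3 / 2, v⟩ : ℂ)) * H ⟨1, v⟩ with hf
  have hcl := dec_cont hh 1
  have hnb : ∀ n v, ‖f n v‖ ≤ (ArithmeticFunction.vonMangoldt n * (n : ℝ) ^ (-(3 / 2 : ℝ))) * ‖H ⟨1, v⟩‖ := by
    intro n v
    simp only [hf]
    rw [norm_mul]
    exact mul_le_mul_of_nonneg_right (H370.norm_npow n v (Lam n) (Lam_norm n)) (norm_nonneg _)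
  have hcont : ∀ n, Continuous (f n) := by
    intro n
    rcases Nat.eq_zero_or_pos n with h | h
    · subst h
      simp only [hf, Lam_zero, zero_mul]
      exact continuous_const
    · simp only [hf]
      have : (fun v : ℝ => Lam n * (n : ℂ) ^ (-(⟨3 / 2, v⟩ : ℂ))) =
          fun v : ℝ => Lam n * cexp (-((Real.log n : ℝ) : ℂ) * ((3 / 2 : ℝ) + v * I)) := by
        funext v
        rw [H370.term_eq n h, H370.mk_eq]
      refine Continuous.mul ?_ hcl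
      rw [this]
      fun_prop
  have hG : Integrable (fun v : ℝ => ‖H ⟨1, v⟩‖) := (dec_int hδ hh (σ := 1) (by norm_num)).norm
  have hint : ∀ n, Integrable (f n) := fun n =>
    (hG.const_mul (ArithmeticFunction.vonMangoldt n * (n : ℝ) ^ (-(3 / 2 : ℝ)))).mono'
      (hcont n).aestronglyMeasurable (Eventually.of_forall (hnb n))
  have hsum : Summable fun n => ∫ v, ‖f n v‖ := by
    refine Summable.of_nonneg_of_le (fun n => integral_nonneg fun v => norm_nonneg _) (fun n => ?_)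
      (H370.lam_summable.mul_right (∫ v : ℝ, ‖H ⟨1, v⟩‖))
    rw [← integral_const_mul]
    exact integral_mono (hint n).norm (hG.const_mul _) (fun v => hnb n v)
  have key := hasSum_integral_of_summable_integral_norm hint hsum
  have e1 : (fun v : ℝ => H370.DD Lam ⟨3 / 2, v⟩ * H ⟨1, v⟩) = fun v => ∑' n, f n v := by
    funext v
    simp only [hf, H370.DD]
    rw [tsum_mul_right]
  rw [e1]
  have e2 : (fun n : ℕ => Lam n * JJ H (Real.log n)) = fun n => ∫ v, f n v := by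
    funext n
    rcases Nat.eq_zero_or_pos n with h | h
    · subst h
      simp [hf, Lam_zero]
    · rw [← JJ_eq hδ hM hh (Real.log_natCast_nonneg n), ← integral_const_mul]
      refine integral_congr_ae (Eventually.of_forall fun v => ?_)
      simp only [hf]
      rw [H370.term_eq n h]
      have e3 : (1 / 2 + (⟨1, v⟩ : ℂ)) = ⟨3 / 2, v⟩ := by apply Complex.ext <;> simp; norm_num
      rw [e3]
      ring
  rw [e2]
  exact key

/-- the explicit formula for entire functions with gaussian decay -/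
theorem explicit {h : ℂ → ℂ} {M δ : ℝ} (hδ : 0 < δ) (hM : 0 ≤ M) (hh : Dec h M δ) :
    2 * Real.pi * ∑' ρ : Zt, (mu ρ : ℂ) * h ((ρ : ℂ) - 1 / 2) =
      2 * Real.pi * (h (1 / 2) + h (-(1 / 2))) + (∫ y : ℝ, (DG y : ℂ) * h ⟨0, y⟩) -
        ∑' n : ℕ, Lam n * JJ (ev h) (Real.log n) := by
  have hev := ev_dec hh
  have hM2 : 0 ≤ 2 * M := by positivity
  rw [zeros_line hδ hM hh, (prime_line hδ hM2 hev).tsum_eq, ← arch_half hδ hh]
  have h1 := arch_shift hδ hM2 hev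
  obtain ⟨c1, C1, _, b1⟩ := YL_line (x := 1) (by norm_num) Rg_one
  have i1 : Integrable (fun y : ℝ => YL ⟨1, y⟩ * ev h ⟨1, y⟩) := dec_mul_int c1 b1 hδ hev (by norm_num)
  have i2 : Integrable (fun y : ℝ => H370.DD Lam ⟨3 / 2, y⟩ * ev h ⟨1, y⟩) :=
    dec_mul_int DD_cont DD_bd hδ hev (by norm_num)
  have h2 : (∫ y : ℝ, ZZ ⟨1, y⟩ * ev h ⟨1, y⟩) =
      (∫ y : ℝ, YL ⟨1, y⟩ * ev h ⟨1, y⟩) - ∫ y : ℝ, H370.DD Lam ⟨3 / 2, y⟩ * ev h ⟨1, y⟩ := by
    rw [← integral_sub i1 i2]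
    refine integral_congr_ae (Eventually.of_forall fun y => ?_)
    show ZZ ⟨1, y⟩ * ev h ⟨1, y⟩ = YL ⟨1, y⟩ * ev h ⟨1, y⟩ - H370.DD Lam ⟨3 / 2, y⟩ * ev h ⟨1, y⟩
    rw [ZZ_one]
    ring
  rw [h2, h1]
  unfold ev
  ring

end Pool.Agent.Y23
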