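import Mathlib
import Pool.Agent.H24R2.JP.Zeros
import Pool.Agent.H24R2.JP.B1
import Pool.Agent.H370R2.Local
import Pool.Agent.H370R2.DirGood

/-! # The nontrivial zeros of zeta -/

set_option autoImplicit false

open Complex Filter Topology Set
open scoped ComplexConjugate
open Pool.Agent.H24R2.JP (XX)

namespace Pool.Agent.Y23

/-- a nontrivial zero -/
def IsZ (s : ℂ) : Prop := riemannZeta s = 0 ∧ 0 < s.re ∧ s.re < 1

/-- the nontrivial zeros -/
abbrev Zt : Type := {s : ℂ // riemannZeta s = 0 ∧ 0 < s.re ∧ s.re < 1}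

/-- the multiplicity -/
noncomputable def mu (s : ℂ) : ℕ := analyticOrderNatAt riemannZeta s

lemma XX_diff : Differentiable ℂ XX := Pool.Agent.H24R2.JP.B1h.XX_diff

lemma XX_an (z : ℂ) : AnalyticAt ℂ XX z := XX_diff.analyticAt z

/-- locally `XX` is a nonvanishing factor times zeta -/
lemma XX_strip {s : ℂ} (h0 : 0 < s.re) (h1 : s.re < 1) :
    XX (s - 1 / 2) = (4 * (s - 1 / 2) ^ 2 - 1) * Gammaℝ s * riemannZeta s := by
  have hs0 : s ≠ 0 := by rintro rfl; simp at h0
  have hs1 : (1 : ℂ) - s ≠ 0 := by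
    intro h
    have := congrArg Complex.re h
    simp at this
    linarith
  have e : (1 / 2 + (s - 1 / 2) : ℂ) = s := by ring
  rw [Pool.Agent.H24R2.JP.Zer.XX_eq (s - 1 / 2) (by rw [e]; exact hs0) (by rw [e]; exact hs1), e,
    riemannZeta_def_of_ne_zero hs0]
  have h4 : Gammaℝ s ≠ 0 := Gammaℝ_ne_zero_of_re_pos h0
  field_simp

lemma fac_ne {s : ℂ} (h0 : 0 < s.re) (h1 : s.re < 1) : (4 * (s - 1 / 2) ^ 2 - 1) * Gammaℝ s ≠ 0 := by
  refine mul_ne_zero ?_ (Gammaℝ_ne_zero_of_re_pos h0)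
  have hs0 : s ≠ 0 := by rintro rfl; simp at h0
  have hs1 : s - 1 ≠ 0 := by
    intro h
    have := congrArg Complex.re h
    simp at this
    linarith
  have : (4 * (s - 1 / 2) ^ 2 - 1 : ℂ) = 4 * (s * (s - 1)) := by ring
  rw [this]
  exact mul_ne_zero (by norm_num) (mul_ne_zero hs0 hs1)

lemma isZ_iff (s : ℂ) : IsZ s ↔ XX (s - 1 / 2) = 0 := by
  constructor
  · rintro ⟨h, h0, h1⟩
    rw [XX_strip h0 h1, h, mul_zero]
  · intro h
    obtain ⟨h1, h2, h3⟩ := Pool.Agent.H24R2.JP.Zer.completed_zero _ h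
    have e : (1 / 2 + (s - 1 / 2) : ℂ) = s := by ring
    rw [e] at h1 h2 h3
    have hz : riemannZeta s = 0 := by rw [riemannZeta_def_of_ne_zero h1, h3, zero_div]
    have hz' : riemannZeta (1 - s) = 0 := by
      have h4 : completedRiemannZeta (1 - s) = 0 := by rw [completedRiemannZeta_one_sub, h3]
      rw [riemannZeta_def_of_ne_zero h2, h4, zero_div]
    refine ⟨hz, ?_, ?_⟩
    · by_contra hc
      exact riemannZeta_ne_zero_of_one_le_re (s := 1 - s) (by simp; linarith) hz'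
    · by_contra hc
      exact riemannZeta_ne_zero_of_one_le_re (s := s) (by linarith) hz

lemma zeta_an {s : ℂ} (h1 : s.re < 1) : AnalyticAt ℂ riemannZeta s := by
  have hU : IsOpen {s : ℂ | s.re < 1} := isOpen_lt continuous_re continuous_const
  have hd : DifferentiableOn ℂ riemannZeta {s : ℂ | s.re < 1} := fun z hz =>
    (differentiableAt_riemannZeta (by rintro rfl; simp at hz)).differentiableWithinAt
  exact hd.analyticAt (hU.mem_nhds h1)

lemma order_eq {s : ℂ} (h0 : 0 < s.re) (h1 : s.re < 1) :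
    analyticOrderAt XX (s - 1 / 2) = analyticOrderAt riemannZeta s := by
  have hGan : AnalyticAt ℂ (fun z => (4 * (z - 1 / 2) ^ 2 - 1) * Gammaℝ z) s := by
    have hU : IsOpen {s : ℂ | 0 < s.re} := isOpen_lt continuous_const continuous_re
    have hd : DifferentiableOn ℂ (fun z => (4 * (z - 1 / 2) ^ 2 - 1) * Gammaℝ z) {s : ℂ | 0 < s.re} := by
      intro z hz
      have h2 : DifferentiableAt ℂ Gammaℝ z := by
        have h3 := differentiable_Gammaℝ_inv z
        have h4 : Gammaℝ z ≠ 0 := Gammaℝ_ne_zero_of_re_pos hz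
        have h5 : DifferentiableAt ℂ (fun z => ((Gammaℝ z)⁻¹)⁻¹) z := h3.inv (inv_ne_zero h4)
        simpa using h5
      exact (DifferentiableAt.mul (by fun_prop) h2).differentiableWithinAt
    exact hd.analyticAt (hU.mem_nhds h0)
  have hcomp : analyticOrderAt (fun z => XX (z - 1 / 2)) s = analyticOrderAt XX (s - 1 / 2) := by
    have h2 : AnalyticAt ℂ (fun z : ℂ => z - 1 / 2) s := by fun_prop
    have h3 : deriv (fun z : ℂ => z - 1 / 2) s ≠ 0 := by simp
    have := analyticOrderAt_comp_of_deriv_ne_zero (f := XX) h2 h3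
    exact this
  rw [← hcomp]
  have hev : (fun z => XX (z - 1 / 2)) =ᶠ[𝓝 s]
      (fun z => (4 * (z - 1 / 2) ^ 2 - 1) * Gammaℝ z) * riemannZeta := by
    have hU : {z : ℂ | 0 < z.re ∧ z.re < 1} ∈ 𝓝 s :=
      ((isOpen_lt continuous_const continuous_re).inter
        (isOpen_lt continuous_re continuous_const)).mem_nhds ⟨h0, h1⟩
    filter_upwards [hU] with z hz
    exact XX_strip hz.1 hz.2
  rw [analyticOrderAt_congr hev, analyticOrderAt_mul hGan (zeta_an h1),
    (hGan.analyticOrderAt_eq_zero).2 (fac_ne h0 h1), zero_add]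

lemma mu_eq {s : ℂ} (h0 : 0 < s.re) (h1 : s.re < 1) : mu s = analyticOrderNatAt XX (s - 1 / 2) := by
  unfold mu analyticOrderNatAt
  rw [order_eq h0 h1]

lemma XX_ne_top (z : ℂ) : analyticOrderAt XX z ≠ ⊤ := by
  intro h
  rw [analyticOrderAt_eq_top] at h
  have h1 : AnalyticOnNhd ℂ XX univ := fun z _ => XX_an z
  have h2 := h1.eqOn_zero_of_preconnected_of_eventuallyEq_zero isPreconnected_univ (mem_univ z) h
  have h3 := h2 (mem_univ (1 / 2))
  rw [Pool.Agent.H24R2.JP.Zer.XX_half] at h3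
  norm_num at h3

lemma mu_pos {s : ℂ} (h : IsZ s) : 1 ≤ mu s := by
  rw [mu_eq h.2.1 h.2.2]
  have h1 := (isZ_iff s).1 h
  have h2 : analyticOrderAt XX (s - 1 / 2) ≠ 0 := by
    rw [Ne, (XX_an _).analyticOrderAt_eq_zero]
    simpa using h1
  have h3 := XX_ne_top (s - 1 / 2)
  unfold analyticOrderNatAt
  rw [Nat.one_le_iff_ne_zero, Ne, ENat.toNat_eq_zero]
  tauto

/-- the reflection in the critical line -/
lemma isZ_refl {s : ℂ} (h : IsZ s) : IsZ (1 - conj s) := by
  rw [isZ_iff] at h ⊢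
  have e : 1 - conj s - 1 / 2 = -conj (s - 1 / 2) := by
    rw [map_sub, map_div₀, map_one, map_ofNat]; ring
  rw [e, Pool.Agent.H24R2.JP.B1h.XX_neg, Pool.Agent.H24R2.JP.B1h.XX_conj, h, map_zero]

lemma isZ_conj {s : ℂ} (h : IsZ s) : IsZ (conj s) := by
  rw [isZ_iff] at h ⊢
  have e : conj s - 1 / 2 = conj (s - 1 / 2) := by
    rw [map_sub, map_div₀, map_one, map_ofNat]
  rw [e, Pool.Agent.H24R2.JP.B1h.XX_conj, h, map_zero]

lemma XX_order_conj (z : ℂ) : analyticOrderAt XX (conj z) = analyticOrderAt XX z := by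
  have hge : ∀ (n : ℕ) (z : ℂ), (n : ℕ∞) ≤ analyticOrderAt XX z → (n : ℕ∞) ≤ analyticOrderAt XX (conj z) := by
    intro n z h
    rw [natCast_le_analyticOrderAt (XX_an _)] at h ⊢
    obtain ⟨g, hg, hev⟩ := h
    refine ⟨fun w => conj (g (conj w)), ?_, ?_⟩
    · have h2 := hg.eventually_analyticAt
      have h3 : ∀ᶠ w in 𝓝 z, DifferentiableAt ℂ g w := h2.mono fun w hw => hw.differentiableAt
      have hc : Tendsto (fun w : ℂ => conj w) (𝓝 (conj z)) (𝓝 z) := by
        have : ContinuousAt (fun w : ℂ => conj w) (conj z) := Complex.continuous_conj.continuousAt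
        simpa [ContinuousAt] using this
      have h4 : ∀ᶠ w in 𝓝 (conj z), DifferentiableAt ℂ (fun w => conj (g (conj w))) w := by
        filter_upwards [hc.eventually h3] with w hw
        exact (differentiableAt_conj_conj_iff).2 hw
      exact Complex.analyticAt_iff_eventually_differentiableAt.2 h4
    · have hc : Tendsto (fun w : ℂ => conj w) (𝓝 (conj z)) (𝓝 z) := by
        have : ContinuousAt (fun w : ℂ => conj w) (conj z) := Complex.continuous_conj.continuousAt
        simpa [ContinuousAt] using this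
      filter_upwards [hc.eventually hev] with w hw
      have h5 : XX w = conj (XX (conj w)) := by rw [Pool.Agent.H24R2.JP.B1h.XX_conj, conj_conj]
      rw [h5, hw]
      simp [smul_eq_mul, map_mul, map_pow, map_sub]
  refine le_antisymm ?_ ?_
  · refine ENat.forall_natCast_le_iff_le.1 fun n hn => ?_
    have := hge n _ hn
    rwa [conj_conj] at this
  · exact ENat.forall_natCast_le_iff_le.1 fun n hn => hge n _ hn

lemma XX_order_neg (z : ℂ) : analyticOrderAt XX (-z) = analyticOrderAt XX z := by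
  have h2 : AnalyticAt ℂ (fun z : ℂ => -z) z := by fun_prop
  have h3 : deriv (fun z : ℂ => -z) z ≠ 0 := by simp
  have := analyticOrderAt_comp_of_deriv_ne_zero (f := XX) h2 h3
  rw [← this]
  congr 1
  funext w
  simp [Function.comp, Pool.Agent.H24R2.JP.B1h.XX_neg]

lemma mu_refl {s : ℂ} (h : IsZ s) : mu (1 - conj s) = mu s := by
  have h' := isZ_refl h
  rw [mu_eq h'.2.1 h'.2.2, mu_eq h.2.1 h.2.2]
  unfold analyticOrderNatAt
  have e : 1 - conj s - 1 / 2 = -conj (s - 1 / 2) := by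
    rw [map_sub, map_div₀, map_one, map_ofNat]; ring
  rw [e, XX_order_neg, XX_order_conj]

lemma mu_conj {s : ℂ} (h : IsZ s) : mu (conj s) = mu s := by
  have h' := isZ_conj h
  rw [mu_eq h'.2.1 h'.2.2, mu_eq h.2.1 h.2.2]
  unfold analyticOrderNatAt
  have e : conj s - 1 / 2 = conj (s - 1 / 2) := by
    rw [map_sub, map_div₀, map_one, map_ofNat]
  rw [e, XX_order_conj]

/-- the zeros in a bounded region are finite in number -/
lemma isZ_finite (R : ℝ) : {s : ℂ | IsZ s ∧ |s.im| ≤ R}.Finite := by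
  by_contra hinf
  have hK : IsCompact (Icc (0 : ℝ) 1 ×ℂ Icc (-R) R) := isCompact_Icc.reProdIm isCompact_Icc
  obtain ⟨z, hz, hacc⟩ := Set.Infinite.exists_accPt_of_subset_isCompact hinf hK (by
    rintro s ⟨h1, h2⟩
    exact ⟨⟨h1.2.1.le, h1.2.2.le⟩, abs_le.1 h2⟩)
  rw [accPt_iff_frequently_nhdsNE] at hacc
  have h1 : AnalyticOnNhd ℂ (fun s => XX (s - 1 / 2)) univ := fun s _ =>
    (XX_diff.comp (by fun_prop : Differentiable ℂ fun s : ℂ => s - 1 / 2)).analyticAt s
  have h2 : ∃ᶠ s in 𝓝[≠] z, XX (s - 1 / 2) = 0 := hacc.mono fun s hs => (isZ_iff s).1 hs.1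
  have h3 := h1.eqOn_zero_of_preconnected_of_frequently_eq_zero isPreconnected_univ (mem_univ z) h2
  have h4 := h3 (mem_univ 1)
  have h5 : XX (1 - 1 / 2) = 4 := by
    rw [show (1 - 1 / 2 : ℂ) = 1 / 2 by norm_num, Pool.Agent.H24R2.JP.Zer.XX_half]
  simp only [Pi.zero_apply] at h4
  rw [h5] at h4
  norm_num at h4

end Pool.Agent.Y23
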