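import Pool.Agent.Y23.Ze

/-! # Local and global counts of the zeros -/

set_option autoImplicit false

open Complex Filter Topology Set
open scoped ComplexConjugate

namespace Pool.Agent.Y23

/-- `log (3 + |t|)` -/
noncomputable def Lg (t : ℝ) : ℝ := Real.log (3 + |t|)

lemma one_le_Lg (t : ℝ) : 1 ≤ Lg t := by
  unfold Lg
  rw [Real.le_log_iff_exp_le (by positivity)]
  have := Real.exp_one_lt_d9
  have := abs_nonneg t
  linarith

lemma Lg_cont : Continuous Lg := by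
  unfold Lg
  refine Continuous.log (by fun_prop) fun t => ?_
  positivity

lemma Lg_neg (t : ℝ) : Lg (-t) = Lg t := by unfold Lg; rw [abs_neg]

lemma sum_le_NN {T1 T2 : ℝ} (hT : 1 ≤ T1) (S : Finset ℂ)
    (hS : ∀ s ∈ S, IsZ s ∧ T1 < s.im ∧ s.im ≤ T2) :
    ∑ s ∈ S, mu s ≤ H370.NN riemannZeta T1 T2 := by
  have hfin := H370.zset_finite H370.good_zeta T1 T2 hT
  have e : H370.NN riemannZeta T1 T2 = ∑ s ∈ hfin.toFinset, mu s := by
    unfold H370.NN
    exact finsum_mem_eq_finite_toFinset_sum _ hfin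
  rw [e]
  refine Finset.sum_le_sum_of_subset fun s hs => ?_
  rw [Set.Finite.mem_toFinset]
  obtain ⟨h1, h2, h3⟩ := hS s hs
  exact ⟨h1.2.1, h1.2.2, h2, h3, h1.1⟩

lemma cnt_pos : ∃ C : ℝ, 0 < C ∧ ∀ t : ℝ, 0 ≤ t → ∀ S : Finset ℂ,
    (∀ s ∈ S, IsZ s ∧ |s.im - t| ≤ 1) → ((∑ s ∈ S, mu s : ℕ) : ℝ) ≤ C * Lg t := by
  classical
  obtain ⟨C, hC, hz⟩ := H370.zcount H370.good_zeta
  have hfin := isZ_finite 5
  refine ⟨2 * C + (∑ s ∈ hfin.toFinset, mu s : ℕ), by positivity, fun t ht S hS => ?_⟩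
  have hL := one_le_Lg t
  rcases le_or_gt 4 t with h4 | h4
  · have hSa : ∑ s ∈ S.filter (fun s => s.im ≤ t), mu s ≤ H370.NN riemannZeta (t - 1 - 1) (t - 1 + 1) := by
      refine sum_le_NN (by linarith) _ fun s hs => ?_
      rw [Finset.mem_filter] at hs
      obtain ⟨h1, h2⟩ := hS s hs.1
      rw [abs_le] at h2
      exact ⟨h1, by linarith [h2.1], by linarith [hs.2]⟩
    have hSb : ∑ s ∈ S.filter (fun s => ¬ s.im ≤ t), mu s ≤ H370.NN riemannZeta (t - 1) (t + 1) := by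
      refine sum_le_NN (by linarith) _ fun s hs => ?_
      rw [Finset.mem_filter, not_le] at hs
      obtain ⟨h1, h2⟩ := hS s hs.1
      rw [abs_le] at h2
      exact ⟨h1, by linarith [hs.2], by linarith [h2.2]⟩
    have hsum := Finset.sum_filter_add_sum_filter_not S (fun s => s.im ≤ t) mu
    have h1 := hz (t - 1) (by linarith)
    have h2 := hz t (by linarith)
    have h3 : Real.log (t - 1) ≤ Lg t := by
      unfold Lg
      exact Real.log_le_log (by linarith) (by rw [abs_of_nonneg ht]; linarith)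
    have h4' : Real.log t ≤ Lg t := by
      unfold Lg
      exact Real.log_le_log (by linarith) (by rw [abs_of_nonneg ht]; linarith)
    have h5 : ((∑ s ∈ S, mu s : ℕ) : ℝ) ≤ C * Lg t + C * Lg t := by
      rw [← hsum]
      push_cast
      refine add_le_add ?_ ?_
      · refine le_trans ?_ (h1.trans (mul_le_mul_of_nonneg_left h3 hC.le))
        exact_mod_cast hSa
      · refine le_trans ?_ (h2.trans (mul_le_mul_of_nonneg_left h4' hC.le))
        exact_mod_cast hSb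
    have h6 : (0 : ℝ) ≤ (∑ s ∈ hfin.toFinset, mu s : ℕ) := Nat.cast_nonneg _
    nlinarith
  · have h5 : ∑ s ∈ S, mu s ≤ ∑ s ∈ hfin.toFinset, mu s := by
      refine Finset.sum_le_sum_of_subset fun s hs => ?_
      rw [Set.Finite.mem_toFinset]
      obtain ⟨h1, h2⟩ := hS s hs
      refine ⟨h1, ?_⟩
      rw [abs_le] at h2 ⊢
      constructor <;> linarith [h2.1, h2.2]
    have h6 : ((∑ s ∈ S, mu s : ℕ) : ℝ) ≤ (∑ s ∈ hfin.toFinset, mu s : ℕ) := by exact_mod_cast h5
    have h7 : (0 : ℝ) ≤ (∑ s ∈ hfin.toFinset, mu s : ℕ) := Nat.cast_nonneg _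
    nlinarith

lemma cnt : ∃ C : ℝ, 0 < C ∧ ∀ t : ℝ, ∀ S : Finset ℂ,
    (∀ s ∈ S, IsZ s ∧ |s.im - t| ≤ 1) → ((∑ s ∈ S, mu s : ℕ) : ℝ) ≤ C * Lg t := by
  classical
  obtain ⟨C, hC, h⟩ := cnt_pos
  refine ⟨C, hC, fun t S hS => ?_⟩
  rcases le_or_gt 0 t with ht | ht
  · exact h t ht S hS
  · have h1 := h (-t) (by linarith) (S.image conj) (by
      intro s hs
      rw [Finset.mem_image] at hs
      obtain ⟨u, hu, rfl⟩ := hs
      obtain ⟨h2, h3⟩ := hS u hu
      refine ⟨isZ_conj h2, ?_⟩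
      rw [Complex.conj_im]
      rw [show -u.im - -t = -(u.im - t) by ring, abs_neg]
      exact h3)
    rw [Finset.sum_image (fun x _ y _ hxy => (starRingEnd ℂ).injective hxy), Lg_neg] at h1
    have e : ∑ s ∈ S, mu (conj s) = ∑ s ∈ S, mu s :=
      Finset.sum_congr rfl fun s hs => mu_conj (hS s hs).1
    rwa [e] at h1

lemma Lg_le (j : ℤ) : Lg j ≤ 4 * (1 + |(j : ℝ)|) ^ (1 / 2 : ℝ) := by
  unfold Lg
  have h0 : 0 ≤ |(j : ℝ)| := abs_nonneg _
  have h1 : Real.log (3 + |(j : ℝ)|) ≤ (3 + |(j : ℝ)|) ^ (1 / 2 : ℝ) / (1 / 2) :=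
    Real.log_le_rpow_div (by positivity) (by norm_num)
  have h2 : (3 + |(j : ℝ)|) ^ (1 / 2 : ℝ) ≤ (4 * (1 + |(j : ℝ)|)) ^ (1 / 2 : ℝ) :=
    Real.rpow_le_rpow (by positivity) (by linarith) (by norm_num)
  have h3 : (4 * (1 + |(j : ℝ)|)) ^ (1 / 2 : ℝ) = 2 * (1 + |(j : ℝ)|) ^ (1 / 2 : ℝ) := by
    rw [Real.mul_rpow (by norm_num) (by positivity)]
    congr 1
    rw [show (4 : ℝ) = 2 ^ (2 : ℝ) by norm_num, ← Real.rpow_mul (by norm_num)]
    norm_num
  rw [h3] at h2
  linarith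

lemma summable_j : Summable (fun j : ℤ => Lg j / (1 + (j : ℝ) ^ 2)) := by
  have h1 : Summable (fun j : ℤ => |(j : ℝ)| ^ (-(3 / 2 : ℝ))) :=
    Real.summable_abs_int_rpow (by norm_num)
  have h2 : Summable (fun j : ℤ => 8 * |(j : ℝ)| ^ (-(3 / 2 : ℝ)) + if j = 0 then Lg 0 else 0) := by
    refine (h1.mul_left 8).add ?_
    exact summable_of_ne_finset_zero (s := {0}) fun b hb => by
      rw [Finset.mem_singleton] at hb
      rw [if_neg hb]
  refine Summable.of_nonneg_of_le (fun j => ?_) (fun j => ?_) h2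
  · have := one_le_Lg (j : ℝ)
    positivity
  · by_cases hj : j = 0
    · subst hj
      simp only [Int.cast_zero, if_true]
      have h3 : 0 ≤ 8 * |(0 : ℝ)| ^ (-(3 / 2 : ℝ)) := by positivity
      simp only [ne_eq, OfNat.ofNat_ne_zero, not_false_eq_true, zero_pow, add_zero, div_one]
      linarith
    · rw [if_neg hj, add_zero]
      have hj1 : (1 : ℝ) ≤ |(j : ℝ)| := by
        have := Int.one_le_abs hj
        exact_mod_cast this
      have hj0 : 0 < |(j : ℝ)| := by linarith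
      have h3 := Lg_le j
      have h4 : (1 + |(j : ℝ)|) ^ (1 / 2 : ℝ) ≤ 2 * |(j : ℝ)| ^ (1 / 2 : ℝ) := by
        calc (1 + |(j : ℝ)|) ^ (1 / 2 : ℝ) ≤ (4 * |(j : ℝ)|) ^ (1 / 2 : ℝ) :=
              Real.rpow_le_rpow (by positivity) (by linarith) (by norm_num)
          _ = _ := by
              rw [Real.mul_rpow (by norm_num) (by positivity)]
              congr 1
              rw [show (4 : ℝ) = 2 ^ (2 : ℝ) by norm_num, ← Real.rpow_mul (by norm_num)]
              norm_num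
      rw [div_le_iff₀ (by positivity)]
      have h5 : |(j : ℝ)| ^ (-(3 / 2 : ℝ)) * (j : ℝ) ^ 2 = |(j : ℝ)| ^ (1 / 2 : ℝ) := by
        rw [← sq_abs, ← Real.rpow_natCast, ← Real.rpow_add hj0]
        norm_num
      have h6 : 0 ≤ |(j : ℝ)| ^ (-(3 / 2 : ℝ)) := by positivity
      nlinarith

/-- the weighted sum over the zeros -/
lemma zsum : ∃ K : ℝ, 0 < K ∧ ∀ t : ℝ, ∀ S : Finset ℂ, (∀ s ∈ S, IsZ s) →
    ∑ s ∈ S, (mu s : ℝ) * (1 / (1 + (s.im - t) ^ 2)) ≤ K * Lg t := by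
  classical
  obtain ⟨C, hC, hcnt⟩ := cnt
  set A : ℝ := ∑' j : ℤ, Lg j / (1 + (j : ℝ) ^ 2) with hA
  have hA0 : 0 ≤ A := tsum_nonneg fun j => by
    have := one_le_Lg (j : ℝ)
    positivity
  refine ⟨3 * C * (12 * (A + 1)) + 1, by positivity, fun t S hS => ?_⟩
  set n : ℤ := ⌊t⌋ with hn
  have hL := one_le_Lg t
  -- group by the integer part
  have h1 : ∑ s ∈ S, (mu s : ℝ) * (1 / (1 + (s.im - t) ^ 2)) =
      ∑ k ∈ S.image (fun s => ⌊s.im⌋), ∑ s ∈ S.filter (fun s => ⌊s.im⌋ = k),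
        (mu s : ℝ) * (1 / (1 + (s.im - t) ^ 2)) :=
    (Finset.sum_fiberwise_of_maps_to (fun s hs => Finset.mem_image_of_mem _ hs) _).symm
  rw [h1]
  have h2 : ∀ k ∈ S.image (fun s => ⌊s.im⌋), ∑ s ∈ S.filter (fun s => ⌊s.im⌋ = k),
        (mu s : ℝ) * (1 / (1 + (s.im - t) ^ 2)) ≤ 3 * C * (12 * (Lg t * (Lg ((k - n : ℤ) : ℝ) / (1 + ((k - n : ℤ) : ℝ) ^ 2)))) := by
    intro k _
    have h3 := hcnt k (S.filter (fun s => ⌊s.im⌋ = k)) (by
      intro s hs
      rw [Finset.mem_filter] at hs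
      refine ⟨hS s hs.1, ?_⟩
      have h4 := Int.floor_le s.im
      have h5 := Int.lt_floor_add_one s.im
      rw [hs.2] at h4 h5
      rw [abs_le]
      constructor <;> linarith)
    have h6 : ∀ s ∈ S.filter (fun s => ⌊s.im⌋ = k), (mu s : ℝ) * (1 / (1 + (s.im - t) ^ 2)) ≤
        (mu s : ℝ) * (12 / (1 + ((k - n : ℤ) : ℝ) ^ 2)) := by
      intro s hs
      rw [Finset.mem_filter] at hs
      refine mul_le_mul_of_nonneg_left ?_ (Nat.cast_nonneg _)
      have h4 := Int.floor_le s.im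
      have h5 := Int.lt_floor_add_one s.im
      rw [hs.2] at h4 h5
      have h7 := Int.floor_le t
      have h8 := Int.lt_floor_add_one t
      rw [← hn] at h7 h8
      rw [div_le_div_iff₀ (by positivity) (by positivity)]
      push_cast
      set d := s.im - t with hd
      have h9 : |(k : ℝ) - n| ≤ |d| + 1 := by
        rw [abs_le]
        constructor
        · have := neg_abs_le d
          linarith
        · have := le_abs_self d
          linarith
      have h10 : ((k : ℝ) - n) ^ 2 ≤ (|d| + 1) ^ 2 := by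
        rw [← sq_abs]
        exact pow_le_pow_left₀ (abs_nonneg _) h9 2
      have h11 : (|d| + 1) ^ 2 ≤ 2 * d ^ 2 + 2 := by
        nlinarith [sq_nonneg (|d| - 1), sq_abs d]
      nlinarith
    have h7 : Lg (k : ℝ) ≤ Lg t * Lg ((k - n : ℤ) : ℝ) * 3 := by
      unfold Lg
      have h8 : (3 : ℝ) + |(k : ℝ)| ≤ (3 + |t|) * (3 + |((k - n : ℤ) : ℝ)|) := by
        push_cast
        have h9 : |(k : ℝ)| ≤ |(k : ℝ) - n| + |(n : ℝ)| := by
          have := abs_add_le ((k : ℝ) - n) n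
          simpa using this
        have h10 : |(n : ℝ)| ≤ |t| + 1 := by
          have h11 := Int.floor_le t
          have h12 := Int.lt_floor_add_one t
          rw [← hn] at h11 h12
          rw [abs_le]
          constructor
          · have := neg_abs_le t
            linarith
          · have := le_abs_self t
            linarith
        have h13 := abs_nonneg t
        have h14 := abs_nonneg ((k : ℝ) - n)
        nlinarith [mul_nonneg h13 h14]
      have h9 : Real.log (3 + |(k : ℝ)|) ≤ Real.log (3 + |t|) + Real.log (3 + |((k - n : ℤ) : ℝ)|) := by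
        rw [← Real.log_mul (by positivity) (by positivity)]
        exact Real.log_le_log (by positivity) h8
      have h10 := one_le_Lg t
      have h11 := one_le_Lg ((k - n : ℤ) : ℝ)
      unfold Lg at h10 h11
      nlinarith
    calc _ ≤ ∑ s ∈ S.filter (fun s => ⌊s.im⌋ = k), (mu s : ℝ) * (12 / (1 + ((k - n : ℤ) : ℝ) ^ 2)) :=
          Finset.sum_le_sum h6
      _ = ((∑ s ∈ S.filter (fun s => ⌊s.im⌋ = k), mu s : ℕ) : ℝ) * (12 / (1 + ((k - n : ℤ) : ℝ) ^ 2)) := by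
          rw [← Finset.sum_mul]; push_cast; rfl
      _ ≤ (C * Lg k) * (12 / (1 + ((k - n : ℤ) : ℝ) ^ 2)) := by
          refine mul_le_mul_of_nonneg_right h3 (by positivity)
      _ ≤ (C * (Lg t * Lg ((k - n : ℤ) : ℝ) * 3)) * (12 / (1 + ((k - n : ℤ) : ℝ) ^ 2)) := by
          refine mul_le_mul_of_nonneg_right (mul_le_mul_of_nonneg_left h7 hC.le) (by positivity)
      _ = _ := by ring
  refine (Finset.sum_le_sum h2).trans ?_
  rw [← Finset.mul_sum, ← Finset.mul_sum, ← Finset.mul_sum]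
  have h3 : ∑ k ∈ S.image (fun s => ⌊s.im⌋), (Lg ((k - n : ℤ) : ℝ) / (1 + ((k - n : ℤ) : ℝ) ^ 2)) ≤ A := by
    have h4 : ∑ k ∈ S.image (fun s => ⌊s.im⌋), (Lg ((k - n : ℤ) : ℝ) / (1 + ((k - n : ℤ) : ℝ) ^ 2)) =
        ∑ j ∈ (S.image (fun s => ⌊s.im⌋)).image (fun k => k - n), (Lg (j : ℝ) / (1 + (j : ℝ) ^ 2)) := by
      exact (Finset.sum_image (f := fun j : ℤ => Lg (j : ℝ) / (1 + (j : ℝ) ^ 2)) (s := S.image (fun s => ⌊s.im⌋))
        (g := fun k => k - n) (fun x _ y _ hxy => by simpa using hxy)).symm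
    rw [h4]
    exact summable_j.sum_le_tsum _ fun j _ => by
      have := one_le_Lg (j : ℝ)
      positivity
  have h5 : 0 ≤ 3 * C := by positivity
  have h6 : 12 * (Lg t * ∑ k ∈ S.image (fun s => ⌊s.im⌋), (Lg ((k - n : ℤ) : ℝ) / (1 + ((k - n : ℤ) : ℝ) ^ 2))) ≤
      12 * (Lg t * (A + 1)) := by
    have h7 : 0 ≤ Lg t := by linarith
    have := mul_le_mul_of_nonneg_left (h3.trans (by linarith : A ≤ A + 1)) h7
    linarith
  nlinarith [mul_le_mul_of_nonneg_left h6 h5]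

/-- the sum over all zeros converges -/
lemma zsummable (t : ℝ) : Summable (fun ρ : Zt => (mu ρ : ℝ) * (1 / (1 + ((ρ : ℂ).im - t) ^ 2))) := by
  classical
  obtain ⟨K, hK, h⟩ := zsum
  refine summable_of_sum_le (c := K * Lg t) (fun ρ => by positivity) fun S => ?_
  have := h t (S.map (Function.Embedding.subtype _)) (by
    intro s hs
    rw [Finset.mem_map] at hs
    obtain ⟨u, _, rfl⟩ := hs
    exact u.2)
  rwa [Finset.sum_map] at this

lemma zsum_le : ∃ K : ℝ, 0 < K ∧ ∀ t : ℝ,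
    ∑' ρ : Zt, (mu ρ : ℝ) * (1 / (1 + ((ρ : ℂ).im - t) ^ 2)) ≤ K * Lg t := by
  classical
  obtain ⟨K, hK, h⟩ := zsum
  refine ⟨K, hK, fun t => Real.tsum_le_of_sum_le (fun ρ => by positivity) fun S => ?_⟩
  have := h t (S.map (Function.Embedding.subtype _)) (by
    intro s hs
    rw [Finset.mem_map] at hs
    obtain ⟨u, _, rfl⟩ := hs
    exact u.2)
  rwa [Finset.sum_map] at this

end Pool.Agent.Y23
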